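import Pool.Agent.Lib.MP_8b8716_co.Defs

set_option autoImplicit false

/-!
# The chromatic number of the plane over real algebraic fields: arcs of the circle (module AR)
-/

namespace Pool.Agent.MP8b8716.AR

theorem norm_le_half (a : UnitAddCircle) : ‖a‖ ≤ 1 / 2 := by
  have := AddCircle.norm_le_half_period (1 : ℝ) one_ne_zero (x := a)
  simpa using this

theorem norm_coe (t : ℝ) : ‖(t : UnitAddCircle)‖ = |t - round t| := UnitAddCircle.norm_eq

theorem coe_eq_zero (t : ℝ) : (t : UnitAddCircle) = 0 ↔ ∃ m : ℤ, (m : ℝ) = t := by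
  have := AddCircle.coe_eq_zero_iff (1 : ℝ) (x := t)
  simpa using this

theorem coe_int (m : ℤ) : (((m : ℝ)) : UnitAddCircle) = 0 := (coe_eq_zero _).2 ⟨m, rfl⟩

theorem exists_lift (a : UnitAddCircle) : ∃ t : ℝ, (t : UnitAddCircle) = a ∧ |t| = ‖a‖ := by
  induction a using QuotientAddGroup.induction_on with
  | H x =>
    refine ⟨x - round x, ?_, (norm_coe x).symm⟩
    rw [AddCircle.coe_sub, coe_int, sub_zero]

theorem norm_coe_le (t : ℝ) : ‖(t : UnitAddCircle)‖ ≤ |t| := by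
  rw [norm_coe]
  simpa using round_le t 0

/-- Points far from zero have representatives in the middle third. -/
theorem exists_lift_mid (a : UnitAddCircle) (ha : 1 / 3 ≤ ‖a‖) :
    ∃ t : ℝ, (t : UnitAddCircle) = a ∧ 1 / 3 ≤ t ∧ t ≤ 2 / 3 := by
  obtain ⟨t, ht, hn⟩ := exists_lift a
  have h1 := norm_le_half a
  rcases le_or_gt 0 t with h | h
  · rw [abs_of_nonneg h] at hn
    exact ⟨t, ht, by linarith, by linarith⟩
  · rw [abs_of_neg h] at hn
    refine ⟨t + 1, ?_, by linarith, by linarith⟩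
    rw [AddCircle.coe_add, ht]
    have := coe_int 1
    rw [Int.cast_one] at this
    rw [this, add_zero]

theorem norm_sub_le_third (a b : UnitAddCircle) (ha : 1 / 3 ≤ ‖a‖) (hb : 1 / 3 ≤ ‖b‖) :
    ‖a - b‖ ≤ 1 / 3 := by
  obtain ⟨t, rfl, h1, h2⟩ := exists_lift_mid a ha
  obtain ⟨s, rfl, h3, h4⟩ := exists_lift_mid b hb
  rw [← AddCircle.coe_sub]
  refine (norm_coe_le _).trans ?_
  rw [abs_le]
  constructor <;> linarith

theorem nsmul_coe (n : ℕ) (t : ℝ) : n • (t : UnitAddCircle) = (((n : ℝ) * t : ℝ) : UnitAddCircle) := by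
  rw [← AddCircle.coe_nsmul, nsmul_eq_mul]

theorem eq_zero_of_nsmul (n : ℕ) (x : UnitAddCircle) (hn : n • x = 0) (hx : n * ‖x‖ < 1)
    (h0 : n ≠ 0) : x = 0 := by
  obtain ⟨t, rfl, h1⟩ := exists_lift x
  rw [nsmul_coe, coe_eq_zero] at hn
  obtain ⟨m, hm⟩ := hn
  have h2 : |(m : ℝ)| < 1 := by
    rw [hm, abs_mul, h1, Nat.abs_cast]
    exact hx
  have h3 : m = 0 := by
    have : |m| < 1 := by exact_mod_cast h2
    exact Int.abs_lt_one_iff.1 this
  have h4 : (n : ℝ) ≠ 0 := by exact_mod_cast h0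
  have h5 : t = 0 := by
    rw [h3, Int.cast_zero] at hm
    rcases mul_eq_zero.1 hm.symm with h | h
    · exact absurd h h4
    · exact h
  rw [h5]
  rfl

theorem ap_hit (p : ℕ) (hp : p.Prime) (w : UnitAddCircle) (h1 : p • w = 0) (h0 : w ≠ 0)
    (y : ℝ) : ∃ l : ℕ, l < p ∧ ‖l • w - (y : UnitAddCircle)‖ ≤ 1 / (2 * p) := by
  have : Fact p.Prime := ⟨hp⟩
  have hp0 : (0 : ℝ) < p := by exact_mod_cast hp.pos
  obtain ⟨t, rfl, -⟩ := exists_lift w
  rw [nsmul_coe, coe_eq_zero] at h1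
  obtain ⟨j, hj⟩ := h1
  have hj0 : ((j : ℤ) : ZMod p) ≠ 0 := by
    intro h
    rw [ZMod.intCast_zmod_eq_zero_iff_dvd] at h
    obtain ⟨c, hc⟩ := h
    apply h0
    rw [coe_eq_zero]
    refine ⟨c, ?_⟩
    rw [hc] at hj
    push_cast at hj
    exact mul_left_cancel₀ hp0.ne' hj
  set k : ℤ := round ((p : ℝ) * y) with hk
  set l : ℕ := ((k : ZMod p) * (j : ZMod p)⁻¹).val with hl
  have hlk : (((l : ℤ) * j - k : ℤ) : ZMod p) = 0 := by
    push_cast
    rw [hl, ZMod.natCast_zmod_val, mul_assoc, inv_mul_cancel₀ hj0, mul_one, sub_self]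
  rw [ZMod.intCast_zmod_eq_zero_iff_dvd] at hlk
  obtain ⟨c, hc⟩ := hlk
  refine ⟨l, ZMod.val_lt _, ?_⟩
  have h2 : l • (t : UnitAddCircle) = (((k : ℝ) / p : ℝ) : UnitAddCircle) := by
    rw [nsmul_coe, ← sub_eq_zero, ← AddCircle.coe_sub, coe_eq_zero]
    refine ⟨c, ?_⟩
    have h3 : (l : ℝ) * j - k = p * c := by exact_mod_cast hc
    field_simp
    rw [hj] at h3
    linarith
  rw [h2, ← AddCircle.coe_sub]
  refine (norm_coe_le _).trans ?_
  have h4 := abs_sub_round ((p : ℝ) * y)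
  rw [← hk] at h4
  have h5 : (k : ℝ) / p - y = -(((p : ℝ) * y - k) / p) := by
    field_simp
    ring
  rw [h5, abs_neg, abs_div, abs_of_pos hp0, div_le_div_iff₀ hp0 (by positivity)]
  nlinarith

theorem norm_half : ‖((1 / 2 : ℝ) : UnitAddCircle)‖ = 1 / 2 := by
  have h : (((1 / 2 : ℝ)) : UnitAddCircle) = ((1 / 2 : ℝ) : AddCircle (1 : ℝ)) := rfl
  have := AddCircle.norm_half_period_eq (1 : ℝ)
  simpa using this

theorem ap_far (p : ℕ) (hp : p.Prime) (w a : UnitAddCircle) (h1 : p • w = 0) (h0 : w ≠ 0) :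
    ∃ l : ℕ, l < p ∧ 1 / 2 - 1 / (2 * p) ≤ ‖a + l • w‖ := by
  obtain ⟨x, rfl, -⟩ := exists_lift a
  obtain ⟨l, hl, h⟩ := ap_hit p hp w h1 h0 (1 / 2 - x)
  refine ⟨l, hl, ?_⟩
  have h2 : ((1 / 2 : ℝ) : UnitAddCircle) = ((x : ℝ) + l • w) -
      (l • w - (((1 / 2 - x : ℝ)) : UnitAddCircle)) := by
    rw [AddCircle.coe_sub]
    abel
  have h3 := norm_half
  rw [h2] at h3
  have h4 := norm_sub_le ((x : UnitAddCircle) + l • w)
    (l • w - (((1 / 2 - x : ℝ)) : UnitAddCircle))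
  linarith

theorem ap_near (p : ℕ) (hp : p.Prime) (w a : UnitAddCircle) (h1 : p • w = 0) (h0 : w ≠ 0) :
    ∃ l : ℕ, l < p ∧ ‖a + l • w‖ ≤ 1 / (2 * p) := by
  obtain ⟨x, rfl, -⟩ := exists_lift a
  obtain ⟨l, hl, h⟩ := ap_hit p hp w h1 h0 (-x)
  refine ⟨l, hl, ?_⟩
  rw [AddCircle.coe_neg, sub_neg_eq_add, add_comm] at h
  exact h

theorem coe_ne_zero (t : ℝ) (m : ℤ) (h1 : (m : ℝ) < t) (h2 : t < m + 1) :
    (t : UnitAddCircle) ≠ 0 := by
  intro h
  rw [coe_eq_zero] at h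
  obtain ⟨k, hk⟩ := h
  rw [← hk] at h1 h2
  have h3 : m < k := by exact_mod_cast h1
  have h4 : k < m + 1 := by exact_mod_cast h2
  omega

/-- The points killed by `n` are the multiples of `1 / n`. -/
theorem exists_div (n : ℕ) (hn : 0 < n) (a : UnitAddCircle) (h : n • a = 0) :
    ∃ m : ℤ, (((m : ℝ) / n : ℝ) : UnitAddCircle) = a ∧ |(m : ℝ)| / n = ‖a‖ := by
  have hn0 : (0 : ℝ) < n := by exact_mod_cast hn
  obtain ⟨t, rfl, ht⟩ := exists_lift a
  rw [nsmul_coe, coe_eq_zero] at h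
  obtain ⟨m, hm⟩ := h
  have h1 : (m : ℝ) / n = t := by
    rw [hm]
    field_simp
  refine ⟨m, by rw [h1], ?_⟩
  rw [← ht, ← h1, abs_div, abs_of_pos hn0]

/-- The points killed by six far from zero are a half and the two thirds. -/
theorem six (a : UnitAddCircle) (h6 : 6 • a = 0) (ha : 1 / 3 ≤ ‖a‖) :
    (2 • a = 0 ∧ 3 • a ≠ 0) ∨ (3 • a = 0 ∧ 2 • a ≠ 0) := by
  obtain ⟨m, hm, h1⟩ := exists_div 6 (by norm_num) a h6
  have h2 := norm_le_half a
  rw [← h1] at h2 ha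
  push_cast at h1 h2 ha hm
  have h3 : |m| ≤ 3 := by
    have : |(m : ℝ)| ≤ 3 := by linarith
    exact_mod_cast this
  have h4 : 2 ≤ |m| := by
    have : (2 : ℝ) ≤ |(m : ℝ)| := by linarith
    exact_mod_cast this
  have h5 : m = 2 ∨ m = 3 ∨ m = -2 ∨ m = -3 := by
    rw [abs_le] at h3
    rw [le_abs] at h4
    omega
  rw [← hm]
  rcases h5 with rfl | rfl | rfl | rfl
  · right
    rw [nsmul_coe, nsmul_coe]
    refine ⟨(coe_eq_zero _).2 ⟨1, by push_cast; norm_num⟩, coe_ne_zero _ 0 ?_ ?_⟩ <;>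
      · push_cast
        norm_num
  · left
    rw [nsmul_coe, nsmul_coe]
    refine ⟨(coe_eq_zero _).2 ⟨1, by push_cast; norm_num⟩, coe_ne_zero _ 1 ?_ ?_⟩ <;>
      · push_cast
        norm_num
  · right
    rw [nsmul_coe, nsmul_coe]
    refine ⟨(coe_eq_zero _).2 ⟨-1, by push_cast; norm_num⟩, coe_ne_zero _ (-1) ?_ ?_⟩ <;>
      · push_cast
        norm_num
  · left
    rw [nsmul_coe, nsmul_coe]
    refine ⟨(coe_eq_zero _).2 ⟨-1, by push_cast; norm_num⟩, coe_ne_zero _ (-2) ?_ ?_⟩ <;>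
      · push_cast
        norm_num

/-- `12 a = 0`, and `a`, `5 a` far from zero. -/
theorem twelve (a : UnitAddCircle) (h : 12 • a = 0) (h1 : 1 / 3 ≤ ‖a‖) (h5 : 1 / 3 ≤ ‖5 • a‖) :
    6 • a = 0 := by
  obtain ⟨m, hm, h2⟩ := exists_div 12 (by norm_num) a h
  have h3 := norm_le_half a
  rw [← h2] at h3 h1
  push_cast at h1 h2 h3 hm
  have h6 : |m| ≤ 6 := by
    have : |(m : ℝ)| ≤ 6 := by linarith
    exact_mod_cast this
  have h4 : 4 ≤ |m| := by
    have : (4 : ℝ) ≤ |(m : ℝ)| := by linarith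
    exact_mod_cast this
  have h7 : m = 4 ∨ m = 5 ∨ m = 6 ∨ m = -4 ∨ m = -5 ∨ m = -6 := by
    rw [abs_le] at h6
    rw [le_abs] at h4
    omega
  rw [← hm] at h5 ⊢
  rw [nsmul_coe] at h5 ⊢
  rcases h7 with rfl | rfl | rfl | rfl | rfl | rfl
  · exact (coe_eq_zero _).2 ⟨2, by push_cast; norm_num⟩
  · exfalso
    rw [norm_coe] at h5
    have h8 : |((5 : ℕ) : ℝ) * (((5 : ℤ) : ℝ) / 12) - round (((5 : ℕ) : ℝ) * (((5 : ℤ) : ℝ) / 12))| ≤
        |((5 : ℕ) : ℝ) * (((5 : ℤ) : ℝ) / 12) - ((2 : ℤ) : ℝ)| := round_le _ _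
    have h9 : |((5 : ℕ) : ℝ) * (((5 : ℤ) : ℝ) / 12) - ((2 : ℤ) : ℝ)| = 1 / 12 := by
      push_cast
      rw [abs_of_pos] <;> norm_num
    rw [h9] at h8
    linarith
  · exact (coe_eq_zero _).2 ⟨3, by push_cast; norm_num⟩
  · exact (coe_eq_zero _).2 ⟨-2, by push_cast; norm_num⟩
  · exfalso
    rw [norm_coe] at h5
    have h8 : |((5 : ℕ) : ℝ) * (((-5 : ℤ) : ℝ) / 12) -
        round (((5 : ℕ) : ℝ) * (((-5 : ℤ) : ℝ) / 12))| ≤
        |((5 : ℕ) : ℝ) * (((-5 : ℤ) : ℝ) / 12) - ((-2 : ℤ) : ℝ)| := round_le _ _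
    have h9 : |((5 : ℕ) : ℝ) * (((-5 : ℤ) : ℝ) / 12) - ((-2 : ℤ) : ℝ)| = 1 / 12 := by
      push_cast
      rw [abs_of_neg] <;> norm_num
    rw [h9] at h8
    linarith
  · exact (coe_eq_zero _).2 ⟨-3, by push_cast; norm_num⟩

/-- An arc of length a third meets a coset of the `p`-torsion in at most `p / 3 + 1` points. -/
theorem arc_card (p : ℕ) (hp : 0 < p) (a : UnitAddCircle) (S : Finset UnitAddCircle)
    (hS : ∀ x ∈ S, p • (x - a) = 0) (h3 : ∀ x ∈ S, 1 / 3 ≤ ‖x‖) : S.card ≤ p / 3 + 1 := by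
  classical
  have hp0 : (0 : ℝ) < p := by exact_mod_cast hp
  have hex : ∀ x : UnitAddCircle, ∃ t : ℝ, x ∈ S → ((t : UnitAddCircle) = x ∧ 1 / 3 ≤ t ∧
      t ≤ 2 / 3) := by
    intro x
    by_cases hx : x ∈ S
    · obtain ⟨t, ht⟩ := exists_lift_mid x (h3 x hx)
      exact ⟨t, fun _ => ht⟩
    · exact ⟨0, fun h => absurd h hx⟩
  choose t ht using hex
  have hinj : Set.InjOn (fun x => ⌊(p : ℝ) * (t x - 1 / 3)⌋₊) (S : Set UnitAddCircle) := by
    intro x hx y hy hxy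
    obtain ⟨h1, h2, h4⟩ := ht x hx
    obtain ⟨h5, h6, h7⟩ := ht y hy
    simp only at hxy
    have h8 : p • (((t x : ℝ) : UnitAddCircle) - ((t y : ℝ) : UnitAddCircle)) = 0 := by
      rw [h1, h5]
      have e : x - y = (x - a) - (y - a) := by abel
      rw [e, nsmul_sub, hS x hx, hS y hy, sub_zero]
    rw [← AddCircle.coe_sub, nsmul_coe, coe_eq_zero] at h8
    obtain ⟨m, hm⟩ := h8
    have a1 : 0 ≤ (p : ℝ) * (t x - 1 / 3) := by
      apply mul_nonneg hp0.le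
      linarith
    have a2 : 0 ≤ (p : ℝ) * (t y - 1 / 3) := by
      apply mul_nonneg hp0.le
      linarith
    have b1 := Nat.floor_le a1
    have b2 := Nat.lt_floor_add_one ((p : ℝ) * (t x - 1 / 3))
    have b3 := Nat.floor_le a2
    have b4 := Nat.lt_floor_add_one ((p : ℝ) * (t y - 1 / 3))
    rw [hxy] at b1 b2
    have h9 : |(m : ℝ)| < 1 := by
      rw [hm, abs_lt]
      constructor <;> nlinarith
    have h10 : m = 0 := by
      have : |m| < 1 := by exact_mod_cast h9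
      exact Int.abs_lt_one_iff.1 this
    rw [h10, Int.cast_zero] at hm
    have h11 : t x - t y = 0 := by
      rcases mul_eq_zero.1 hm.symm with h | h
      · exact absurd h hp0.ne'
      · exact h
    rw [← h1, ← h5, sub_eq_zero.1 h11]
  have hmaps : ∀ x ∈ S, (fun x => ⌊(p : ℝ) * (t x - 1 / 3)⌋₊) x ∈ Finset.range (p / 3 + 1) := by
    intro x hx
    obtain ⟨h1, h2, h4⟩ := ht x hx
    rw [Finset.mem_range, Nat.lt_add_one_iff, Nat.le_div_iff_mul_le (by norm_num)]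
    have a1 : 0 ≤ (p : ℝ) * (t x - 1 / 3) := by
      apply mul_nonneg hp0.le
      linarith
    have b1 := Nat.floor_le a1
    have b2 : (⌊(p : ℝ) * (t x - 1 / 3)⌋₊ : ℝ) * 3 ≤ p := by nlinarith
    exact_mod_cast b2
  have := Finset.card_le_card_of_injOn _ hmaps hinj
  simpa using this

end Pool.Agent.MP8b8716.AR
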