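import Pool.Agent.Lib.MP_8b8716_co.Defs

set_option autoImplicit false

/-!
# Colouring cosets and the two-colour case (module C2)
-/

namespace Pool.Agent.MP8b8716.C2

open Complex

/-- the complex number of a point -/
private def zz {F : Subfield ℝ} (p : F × F) : ℂ := ⟨(p.1 : ℝ), (p.2 : ℝ)⟩

private theorem zz_sub {F : Subfield ℝ} {p q : F × F} (h : (unitDistanceGraph F).Adj p q) :
    zz p - zz q ∈ UU F := by
  refine ⟨?_, ?_, ?_⟩
  · rw [Complex.sub_re]; exact F.sub_mem p.1.2 q.1.2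
  · rw [Complex.sub_im]; exact F.sub_mem p.2.2 q.2.2
  · rw [Complex.sub_re, Complex.sub_im]
    have h1 : (p.1 - q.1) ^ 2 + (p.2 - q.2) ^ 2 = 1 := h
    have h2 := congrArg (fun t : F => (t : ℝ)) h1
    simpa [zz] using h2

theorem coset_col (F : Subfield ℝ) (H : AddSubgroup ℂ) (hH : UU F ⊆ H) (n : ℕ) (c : ℂ → Fin n)
    (hc : ∀ x ∈ H, ∀ u ∈ UU F, c (x + u) ≠ c x) : (unitDistanceGraph F).Colorable n := by
  classical
  let r : ℂ → ℂ := fun z => Quotient.out (QuotientAddGroup.mk z : ℂ ⧸ H)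
  have hr : ∀ z, z - r z ∈ H := by
    intro z
    have h1 : (QuotientAddGroup.mk (r z) : ℂ ⧸ H) = QuotientAddGroup.mk z := Quotient.out_eq _
    have h2 := QuotientAddGroup.eq.mp h1
    rwa [neg_add_eq_sub] at h2
  have hrr : ∀ z w, z - w ∈ H → r z = r w := by
    intro z w hzw
    have h1 : (QuotientAddGroup.mk z : ℂ ⧸ H) = QuotientAddGroup.mk w := by
      rw [QuotientAddGroup.eq, neg_add_eq_sub]
      have := H.neg_mem hzw
      rwa [neg_sub] at this
    simp only [r, h1]
  refine ⟨SimpleGraph.Coloring.mk (fun p => c (zz p - r (zz p))) ?_⟩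
  intro p q hpq heq
  have hu := zz_sub hpq
  have h1 := hrr _ _ (hH hu)
  have h2 := hc (zz q - r (zz q)) (hr _) _ hu
  apply h2
  rw [← heq, h1]
  congr 1
  ring

private theorem half {a : UnitAddCircle} (h2 : 2 • a = 0) (h0 : a ≠ 0) :
    a = ((1 / 2 : ℝ) : UnitAddCircle) := by
  obtain ⟨m, hm, hma⟩ := (AddCircle.nsmul_eq_zero_iff (p := (1 : ℝ)) (by norm_num : 0 < 2)).mp h2
  interval_cases m
  · exfalso
    apply h0
    rw [← hma]
    simp
  · rw [← hma]
    norm_num

theorem two_col (F : Subfield ℝ) (τ : ℂ →+ UnitAddCircle) (h0 : ∀ u ∈ UU F, τ u ≠ 0)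
    (h2 : ∀ u ∈ UU F, 2 • τ u = 0) : (unitDistanceGraph F).Colorable 2 := by
  classical
  have hR : ∀ x ∈ RR F, 2 • τ x = 0 := by
    intro x hx
    induction hx using AddSubgroup.closure_induction with
    | mem x hx => exact h2 x hx
    | zero => rw [map_zero, smul_zero]
    | add a b _ _ ha hb => rw [map_add, smul_add, ha, hb, add_zero]
    | neg a _ ha => rw [map_neg, smul_neg, ha, neg_zero]
  refine coset_col F (RR F) (fun u hu => UU_RR hu) 2 (fun x => if τ x = 0 then 0 else 1) ?_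
  intro x hx u hu
  by_cases hx0 : τ x = 0
  · rw [if_pos hx0, map_add, hx0, zero_add, if_neg (h0 u hu)]
    decide
  · have h3 : τ (x + u) = 0 := by
      rw [map_add, half (hR x hx) hx0, half (h2 u hu) (h0 u hu), ← half (h2 u hu) (h0 u hu),
        ← two_nsmul]
      exact h2 u hu
    rw [if_neg hx0, if_pos h3]
    decide

end Pool.Agent.MP8b8716.C2
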