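import Mathlib

set_option autoImplicit false

/-!
# The chromatic number of the plane over real algebraic fields: definitions
-/

namespace Pool.Agent.MP8b8716

open Complex

/-- The unit-distance graph of the plane `F²` over a field `F` of real numbers. -/
def unitDistanceGraph (F : Subfield ℝ) : SimpleGraph (F × F) where
  Adj p q := (p.1 - q.1) ^ 2 + (p.2 - q.2) ^ 2 = 1
  symm := ⟨fun p q h => by rw [← h]; ring⟩
  loopless := ⟨fun p h => by simp at h⟩

/-- The complex numbers of modulus one with coordinates in `F`. -/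
def UU (F : Subfield ℝ) : Set ℂ := {z | z.re ∈ F ∧ z.im ∈ F ∧ z.re ^ 2 + z.im ^ 2 = 1}

/-- The additive group generated by the unit vectors (it is a ring). -/
def RR (F : Subfield ℝ) : AddSubgroup ℂ := AddSubgroup.closure (UU F)

/-- Positive integers all of whose prime factors are `1` modulo `4`. -/
def N1 (n : ℕ) : Prop := n ≠ 0 ∧ ∀ p : ℕ, p.Prime → p ∣ n → p % 4 = 1

/-- The ring of Gaussian numbers whose denominator has only prime factors `1` modulo `4`. -/
def R0 : Set ℂ := {z | ∃ (x : GaussianInt) (n : ℕ), N1 n ∧ z = (x : ℂ) / (n : ℂ)}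

/-- The Gaussian numbers of modulus one. -/
def U0 : Set ℂ := {z | z ∈ R0 ∧ z.re ^ 2 + z.im ^ 2 = 1}

/-- The real character attached to a complex number. -/
noncomputable def ch (β y : ℂ) : UnitAddCircle := (((β * y).re : ℝ) : UnitAddCircle)

theorem UU_mul {F : Subfield ℝ} {x y : ℂ} (hx : x ∈ UU F) (hy : y ∈ UU F) : x * y ∈ UU F := by
  obtain ⟨h1, h2, h3⟩ := hx
  obtain ⟨h4, h5, h6⟩ := hy
  refine ⟨?_, ?_, ?_⟩
  · rw [Complex.mul_re]; exact F.sub_mem (F.mul_mem h1 h4) (F.mul_mem h2 h5)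
  · rw [Complex.mul_im]; exact F.add_mem (F.mul_mem h1 h5) (F.mul_mem h2 h4)
  · rw [Complex.mul_re, Complex.mul_im]
    linear_combination (y.re ^ 2 + y.im ^ 2) * h3 + h6

theorem UU_neg {F : Subfield ℝ} {x : ℂ} (hx : x ∈ UU F) : -x ∈ UU F := by
  obtain ⟨h1, h2, h3⟩ := hx
  refine ⟨?_, ?_, ?_⟩
  · rw [Complex.neg_re]; exact F.neg_mem h1
  · rw [Complex.neg_im]; exact F.neg_mem h2
  · rw [Complex.neg_re, Complex.neg_im]; linear_combination h3

theorem one_UU (F : Subfield ℝ) : (1 : ℂ) ∈ UU F := by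
  refine ⟨?_, ?_, ?_⟩
  · rw [Complex.one_re]; exact F.one_mem
  · rw [Complex.one_im]; exact F.zero_mem
  · simp

theorem I_UU (F : Subfield ℝ) : I ∈ UU F := by
  refine ⟨?_, ?_, ?_⟩
  · rw [Complex.I_re]; exact F.zero_mem
  · rw [Complex.I_im]; exact F.one_mem
  · simp

theorem UU_RR {F : Subfield ℝ} {x : ℂ} (hx : x ∈ UU F) : x ∈ RR F :=
  AddSubgroup.subset_closure hx

theorem RR_mul {F : Subfield ℝ} {x y : ℂ} (hx : x ∈ RR F) (hy : y ∈ RR F) : x * y ∈ RR F := by
  induction hx using AddSubgroup.closure_induction with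
  | mem x hx =>
    induction hy using AddSubgroup.closure_induction with
    | mem y hy => exact UU_RR (UU_mul hx hy)
    | zero => rw [mul_zero]; exact (RR F).zero_mem
    | add a b _ _ ha hb => rw [mul_add]; exact (RR F).add_mem ha hb
    | neg a _ ha => rw [mul_neg]; exact (RR F).neg_mem ha
  | zero => rw [zero_mul]; exact (RR F).zero_mem
  | add a b _ _ ha hb => rw [add_mul]; exact (RR F).add_mem ha hb
  | neg a _ ha => rw [neg_mul]; exact (RR F).neg_mem ha

theorem one_RR (F : Subfield ℝ) : (1 : ℂ) ∈ RR F := UU_RR (one_UU F)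

theorem int_RR (F : Subfield ℝ) (n : ℤ) : (n : ℂ) ∈ RR F := by
  have := (RR F).zsmul_mem (one_RR F) n
  rwa [zsmul_eq_mul, mul_one] at this

theorem nat_RR (F : Subfield ℝ) (n : ℕ) : (n : ℂ) ∈ RR F := by
  have := int_RR F n
  exact_mod_cast this

theorem four_pow_RR (F : Subfield ℝ) (k : ℕ) : (4 : ℂ) ^ k ∈ RR F := by
  have := nat_RR F (4 ^ k)
  push_cast at this
  exact this

/-- The subring of the elements `t` of `F` such that `4 ^ k t` is a sum of unit vectors for
some `k`. -/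
def Pp (F : Subfield ℝ) : Subring F where
  carrier := {t | ∃ k : ℕ, (4 : ℂ) ^ k * ((t : ℝ) : ℂ) ∈ RR F}
  mul_mem' := by
    rintro a b ⟨k, hk⟩ ⟨l, hl⟩
    refine ⟨k + l, ?_⟩
    have := RR_mul hk hl
    convert this using 1
    push_cast
    ring
  one_mem' := ⟨0, by simp [one_RR F]⟩
  add_mem' := by
    rintro a b ⟨k, hk⟩ ⟨l, hl⟩
    refine ⟨k + l, ?_⟩
    have := (RR F).add_mem (RR_mul (four_pow_RR F l) hk) (RR_mul (four_pow_RR F k) hl)
    convert this using 1
    push_cast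
    ring
  zero_mem' := ⟨0, by simpa using (RR F).zero_mem⟩
  neg_mem' := by
    rintro a ⟨k, hk⟩
    refine ⟨k, ?_⟩
    have := (RR F).neg_mem hk
    convert this using 1
    push_cast
    ring

theorem mem_Pp {F : Subfield ℝ} {t : F} :
    t ∈ Pp F ↔ ∃ k : ℕ, (4 : ℂ) ^ k * ((t : ℝ) : ℂ) ∈ RR F := Iff.rfl

end Pool.Agent.MP8b8716
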