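import Mathlib
import Pool.Agent.Lib.MP_8b8716_co.Defs

/-!
Module N3 of MP_8b8716_co: a counting lemma over finite fields of characteristic `3`.
-/

set_option autoImplicit false

open Complex

namespace Pool.Agent.MP8b8716.N3

/-- Rational parametrisation of the conic `x^2 + y^2 = 1`. -/
private def par {k : Type*} [Field k] : Option k → k × k
  | none => (-1, 0)
  | some t => ((1 - t ^ 2) / (1 + t ^ 2), 2 * t / (1 + t ^ 2))

private lemma par_mem {k : Type*} [Field k] (h : ∀ t : k, 1 + t ^ 2 ≠ 0) (o : Option k) :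
    (par o).1 ^ 2 + (par o).2 ^ 2 = 1 := by
  cases o with
  | none => simp [par]
  | some t =>
    simp only [par]
    have := h t
    field_simp
    ring

private lemma par_inj {k : Type*} [Field k] (h2 : (2 : k) ≠ 0) (h : ∀ t : k, 1 + t ^ 2 ≠ 0) :
    Function.Injective (par (k := k)) := by
  have key : ∀ t : k, (1 - t ^ 2) / (1 + t ^ 2) + 1 = 2 / (1 + t ^ 2) := by
    intro t
    have := h t
    field_simp
    ring
  intro a b hab
  cases a with
  | none =>
    cases b with
    | none => rfl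
    | some t =>
      exfalso
      simp only [par, Prod.mk.injEq] at hab
      have h1 := key t
      rw [← hab.1] at h1
      have h3 : (2 : k) / (1 + t ^ 2) ≠ 0 := div_ne_zero h2 (h t)
      apply h3
      rw [← h1]
      ring
  | some t =>
    cases b with
    | none =>
      exfalso
      simp only [par, Prod.mk.injEq] at hab
      have h1 := key t
      rw [hab.1] at h1
      have h3 : (2 : k) / (1 + t ^ 2) ≠ 0 := div_ne_zero h2 (h t)
      apply h3
      rw [← h1]
      ring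
    | some s =>
      simp only [par, Prod.mk.injEq] at hab
      have e1 := key t
      have e2 := key s
      rw [hab.1] at e1
      have e3 : (2 : k) / (1 + t ^ 2) = 2 / (1 + s ^ 2) := e1.symm.trans e2
      have e4 : t * ((2 : k) / (1 + t ^ 2)) = s * (2 / (1 + s ^ 2)) := by
        have := hab.2
        rw [← mul_div_assoc, ← mul_div_assoc, mul_comm t 2, mul_comm s 2]
        exact this
      rw [e3] at e4
      have h3 : (2 : k) / (1 + s ^ 2) ≠ 0 := div_ne_zero h2 (h s)
      rw [mul_right_cancel₀ h3 e4]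

private lemma sol3 : ∀ a b u v : ZMod 3, a ≠ 0 → b ≠ 0 →
    ∃ n m : ZMod 3, n * a + m * b = u ∧ n * b - m * a = v := by
  decide

private lemma two_reps {k : Type*} [Field k] (h : ∀ t : k, 1 + t ^ 2 ≠ 0) (h2 : (2 : k) ≠ 0)
    (d g g' g'' : k × k) (hd : d ≠ 0)
    (hg : g.1 ^ 2 + g.2 ^ 2 = 1) (hg1 : (g.1 - d.1) ^ 2 + (g.2 - d.2) ^ 2 = 1)
    (hg' : g'.1 ^ 2 + g'.2 ^ 2 = 1) (hg1' : (g'.1 - d.1) ^ 2 + (g'.2 - d.2) ^ 2 = 1)
    (hg'' : g''.1 ^ 2 + g''.2 ^ 2 = 1) (hg1'' : (g''.1 - d.1) ^ 2 + (g''.2 - d.2) ^ 2 = 1)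
    (h12 : g ≠ g') (h13 : g ≠ g'') (h23 : g' ≠ g'') : False := by
  obtain ⟨a, b⟩ := d
  obtain ⟨x, y⟩ := g
  obtain ⟨x', y'⟩ := g'
  obtain ⟨x'', y''⟩ := g''
  simp only at *
  have hn : a ^ 2 + b ^ 2 ≠ 0 := by
    intro h0
    by_cases ha : a = 0
    · subst ha
      have hb : b = 0 := by
        have : b ^ 2 = 0 := by linear_combination h0
        exact pow_eq_zero_iff (two_ne_zero) |>.1 this
      exact hd (by rw [hb]; rfl)
    · apply h (b / a)
      have : 1 + (b / a) ^ 2 = (a ^ 2 + b ^ 2) / a ^ 2 := by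
        field_simp
      rw [this, h0, zero_div]
  -- the inner product with `d` is fixed
  have hi : ∀ x y : k, x ^ 2 + y ^ 2 = 1 → (x - a) ^ 2 + (y - b) ^ 2 = 1 →
      2 * (a * x + b * y) = a ^ 2 + b ^ 2 := by
    intro x y e1 e2
    linear_combination e1 - e2
  -- the square of the inner product with the orthogonal vector is fixed
  have hs : ∀ x y : k, x ^ 2 + y ^ 2 = 1 → (x - a) ^ 2 + (y - b) ^ 2 = 1 →
      4 * (a * y - b * x) ^ 2 = 4 * (a ^ 2 + b ^ 2) - (a ^ 2 + b ^ 2) ^ 2 := by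
    intro x y e1 e2
    have e3 := hi x y e1 e2
    linear_combination 4 * (a ^ 2 + b ^ 2) * e1 -
      (2 * (a * x + b * y) + (a ^ 2 + b ^ 2)) * e3
  have h4 : (4 : k) ≠ 0 := by
    have : (4 : k) = 2 * 2 := by norm_num
    rw [this]; exact mul_ne_zero h2 h2
  have hsq : ∀ x y x' y' : k, x ^ 2 + y ^ 2 = 1 → (x - a) ^ 2 + (y - b) ^ 2 = 1 →
      x' ^ 2 + y' ^ 2 = 1 → (x' - a) ^ 2 + (y' - b) ^ 2 = 1 →
      (a * y - b * x = a * y' - b * x') ∨ (a * y - b * x = -(a * y' - b * x')) := by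
    intro x y x' y' e1 e2 e3 e4
    have e5 := hs x y e1 e2
    have e6 := hs x' y' e3 e4
    have e7 : (a * y - b * x) ^ 2 = (a * y' - b * x') ^ 2 := by
      apply mul_left_cancel₀ h4
      rw [e5, e6]
    exact sq_eq_sq_iff_eq_or_eq_neg.1 e7
  have heq : ∀ x y x' y' : k, x ^ 2 + y ^ 2 = 1 → (x - a) ^ 2 + (y - b) ^ 2 = 1 →
      x' ^ 2 + y' ^ 2 = 1 → (x' - a) ^ 2 + (y' - b) ^ 2 = 1 →
      (a * y - b * x = a * y' - b * x') → (x, y) = (x', y') := by
    intro x y x' y' e1 e2 e3 e4 e5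
    have e6 := hi x y e1 e2
    have e7 := hi x' y' e3 e4
    have e8 : a * x + b * y = a * x' + b * y' := by
      apply mul_left_cancel₀ h2
      rw [e6, e7]
    have e9 : (a ^ 2 + b ^ 2) * x = (a ^ 2 + b ^ 2) * x' := by
      linear_combination a * e8 - b * e5
    have e10 : (a ^ 2 + b ^ 2) * y = (a ^ 2 + b ^ 2) * y' := by
      linear_combination b * e8 + a * e5
    rw [mul_left_cancel₀ hn e9, mul_left_cancel₀ hn e10]
  rcases hsq x y x' y' hg hg1 hg' hg1' with e | e
  · exact h12 (heq x y x' y' hg hg1 hg' hg1' e)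
  rcases hsq x y x'' y'' hg hg1 hg'' hg1'' with e' | e'
  · exact h13 (heq x y x'' y'' hg hg1 hg'' hg1'' e')
  · apply h23
    apply heq x' y' x'' y'' hg' hg1' hg'' hg1''
    have : -(a * y' - b * x') = -(a * y'' - b * x'') := by rw [← e, ← e']
    exact neg_injective this

theorem count3 {k : Type*} [Field k] [Fintype k] [CharP k 3] (h : ∀ t : k, 1 + t ^ 2 ≠ 0)
    (m1 m2 : k →+ ZMod 3) (hm : ∀ x y : k, x ^ 2 + y ^ 2 = 1 → m1 x + m2 y ≠ 0) :
    Fintype.card k = 3 := by
  classical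
  have h2 : (2 : k) ≠ 0 := by
    intro h0
    have h3 : ((2 : ℕ) : k) = 0 := by exact_mod_cast h0
    rw [CharP.cast_eq_zero_iff k 3] at h3
    omega
  set q := Fintype.card k with hq
  set U : Finset (k × k) := Finset.univ.image (par (k := k)) with hU
  have hUc : U.card = q + 1 := by
    rw [hU, Finset.card_image_of_injective _ (par_inj h2 h), Finset.card_univ,
      Fintype.card_option]
  have hUm : ∀ g ∈ U, g.1 ^ 2 + g.2 ^ 2 = 1 := by
    intro g hg
    rw [hU, Finset.mem_image] at hg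
    obtain ⟨o, _, rfl⟩ := hg
    exact par_mem h o
  set L : k × k →+ ZMod 3 × ZMod 3 :=
    AddMonoidHom.prod (m1.coprod m2) (m2.coprod (-m1)) with hL
  have hLv : ∀ g : k × k, L g = (m1 g.1 + m2 g.2, m2 g.1 - m1 g.2) := by
    intro g
    simp [hL, sub_eq_add_neg]
  set S : Finset (ZMod 3 × ZMod 3) := Finset.univ.filter (fun c => c.1 ≠ 0 ∧ c.2 ≠ 0) with hS
  have hSc : S.card = 4 := by rw [hS]; decide
  have hLS : ∀ g ∈ U, L g ∈ S := by
    intro g hg
    have e := hUm g hg
    rw [hS, Finset.mem_filter]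
    refine ⟨Finset.mem_univ _, ?_, ?_⟩
    · rw [hLv]; exact hm _ _ e
    · rw [hLv]
      have e' : (-g.2) ^ 2 + g.1 ^ 2 = 1 := by rw [← e]; ring
      have := hm _ _ e'
      rw [map_neg] at this
      intro h0
      apply this
      rw [← h0]; ring
  -- the kernel of `L`
  have hsurj : Function.Surjective L := by
    rintro ⟨u, v⟩
    have e1 : m1 1 ≠ 0 := by
      have := hm 1 0 (by simp)
      simpa using this
    have e2 : m2 1 ≠ 0 := by
      have := hm 0 1 (by simp)
      simpa using this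
    obtain ⟨n, m, h5, h6⟩ := sol3 (m1 1) (m2 1) u v e1 e2
    refine ⟨(n.val • (1 : k), m.val • (1 : k)), ?_⟩
    rw [hLv]
    simp only [map_nsmul]
    simp only [nsmul_eq_mul, ZMod.natCast_zmod_val]
    rw [h5, h6]
  set K : Finset (k × k) := Finset.univ.filter (fun d => L d = 0) with hK
  have hKc : 9 * K.card = q ^ 2 := by
    have e1 := AddSubgroup.card_mul_index L.ker
    rw [AddSubgroup.index_ker, AddMonoidHom.range_eq_top.2 hsurj] at e1
    have e2 : Nat.card (k × k) = q ^ 2 := by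
      rw [Nat.card_eq_fintype_card, Fintype.card_prod, sq]
    have e3 : Nat.card L.ker = K.card := by
      rw [Nat.card_eq_fintype_card, hK, ← Fintype.card_subtype]
      exact Fintype.card_congr (Equiv.refl _)
    have e4 : Nat.card (⊤ : AddSubgroup (ZMod 3 × ZMod 3)) = 9 := by
      rw [AddSubgroup.card_top, Nat.card_eq_fintype_card, Fintype.card_prod, ZMod.card]
    rw [e2, e3, e4] at e1
    omega
  have h0K : (0 : k × k) ∈ K := by
    rw [hK, Finset.mem_filter]; exact ⟨Finset.mem_univ _, map_zero L⟩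
  -- pairs in the same class
  set P : Finset ((k × k) × (k × k)) := (U ×ˢ U).filter (fun p => L p.1 = L p.2) with hP
  have hPc : P.card = ∑ c ∈ S, (U.filter (fun g => L g = c)).card ^ 2 := by
    rw [hP, Finset.card_eq_sum_card_fiberwise (f := fun p => L p.1) (t := S)]
    · refine Finset.sum_congr rfl (fun c _ => ?_)
      rw [sq, ← Finset.card_product]
      congr 1
      ext p
      simp only [Finset.mem_filter, Finset.mem_product]
      constructor
      · rintro ⟨⟨⟨h1, h3⟩, h4⟩, h5⟩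
        exact ⟨⟨h1, h5⟩, ⟨h3, by rw [← h4]; exact h5⟩⟩
      · rintro ⟨⟨h1, h3⟩, ⟨h4, h5⟩⟩
        exact ⟨⟨⟨h1, h4⟩, by rw [h3, h5]⟩, h3⟩
    · intro p hp
      rw [Finset.mem_coe, Finset.mem_filter, Finset.mem_product] at hp
      exact hLS _ hp.1.1
  have hUs : ∑ c ∈ S, (U.filter (fun g => L g = c)).card = U.card :=
    (Finset.card_eq_sum_card_fiberwise (f := fun g => L g) (t := S) (fun g hg => hLS g hg)).symm
  have hcs : U.card ^ 2 ≤ 4 * P.card := by
    rw [← hUs, hPc, ← hSc]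
    exact sq_sum_le_card_mul_sum_sq
  -- non diagonal pairs
  have hnd : (P.filter (fun p => p.1 ≠ p.2)).card + U.card = P.card := by
    have e := Finset.card_filter_add_card_filter_not (s := P) (fun p => p.1 ≠ p.2)
    rw [← e]
    congr 1
    have : P.filter (fun p => ¬ p.1 ≠ p.2) = U.image (fun g => (g, g)) := by
      ext p
      simp only [hP, Finset.mem_filter, Finset.mem_product, Finset.mem_image, not_not]
      constructor
      · rintro ⟨⟨⟨h1, _⟩, _⟩, h5⟩
        exact ⟨p.1, h1, Prod.ext rfl h5⟩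
      · rintro ⟨g, hg, rfl⟩
        exact ⟨⟨⟨hg, hg⟩, rfl⟩, rfl⟩
    have hinj : Function.Injective (fun g : k × k => (g, g)) := by
      intro a b hab
      exact (Prod.mk.inj hab).1
    rw [this]
    exact (Finset.card_image_of_injective U hinj).symm
  have hfib : (P.filter (fun p => p.1 ≠ p.2)).card ≤ 2 * (K.erase 0).card := by
    apply Finset.card_le_mul_card_image_of_maps_to (f := fun p => p.1 - p.2)
    · intro p hp
      rw [Finset.mem_filter, hP, Finset.mem_filter] at hp
      rw [Finset.mem_erase, hK, Finset.mem_filter]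
      refine ⟨sub_ne_zero.2 hp.2, Finset.mem_univ _, ?_⟩
      rw [map_sub, hp.1.2, sub_self]
    · intro d hd
      by_contra hlt
      rw [not_le, Finset.two_lt_card] at hlt
      obtain ⟨p, hp, p', hp', p'', hp'', h12, h13, h23⟩ := hlt
      have hext : ∀ p ∈ (P.filter (fun p => p.1 ≠ p.2)).filter (fun p => p.1 - p.2 = d),
          p.1.1 ^ 2 + p.1.2 ^ 2 = 1 ∧ (p.1.1 - d.1) ^ 2 + (p.1.2 - d.2) ^ 2 = 1 ∧
            p.2 = p.1 - d := by
        intro p hp
        rw [Finset.mem_filter, Finset.mem_filter, hP, Finset.mem_filter,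
          Finset.mem_product] at hp
        obtain ⟨⟨⟨⟨h1, h3⟩, _⟩, _⟩, h5⟩ := hp
        have e : p.2 = p.1 - d := by rw [← h5]; abel
        refine ⟨hUm _ h1, ?_, e⟩
        have := hUm _ h3
        rw [e] at this
        exact this
      obtain ⟨a1, a2, a3⟩ := hext p hp
      obtain ⟨b1, b2, b3⟩ := hext p' hp'
      obtain ⟨c1, c2, c3⟩ := hext p'' hp''
      refine two_reps h h2 d p.1 p'.1 p''.1 (Finset.mem_erase.1 hd).1 a1 a2 b1 b2 c1 c2 ?_ ?_ ?_
      · intro e; exact h12 (Prod.ext e (by rw [a3, b3, e]))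
      · intro e; exact h13 (Prod.ext e (by rw [a3, c3, e]))
      · intro e; exact h23 (Prod.ext e (by rw [b3, c3, e]))
  have hKe : (K.erase 0).card + 1 = K.card := Finset.card_erase_add_one h0K
  -- arithmetic
  obtain ⟨n, _, hn⟩ := FiniteField.card k 3
  have hq9 : q ≠ 9 := by
    intro h9
    have : IsSquare (-1 : k) := by
      rw [FiniteField.isSquare_neg_one_iff, ← hq, h9]
      norm_num
    obtain ⟨t, ht⟩ := this
    apply h t
    rw [sq, ← ht]
    ring
  have hmain : 9 * ((q + 1) * (q + 1)) ≤ 36 * (q + 1) + 8 * (q ^ 2 - 9) := by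
    rw [hUc] at hcs hnd
    rw [sq (q + 1)] at hcs
    generalize (q + 1) * (q + 1) = A at hcs ⊢
    generalize q ^ 2 = B at hKc ⊢
    omega
  have hq1 : (q : ℤ) ≤ 15 ∨ (q : ℤ) ≤ 3 := by
    by_contra hcon
    push Not at hcon
    have h9 : 9 ≤ q ^ 2 := by nlinarith [hcon.1]
    zify [h9] at hmain
    nlinarith [hcon.1, hcon.2]
  have hq15 : q ≤ 15 := by omega
  have hn3 : (n : ℕ) < 3 := by
    by_contra hcon
    push Not at hcon
    have : 3 ^ 3 ≤ 3 ^ (n : ℕ) := Nat.pow_le_pow_right (by norm_num) hcon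
    rw [← hn, ← hq] at this
    omega
  have hn0 : 0 < (n : ℕ) := n.2
  have hn12 : (n : ℕ) = 1 ∨ (n : ℕ) = 2 := by omega
  rcases hn12 with h1 | h1
  · rw [hq, hn, h1]; norm_num
  · exfalso
    apply hq9
    rw [hq, hn, h1]; norm_num

end Pool.Agent.MP8b8716.N3
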