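import Pool.Agent.Lib.MP_8b8716_co.Defs

set_option autoImplicit false

/-!
# Denominators
-/

open Complex

namespace Pool.Agent.MP8b8716.AL

theorem inv_RR (F : Subfield ℝ) (t : ℝ) (ht : t ∈ F) :
    (4 : ℂ) * (((1 + t ^ 2)⁻¹ : ℝ) : ℂ) ∈ RR F ∧
      (4 : ℂ) * ((t * (1 + t ^ 2)⁻¹ : ℝ) : ℂ) ∈ RR F := by
  have hpos : (1 + t ^ 2 : ℝ) ≠ 0 := by positivity
  have hd : (1 + t ^ 2)⁻¹ ∈ F := F.inv_mem (F.add_mem F.one_mem (pow_mem ht 2))
  have h2 : (2 : ℝ) ∈ F := by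
    rw [← one_add_one_eq_two]
    exact F.add_mem F.one_mem F.one_mem
  set c : ℝ := (1 + t ^ 2)⁻¹ with hc
  have hc1 : c * (1 + t ^ 2) = 1 := inv_mul_cancel₀ hpos
  have hre : (1 - t ^ 2) * c ∈ F := F.mul_mem (F.sub_mem F.one_mem (pow_mem ht 2)) hd
  have him : 2 * t * c ∈ F := F.mul_mem (F.mul_mem h2 ht) hd
  have hn : ((1 - t ^ 2) * c) ^ 2 + (2 * t * c) ^ 2 = 1 := by
    have : ((1 - t ^ 2) * c) ^ 2 + (2 * t * c) ^ 2 = (c * (1 + t ^ 2)) ^ 2 := by ring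
    rw [this, hc1, one_pow]
  have hu : (⟨(1 - t ^ 2) * c, 2 * t * c⟩ : ℂ) ∈ UU F := ⟨hre, him, hn⟩
  have hv : (⟨(1 - t ^ 2) * c, -(2 * t * c)⟩ : ℂ) ∈ UU F :=
    ⟨hre, F.neg_mem him, by
      show ((1 - t ^ 2) * c) ^ 2 + (-(2 * t * c)) ^ 2 = 1
      rw [neg_sq]; exact hn⟩
  constructor
  · have h := (RR F).add_mem ((RR F).add_mem (UU_RR hu) (UU_RR hv)) (nat_RR F 2)
    convert h using 1
    apply Complex.ext
    · simp
      linear_combination 2 * hc1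
    · simp
  · have h := RR_mul ((RR F).sub_mem (UU_RR hu) (UU_RR hv)) (UU_RR (UU_neg (I_UU F)))
    convert h using 1
    apply Complex.ext
    · simp
      ring
    · simp

/-- The elements of `F` with a multiple in `RR F`. -/
private noncomputable def DD (F : Subfield ℝ) : Subalgebra ℚ ℝ where
  carrier := {x | x ∈ F ∧ ∃ d : ℕ, 0 < d ∧ (d : ℂ) * (x : ℂ) ∈ RR F}
  mul_mem' := by
    rintro a b ⟨ha, d, hd, hda⟩ ⟨hb, e, he, heb⟩
    refine ⟨F.mul_mem ha hb, d * e, Nat.mul_pos hd he, ?_⟩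
    have := RR_mul hda heb
    convert this using 1
    push_cast
    ring
  add_mem' := by
    rintro a b ⟨ha, d, hd, hda⟩ ⟨hb, e, he, heb⟩
    refine ⟨F.add_mem ha hb, d * e, Nat.mul_pos hd he, ?_⟩
    have := (RR F).add_mem (RR_mul (nat_RR F e) hda) (RR_mul (nat_RR F d) heb)
    convert this using 1
    push_cast
    ring
  algebraMap_mem' := by
    intro q
    refine ⟨?_, q.den, q.den_pos, ?_⟩
    · rw [eq_ratCast]
      exact SubfieldClass.ratCast_mem F q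
    · have := int_RR F q.num
      convert this using 1
      rw [eq_ratCast]
      have h := Rat.den_mul_eq_num q
      have h2 : ((q.den : ℚ) : ℂ) * (q : ℂ) = ((q.num : ℚ) : ℂ) := by
        rw [← h]; push_cast; ring
      push_cast at h2 ⊢
      exact h2

private theorem mem_DD (F : Subfield ℝ) (hF : ∀ x ∈ F, IsAlgebraic ℚ x) (t : ℝ) (ht : t ∈ F) :
    t ∈ DD F := by
  have key : ∀ s : ℝ, s ∈ F → s ^ 2 ∈ DD F := by
    intro s hs
    have hd : (1 + s ^ 2)⁻¹ ∈ F := F.inv_mem (F.add_mem F.one_mem (pow_mem hs 2))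
    have h1 : (1 + s ^ 2)⁻¹ ∈ DD F := ⟨hd, 4, by norm_num, by exact_mod_cast (inv_RR F s hs).1⟩
    have h2 := Subalgebra.inv_mem_of_algebraic (DD F) (x := ⟨_, h1⟩) (hF _ hd)
    simp only [inv_inv] at h2
    have h3 := (DD F).sub_mem h2 (DD F).one_mem
    have h4 : (1 + s ^ 2 - 1 : ℝ) = s ^ 2 := by ring
    rwa [h4] at h3
  have h1 := key t ht
  have h2 := key (1 + t) (F.add_mem F.one_mem ht)
  have h3 := (DD F).sub_mem ((DD F).sub_mem h2 h1) (DD F).one_mem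
  have h4 := (DD F).smul_mem h3 (1 / 2 : ℚ)
  have h5 : (1 / 2 : ℚ) • ((1 + t) ^ 2 - t ^ 2 - 1 : ℝ) = t := by
    rw [Rat.smul_def]; push_cast; ring
  rwa [h5] at h4

theorem denom (F : Subfield ℝ) (hF : ∀ x ∈ F, IsAlgebraic ℚ x) (z : ℂ) (h1 : z.re ∈ F)
    (h2 : z.im ∈ F) : ∃ d : ℕ, 0 < d ∧ (d : ℂ) * z ∈ RR F := by
  obtain ⟨-, d, hd, hdx⟩ := mem_DD F hF z.re h1
  obtain ⟨-, e, he, hey⟩ := mem_DD F hF z.im h2
  refine ⟨d * e, Nat.mul_pos hd he, ?_⟩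
  have := (RR F).add_mem (RR_mul (nat_RR F e) hdx)
    (RR_mul (RR_mul (nat_RR F d) hey) (UU_RR (I_UU F)))
  convert this using 1
  have hz : z = (z.re : ℂ) + (z.im : ℂ) * I := (Complex.re_add_im z).symm
  conv_lhs => rw [hz]
  push_cast
  ring

theorem inv_Pp (F : Subfield ℝ) (t : F) :
    (1 + t ^ 2)⁻¹ ∈ Pp F ∧ t * (1 + t ^ 2)⁻¹ ∈ Pp F := by
  obtain ⟨h1, h2⟩ := inv_RR F (t : ℝ) t.2
  constructor
  · refine mem_Pp.2 ⟨1, ?_⟩
    rw [pow_one]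
    convert h1 using 3
    push_cast
    rfl
  · refine mem_Pp.2 ⟨1, ?_⟩
    rw [pow_one]
    convert h2 using 3
    push_cast
    rfl

end Pool.Agent.MP8b8716.AL
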