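import Pool.Agent.Lib.MP_8b8716_co.Denom

set_option autoImplicit false

/-!
# From the ring `Pp F` to the ring of integers
-/

open Complex

namespace Pool.Agent.MP8b8716.VD

private theorem integral_mem (F : Subfield ℝ) (V : ValuationSubring F) (a : F)
    (ha : IsIntegral ℤ a) : a ∈ V := by
  have h1 : IsIntegral V a := ha.tower_top
  obtain ⟨y, hy⟩ := IsIntegrallyClosed.isIntegral_iff.1 h1
  rw [← hy]
  exact y.2

theorem hom_of_hom (F : Subfield ℝ) (h : Nonempty (Pp F →+* ZMod 3)) :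
    Nonempty (integralClosure ℤ F →+* ZMod 3) := by
  obtain ⟨χ⟩ := h
  have : Fact (Nat.Prime 3) := ⟨Nat.prime_three⟩
  have hI : RingHom.ker χ ≠ ⊤ := RingHom.ker_ne_top χ
  obtain ⟨V, hV, hker⟩ := Ideal.image_subset_nonunits_valuationSubring (RingHom.ker χ) hI
  -- elements of `Pp F` in the residue field
  have key : ∀ (p : F) (hp : p ∈ Pp F), IsLocalRing.residue V ⟨p, hV hp⟩ =
      (((χ ⟨p, hp⟩).val : ℕ) : IsLocalRing.ResidueField V) := by
    intro p hp
    set n : ℕ := (χ ⟨p, hp⟩).val with hn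
    have h1 : (⟨p, hp⟩ : Pp F) - (n : Pp F) ∈ RingHom.ker χ := by
      rw [RingHom.mem_ker, map_sub, map_natCast, hn, ZMod.natCast_zmod_val, sub_self]
    have h2 : ((((⟨p, hp⟩ : Pp F) - (n : Pp F) : Pp F)) : F) ∈ V.nonunits :=
      hker ⟨_, h1, rfl⟩
    have h3 : (⟨p, hV hp⟩ : V) - (n : V) ∈ IsLocalRing.maximalIdeal V := by
      rw [ValuationSubring.mem_nonunits_iff_exists_mem_maximalIdeal] at h2
      obtain ⟨h4, h5⟩ := h2
      convert h5 using 1
      apply Subtype.ext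
      show p - ((n : V) : F) = p - (((n : Pp F)) : F)
      push_cast
      rfl
    have h4 := (IsLocalRing.residue_eq_zero_iff _).2 h3
    rw [map_sub, map_natCast, sub_eq_zero] at h4
    exact h4
  have h3 : ((3 : ℕ) : IsLocalRing.ResidueField V) = 0 := by
    have h1 : ((3 : ℕ) : F) ∈ Pp F := natCast_mem _ 3
    have h2 := key _ h1
    have h3 : χ ⟨((3 : ℕ) : F), h1⟩ = 0 := by
      have : (⟨((3 : ℕ) : F), h1⟩ : Pp F) = ((3 : ℕ) : Pp F) := rfl
      rw [this, map_natCast]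
      rfl
    rw [h3, ZMod.val_zero, Nat.cast_zero] at h2
    rw [← h2]
    rfl
  have : CharP (IsLocalRing.ResidueField V) 3 :=
    (CharP.charP_iff_prime_eq_zero Nat.prime_three).2 h3
  let ψ : ZMod 3 →+* IsLocalRing.ResidueField V := ZMod.castHom (dvd_refl 3) _
  have hkey2 : ∀ (p : F) (hp : p ∈ Pp F),
      IsLocalRing.residue V ⟨p, hV hp⟩ = ψ (χ ⟨p, hp⟩) := by
    intro p hp
    rw [key p hp, ← map_natCast ψ, ZMod.natCast_zmod_val]
  have hsurj : Function.Surjective ψ := by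
    intro z
    obtain ⟨x, rfl⟩ := IsLocalRing.residue_surjective z
    have hne : (1 + (x : F) ^ 2 : F) ≠ 0 := by
      intro h0
      have h1 : ((1 + (x : F) ^ 2 : F) : ℝ) = 0 := by rw [h0]; rfl
      push_cast at h1
      nlinarith [sq_nonneg (((x : F)) : ℝ)]
    obtain ⟨hb, hc⟩ := AL.inv_Pp F (x : F)
    set b : F := (1 + (x : F) ^ 2)⁻¹ with hbdef
    have e1 : (⟨b, hV hb⟩ : V) * (1 + x ^ 2) = 1 := by
      apply Subtype.ext
      show b * (1 + (x : F) ^ 2) = 1
      exact inv_mul_cancel₀ hne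
    have e2 : x * ⟨b, hV hb⟩ = (⟨(x : F) * b, hV hc⟩ : V) := rfl
    have e3 := congrArg (IsLocalRing.residue V) e2
    rw [map_mul, hkey2 b hb, hkey2 _ hc] at e3
    have e4 := congrArg (IsLocalRing.residue V) e1
    rw [map_mul, hkey2 b hb, map_one] at e4
    have hb0 : χ ⟨b, hb⟩ ≠ 0 := by
      intro h0
      rw [h0, map_zero, zero_mul] at e4
      exact zero_ne_one e4
    refine ⟨χ ⟨(x : F) * b, hc⟩ * (χ ⟨b, hb⟩)⁻¹, ?_⟩
    rw [map_mul, ← e3, mul_assoc, ← map_mul, mul_inv_cancel₀ hb0, map_one, mul_one]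
  have hbij : Function.Bijective ψ := ⟨ψ.injective, hsurj⟩
  let e := RingEquiv.ofBijective ψ hbij
  let ι : integralClosure ℤ F →+* V :=
    { toFun := fun a => ⟨(a : F), integral_mem F V a a.2⟩
      map_one' := rfl
      map_mul' := fun _ _ => rfl
      map_zero' := rfl
      map_add' := fun _ _ => rfl }
  exact ⟨(e.symm : IsLocalRing.ResidueField V →+* ZMod 3).comp
    ((IsLocalRing.residue V).comp ι)⟩

end Pool.Agent.MP8b8716.VD
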