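import Pool.Agent.Lib.MP_8b8716_co.Defs

set_option autoImplicit false

/-!
# The chromatic number of the plane over real algebraic fields: extension of characters (module EX)
-/

namespace Pool.Agent.MP8b8716.EX

theorem extend (H : AddSubgroup ℂ) (f : H →+ UnitAddCircle) :
    ∃ g : ℂ →+ UnitAddCircle, ∀ x : H, g x = f x := by
  obtain ⟨g, hg⟩ := (Module.Baer.of_divisible UnitAddCircle).extension_property_addMonoidHom
    H.subtype H.subtype_injective f
  refine ⟨g, fun x => ?_⟩
  rw [← hg]
  rfl

end Pool.Agent.MP8b8716.EX
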