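import Pool.Agent.Lib.MP_8b8716_co.Defs

set_option autoImplicit false

/-!
# The ring `R0` and its unit vectors
-/

open Complex

namespace Pool.Agent.MP8b8716.GI

theorem N1_one : N1 1 := by
  refine ⟨one_ne_zero, fun p hp hd => ?_⟩
  rw [Nat.dvd_one] at hd
  exact absurd hd hp.one_lt.ne'

theorem N1_mul {m n : ℕ} (hm : N1 m) (hn : N1 n) : N1 (m * n) := by
  refine ⟨mul_ne_zero hm.1 hn.1, fun p hp hd => ?_⟩
  rcases hp.dvd_mul.1 hd with h | h
  · exact hm.2 p hp h
  · exact hn.2 p hp h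

theorem N1_pow {m : ℕ} (hm : N1 m) (k : ℕ) : N1 (m ^ k) := by
  refine ⟨pow_ne_zero k hm.1, fun p hp hd => ?_⟩
  exact hm.2 p hp (hp.dvd_of_dvd_pow hd)

theorem N1_prime {p : ℕ} (hp : p.Prime) (h4 : p % 4 = 1) : N1 p := by
  refine ⟨hp.ne_zero, fun q hq hd => ?_⟩
  rw [(Nat.prime_dvd_prime_iff_eq hq hp).1 hd]
  exact h4

/-- Sums `1 + y²`, `y` even, have only prime factors `1` modulo `4`. -/
theorem N1_sq (y : ℤ) (hy : Even y) : N1 (1 + y ^ 2).natAbs := by
  have hpos : 0 < 1 + y ^ 2 := by positivity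
  refine ⟨by omega, fun p hp hd => ?_⟩
  have hd' : (p : ℤ) ∣ 1 + y ^ 2 := Int.natCast_dvd.2 hd
  have := Fact.mk hp
  have h2 : p ≠ 2 := by
    rintro rfl
    have h3 : Even (1 + y ^ 2) := by
      rw [even_iff_two_dvd]; exact_mod_cast hd'
    have h4 : Even (y ^ 2) := hy.pow_of_ne_zero two_ne_zero
    rw [Int.even_add] at h3
    exact absurd (h3.2 h4) (by decide)
  have hsq : ((y : ZMod p)) ^ 2 = -1 := by
    have h3 : ((1 + y ^ 2 : ℤ) : ZMod p) = 0 := (ZMod.intCast_zmod_eq_zero_iff_dvd _ p).2 hd'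
    push_cast at h3
    linear_combination h3
  have h3 : p % 4 ≠ 3 := ZMod.mod_four_ne_three_of_sq_eq_neg_one hsq
  have h5 : p % 2 = 1 := (hp.eq_two_or_odd).resolve_left h2
  omega

theorem R0_int (x : GaussianInt) : (x : ℂ) ∈ R0 := ⟨x, 1, N1_one, by simp⟩

theorem R0_natCast (n : ℕ) : (n : ℂ) ∈ R0 := by
  have := R0_int (n : GaussianInt)
  simpa using this

theorem R0_intCast (n : ℤ) : (n : ℂ) ∈ R0 := by
  have := R0_int (n : GaussianInt)
  simpa using this

theorem R0_one : (1 : ℂ) ∈ R0 := by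
  have := R0_natCast 1
  simpa using this

theorem R0_I : I ∈ R0 := by
  have := R0_int ⟨0, 1⟩
  simpa [GaussianInt.toComplex_def'] using this

theorem R0_add {x y : ℂ} (hx : x ∈ R0) (hy : y ∈ R0) : x + y ∈ R0 := by
  obtain ⟨a, m, hm, rfl⟩ := hx
  obtain ⟨b, n, hn, rfl⟩ := hy
  have h1 : (m : ℂ) ≠ 0 := Nat.cast_ne_zero.2 hm.1
  have h2 : (n : ℂ) ≠ 0 := Nat.cast_ne_zero.2 hn.1
  refine ⟨a * n + b * m, m * n, N1_mul hm hn, ?_⟩
  rw [GaussianInt.toComplex_add, GaussianInt.toComplex_mul, GaussianInt.toComplex_mul,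
    map_natCast, map_natCast]
  push_cast
  field_simp

theorem R0_neg {x : ℂ} (hx : x ∈ R0) : -x ∈ R0 := by
  obtain ⟨a, m, hm, rfl⟩ := hx
  exact ⟨-a, m, hm, by rw [GaussianInt.toComplex_neg]; ring⟩

theorem R0_sub {x y : ℂ} (hx : x ∈ R0) (hy : y ∈ R0) : x - y ∈ R0 := by
  rw [sub_eq_add_neg]; exact R0_add hx (R0_neg hy)

theorem R0_mul {x y : ℂ} (hx : x ∈ R0) (hy : y ∈ R0) : x * y ∈ R0 := by
  obtain ⟨a, m, hm, rfl⟩ := hx
  obtain ⟨b, n, hn, rfl⟩ := hy
  have h1 : (m : ℂ) ≠ 0 := Nat.cast_ne_zero.2 hm.1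
  have h2 : (n : ℂ) ≠ 0 := Nat.cast_ne_zero.2 hn.1
  refine ⟨a * b, m * n, N1_mul hm hn, ?_⟩
  rw [GaussianInt.toComplex_mul]
  push_cast
  field_simp

theorem R0_inv {n : ℕ} (hn : N1 n) : ((n : ℂ))⁻¹ ∈ R0 := ⟨1, n, hn, by simp⟩

private theorem R0_conj {x : ℂ} (hx : x ∈ R0) : (starRingEnd ℂ) x ∈ R0 := by
  obtain ⟨a, m, hm, rfl⟩ := hx
  exact ⟨star a, m, hm, by simp⟩

theorem U0_R0 {s : ℂ} (hs : s ∈ U0) : s ∈ R0 := hs.1

private theorem normSq_of {s : ℂ} (hs : s.re ^ 2 + s.im ^ 2 = 1) : Complex.normSq s = 1 := by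
  rw [Complex.normSq_apply]; linarith

theorem U0_norm {s : ℂ} (hs : s ∈ U0) : ‖s‖ = 1 := by
  have h1 : ‖s‖ ^ 2 = 1 := by rw [← Complex.normSq_eq_norm_sq, normSq_of hs.2]
  have h2 : 0 ≤ ‖s‖ := norm_nonneg s
  nlinarith

theorem U0_one : (1 : ℂ) ∈ U0 := ⟨R0_one, by simp⟩

theorem U0_I : I ∈ U0 := ⟨R0_I, by simp⟩

theorem U0_neg {s : ℂ} (hs : s ∈ U0) : -s ∈ U0 := by
  refine ⟨R0_neg hs.1, ?_⟩
  rw [Complex.neg_re, Complex.neg_im]; linear_combination hs.2

theorem U0_mul {s t : ℂ} (hs : s ∈ U0) (ht : t ∈ U0) : s * t ∈ U0 := by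
  refine ⟨R0_mul hs.1 ht.1, ?_⟩
  rw [Complex.mul_re, Complex.mul_im]
  linear_combination (t.re ^ 2 + t.im ^ 2) * hs.2 + ht.2

theorem U0_pow {s : ℂ} (hs : s ∈ U0) (k : ℕ) : s ^ k ∈ U0 := by
  induction k with
  | zero => simpa using U0_one
  | succ k ih => rw [pow_succ]; exact U0_mul ih hs

theorem U0_inv {s : ℂ} (hs : s ∈ U0) : s⁻¹ ∈ U0 := by
  have h1 : s⁻¹ = (starRingEnd ℂ) s := by
    rw [Complex.inv_def, normSq_of hs.2]; simp
  rw [h1]
  refine ⟨R0_conj hs.1, ?_⟩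
  rw [Complex.conj_re, Complex.conj_im]; linear_combination hs.2

theorem U0_UU (F : Subfield ℝ) {s : ℂ} (hs : s ∈ U0) : s ∈ UU F := by
  refine ⟨?_, ?_, hs.2⟩
  · obtain ⟨a, m, hm, h⟩ := hs.1
    have : s.re = (a.re : ℝ) / (m : ℝ) := by
      rw [h, Complex.div_natCast_re]; simp
    rw [this]
    exact F.div_mem (intCast_mem F _) (natCast_mem F _)
  · obtain ⟨a, m, hm, h⟩ := hs.1
    have : s.im = (a.im : ℝ) / (m : ℝ) := by
      rw [h, Complex.div_natCast_im]; simp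
    rw [this]
    exact F.div_mem (intCast_mem F _) (natCast_mem F _)

private theorem unit_of_norm {s : ℂ} (h : s * (starRingEnd ℂ) s = 1) : s.re ^ 2 + s.im ^ 2 = 1 := by
  rw [Complex.mul_conj, Complex.normSq_apply] at h
  have : s.re * s.re + s.im * s.im = 1 := by exact_mod_cast h
  linarith

/-- A Gaussian integer over its conjugate. -/
theorem quot_mem (x : GaussianInt) (hx : N1 (Zsqrtd.norm x).natAbs) :
    (x : ℂ) / ((star x : GaussianInt) : ℂ) ∈ U0 := by
  have hn : x ≠ 0 := by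
    rintro rfl
    simp [N1] at hx
  have hxc : (x : ℂ) ≠ 0 := by
    rw [Ne, GaussianInt.toComplex_eq_zero]; exact hn
  have hsc : ((star x : GaussianInt) : ℂ) ≠ 0 := by
    rw [Ne, GaussianInt.toComplex_eq_zero, star_eq_zero]; exact hn
  have hmul : (x : ℂ) * ((star x : GaussianInt) : ℂ) = ((Zsqrtd.norm x).natAbs : ℕ) := by
    rw [← GaussianInt.toComplex_mul, ← Zsqrtd.norm_eq_mul_conj]
    have : (((Zsqrtd.norm x).natAbs : ℕ) : ℂ) = ((Zsqrtd.norm x : ℤ) : ℂ) := by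
      have h1 := GaussianInt.natCast_natAbs_norm (α := ℂ) x
      exact h1
    rw [this]
    simp
  refine ⟨⟨x * x, (Zsqrtd.norm x).natAbs, hx, ?_⟩, ?_⟩
  · rw [← hmul, GaussianInt.toComplex_mul]
    field_simp
  · apply unit_of_norm
    rw [map_div₀, ← GaussianInt.toComplex_star, ← GaussianInt.toComplex_star, star_star]
    field_simp

/-- The Cayley parametrisation. -/
theorem cayley_mem (y : ℤ) (hy : Even y) : (1 + y * I) / (1 - y * I) ∈ U0 := by
  have h := quot_mem ⟨1, y⟩ (by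
    have : Zsqrtd.norm (⟨1, y⟩ : GaussianInt) = 1 + y ^ 2 := by
      rw [Zsqrtd.norm_def]; ring
    rw [this]
    exact N1_sq y hy)
  have h1 : ((⟨1, y⟩ : GaussianInt) : ℂ) = 1 + y * I := by
    rw [GaussianInt.toComplex_def']; simp
  have h2 : ((star (⟨1, y⟩ : GaussianInt) : GaussianInt) : ℂ) = 1 - y * I := by
    rw [GaussianInt.toComplex_star, h1]
    simp [sub_eq_add_neg]
  rwa [h1, h2] at h

private theorem prime_of_norm (p : ℕ) (hp : p.Prime) (x : GaussianInt)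
    (hx : Zsqrtd.norm x = p) : Prime x := by
  rw [← irreducible_iff_prime]
  constructor
  · intro hu
    have := Zsqrtd.isUnit_iff_norm_isUnit x |>.1 hu
    rw [hx, Int.isUnit_iff] at this
    have := hp.one_lt
    omega
  · intro a b hab
    have h1 : (Zsqrtd.norm a).natAbs * (Zsqrtd.norm b).natAbs = p := by
      have : Zsqrtd.norm a * Zsqrtd.norm b = p := by rw [← Zsqrtd.norm_mul, ← hab, hx]
      rw [← Int.natAbs_mul, this]; simp
    have h2 : Irreducible ((Zsqrtd.norm a).natAbs * (Zsqrtd.norm b).natAbs) := by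
      rw [h1]; exact hp
    rcases (irreducible_mul_iff.1 h2) with h | h
    · right
      exact (Zsqrtd.norm_eq_one_iff).1 (by simpa using h.2)
    · left
      exact (Zsqrtd.norm_eq_one_iff).1 (by simpa using h.2)

/-- A sum of two squares decomposition of a prime, with coprime conjugates. -/
theorem exists_pi (p : ℕ) (hp : p.Prime) (h4 : p % 4 = 1) : ∃ x : GaussianInt,
    Zsqrtd.norm x = p ∧ Prime x ∧ Prime (star x) ∧ IsCoprime x (star x) := by
  have := Fact.mk hp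
  obtain ⟨a, b, hab⟩ := Nat.Prime.sq_add_sq (p := p) (by omega)
  have hx : Zsqrtd.norm (⟨a, b⟩ : GaussianInt) = p := by
    rw [Zsqrtd.norm_def, ← hab]; push_cast; ring
  have hx' : Zsqrtd.norm (star (⟨a, b⟩ : GaussianInt)) = p := by rw [Zsqrtd.norm_conj, hx]
  have h1 := prime_of_norm p hp _ hx
  refine ⟨⟨a, b⟩, hx, h1, prime_of_norm p hp _ hx', ?_⟩
  rw [(Prime.irreducible h1).coprime_iff_not_dvd]
  intro hd
  have h2 : (⟨a, b⟩ : GaussianInt) ∣ ((2 * a : ℕ) : GaussianInt) := by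
    have h3 : ((2 * a : ℕ) : GaussianInt) = ⟨a, b⟩ + star (⟨a, b⟩ : GaussianInt) := by
      rw [Zsqrtd.ext_iff]
      constructor
      · simp; ring
      · simp
    rw [h3]
    exact dvd_add dvd_rfl hd
  have h3 : (p : ℤ) ∣ ((2 * a : ℕ) : ℤ) * ((2 * a : ℕ) : ℤ) := by
    obtain ⟨z, hz⟩ := h2
    have h4 := congrArg Zsqrtd.norm hz
    rw [Zsqrtd.norm_mul, hx, Zsqrtd.norm_natCast] at h4
    exact ⟨_, h4⟩
  have h4' : p ∣ 2 * a := by
    have : p ∣ (2 * a) * (2 * a) := by exact_mod_cast h3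
    exact (or_self_iff).1 (hp.dvd_mul.1 this)
  have h5 : p ∣ a := by
    rcases hp.dvd_mul.1 h4' with h | h
    · have := Nat.le_of_dvd (by norm_num) h
      interval_cases p <;> simp_all
    · exact h
  have h6 : p ∣ b := by
    have : p ∣ b ^ 2 := by
      have h7 : p ∣ a ^ 2 + b ^ 2 := by rw [hab]
      exact (Nat.dvd_add_right (dvd_pow h5 two_ne_zero)).1 h7
    exact hp.dvd_of_dvd_pow this
  have h7 : p ^ 2 ∣ p := by
    rw [← hab] 
    exact dvd_add (by rw [hab]; exact pow_dvd_pow_of_dvd h5 2) (by rw [hab]; exact pow_dvd_pow_of_dvd h6 2)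
  have h8 := Nat.le_of_dvd hp.pos h7
  have := hp.one_lt
  nlinarith

private theorem closure_mul {x y : ℂ} (hx : x ∈ AddSubgroup.closure U0)
    (hy : y ∈ AddSubgroup.closure U0) : x * y ∈ AddSubgroup.closure U0 := by
  induction hx using AddSubgroup.closure_induction with
  | mem x hx =>
    induction hy using AddSubgroup.closure_induction with
    | mem y hy => exact AddSubgroup.subset_closure (U0_mul hx hy)
    | zero => rw [mul_zero]; exact AddSubgroup.zero_mem _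
    | add a b _ _ ha hb => rw [mul_add]; exact AddSubgroup.add_mem _ ha hb
    | neg a _ ha => rw [mul_neg]; exact AddSubgroup.neg_mem _ ha
  | zero => rw [zero_mul]; exact AddSubgroup.zero_mem _
  | add a b _ _ ha hb => rw [add_mul]; exact AddSubgroup.add_mem _ ha hb
  | neg a _ ha => rw [neg_mul]; exact AddSubgroup.neg_mem _ ha

private theorem closure_gauss (x : GaussianInt) : (x : ℂ) ∈ AddSubgroup.closure U0 := by
  rw [GaussianInt.toComplex_def]
  have h1 : ∀ n : ℤ, (n : ℂ) ∈ AddSubgroup.closure U0 := by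
    intro n
    have := AddSubgroup.zsmul_mem (AddSubgroup.closure U0)
      (AddSubgroup.subset_closure U0_one) n
    simpa using this
  exact AddSubgroup.add_mem _ (h1 _) (closure_mul (h1 _) (AddSubgroup.subset_closure U0_I))

private theorem closure_inv_prime (p : ℕ) (hp : p.Prime) (h4 : p % 4 = 1) :
    ((p : ℂ))⁻¹ ∈ AddSubgroup.closure U0 := by
  obtain ⟨x, hx, hpx, hpx', hcop⟩ := exists_pi p hp h4
  have hN : N1 (Zsqrtd.norm x).natAbs := by
    rw [hx]; simpa using N1_prime hp h4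
  have hN' : N1 (Zsqrtd.norm (star x)).natAbs := by
    rw [Zsqrtd.norm_conj]; exact hN
  have h1 := quot_mem x hN
  have h2 := quot_mem (star x) hN'
  rw [star_star] at h2
  obtain ⟨a, b, hab⟩ := (hcop.pow : IsCoprime (x ^ 2) (star x ^ 2))
  have hmul : (x : ℂ) * ((star x : GaussianInt) : ℂ) = (p : ℂ) := by
    rw [← GaussianInt.toComplex_mul, ← Zsqrtd.norm_eq_mul_conj, hx]
    simp
  have hxc : (x : ℂ) ≠ 0 := by
    rw [Ne, GaussianInt.toComplex_eq_zero]; exact hpx.ne_zero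
  have hsc : ((star x : GaussianInt) : ℂ) ≠ 0 := by
    rw [Ne, GaussianInt.toComplex_eq_zero]; exact hpx'.ne_zero
  have hab' : (a : ℂ) * (x : ℂ) ^ 2 + (b : ℂ) * ((star x : GaussianInt) : ℂ) ^ 2 = 1 := by
    have := congrArg GaussianInt.toComplex hab
    rw [map_add, map_mul, map_mul, map_pow, map_pow, map_one] at this
    exact this
  have key : ((p : ℂ))⁻¹ = (a : ℂ) * ((x : ℂ) / ((star x : GaussianInt) : ℂ)) +
      (b : ℂ) * (((star x : GaussianInt) : ℂ) / (x : ℂ)) := by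
    rw [← hmul]
    field_simp
    linear_combination -hab'
  rw [key]
  exact AddSubgroup.add_mem _ (closure_mul (closure_gauss a) (AddSubgroup.subset_closure h1))
    (closure_mul (closure_gauss b) (AddSubgroup.subset_closure h2))

private theorem closure_inv (n : ℕ) (hn : N1 n) : ((n : ℂ))⁻¹ ∈ AddSubgroup.closure U0 := by
  induction n using Nat.recOnMul with
  | zero => exact absurd rfl hn.1
  | one => simpa using AddSubgroup.subset_closure U0_one
  | prime p hp => exact closure_inv_prime p hp (hn.2 p hp dvd_rfl)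
  | mul a b ha hb =>
    have h0 : a ≠ 0 ∧ b ≠ 0 := by
      have := hn.1
      constructor
      · rintro rfl; simp at this
      · rintro rfl; simp at this
    push_cast
    rw [mul_inv]
    exact closure_mul (ha ⟨h0.1, fun p hp hd => hn.2 p hp (hd.mul_right b)⟩)
      (hb ⟨h0.2, fun p hp hd => hn.2 p hp (hd.mul_left a)⟩)

/-- `R0` is generated by `U0`. -/
theorem R0_span {r : ℂ} (hr : r ∈ R0) : r ∈ AddSubgroup.closure U0 := by
  obtain ⟨x, n, hn, rfl⟩ := hr
  rw [div_eq_mul_inv]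
  exact closure_mul (closure_gauss x) (closure_inv n hn)

end Pool.Agent.MP8b8716.GI
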