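import Pool.Agent.Lib.MP_8b8716_co.Defs
import Pool.Agent.Lib.MP_8b8716_co.Gauss

/-!
# Module A3: the torsion part is far from zero on the Gaussian unit vectors
-/

set_option autoImplicit false

open Complex

namespace Pool.Agent.MP8b8716.A3

private theorem cos_walk_pos (ψ φ : ℝ) (hφ : 0 < φ) : ∃ k : ℕ, |Real.cos (ψ + k * φ)| ≤ φ := by
  obtain ⟨N, hN⟩ := exists_nat_ge ((ψ - Real.pi / 2) / (2 * Real.pi))
  have hpi := Real.pi_pos
  rw [div_le_iff₀ (by positivity)] at hN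
  set M : ℝ := Real.pi / 2 + N * (2 * Real.pi) with hM
  have hx : 0 ≤ (M - ψ) / φ := div_nonneg (by linarith) hφ.le
  refine ⟨⌊(M - ψ) / φ⌋₊, ?_⟩
  set k := ⌊(M - ψ) / φ⌋₊ with hk
  have h1 : (k : ℝ) * φ ≤ M - ψ := by
    have := Nat.floor_le hx
    rwa [← hk, le_div_iff₀ hφ] at this
  have h2 : M - ψ < (k + 1 : ℝ) * φ := by
    have := Nat.lt_floor_add_one ((M - ψ) / φ)
    rwa [← hk, div_lt_iff₀ hφ] at this
  set r : ℝ := M - ψ - k * φ with hr
  have h3 : ψ + k * φ = (Real.pi / 2 - r) + N * (2 * Real.pi) := by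
    rw [hr, hM]
    ring
  rw [h3, Real.cos_add_nat_mul_two_pi, Real.cos_pi_div_two_sub]
  calc |Real.sin r| ≤ |r| := Real.abs_sin_le_abs
    _ = r := abs_of_nonneg (by linarith)
    _ ≤ φ := by rw [hr]; linarith

private theorem cos_walk (ψ φ : ℝ) (hφ : φ ≠ 0) : ∃ k : ℕ, |Real.cos (ψ + k * φ)| ≤ |φ| := by
  rcases lt_or_gt_of_ne hφ with h | h
  · obtain ⟨k, hk⟩ := cos_walk_pos (-ψ) (-φ) (by linarith)
    refine ⟨k, ?_⟩
    rw [abs_of_neg h, ← Real.cos_neg]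
    convert hk using 3
    ring
  · obtain ⟨k, hk⟩ := cos_walk_pos ψ φ h
    exact ⟨k, by rwa [abs_of_pos h]⟩

/-- Powers of a unit complex number which is not a root of unity come close to every line. -/
theorem dense_powers (s γ : ℂ) (hs : ‖s‖ = 1) (h : ∀ k : ℕ, 0 < k → s ^ k ≠ 1) (ε : ℝ)
    (hε : 0 < ε) : ∃ k : ℕ, |(γ * s ^ k).re| < ε := by
  have hpi := Real.pi_pos
  set ξ : ℝ := arg s / (2 * Real.pi) with hξ
  have hs' : s = exp (((2 * Real.pi * ξ : ℝ) : ℂ) * I) := by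
    have h1 := norm_mul_exp_arg_mul_I s
    rw [hs, ofReal_one, one_mul] at h1
    conv_lhs => rw [← h1]
    congr 2
    rw [hξ]
    congr 1
    field_simp
  obtain ⟨n, hn⟩ := exists_nat_gt (‖γ‖ * (2 * Real.pi) / ε)
  obtain ⟨j, hj, -, hjr⟩ := Real.exists_nat_abs_mul_sub_round_le ξ (Nat.succ_pos n)
  set φ : ℝ := 2 * Real.pi * (j * ξ - round (j * ξ)) with hφ
  have hsj : s ^ j = exp ((φ : ℂ) * I) := by
    conv_lhs => rw [hs', ← exp_nat_mul]
    rw [Complex.exp_eq_exp_iff_exists_int]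
    refine ⟨round (j * ξ), ?_⟩
    rw [hφ]
    push_cast
    ring
  have hφ0 : φ ≠ 0 := by
    intro h0
    apply h j hj
    rw [hsj, h0]
    simp
  obtain ⟨k, hk⟩ := cos_walk (arg γ) φ hφ0
  refine ⟨j * k, ?_⟩
  have e : γ * s ^ (j * k) = (‖γ‖ : ℂ) * exp (((arg γ + k * φ : ℝ) : ℂ) * I) := by
    rw [pow_mul, hsj, ← exp_nat_mul]
    conv_lhs => rw [← norm_mul_exp_arg_mul_I γ]
    rw [mul_assoc, ← exp_add]
    congr 2
    push_cast
    ring
  rw [e, re_ofReal_mul, exp_ofReal_mul_I_re, abs_mul, abs_of_nonneg (norm_nonneg γ)]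
  have h1 : |φ| ≤ 2 * Real.pi * (1 / ((n : ℝ) + 1)) := by
    rw [hφ, abs_mul, abs_of_pos (by positivity : 0 < 2 * Real.pi)]
    refine mul_le_mul_of_nonneg_left (hjr.trans ?_) (by positivity)
    refine one_div_le_one_div_of_le (by positivity) ?_
    push_cast
    linarith
  have h2 : ‖γ‖ * |Real.cos (arg γ + k * φ)| ≤ ‖γ‖ * (2 * Real.pi * (1 / ((n : ℝ) + 1))) :=
    mul_le_mul_of_nonneg_left (hk.trans h1) (norm_nonneg γ)
  refine h2.trans_lt ?_
  rw [div_lt_iff₀ hε] at hn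
  rw [← mul_assoc, mul_one_div, div_lt_iff₀ (by positivity)]
  nlinarith

private theorem norm_coe_le' (t : ℝ) : ‖(t : UnitAddCircle)‖ ≤ |t| := by
  rw [UnitAddCircle.norm_eq]
  simpa using round_le t 0

private theorem ch_add (β x y : ℂ) : ch β (x + y) = ch β x + ch β y := by
  unfold ch
  rw [mul_add, add_re]
  rfl

private theorem not_root (m : ℕ) (hm : 0 < m) (k : ℕ) (hk : 0 < k) :
    ((1 + ((2 * m : ℤ) : ℂ) * I) / (1 - ((2 * m : ℤ) : ℂ) * I)) ^ k ≠ 1 := by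
  intro h
  have hne : (1 - ((2 * m : ℤ) : ℂ) * I) ≠ 0 := by
    intro h0
    have := congrArg Complex.re h0
    simp at this
  rw [div_pow, div_eq_one_iff_eq (pow_ne_zero _ hne)] at h
  let x : GaussianInt := ⟨1, 2 * m⟩
  let x' : GaussianInt := ⟨1, -(2 * m)⟩
  have hx : (x : ℂ) = 1 + ((2 * m : ℤ) : ℂ) * I := by
    simp [x, GaussianInt.toComplex_def]
  have hx' : (x' : ℂ) = 1 - ((2 * m : ℤ) : ℂ) * I := by
    simp [x', GaussianInt.toComplex_def]
    ring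
  rw [← hx, ← hx', ← map_pow, ← map_pow, GaussianInt.toComplex_inj] at h
  have hcop : IsCoprime x x' := by
    refine ⟨x' - ⟨2 * m ^ 2, 0⟩, - ⟨2 * m ^ 2, 0⟩, ?_⟩
    ext
    · simp [x, x']
      ring
    · simp [x, x']
      ring
  have h2 : IsCoprime (x ^ k) (x ^ k) := by
    have := hcop.pow (m := k) (n := k)
    rwa [← h] at this
  rw [isCoprime_self, isUnit_pow_iff hk.ne', ← Zsqrtd.norm_eq_one_iff] at h2
  have h3 : Zsqrtd.norm x = 1 + 4 * m ^ 2 := by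
    simp [Zsqrtd.norm, x]
    ring
  rw [h3] at h2
  have h4 : ((1 : ℤ) + 4 * m ^ 2) = ((1 + 4 * m ^ 2 : ℕ) : ℤ) := by push_cast; rfl
  rw [h4, Int.natAbs_natCast] at h2
  have : 0 < m ^ 2 := by positivity
  omega

theorem remove (θ : ℂ →+ UnitAddCircle) (hs : ∀ s ∈ U0, 1 / 3 ≤ ‖θ s‖) (β : ℂ) (m : ℕ)
    (hm : 0 < m) (h : ∀ y ∈ R0, m • (θ y - ch β y) = 0) (s : ℂ) (hsU : s ∈ U0) :
    1 / 3 ≤ ‖θ s - ch β s‖ := by
  set s0 : ℂ := (1 + ((2 * m : ℤ) : ℂ) * I) / (1 - ((2 * m : ℤ) : ℂ) * I) with hs0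
  have hs0U : s0 ∈ U0 := GI.cayley_mem (2 * m) (even_two_mul _)
  have hne : (1 - ((2 * m : ℤ) : ℂ) * I) ≠ 0 := by
    intro h0
    have := congrArg Complex.re h0
    simp at this
  have hs01 : s0 - 1 = m * (2 * I * (1 + s0)) := by
    rw [hs0]
    field_simp
    push_cast
    ring_nf
    try rw [I_sq]
    try ring
  have hgeo : ∀ k : ℕ, ∃ r ∈ R0, s * s0 ^ k = s + m * r := by
    intro k
    induction k with
    | zero =>
      refine ⟨0, ?_, by simp⟩
      simpa using GI.R0_natCast 0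
    | succ k ih =>
      obtain ⟨r, hr, e⟩ := ih
      refine ⟨r + (s * s0 ^ k) * (2 * I * (1 + s0)), ?_, ?_⟩
      · refine GI.R0_add hr (GI.R0_mul (GI.U0_R0 (GI.U0_mul hsU (GI.U0_pow hs0U k))) ?_)
        refine GI.R0_mul (GI.R0_mul ?_ GI.R0_I) (GI.R0_add GI.R0_one (GI.U0_R0 hs0U))
        simpa using GI.R0_natCast 2
      · have e1 : s * s0 ^ (k + 1) = s * s0 ^ k + (s * s0 ^ k) * (s0 - 1) := by ring
        rw [e1, hs01]
        conv_lhs => rw [e]
        rw [e]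
        ring
  have hτ : ∀ k : ℕ, θ (s * s0 ^ k) - ch β (s * s0 ^ k) = θ s - ch β s := by
    intro k
    obtain ⟨r, hr, e⟩ := hgeo k
    have h1 : ∀ l : ℕ, θ (s + l * r) - ch β (s + l * r) = θ s - ch β s + l • (θ r - ch β r) := by
      intro l
      induction l with
      | zero => simp
      | succ l ih =>
        have e2 : s + ((l + 1 : ℕ) : ℂ) * r = (s + l * r) + r := by push_cast; ring
        rw [e2, map_add, ch_add, succ_nsmul, ← add_assoc, ← ih]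
        abel
    rw [e, h1, h r hr, add_zero]
  refine le_of_forall_pos_sub_le fun ε hε => ?_
  obtain ⟨k, hk⟩ := dense_powers s0 (β * s) (GI.U0_norm hs0U)
    (fun k hk => not_root m hm k hk) ε hε
  rw [← hτ k]
  have h1 := hs _ (GI.U0_mul hsU (GI.U0_pow hs0U k))
  have h2 : ‖ch β (s * s0 ^ k)‖ ≤ |(β * s * s0 ^ k).re| := by
    unfold ch
    rw [mul_assoc]
    exact norm_coe_le' _
  have h3 := norm_sub_norm_le (θ (s * s0 ^ k)) (ch β (s * s0 ^ k))
  linarith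

end Pool.Agent.MP8b8716.A3
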