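import Pool.Agent.Lib.MP_8b8716_co.Arcs
import Pool.Agent.Lib.MP_8b8716_co.Gauss

set_option autoImplicit false

/-!
# Module TA4: the exponent of the torsion character (squares of odd primes, 8, primes 1 mod 4)
-/

open Complex

namespace Pool.Agent.MP8b8716.TA4

/-- `m` is the exact exponent of `τ` on `R0`. -/
def Exact (τ : ℂ →+ UnitAddCircle) (m : ℕ) : Prop :=
  0 < m ∧ (∀ y ∈ R0, m • τ y = 0) ∧ ∀ d : ℕ, 0 < d → (∀ y ∈ R0, d • τ y = 0) → m ∣ d

theorem exists_exact (τ : ℂ →+ UnitAddCircle) (m : ℕ) (hm : 0 < m)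
    (h : ∀ y ∈ R0, m • τ y = 0) : ∃ d, Exact τ d := by
  classical
  have hex : ∃ d : ℕ, 0 < d ∧ ∀ y ∈ R0, d • τ y = 0 := ⟨m, hm, h⟩
  obtain ⟨h1, h2⟩ := Nat.find_spec hex
  refine ⟨Nat.find hex, h1, h2, fun d hd hd' => ?_⟩
  rw [Nat.dvd_iff_mod_eq_zero]
  by_contra hne
  have hlt : d % Nat.find hex < Nat.find hex := Nat.mod_lt _ h1
  refine Nat.find_min hex hlt ⟨Nat.pos_of_ne_zero hne, fun y hy => ?_⟩
  have h3 := hd' y hy
  have h4 : d = Nat.find hex * (d / Nat.find hex) + d % Nat.find hex := (Nat.div_add_mod _ _).symm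
  rw [h4, add_smul, mul_comm, mul_smul, h2 y hy, smul_zero, zero_add] at h3
  exact h3

theorem not_one_mod_four (τ : ℂ →+ UnitAddCircle) (m : ℕ) (hm : Exact τ m) (p : ℕ)
    (hp : p.Prime) (h4 : p % 4 = 1) : ¬ p ∣ m := by
  rintro ⟨k, hk⟩
  obtain ⟨hm0, hmτ, hmin⟩ := hm
  have hk0 : 0 < k := by
    rcases Nat.eq_zero_or_pos k with h | h
    · rw [hk, h, mul_zero] at hm0
      exact absurd hm0 (lt_irrefl _)
    · exact h
  have hd : m ∣ k := by
    apply hmin k hk0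
    intro y hy
    have hpc : (p : ℂ) ≠ 0 := by exact_mod_cast hp.ne_zero
    have hz : y * ((p : ℂ))⁻¹ ∈ R0 := GI.R0_mul hy (GI.R0_inv (GI.N1_prime hp h4))
    have e : y = p • (y * ((p : ℂ))⁻¹) := by
      rw [nsmul_eq_mul]
      field_simp
    rw [e, map_nsmul, ← mul_smul, mul_comm k p, ← hk]
    exact hmτ _ hz
  have := Nat.le_of_dvd hk0 hd
  have h2 := hp.two_le
  nlinarith

/-- Some unit vector `s` has `d • τ (I s) ≠ 0` if `d` is not a multiple of the exponent. -/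
private theorem exists_s (τ : ℂ →+ UnitAddCircle) (m : ℕ) (hm : Exact τ m) (d : ℕ) (hd0 : 0 < d)
    (hd : ¬ m ∣ d) : ∃ s ∈ U0, d • τ (I * s) ≠ 0 := by
  by_contra hcon
  push Not at hcon
  apply hd
  apply hm.2.2 d hd0
  have hU : ∀ u ∈ U0, d • τ u = 0 := by
    intro u hu
    have h1 := hcon (-I * u) (GI.U0_mul (GI.U0_neg GI.U0_I) hu)
    have e : I * (-I * u) = u := by
      rw [← mul_assoc, mul_neg, I_mul_I, neg_neg, one_mul]
    rwa [e] at h1
  have hcl : ∀ y ∈ AddSubgroup.closure U0, d • τ y = 0 := by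
    intro y hy
    induction hy using AddSubgroup.closure_induction with
    | mem x hx => exact hU x hx
    | zero => rw [map_zero, smul_zero]
    | add a b _ _ ha hb => rw [map_add, smul_add, ha, hb, add_zero]
    | neg a _ ha => rw [map_neg, smul_neg, ha, neg_zero]
  exact fun y hy => hcl y (GI.R0_span hy)

/-- The effect of a Cayley vector close to `1`. -/
private theorem cayley_shift (τ : ℂ →+ UnitAddCircle) (m : ℕ) (hm : ∀ y ∈ R0, m • τ y = 0)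
    (y : ℕ) (hy : Even y) (hdvd : m ∣ 2 * y ^ 2) (s : ℂ) (hs : s ∈ U0) :
    ∃ u ∈ U0, τ u = τ s + (2 * y) • τ (I * s) := by
  obtain ⟨k, hk⟩ := hdvd
  have hyz : Even (y : ℤ) := by exact_mod_cast hy
  have hc := GI.cayley_mem (y : ℤ) hyz
  have hN := GI.N1_sq (y : ℤ) hyz
  have hNc : (((1 + (y : ℤ) ^ 2).natAbs : ℕ) : ℂ) = 1 + (y : ℂ) ^ 2 := by
    have h1 : (((1 + (y : ℤ) ^ 2).natAbs : ℕ) : ℤ) = 1 + (y : ℤ) ^ 2 :=
      Int.natAbs_of_nonneg (by positivity)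
    exact_mod_cast h1
  have hinv := GI.R0_inv hN
  rw [hNc] at hinv
  have hNne : (1 + (y : ℂ) ^ 2) ≠ 0 := by
    rw [← hNc]
    exact_mod_cast hN.1
  refine ⟨s * ((1 + ((y : ℤ) : ℂ) * I) / (1 - ((y : ℤ) : ℂ) * I)), GI.U0_mul hs hc, ?_⟩
  set r : ℂ := -((k : ℂ) * (1 + (y : ℂ) * I) * (1 + (y : ℂ) ^ 2)⁻¹ * s) with hr
  have hrR : r ∈ R0 := by
    rw [hr]
    apply GI.R0_neg
    apply GI.R0_mul _ (GI.U0_R0 hs)
    apply GI.R0_mul _ hinv
    apply GI.R0_mul (GI.R0_natCast k)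
    apply GI.R0_add GI.R0_one
    exact GI.R0_mul (GI.R0_natCast y) GI.R0_I
  have hkc : (2 : ℂ) * (y : ℂ) ^ 2 = (m : ℂ) * (k : ℂ) := by exact_mod_cast hk
  have hprod : (1 - (y : ℂ) * I) * (1 + (y : ℂ) * I) = 1 + (y : ℂ) ^ 2 := by
    linear_combination (-(y : ℂ) ^ 2) * I_mul_I
  have hne2 : (1 - (y : ℂ) * I) ≠ 0 := by
    intro h
    rw [h, zero_mul] at hprod
    exact hNne hprod.symm
  have e : s * ((1 + ((y : ℤ) : ℂ) * I) / (1 - ((y : ℤ) : ℂ) * I))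
      = s + (2 * y) • (I * s) + m • r := by
    have e1 : (1 + (y : ℂ) * I) / (1 - (y : ℂ) * I)
        = (1 + (y : ℂ) * I) ^ 2 / (1 + (y : ℂ) ^ 2) := by
      rw [div_eq_div_iff hne2 hNne, ← hprod]
      ring
    rw [hr, nsmul_eq_mul, nsmul_eq_mul, Int.cast_natCast, e1]
    push_cast
    field_simp
    linear_combination (s * (y : ℂ) ^ 2) * I_mul_I + (-(1 + (y : ℂ) * I) * s) * hkc
  rw [e, map_add, map_add, map_nsmul, map_nsmul, hm r hrR, add_zero]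

theorem not_sq_dvd (τ : ℂ →+ UnitAddCircle) (hs : ∀ s ∈ U0, 1 / 3 ≤ ‖τ s‖) (m : ℕ)
    (hm : Exact τ m) (p : ℕ) (hp : p.Prime) (h2 : p ≠ 2) : ¬ p ^ 2 ∣ m := by
  rintro ⟨k, hk⟩
  have hm0 := hm.1
  have hk0 : 0 < k := by
    rcases Nat.eq_zero_or_pos k with h | h
    · rw [hk, h, mul_zero] at hm0
      exact absurd hm0 (lt_irrefl _)
    · exact h
  have hp3 : 3 ≤ p := by
    have := hp.two_le
    omega
  have hd0 : 0 < p * k := Nat.mul_pos hp.pos hk0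
  have hnd : ¬ m ∣ p * k := by
    intro h
    have h1 := Nat.le_of_dvd hd0 h
    rw [hk] at h1
    nlinarith
  obtain ⟨s, hsU, hne⟩ := exists_s τ m hm (p * k) hd0 hnd
  set v := (p * k) • τ (I * s) with hv
  have hpv : p • v = 0 := by
    rw [hv, ← mul_smul, ← mul_assoc, ← pow_two, ← hk]
    exact hm.2.1 _ (GI.R0_mul GI.R0_I (GI.U0_R0 hsU))
  have h4v : 4 • v ≠ 0 := by
    intro h4
    have h5 := addOrderOf_dvd_iff_nsmul_eq_zero.mpr hpv
    have h6 := addOrderOf_dvd_iff_nsmul_eq_zero.mpr h4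
    have h7 : Nat.Coprime 4 p := by
      have : Nat.Coprime (2 ^ 2) p :=
        Nat.Coprime.pow_left 2 ((Nat.coprime_primes Nat.prime_two hp).mpr (Ne.symm h2))
      simpa using this
    have h8 : addOrderOf v ∣ 1 := by
      rw [← Nat.Coprime.gcd_eq_one h7]
      exact Nat.dvd_gcd h6 h5
    rw [Nat.dvd_one, AddMonoid.addOrderOf_eq_one_iff] at h8
    exact hne h8
  obtain ⟨l, -, hl⟩ := AR.ap_near p hp (4 • v) (τ s)
    (by rw [← mul_smul, mul_comm, mul_smul, hpv, smul_zero]) h4v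
  obtain ⟨u, huU, hu⟩ := cayley_shift τ m hm.2.1 (2 * (p * k) * l)
    ⟨p * k * l, by ring⟩ ⟨8 * k * l ^ 2, by rw [hk]; ring⟩ s hsU
  have e : (2 * (2 * (p * k) * l)) • τ (I * s) = l • (4 • v) := by
    rw [hv, ← mul_smul, ← mul_smul]
    congr 1
    ring
  rw [e] at hu
  have h9 := hs u huU
  rw [hu] at h9
  have h10 : (1 : ℝ) / (2 * p) ≤ 1 / 6 := by
    have : (3 : ℝ) ≤ p := by exact_mod_cast hp3
    rw [div_le_div_iff₀ (by positivity) (by norm_num)]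
    linarith
  linarith

theorem not_eight_dvd (τ : ℂ →+ UnitAddCircle) (hs : ∀ s ∈ U0, 1 / 3 ≤ ‖τ s‖) (m : ℕ)
    (hm : Exact τ m) : ¬ 8 ∣ m := by
  rintro ⟨k, hk⟩
  have hm0 := hm.1
  have hk0 : 0 < k := by omega
  have hnd : ¬ m ∣ 4 * k := by
    intro h
    have h1 := Nat.le_of_dvd (by omega) h
    omega
  obtain ⟨s, hsU, hne⟩ := exists_s τ m hm (4 * k) (by omega) hnd
  set v := (4 * k) • τ (I * s) with hv
  have h2v : 2 • v = 0 := by
    rw [hv, ← mul_smul, ← mul_assoc]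
    have := hm.2.1 _ (GI.R0_mul GI.R0_I (GI.U0_R0 hsU))
    rw [hk] at this
    simpa using this
  obtain ⟨l, hl2, hl⟩ := AR.ap_near 2 Nat.prime_two v (τ s) h2v hne
  obtain ⟨u, huU, hu⟩ := cayley_shift τ m hm.2.1 (2 * k) ⟨k, by ring⟩
    ⟨k, by rw [hk]; ring⟩ s hsU
  have e : (2 * (2 * k)) • τ (I * s) = v := by
    rw [hv]
    congr 1
    ring
  rw [e] at hu
  have h1 := hs s hsU
  have h2 := hs u huU
  rw [hu] at h2
  norm_num at hl
  interval_cases l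
  · simp only [zero_smul, add_zero] at hl
    linarith
  · simp only [one_smul] at hl
    linarith

end Pool.Agent.MP8b8716.TA4
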