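import Pool.Agent.Lib.MP_8b8716_co.Defs
import Pool.Agent.Lib.MP_8b8716_co.Gauss
import Pool.Agent.Lib.MP_8b8716_co.Arcs
import Pool.Agent.Lib.MP_8b8716_co.TorsA

set_option autoImplicit false

/-!
# The exponent of the torsion character: no prime at least five divides it
-/

open Complex

namespace Pool.Agent.MP8b8716.TB4

/-- A fraction with denominator `p` is zero on the circle iff `p` divides the numerator. -/
private theorem frac_zero {p : ℕ} (hp : 0 < p) (a : ℤ) :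
    (((a : ℝ) / (p : ℝ) : ℝ) : UnitAddCircle) = 0 ↔ (p : ℤ) ∣ a := by
  have hp0 : (p : ℝ) ≠ 0 := Nat.cast_ne_zero.2 hp.ne'
  rw [AddCircle.coe_eq_zero_iff]
  constructor
  · rintro ⟨n, hn⟩
    refine ⟨n, ?_⟩
    rw [zsmul_eq_mul, mul_one, eq_div_iff hp0] at hn
    have : ((n * p : ℤ) : ℝ) = (a : ℝ) := by push_cast; exact hn
    have h2 : n * p = a := by exact_mod_cast this
    rw [← h2]; ring
  · rintro ⟨n, hn⟩
    refine ⟨n, ?_⟩
    rw [zsmul_eq_mul, mul_one, hn, eq_div_iff hp0]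
    push_cast
    ring

/-- The points killed by `p` are the fractions with denominator `p`. -/
private theorem tors {p : ℕ} (hp : 0 < p) (z : UnitAddCircle) (h : p • z = 0) :
    ∃ a : ℤ, z = (((a : ℝ) / (p : ℝ) : ℝ) : UnitAddCircle) := by
  have hp0 : (p : ℝ) ≠ 0 := Nat.cast_ne_zero.2 hp.ne'
  obtain ⟨t, rfl⟩ := QuotientAddGroup.mk_surjective z
  change p • ((t : ℝ) : UnitAddCircle) = 0 at h
  rw [← AddCircle.coe_nsmul, AddCircle.coe_eq_zero_iff] at h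
  obtain ⟨n, hn⟩ := h
  rw [zsmul_eq_mul, mul_one, nsmul_eq_mul] at hn
  refine ⟨n, ?_⟩
  rw [hn, mul_div_cancel_left₀ _ hp0]

private theorem frac_zsmul (p : ℕ) (u a : ℤ) :
    u • (((a : ℝ) / (p : ℝ) : ℝ) : UnitAddCircle) =
      ((((u * a : ℤ) : ℝ) / (p : ℝ) : ℝ) : UnitAddCircle) := by
  rw [← AddCircle.coe_zsmul]
  congr 1
  rw [zsmul_eq_mul]
  push_cast
  ring

private theorem map_int (τ : ℂ →+ UnitAddCircle) (u : ℤ) (z : ℂ) :
    τ ((u : ℂ) * z) = u • τ z := by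
  rw [← zsmul_eq_mul, map_zsmul]

private theorem map_nat (τ : ℂ →+ UnitAddCircle) (u : ℕ) (z : ℂ) :
    τ ((u : ℂ) * z) = u • τ z := by
  rw [← nsmul_eq_mul, map_nsmul]

/-- A point killed by two coprime integers is zero. -/
private theorem coprime_kill {n p : ℕ} (hnp : n.Coprime p) (w : UnitAddCircle) (h1 : n • w = 0)
    (h2 : p • w = 0) : w = 0 := by
  have h3 : addOrderOf w ∣ Nat.gcd n p :=
    Nat.dvd_gcd (addOrderOf_dvd_of_nsmul_eq_zero h1) (addOrderOf_dvd_of_nsmul_eq_zero h2)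
  rw [hnp] at h3
  have h4 : addOrderOf w = 1 := Nat.dvd_one.1 h3
  exact AddMonoid.addOrderOf_eq_one_iff.1 h4

/-- Three roots modulo `p` of a polynomial of degree at most two. -/
private theorem three_roots {p : ℕ} (hp : p.Prime) (h2 : p ≠ 2) (a b c : ℤ) (t₁ t₂ t₃ : ℤ)
    (h12 : ¬ (p : ℤ) ∣ t₁ - t₂) (h13 : ¬ (p : ℤ) ∣ t₁ - t₃) (h23 : ¬ (p : ℤ) ∣ t₂ - t₃)
    (e₁ : (p : ℤ) ∣ c * (1 + t₁ ^ 2) - a * (1 - t₁ ^ 2) - b * (2 * t₁))
    (e₂ : (p : ℤ) ∣ c * (1 + t₂ ^ 2) - a * (1 - t₂ ^ 2) - b * (2 * t₂))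
    (e₃ : (p : ℤ) ∣ c * (1 + t₃ ^ 2) - a * (1 - t₃ ^ 2) - b * (2 * t₃)) :
    (p : ℤ) ∣ a ∧ (p : ℤ) ∣ b := by
  have hpp : Prime (p : ℤ) := Nat.prime_iff_prime_int.1 hp
  have h2' : ¬ (p : ℤ) ∣ 2 := by
    intro h
    have h3 : p ∣ 2 := by exact_mod_cast h
    exact h2 ((Nat.prime_dvd_prime_iff_eq hp Nat.prime_two).1 h3)
  have f₁ : (p : ℤ) ∣ (a + c) * (t₁ + t₂) - 2 * b := by
    have h3 : (p : ℤ) ∣ (t₁ - t₂) * ((a + c) * (t₁ + t₂) - 2 * b) := by
      have := dvd_sub e₁ e₂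
      refine this.trans (dvd_of_eq ?_)
      ring
    exact (hpp.dvd_mul.1 h3).resolve_left h12
  have f₂ : (p : ℤ) ∣ (a + c) * (t₁ + t₃) - 2 * b := by
    have h3 : (p : ℤ) ∣ (t₁ - t₃) * ((a + c) * (t₁ + t₃) - 2 * b) := by
      have := dvd_sub e₁ e₃
      refine this.trans (dvd_of_eq ?_)
      ring
    exact (hpp.dvd_mul.1 h3).resolve_left h13
  have f₃ : (p : ℤ) ∣ a + c := by
    have h3 : (p : ℤ) ∣ (a + c) * (t₂ - t₃) := by
      have := dvd_sub f₁ f₂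
      refine this.trans (dvd_of_eq ?_)
      ring
    exact (hpp.dvd_mul.1 h3).resolve_right h23
  have f₄ : (p : ℤ) ∣ b := by
    have h3 : (p : ℤ) ∣ 2 * b := by
      have := dvd_sub (f₃.mul_right (t₁ + t₂)) f₁
      refine this.trans (dvd_of_eq ?_)
      ring
    exact (hpp.dvd_mul.1 h3).resolve_left h2'
  have f₅ : (p : ℤ) ∣ 2 * a := by
    have h3 := dvd_sub (dvd_sub (f₃.mul_right (1 + t₁ ^ 2)) (f₄.mul_right (2 * t₁))) e₁
    refine h3.trans (dvd_of_eq ?_)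
    ring
  exact ⟨(hpp.dvd_mul.1 f₅).resolve_left h2', f₄⟩

/-- The character `m' • τ` does not vanish on both `1` and `I`. -/
private theorem not_both (τ : ℂ →+ UnitAddCircle) (m : ℕ) (hm : TA4.Exact τ m) (p m' : ℕ)
    (hp : p.Prime) (hmm : m = p * m') (hA : m' • τ 1 = 0) (hB : m' • τ I = 0) : False := by
  have hm'0 : 0 < m' := by
    rcases Nat.eq_zero_or_pos m' with h | h
    · have := hm.1
      rw [hmm, h] at this
      simp at this
    · exact h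
  have h4 : p % 4 ≠ 1 := fun h4 => TA4.not_one_mod_four τ m hm p hp h4 ⟨m', hmm⟩
  have hkill : ∀ y ∈ R0, m' • τ y = 0 := by
    rintro y hy
    have hy0 := hy
    obtain ⟨x, n, hn, hyx⟩ := hy
    have hnp : n.Coprime p := by
      rw [Nat.coprime_comm, hp.coprime_iff_not_dvd]
      intro h
      exact h4 (hn.2 p hp h)
    have hn0 : (n : ℂ) ≠ 0 := Nat.cast_ne_zero.2 hn.1
    apply coprime_kill hnp
    · have h1 : (n : ℂ) * y = (x.re : ℂ) * 1 + (x.im : ℂ) * I := by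
        rw [hyx, mul_div_cancel₀ _ hn0, GaussianInt.toComplex_def, mul_one]
      have h2 : n • τ y = x.re • τ 1 + x.im • τ I := by
        rw [← map_nat, h1, map_add, map_int, map_int]
      calc n • m' • τ y = m' • (n • τ y) := smul_comm _ _ _
        _ = m' • (x.re • τ 1 + x.im • τ I) := by rw [h2]
        _ = x.re • (m' • τ 1) + x.im • (m' • τ I) := by
          rw [smul_add, smul_comm m' x.re, smul_comm m' x.im]
        _ = 0 := by rw [hA, hB, smul_zero, smul_zero, add_zero]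
    · rw [← mul_smul, ← hmm]
      exact hm.2.1 y hy0
  have h5 := hm.2.2 m' hm'0 hkill
  rw [hmm] at h5
  have h6 := Nat.le_of_dvd hm'0 h5
  have h7 := hp.two_le
  nlinarith

/-- The Cayley unit vectors close to one. -/
private theorem cayley_sub (m' k : ℤ) (y : ℤ) (hy : y = 2 * m' * k) (hye : Even y) :
    ∃ r ∈ R0, (1 + (y : ℂ) * I) / (1 - (y : ℂ) * I) - 1 = (m' : ℂ) * r := by
  have hN := GI.N1_sq y hye
  have hcast : (((1 + y ^ 2).natAbs : ℕ) : ℂ) = 1 + (y : ℂ) ^ 2 := by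
    have h0 : 0 ≤ 1 + y ^ 2 := by positivity
    have h1 : (((1 + y ^ 2).natAbs : ℕ) : ℤ) = 1 + y ^ 2 := Int.natAbs_of_nonneg h0
    have h2 : ((((1 + y ^ 2).natAbs : ℕ) : ℤ) : ℂ) = ((1 + y ^ 2 : ℤ) : ℂ) := by rw [h1]
    rw [Int.cast_natCast] at h2
    rw [h2]
    push_cast
    ring
  have hinv := GI.R0_inv hN
  rw [hcast] at hinv
  have hne : (1 : ℂ) + (y : ℂ) ^ 2 ≠ 0 := by
    rw [← hcast]
    exact Nat.cast_ne_zero.2 hN.1
  have hprod : (1 - (y : ℂ) * I) * (1 + (y : ℂ) * I) = 1 + (y : ℂ) ^ 2 := by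
    linear_combination (-(y : ℂ) ^ 2) * Complex.I_sq
  have hden : (1 : ℂ) - (y : ℂ) * I ≠ 0 := by
    intro h
    rw [h, zero_mul] at hprod
    exact hne hprod.symm
  refine ⟨((4 * k : ℤ) : ℂ) * I * (1 + (y : ℂ) * I) * (1 + (y : ℂ) ^ 2)⁻¹, ?_, ?_⟩
  · exact GI.R0_mul (GI.R0_mul (GI.R0_mul (GI.R0_intCast _) GI.R0_I)
      (GI.R0_add GI.R0_one (GI.R0_mul (GI.R0_intCast _) GI.R0_I))) hinv
  · rw [← hprod]
    have hnum : (1 : ℂ) + (y : ℂ) * I ≠ 0 := by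
      intro h
      rw [h, mul_zero] at hprod
      exact hne hprod.symm
    have hyc : (y : ℂ) = 2 * (m' : ℂ) * (k : ℂ) := by
      rw [hy]; push_cast; ring
    field_simp
    rw [hyc]
    push_cast
    ring

/-- The identity satisfied by the Cayley unit vectors. -/
private theorem cayley_eq (τ : ℂ →+ UnitAddCircle) (y : ℤ) :
    (1 + y ^ 2) • τ ((1 + (y : ℂ) * I) / (1 - (y : ℂ) * I)) =
      (1 - y ^ 2) • τ 1 + (2 * y) • τ I := by
  have hne : (1 : ℂ) + (y : ℂ) ^ 2 ≠ 0 := by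
    have h1 : (1 + y ^ 2 : ℤ) ≠ 0 := by positivity
    have h2 : ((1 + y ^ 2 : ℤ) : ℂ) ≠ 0 := Int.cast_ne_zero.2 h1
    push_cast at h2
    exact h2
  have hprod : (1 - (y : ℂ) * I) * (1 + (y : ℂ) * I) = 1 + (y : ℂ) ^ 2 := by
    linear_combination (-(y : ℂ) ^ 2) * Complex.I_sq
  have hden : (1 : ℂ) - (y : ℂ) * I ≠ 0 := by
    intro h
    rw [h, zero_mul] at hprod
    exact hne hprod.symm
  rw [← map_int, ← map_int, ← map_int, ← map_add]
  congr 1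
  push_cast
  rw [mul_one, ← hprod]
  field_simp
  linear_combination ((y : ℂ) ^ 2) * Complex.I_sq

theorem not_big_prime (τ : ℂ →+ UnitAddCircle) (hs : ∀ s ∈ U0, 1 / 3 ≤ ‖τ s‖) (m : ℕ)
    (hm : TA4.Exact τ m) (p : ℕ) (hp : p.Prime) (h5 : 5 ≤ p) : ¬ p ∣ m := by
  rintro ⟨m', hmm⟩
  have h2 : p ≠ 2 := by omega
  have hp0 : 0 < p := hp.pos
  have hmp : ¬ p ∣ m' := by
    rintro ⟨d, hd⟩
    apply TA4.not_sq_dvd τ hs m hm p hp h2
    refine ⟨d, ?_⟩
    rw [hmm, hd]; ring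
  have hcop : IsCoprime ((2 * m' : ℕ) : ℤ) (p : ℤ) := by
    rw [Nat.isCoprime_iff_coprime, Nat.coprime_comm, hp.coprime_iff_not_dvd]
    intro h
    rcases hp.dvd_mul.1 h with h | h
    · exact h2 ((Nat.prime_dvd_prime_iff_eq hp Nat.prime_two).1 h)
    · exact hmp h
  obtain ⟨u, v, huv⟩ := hcop
  -- the Cayley parameters
  let y : ℕ → ℤ := fun t => 2 * (m' : ℤ) * (u * t)
  have hye : ∀ t, Even (y t) := fun t => ⟨(m' : ℤ) * (u * t), by simp only [y]; ring⟩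
  have hyt : ∀ t : ℕ, (p : ℤ) ∣ y t - t := by
    intro t
    refine ⟨-(v * t), ?_⟩
    simp only [y]
    push_cast at huv
    linear_combination (t : ℤ) * huv
  let s : ℕ → ℂ := fun t => (1 + (y t : ℂ) * I) / (1 - (y t : ℂ) * I)
  have hsU : ∀ t, s t ∈ U0 := fun t => GI.cayley_mem (y t) (hye t)
  have hcos : ∀ t, p • (τ (s t) - τ 1) = 0 := by
    intro t
    obtain ⟨r, hr, hr2⟩ := cayley_sub (m' : ℤ) (u * t) (y t) rfl (hye t)
    have h3 : τ (s t) - τ 1 = m' • τ r := by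
      rw [← map_sub]
      change τ ((1 + (y t : ℂ) * I) / (1 - (y t : ℂ) * I) - 1) = _
      rw [hr2, map_int, natCast_zsmul]
    rw [h3, ← mul_smul, ← hmm]
    exact hm.2.1 r hr
  -- the values
  set S : Finset UnitAddCircle := (Finset.range p).image (fun t => τ (s t)) with hS
  have hScard : S.card ≤ p / 3 + 1 := by
    apply AR.arc_card p hp0 (τ 1) S
    · intro x hx
      obtain ⟨t, _, rfl⟩ := Finset.mem_image.1 hx
      exact hcos t
    · intro x hx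
      obtain ⟨t, _, rfl⟩ := Finset.mem_image.1 hx
      exact hs _ (hsU t)
  have hlt : S.card * 2 < (Finset.range p).card := by
    rw [Finset.card_range]
    have h6 : p ≠ 6 := by
      rintro rfl
      exact absurd hp (by decide)
    omega
  obtain ⟨c₀, _, hc₀⟩ := Finset.exists_lt_card_fiber_of_mul_lt_card_of_maps_to
    (s := Finset.range p) (t := S) (f := fun t => τ (s t))
    (fun t ht => Finset.mem_image_of_mem _ ht) hlt
  obtain ⟨t₁, ht₁, t₂, ht₂, t₃, ht₃, h12, h13, h23⟩ := Finset.two_lt_card.1 hc₀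
  rw [Finset.mem_filter, Finset.mem_range] at ht₁ ht₂ ht₃
  -- fractions
  have hpk : ∀ z ∈ R0, p • (m' • τ z) = 0 := by
    intro z hz
    rw [← mul_smul, ← hmm]
    exact hm.2.1 z hz
  obtain ⟨a, ha⟩ := tors hp0 (m' • τ 1) (hpk 1 GI.R0_one)
  obtain ⟨b, hb⟩ := tors hp0 (m' • τ I) (hpk I GI.R0_I)
  obtain ⟨c, hc⟩ := tors hp0 (m' • c₀) (by
    rw [← ht₁.2]
    exact hpk _ (GI.U0_R0 (hsU t₁)))
  have key : ∀ t : ℕ, τ (s t) = c₀ →
      (p : ℤ) ∣ c * (1 + (t : ℤ) ^ 2) - a * (1 - (t : ℤ) ^ 2) - b * (2 * (t : ℤ)) := by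
    intro t ht
    have h3 := cayley_eq τ (y t)
    change (1 + y t ^ 2) • τ (s t) = _ at h3
    rw [ht] at h3
    have h4 : (1 + y t ^ 2) • (m' • c₀) = (1 - y t ^ 2) • (m' • τ 1) + (2 * y t) • (m' • τ I) := by
      rw [smul_comm (1 + y t ^ 2) m', h3, smul_add, smul_comm m' (1 - y t ^ 2),
        smul_comm m' (2 * y t)]
    rw [ha, hb, hc, frac_zsmul, frac_zsmul, frac_zsmul, ← AddCircle.coe_add, ← sub_eq_zero,
      ← AddCircle.coe_sub] at h4
    have h6 : (p : ℤ) ∣ (1 + y t ^ 2) * c - ((1 - y t ^ 2) * a + (2 * y t) * b) := by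
      rw [← frac_zero hp0, ← h4]
      congr 1
      push_cast
      ring
    have h7 : (p : ℤ) ∣ (y t - t) * ((c + a) * (y t + t) - 2 * b) := (hyt t).mul_right _
    have h8 := dvd_sub h6 h7
    refine h8.trans (dvd_of_eq ?_)
    ring
  have hnd : ∀ i j : ℕ, i < p → j < p → i ≠ j → ¬ (p : ℤ) ∣ (i : ℤ) - (j : ℤ) := by
    intro i j hi hj hij hd
    have h3 : |(i : ℤ) - (j : ℤ)| < (p : ℤ) := by
      rw [abs_lt]; omega
    have h4 := Int.eq_zero_of_abs_lt_dvd hd h3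
    omega
  have h9 := three_roots hp h2 a b c t₁ t₂ t₃ (hnd _ _ ht₁.1 ht₂.1 h12) (hnd _ _ ht₁.1 ht₃.1 h13)
    (hnd _ _ ht₂.1 ht₃.1 h23) (key _ ht₁.2) (key _ ht₂.2) (key _ ht₃.2)
  apply not_both τ m hm p m' hp hmm
  · rw [ha]; exact (frac_zero hp0 a).2 h9.1
  · rw [hb]; exact (frac_zero hp0 b).2 h9.2

end Pool.Agent.MP8b8716.TB4
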