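import Pool.Agent.Lib.MP_8b8716_co.Rational
import Pool.Agent.Lib.MP_8b8716_co.Remove
import Pool.Agent.Lib.MP_8b8716_co.TorsB

set_option autoImplicit false

/-!
# Theorem A
-/

open Complex

namespace Pool.Agent.MP8b8716.TA

private theorem dvd_twelve (d : ℕ) (hd : 0 < d) (h5 : ∀ p : ℕ, p.Prime → 5 ≤ p → ¬ p ∣ d)
    (h9 : ¬ 3 ^ 2 ∣ d) (h8 : ¬ 8 ∣ d) : d ∣ 12 := by
  rw [← Nat.factorization_le_iff_dvd hd.ne' (by norm_num)]
  intro p
  by_cases hp : p.Prime
  swap
  · rw [Nat.factorization_eq_zero_of_not_prime _ hp]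
    exact Nat.zero_le _
  by_cases hpd : p ∣ d
  swap
  · rw [Nat.factorization_eq_zero_of_not_dvd hpd]
    exact Nat.zero_le _
  have hp5 : p < 5 := by
    by_contra hcon
    exact h5 p hp (not_lt.1 hcon) hpd
  have h12 : (12 : ℕ) = 2 ^ 2 * 3 := by norm_num
  interval_cases p
  · exact absurd hp (by norm_num)
  · exact absurd hp (by norm_num)
  · have h1 : d.factorization 2 ≤ 2 := by
      by_contra hcon
      apply h8
      have h3 : 2 ^ 3 ∣ d :=
        (Nat.Prime.pow_dvd_iff_le_factorization (by norm_num) hd.ne').2 (by omega)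
      exact h3
    have h2 : 2 ≤ (12 : ℕ).factorization 2 :=
      (Nat.Prime.pow_dvd_iff_le_factorization (by norm_num) (by norm_num)).1 (by norm_num)
    exact h1.trans h2
  · have h1 : d.factorization 3 ≤ 1 := by
      by_contra hcon
      apply h9
      exact (Nat.Prime.pow_dvd_iff_le_factorization (by norm_num) hd.ne').2 (by omega)
    have h2 : 1 ≤ (12 : ℕ).factorization 3 :=
      (Nat.Prime.pow_dvd_iff_le_factorization (by norm_num) (by norm_num)).1 (by norm_num)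
    exact h1.trans h2
  · exact absurd hp (by norm_num)

theorem six_torsion (τ : ℂ →+ UnitAddCircle) (hs : ∀ s ∈ U0, 1 / 3 ≤ ‖τ s‖) (m : ℕ)
    (hm : 0 < m) (h : ∀ y ∈ R0, m • τ y = 0) (y : ℂ) (hy : y ∈ R0) : 6 • τ y = 0 := by
  obtain ⟨d, hd⟩ := TA4.exists_exact τ m hm h
  have h12 : d ∣ 12 := dvd_twelve d hd.1 (fun p hp h5 => TB4.not_big_prime τ hs d hd p hp h5)
    (TA4.not_sq_dvd τ hs d hd 3 (by norm_num) (by norm_num)) (TA4.not_eight_dvd τ hs d hd)
  have h12' : ∀ y ∈ R0, 12 • τ y = 0 := by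
    intro y hy
    obtain ⟨k, hk⟩ := h12
    rw [hk, mul_comm, mul_smul, hd.2.1 y hy, smul_zero]
  -- the unit vector
  have hn : Zsqrtd.norm (⟨9, 4⟩ : GaussianInt) = 97 := by
    rw [Zsqrtd.norm_def]; norm_num
  have hs1 := GI.quot_mem ⟨9, 4⟩ (by
    rw [hn]
    exact GI.N1_prime (by norm_num) (by norm_num))
  have e1 : ((⟨9, 4⟩ : GaussianInt) : ℂ) = 9 + 4 * I := by
    rw [GaussianInt.toComplex_def']; norm_num
  have e2 : ((star (⟨9, 4⟩ : GaussianInt) : GaussianInt) : ℂ) = 9 - 4 * I := by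
    rw [GaussianInt.toComplex_star, e1, map_add, map_mul, Complex.conj_I, map_ofNat, map_ofNat]
    ring
  rw [e1, e2] at hs1
  have hne : (9 - 4 * I : ℂ) ≠ 0 := by
    intro h0
    have := congrArg Complex.re h0
    norm_num at this
  have hr : ((-35 + 6 * I) / 97 : ℂ) ∈ R0 := by
    refine ⟨⟨-35, 6⟩, 97, GI.N1_prime (by norm_num) (by norm_num), ?_⟩
    rw [GaussianInt.toComplex_def']; norm_num
  have key : (9 + 4 * I) / (9 - 4 * I) = 5 + 12 * ((-35 + 6 * I) / 97) := by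
    rw [div_eq_iff hne]
    ring_nf
    rw [I_sq]
    ring
  have h6 : ∀ r ∈ U0, 6 • τ r = 0 := by
    intro r hrU
    have h1 := hs _ (GI.U0_mul hrU hs1)
    have h2 : τ (r * ((9 + 4 * I) / (9 - 4 * I))) = 5 • τ r := by
      rw [key]
      have : r * (5 + 12 * ((-35 + 6 * I) / 97)) =
          (5 : ℕ) • r + (12 : ℕ) • (r * ((-35 + 6 * I) / 97)) := by
        rw [nsmul_eq_mul, nsmul_eq_mul]
        push_cast
        ring
      rw [this, map_add, map_nsmul, map_nsmul, h12' _ (GI.R0_mul hrU.1 hr), add_zero]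
    rw [h2] at h1
    exact AR.twelve _ (h12' r hrU.1) (hs r hrU) h1
  have hspan := GI.R0_span hy
  clear hy
  induction hspan using AddSubgroup.closure_induction with
  | mem x hx => exact h6 x hx
  | zero => rw [map_zero, smul_zero]
  | add a b _ _ ha hb => rw [map_add, smul_add, ha, hb, add_zero]
  | neg a _ ha => rw [map_neg, smul_neg, ha, neg_zero]

private noncomputable def chHom (β : ℂ) : ℂ →+ UnitAddCircle where
  toFun y := ch β y
  map_zero' := by simp [ch]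
  map_add' x y := by
    unfold ch
    rw [mul_add, Complex.add_re]
    exact AddCircle.coe_add _ _ _

theorem theoremA (θ : ℂ →+ UnitAddCircle) (hs : ∀ s ∈ U0, 1 / 3 ≤ ‖θ s‖) :
    ∃ β : ℂ, (∀ y ∈ R0, 6 • (θ y - ch β y) = 0) ∧ ∀ s ∈ U0, 1 / 3 ≤ ‖θ s - ch β s‖ := by
  obtain ⟨β, m, hm, h⟩ := A2.rational θ hs
  have h3 := A3.remove θ hs β m hm h
  refine ⟨β, ?_, h3⟩
  intro y hy
  exact six_torsion (θ - chHom β) (fun s hsU => h3 s hsU) m hm (fun y hy => h y hy) y hy

end Pool.Agent.MP8b8716.TA
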