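import Pool.Agent.Lib.MP_8b8716_co.Defs
import Pool.Agent.Lib.MP_8b8716_co.Gauss
import Pool.Agent.Lib.MP_8b8716_co.TheoremA
import Pool.Agent.Lib.MP_8b8716_co.Extend

set_option autoImplicit false

/-!
# From `Q(i)` to `F(i)`
-/

open Complex

namespace Pool.Agent.MP8b8716.GL

theorem ch_add (β γ y : ℂ) : ch (β + γ) y = ch β y + ch γ y := by
  rw [ch, ch, ch, add_mul, Complex.add_re]
  exact AddCircle.coe_add _ _ _

theorem ch_zero (y : ℂ) : ch 0 y = 0 := by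
  rw [ch, zero_mul, Complex.zero_re]
  exact AddCircle.coe_zero _

theorem ch_neg (β y : ℂ) : ch (-β) y = -ch β y := by
  rw [ch, ch, neg_mul, Complex.neg_re]
  exact AddCircle.coe_neg _

/-- A real number whose quotients by the powers of five are all in `Z / 6` vanishes. -/
theorem real_zero (r : ℝ) (h : ∀ k : ℕ, 6 • (((r / 5 ^ k : ℝ)) : UnitAddCircle) = 0) : r = 0 := by
  by_contra hr
  obtain ⟨k, hk⟩ := pow_unbounded_of_one_lt (6 * |r|) (by norm_num : (1 : ℝ) < 5)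
  have h1 := h k
  rw [← AddCircle.coe_nsmul, AddCircle.coe_eq_zero_iff] at h1
  obtain ⟨n, hn⟩ := h1
  have h5 : (0 : ℝ) < 5 ^ k := by positivity
  have h2 : (n : ℝ) = 6 * (r / 5 ^ k) := by
    rw [zsmul_eq_mul, mul_one, nsmul_eq_mul] at hn
    rw [hn]; norm_num
  have h3 : |(n : ℝ)| < 1 := by
    rw [h2, abs_mul, abs_div, abs_of_pos h5, abs_of_pos (by norm_num : (0 : ℝ) < 6),
      ← mul_div_assoc, div_lt_one h5]
    exact hk
  have h4 : n = 0 := by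
    have : |n| < 1 := by exact_mod_cast h3
    exact Int.abs_lt_one_iff.1 this
  rw [h4, Int.cast_zero] at h2
  have h6 : r / 5 ^ k = 0 := by linarith
  rw [div_eq_zero_iff] at h6
  rcases h6 with h6 | h6
  · exact hr h6
  · exact h5.ne' h6

theorem five_R0 (k : ℕ) : ((5 : ℂ) ^ k)⁻¹ ∈ R0 := by
  have h := GI.R0_inv (GI.N1_pow (GI.N1_prime (by norm_num : Nat.Prime 5) (by norm_num)) k)
  push_cast at h
  exact h

/-- Uniqueness of the real character. -/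
theorem unique (γ : ℂ) (h : ∀ y ∈ R0, 6 • ch γ y = 0) : γ = 0 := by
  have e5 : ∀ k : ℕ, ((5 : ℂ) ^ k)⁻¹ = (((5 : ℝ) ^ k)⁻¹ : ℝ) := by
    intro k; push_cast; rfl
  apply Complex.ext
  · refine real_zero _ fun k => ?_
    have h1 := h _ (five_R0 k)
    rw [ch, e5, Complex.re_mul_ofReal, ← div_eq_mul_inv] at h1
    exact h1
  · refine real_zero _ fun k => ?_
    have h1 := h _ (GI.R0_mul GI.R0_I (five_R0 k))
    have e : (γ * (I * ((5 : ℂ) ^ k)⁻¹)).re = -(γ.im / 5 ^ k) := by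
      rw [e5, ← mul_assoc, Complex.re_mul_ofReal, Complex.mul_I_re]
      ring
    rw [ch, e, AddCircle.coe_neg, smul_neg, neg_eq_zero] at h1
    exact h1

theorem unique' (θ : ℂ →+ UnitAddCircle) (x β γ : ℂ)
    (h1 : ∀ y ∈ R0, 6 • (θ (x * y) - ch β y) = 0)
    (h2 : ∀ y ∈ R0, 6 • (θ (x * y) - ch γ y) = 0) : β = γ := by
  have h : β + -γ = 0 := by
    refine unique _ fun y hy => ?_
    have e : ch (β + -γ) y = (θ (x * y) - ch γ y) - (θ (x * y) - ch β y) := by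
      rw [ch_add, ch_neg]; abel
    rw [e, smul_sub, h1 y hy, h2 y hy, sub_zero]
  exact add_neg_eq_zero.1 h

theorem exists_UU (F : Subfield ℝ) (θ : ℂ →+ UnitAddCircle) (h : ∀ u ∈ UU F, 1 / 3 ≤ ‖θ u‖)
    (u : ℂ) (hu : u ∈ UU F) : ∃ β : ℂ, (∀ y ∈ R0, 6 • (θ (u * y) - ch β y) = 0) ∧
      1 / 3 ≤ ‖θ u - ch β 1‖ := by
  obtain ⟨β, h1, h2⟩ := TA.theoremA (θ.comp (AddMonoidHom.mulLeft u))
    (fun s hs => h _ (UU_mul hu (GI.U0_UU F hs)))
  refine ⟨β, h1, ?_⟩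
  have h3 := h2 1 GI.U0_one
  simpa using h3

theorem exists_RR (F : Subfield ℝ) (θ : ℂ →+ UnitAddCircle) (h : ∀ u ∈ UU F, 1 / 3 ≤ ‖θ u‖)
    (x : ℂ) (hx : x ∈ RR F) : ∃ β : ℂ, ∀ y ∈ R0, 6 • (θ (x * y) - ch β y) = 0 := by
  induction hx using AddSubgroup.closure_induction with
  | mem u hu =>
    obtain ⟨β, h1, _⟩ := exists_UU F θ h u hu
    exact ⟨β, h1⟩
  | zero => exact ⟨0, fun y _ => by rw [zero_mul, map_zero, ch_zero, sub_zero, smul_zero]⟩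
  | add a b _ _ ha hb =>
    obtain ⟨β, hβ⟩ := ha
    obtain ⟨γ, hγ⟩ := hb
    refine ⟨β + γ, fun y hy => ?_⟩
    have e : θ ((a + b) * y) - ch (β + γ) y =
        (θ (a * y) - ch β y) + (θ (b * y) - ch γ y) := by
      rw [add_mul, map_add, ch_add]; abel
    rw [e, smul_add, hβ y hy, hγ y hy, add_zero]
  | neg a _ ha =>
    obtain ⟨β, hβ⟩ := ha
    refine ⟨-β, fun y hy => ?_⟩
    have e : θ (-a * y) - ch (-β) y = -(θ (a * y) - ch β y) := by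
      rw [neg_mul, map_neg, ch_neg]; abel
    rw [e, smul_neg, hβ y hy, neg_zero]

theorem global (F : Subfield ℝ) (θ : ℂ →+ UnitAddCircle) (h : ∀ u ∈ UU F, 1 / 3 ≤ ‖θ u‖) :
    ∃ τ : ℂ →+ UnitAddCircle, (∀ x ∈ RR F, 6 • τ x = 0) ∧ ∀ u ∈ UU F, 1 / 3 ≤ ‖τ u‖ := by
  choose β hβ using fun x : RR F => exists_RR F θ h x.1 x.2
  have hadd : ∀ a b : RR F, β (a + b) = β a + β b := by
    intro a b
    refine unique' θ ((a + b : RR F) : ℂ) _ _ (hβ (a + b)) fun y hy => ?_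
    have e : θ (((a + b : RR F) : ℂ) * y) - ch (β a + β b) y =
        (θ ((a : ℂ) * y) - ch (β a) y) + (θ ((b : ℂ) * y) - ch (β b) y) := by
      rw [AddSubgroup.coe_add, add_mul, map_add, ch_add]; abel
    rw [e, smul_add, hβ a y hy, hβ b y hy, add_zero]
  let τ₀ : RR F →+ UnitAddCircle := AddMonoidHom.mk' (fun x => θ (x : ℂ) - ch (β x) 1) (by
    intro a b
    rw [hadd, ch_add, AddSubgroup.coe_add, map_add]
    abel)
  obtain ⟨τ, hτ⟩ := EX.extend (RR F) τ₀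
  have hτ' : ∀ x : RR F, τ x = θ (x : ℂ) - ch (β x) 1 := hτ
  refine ⟨τ, fun x hx => ?_, fun u hu => ?_⟩
  · have h1 := hβ ⟨x, hx⟩ 1 GI.R0_one
    rw [mul_one] at h1
    rw [hτ' ⟨x, hx⟩]
    exact h1
  · obtain ⟨γ, h1, h2⟩ := exists_UU F θ h u hu
    have h3 : β ⟨u, UU_RR hu⟩ = γ := unique' θ u _ _ (hβ ⟨u, UU_RR hu⟩) h1
    rw [hτ' ⟨u, UU_RR hu⟩, h3]
    exact h2

end Pool.Agent.MP8b8716.GL
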