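import Pool.Agent.Lib.MP_8b8716_co.Height
import Pool.Agent.Lib.MP_8b8716_co.Extend

set_option autoImplicit false

/-!
# The chromatic number of the plane over real algebraic fields: lifting a 3-colouring (module LI)
-/

open Complex

namespace Pool.Agent.MP8b8716.LI

theorem RR_coords {F : Subfield ℝ} {x : ℂ} (hx : x ∈ RR F) : x.re ∈ F ∧ x.im ∈ F := by
  induction hx using AddSubgroup.closure_induction with
  | mem x hx => exact ⟨hx.1, hx.2.1⟩
  | zero => exact ⟨by rw [Complex.zero_re]; exact F.zero_mem, by rw [Complex.zero_im]; exact F.zero_mem⟩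
  | add a b _ _ ha hb =>
    exact ⟨by rw [Complex.add_re]; exact F.add_mem ha.1 hb.1,
      by rw [Complex.add_im]; exact F.add_mem ha.2 hb.2⟩
  | neg a _ ha =>
    exact ⟨by rw [Complex.neg_re]; exact F.neg_mem ha.1,
      by rw [Complex.neg_im]; exact F.neg_mem ha.2⟩

theorem lift3 (F : Subfield ℝ) (h : (unitDistanceGraph F).Colorable 3) :
    ∃ θ : ℂ →+ UnitAddCircle, ∀ u ∈ UU F, 1 / 3 ≤ ‖θ u‖ := by
  obtain ⟨C⟩ := h
  let U : Set (RR F) := {u | (u : ℂ) ∈ UU F}
  have hgen : AddSubgroup.closure U = ⊤ := by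
    have h1 := AddSubgroup.closure_closure_coe_preimage (k := UU F)
    exact h1
  let P : RR F → F × F := fun x => (⟨(x : ℂ).re, (RR_coords x.2).1⟩, ⟨(x : ℂ).im, (RR_coords x.2).2⟩)
  let c : RR F → ZMod 3 := fun x => C (P x)
  obtain ⟨θ, hθ⟩ := HT.height U (fun u hu => UU_neg hu) hgen c (by
    intro x u hu heq
    have hadj : (unitDistanceGraph F).Adj (P (x + u)) (P x) := by
      change ((P (x + u)).1 - (P x).1) ^ 2 + ((P (x + u)).2 - (P x).2) ^ 2 = 1
      apply Subtype.ext
      have h3 : (u : ℂ).re ^ 2 + (u : ℂ).im ^ 2 = 1 := hu.2.2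
      simp only [P]
      push_cast
      rw [Complex.add_re, Complex.add_im, add_sub_cancel_left, add_sub_cancel_left]
      exact h3
    exact C.valid hadj heq)
  obtain ⟨g, hg⟩ := EX.extend (RR F) θ
  refine ⟨g, fun u hu => ?_⟩
  have := hθ ⟨u, UU_RR hu⟩ hu
  rw [← hg] at this
  exact this

end Pool.Agent.MP8b8716.LI
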