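import Pool.Agent.Lib.MP_8b8716_co.LocalD

set_option autoImplicit false

/-!
# Local algebra over the field with three elements: reduction to the quotient ring
-/

open Polynomial

namespace Pool.Agent.MP8b8716.F3

/-- The ideal of the elements all of whose multiples are killed by both functionals. -/
private def kill {P : Type*} [CommRing P] (l1 l2 : P →+ ZMod 3) : Ideal P where
  carrier := {t | ∀ s, l1 (t * s) = 0 ∧ l2 (t * s) = 0}
  add_mem' := by
    intro a b ha hb s
    rw [add_mul, map_add, map_add, (ha s).1, (ha s).2, (hb s).1, (hb s).2]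
    simp
  zero_mem' := by
    intro s
    rw [zero_mul, map_zero, map_zero]
    simp
  smul_mem' := by
    intro c x hx s
    rw [smul_eq_mul, mul_comm c x, mul_assoc]
    exact hx (c * s)

private theorem lift_G1 {P : Type*} [CommRing P] (hu : ∀ t : P, IsUnit (1 + t ^ 2))
    (I : Ideal P) {x y : P ⧸ I} (h : G1 x y) :
    ∃ x' y' : P, x' ^ 2 + y' ^ 2 = 1 ∧ Ideal.Quotient.mk I x' = x ∧
      Ideal.Quotient.mk I y' = y := by
  induction h with
  | one => exact ⟨1, 0, by ring, map_one _, map_zero _⟩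
  | rot x y _ ih =>
    obtain ⟨x', y', h1, rfl, rfl⟩ := ih
    exact ⟨-y', x', by linear_combination h1, map_neg _ _, rfl⟩
  | cay x y t c _ hc ih =>
    obtain ⟨x', y', h1, rfl, rfl⟩ := ih
    obtain ⟨t', rfl⟩ := Ideal.Quotient.mk_surjective t
    obtain ⟨c', hc'⟩ := (hu t').exists_left_inv
    have h2 : Ideal.Quotient.mk I c' = c := by
      have h3 := congrArg (Ideal.Quotient.mk I) hc'
      rw [map_mul, map_add, map_one, map_pow] at h3
      linear_combination c * h3 - Ideal.Quotient.mk I c' * hc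
    subst h2
    refine ⟨x' * ((1 - t' ^ 2) * c') - y' * (2 * t' * c'),
      x' * (2 * t' * c') + y' * ((1 - t' ^ 2) * c'), ?_, ?_, ?_⟩
    · linear_combination ((1 + t' ^ 2) * c') ^ 2 * h1 + ((1 + t' ^ 2) * c' + 1) * hc'
    · simp only [map_sub, map_mul, map_one, map_pow, map_ofNat]
    · simp only [map_add, map_sub, map_mul, map_one, map_pow, map_ofNat]

theorem local3 {P : Type*} [CommRing P] (hu : ∀ t : P, IsUnit (1 + t ^ 2))
    (halg : ∀ t : P, ∃ f : Polynomial ℤ, f.map (Int.castRingHom (ZMod 3)) ≠ 0 ∧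
      Polynomial.aeval t f = 0)
    (l1 l2 : P →+ ZMod 3) (hl : ∀ x y : P, x ^ 2 + y ^ 2 = 1 → l1 x + l2 y ≠ 0) :
    Nonempty (P →+* ZMod 3) := by
  set I : Ideal P := kill l1 l2 with hI
  have hmem : ∀ t, t ∈ I ↔ ∀ s, l1 (t * s) = 0 ∧ l2 (t * s) = 0 := fun t => Iff.rfl
  have hz1 : ∀ t ∈ I, l1 t = 0 := by
    intro t ht
    have := ((hmem t).1 ht 1).1
    rwa [mul_one] at this
  have hz2 : ∀ t ∈ I, l2 t = 0 := by
    intro t ht
    have := ((hmem t).1 ht 1).2
    rwa [mul_one] at this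
  let m1 : (P ⧸ I) →+ ZMod 3 := QuotientAddGroup.lift (Submodule.toAddSubgroup I) l1 hz1
  let m2 : (P ⧸ I) →+ ZMod 3 := QuotientAddGroup.lift (Submodule.toAddSubgroup I) l2 hz2
  have hm1 : ∀ t, m1 (Ideal.Quotient.mk I t) = l1 t := fun t => rfl
  have hm2 : ∀ t, m2 (Ideal.Quotient.mk I t) = l2 t := fun t => rfl
  have h1 : l1 1 ≠ 0 := by
    have := hl 1 0 (by ring)
    rwa [map_zero, add_zero] at this
  have hnt : Nontrivial (P ⧸ I) := by
    rw [Ideal.Quotient.nontrivial_iff, Ne, Ideal.eq_top_iff_one]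
    exact fun h => h1 (hz1 1 h)
  have h3 : (3 : P ⧸ I) = 0 := by
    have h4 : (3 : P) ∈ I := by
      intro s
      have e : (3 : P) * s = (3 : ℕ) • s := by rw [nsmul_eq_mul]; norm_num
      rw [e, map_nsmul, map_nsmul]
      have e2 : ∀ z : ZMod 3, (3 : ℕ) • z = 0 := by decide
      exact ⟨e2 _, e2 _⟩
    have h5 := Ideal.Quotient.eq_zero_iff_mem.2 h4
    rwa [map_ofNat] at h5
  have hchar : CharP (P ⧸ I) 3 := by
    refine (CharP.charP_iff_prime_eq_zero (by norm_num)).2 ?_
    rw [Nat.cast_ofNat]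
    exact h3
  let _ : Algebra (ZMod 3) (P ⧸ I) := ZMod.algebra _ 3
  obtain ⟨g⟩ := local3D h3 (D := P ⧸ I)
    (by
      intro t
      obtain ⟨t', rfl⟩ := Ideal.Quotient.mk_surjective t
      have := (hu t').map (Ideal.Quotient.mk I)
      rwa [map_add, map_one, map_pow] at this)
    (by
      intro t
      obtain ⟨t', rfl⟩ := Ideal.Quotient.mk_surjective t
      obtain ⟨f, hf0, hf⟩ := halg t'
      have hint : IsIntegral (ZMod 3) (Ideal.Quotient.mk I t') := by
        rw [← isAlgebraic_iff_isIntegral]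
        refine ⟨f.map (Int.castRingHom (ZMod 3)), hf0, ?_⟩
        have e1 : (algebraMap (ZMod 3) (P ⧸ I)).comp (Int.castRingHom (ZMod 3)) =
            (Ideal.Quotient.mk I).comp (algebraMap ℤ P) := RingHom.ext_int _ _
        rw [Polynomial.aeval_def, Polynomial.eval₂_map, e1, ← Polynomial.hom_eval₂,
          ← Polynomial.aeval_def, hf, map_zero]
      have hfg := hint.fg_adjoin_singleton
      have : Module.Finite (ZMod 3) (Algebra.adjoin (ZMod 3) {Ideal.Quotient.mk I t'}) :=
        Module.Finite.iff_fg.2 hfg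
      have : Finite (Algebra.adjoin (ZMod 3) {Ideal.Quotient.mk I t'}) :=
        Module.finite_of_finite (ZMod 3)
      let u : Algebra.adjoin (ZMod 3) {Ideal.Quotient.mk I t'} :=
        ⟨Ideal.Quotient.mk I t', Algebra.subset_adjoin rfl⟩
      obtain ⟨a, b, hab, h⟩ := Finite.exists_ne_map_eq_of_infinite (fun n : ℕ => u ^ n)
      have h' := congrArg Subtype.val h
      rcases lt_or_gt_of_ne hab with hlt | hlt
      · exact ⟨a, b, hlt, h'⟩
      · exact ⟨b, a, hlt, h'.symm⟩)
    m1 m2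
    (by
      intro x y hxy
      obtain ⟨x', y', h4, rfl, rfl⟩ := lift_G1 hu I hxy
      exact hl x' y' h4)
    (by
      intro t ht
      obtain ⟨t', rfl⟩ := Ideal.Quotient.mk_surjective t
      rw [Ideal.Quotient.eq_zero_iff_mem]
      intro s
      exact ht (Ideal.Quotient.mk I s))
  exact ⟨g.comp (Ideal.Quotient.mk I)⟩

end Pool.Agent.MP8b8716.F3
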