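import Pool.Agent.Lib.MP_8b8716_co.Denom
import Pool.Agent.Lib.MP_8b8716_co.Arcs

set_option autoImplicit false

/-!
# No mixing of the two types of unit vectors
-/

open Complex

namespace Pool.Agent.MP8b8716.MX

/-- The Cayley parametrisation of the unit circle. -/
private noncomputable def cay (t : ℝ) : ℂ := (1 + t * I) / (1 - t * I)

private theorem den_ne (t : ℝ) : (1 - t * I : ℂ) ≠ 0 := by
  intro h
  have := congrArg Complex.re h
  simp at this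

private theorem cay_UU (F : Subfield ℝ) (t : ℝ) (ht : t ∈ F) : cay t ∈ UU F := by
  have hpos : (1 + t ^ 2 : ℝ) ≠ 0 := by positivity
  have hd : (1 + t ^ 2)⁻¹ ∈ F := F.inv_mem (F.add_mem F.one_mem (pow_mem ht 2))
  have h2 : (2 : ℝ) ∈ F := by
    rw [← one_add_one_eq_two]
    exact F.add_mem F.one_mem F.one_mem
  set c : ℝ := (1 + t ^ 2)⁻¹ with hc
  have hc1 : c * (1 + t ^ 2) = 1 := inv_mul_cancel₀ hpos
  have heq : cay t = ⟨(1 - t ^ 2) * c, 2 * t * c⟩ := by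
    unfold cay
    rw [div_eq_iff (den_ne t)]
    apply Complex.ext
    · simp
      linear_combination (-1 : ℝ) * hc1
    · simp
      linear_combination (-t) * hc1
  rw [heq]
  refine ⟨F.mul_mem (F.sub_mem F.one_mem (pow_mem ht 2)) hd,
    F.mul_mem (F.mul_mem h2 ht) hd, ?_⟩
  show ((1 - t ^ 2) * c) ^ 2 + (2 * t * c) ^ 2 = 1
  have : ((1 - t ^ 2) * c) ^ 2 + (2 * t * c) ^ 2 = (c * (1 + t ^ 2)) ^ 2 := by ring
  rw [this, hc1, one_pow]

private theorem exists_cay (F : Subfield ℝ) (u : ℂ) (hu : u ∈ UU F) (h : u ≠ -1) :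
    ∃ t ∈ F, u = cay t := by
  obtain ⟨h1, h2, h3⟩ := hu
  have hne : 1 + u.re ≠ 0 := by
    intro h0
    apply h
    have hre : u.re = -1 := by linarith
    have him : u.im = 0 := by
      rw [hre] at h3
      nlinarith
    apply Complex.ext
    · simp [hre]
    · simp [him]
  obtain ⟨t, ht, hte⟩ : ∃ t ∈ F, t * (1 + u.re) = u.im :=
    ⟨u.im / (1 + u.re), F.div_mem h2 (F.add_mem F.one_mem h1), div_mul_cancel₀ _ hne⟩
  refine ⟨t, ht, ?_⟩
  unfold cay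
  rw [eq_div_iff (den_ne _)]
  have key : t * u.im = 1 - u.re := by
    apply mul_left_cancel₀ hne
    linear_combination u.im * hte + h3
  apply Complex.ext
  · simp
    linear_combination key
  · simp
    linear_combination -hte

private theorem cay_sub (s t : ℝ) :
    cay s - cay t = I * (((s - t : ℝ) : ℂ) / 2) * ((1 + cay s) * (1 + cay t)) := by
  have h1 : (1 - s * I : ℂ)⁻¹ * (1 - s * I) = 1 := inv_mul_cancel₀ (den_ne s)
  have h2 : (1 - t * I : ℂ)⁻¹ * (1 - t * I) = 1 := inv_mul_cancel₀ (den_ne t)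
  have e1 : cay s = 2 * (1 - s * I : ℂ)⁻¹ - 1 := by
    unfold cay
    rw [div_eq_mul_inv]
    linear_combination -h1
  have e2 : cay t = 2 * (1 - t * I : ℂ)⁻¹ - 1 := by
    unfold cay
    rw [div_eq_mul_inv]
    linear_combination -h2
  rw [e1, e2]
  push_cast
  linear_combination (2 * (1 - t * I : ℂ)⁻¹) * h1 - (2 * (1 - s * I : ℂ)⁻¹) * h2

private theorem coe_zero_of {y : UnitAddCircle} {m n : ℕ} (hmn : Nat.Coprime m n)
    (hm : m • y = 0) (hn : n • y = 0) : y = 0 := by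
  have h1 := addOrderOf_dvd_of_nsmul_eq_zero hm
  have h2 := addOrderOf_dvd_of_nsmul_eq_zero hn
  have h3 := Nat.dvd_gcd h1 h2
  rw [Nat.Coprime.gcd_eq_one hmn, Nat.dvd_one, AddMonoid.addOrderOf_eq_one_iff] at h3
  exact h3

private theorem kill (F : Subfield ℝ) (τ : ℂ →+ UnitAddCircle)
    (h6 : ∀ x ∈ RR F, 6 • τ x = 0) (p q : ℕ) (hpq : q * p = 6) (hp : p.Prime) (d : ℕ)
    (hd : 0 < d) (w X : ℂ) (hw : w ∈ RR F) (hX : X ∈ RR F) (b : ℤ)
    (h : (d : ℂ) * w = (p : ℂ) ^ (d + 1) * b * X) : q • τ w = 0 := by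
  obtain ⟨v, d', hd', hdd⟩ := Nat.exists_eq_pow_mul_and_not_dvd hd.ne' p hp.one_lt.ne'
  have hd0 : d' ≠ 0 := by
    rintro rfl
    exact hd' (dvd_zero p)
  have hv : v ≤ d := by
    have h1 : v < p ^ v := Nat.lt_pow_self hp.one_lt
    have h2 : p ^ v ≤ d := by
      rw [hdd]
      exact Nat.le_mul_of_pos_right _ (Nat.pos_of_ne_zero hd0)
    omega
  have hp0 : (p : ℂ) ≠ 0 := by exact_mod_cast hp.ne_zero
  have hW : (((p ^ (d - v) : ℕ) : ℂ) * (b : ℂ)) * X ∈ RR F :=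
    RR_mul (RR_mul (nat_RR F _) (int_RR F b)) hX
  have e1 : (d' : ℂ) * w = (p : ℂ) * ((((p ^ (d - v) : ℕ) : ℂ) * (b : ℂ)) * X) := by
    have h2 : (p : ℂ) ^ v * ((d' : ℂ) * w) =
        (p : ℂ) ^ v * ((p : ℂ) * ((((p ^ (d - v) : ℕ) : ℂ) * (b : ℂ)) * X)) := by
      have e : (d : ℂ) = (p : ℂ) ^ v * (d' : ℂ) := by exact_mod_cast hdd
      have e2 : (p : ℂ) ^ (d + 1) = (p : ℂ) ^ v * ((p : ℂ) * (p : ℂ) ^ (d - v)) := by
        rw [← pow_succ', ← pow_add]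
        congr 1
        omega
      rw [e, e2] at h
      push_cast
      linear_combination h
    exact mul_left_cancel₀ (pow_ne_zero v hp0) h2
  have e2 : τ ((d' : ℂ) * w) = d' • τ w := by
    rw [← nsmul_eq_mul, map_nsmul]
  have e3 : τ ((p : ℂ) * ((((p ^ (d - v) : ℕ) : ℂ) * (b : ℂ)) * X)) =
      p • τ ((((p ^ (d - v) : ℕ) : ℂ) * (b : ℂ)) * X) := by
    rw [← nsmul_eq_mul p ((((p ^ (d - v) : ℕ) : ℂ) * (b : ℂ)) * X), map_nsmul]
  have k1 : d' • (q • τ w) = 0 := by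
    rw [smul_comm, ← e2, e1, e3, ← mul_smul, hpq]
    exact h6 _ hW
  have k2 : p • (q • τ w) = 0 := by
    rw [smul_comm, ← mul_smul, hpq]
    exact h6 _ hw
  exact coe_zero_of ((Nat.Prime.coprime_iff_not_dvd hp).2 hd') k2 k1

private theorem exists_param (F : Subfield ℝ) (τ : ℂ →+ UnitAddCircle) (n : ℕ)
    (h : ∃ u ∈ UU F, n • τ u = 0) : ∃ t ∈ F, n • τ (cay t) = 0 := by
  obtain ⟨u, hu, h0⟩ := h
  by_cases h1 : u = -1
  · refine ⟨0, F.zero_mem, ?_⟩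
    have : cay 0 = -u := by
      rw [h1]; unfold cay; simp
    rw [this, map_neg, smul_neg, h0, neg_zero]
  · obtain ⟨t, ht, e⟩ := exists_cay F u hu h1
    exact ⟨t, ht, by rw [← e]; exact h0⟩

theorem mixing (F : Subfield ℝ) (hF : ∀ x ∈ F, IsAlgebraic ℚ x) (τ : ℂ →+ UnitAddCircle)
    (h6 : ∀ x ∈ RR F, 6 • τ x = 0) (h3 : ∀ u ∈ UU F, 1 / 3 ≤ ‖τ u‖) :
    (∀ u ∈ UU F, 2 • τ u = 0) ∨ (∀ u ∈ UU F, 3 • τ u = 0) := by
  by_contra hcon
  rw [not_or] at hcon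
  obtain ⟨c1, c2⟩ := hcon
  push Not at c1 c2
  obtain ⟨u1, hu1, hn1⟩ := c1
  obtain ⟨u2, hu2, hn2⟩ := c2
  have g1 : 3 • τ u1 = 0 := by
    rcases AR.six (τ u1) (h6 _ (UU_RR hu1)) (h3 _ hu1) with h | h
    · exact absurd h.1 hn1
    · exact h.1
  have g2 : 2 • τ u2 = 0 := by
    rcases AR.six (τ u2) (h6 _ (UU_RR hu2)) (h3 _ hu2) with h | h
    · exact h.1
    · exact absurd h.1 hn2
  obtain ⟨t, ht, k⟩ := exists_param F τ 2 ⟨u2, hu2, g2⟩
  obtain ⟨t', ht', k'⟩ := exists_param F τ 3 ⟨u1, hu1, g1⟩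
  have h2F : (2 : ℝ) ∈ F := by
    rw [← one_add_one_eq_two]
    exact F.add_mem F.one_mem F.one_mem
  obtain ⟨d, hd, hz⟩ := AL.denom F hF (I * (((t' - t : ℝ) : ℂ) / 2)) (by simp [F.zero_mem])
    (by
      have : (I * (((t' - t : ℝ) : ℂ) / 2)).im = (t' - t) / 2 := by simp
      rw [this]
      exact F.div_mem (F.sub_mem ht' ht) h2F)
  have hcop : IsCoprime ((2 : ℤ) ^ (d + 1)) ((3 : ℤ) ^ (d + 1)) := by
    apply IsCoprime.pow
    norm_num
  obtain ⟨a, b, hab⟩ := hcop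
  have habR : (a : ℝ) * 2 ^ (d + 1) + b * 3 ^ (d + 1) = 1 := by exact_mod_cast hab
  have habC : (a : ℂ) * 2 ^ (d + 1) + b * 3 ^ (d + 1) = 1 := by exact_mod_cast hab
  set s : ℝ := ((a : ℝ) * 2 ^ (d + 1)) * t + ((b : ℝ) * 3 ^ (d + 1)) * t' with hs
  have hα : ((a : ℝ) * 2 ^ (d + 1)) ∈ F := F.mul_mem (intCast_mem F a) (pow_mem h2F _)
  have h3F : (3 : ℝ) ∈ F := by
    have : (3 : ℝ) = 2 + 1 := by norm_num
    rw [this]
    exact F.add_mem h2F F.one_mem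
  have hβ : ((b : ℝ) * 3 ^ (d + 1)) ∈ F := F.mul_mem (intCast_mem F b) (pow_mem h3F _)
  have hsF : s ∈ F := F.add_mem (F.mul_mem hα ht) (F.mul_mem hβ ht')
  have hU := cay_UU F s hsF
  have hU1 := cay_UU F t ht
  have hU2 := cay_UU F t' ht'
  have hone := one_RR F
  have r1 : 2 • τ (cay s - cay t) = 0 := by
    refine kill F τ h6 3 2 rfl Nat.prime_three d hd _
      (((d : ℂ) * (I * (((t' - t : ℝ) : ℂ) / 2))) * ((1 + cay s) * (1 + cay t)))
      ((RR F).sub_mem (UU_RR hU) (UU_RR hU1))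
      (RR_mul hz (RR_mul ((RR F).add_mem hone (UU_RR hU)) ((RR F).add_mem hone (UU_RR hU1)))) b ?_
    rw [cay_sub]
    have : ((s - t : ℝ) : ℂ) = (3 : ℂ) ^ (d + 1) * b * ((t' - t : ℝ) : ℂ) := by
      rw [hs]
      push_cast
      linear_combination (t : ℂ) * habC
    rw [this]
    push_cast
    ring
  have r2 : 3 • τ (cay s - cay t') = 0 := by
    refine kill F τ h6 2 3 rfl Nat.prime_two d hd _
      (((d : ℂ) * (I * (((t' - t : ℝ) : ℂ) / 2))) * ((1 + cay s) * (1 + cay t')))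
      ((RR F).sub_mem (UU_RR hU) (UU_RR hU2))
      (RR_mul hz (RR_mul ((RR F).add_mem hone (UU_RR hU)) ((RR F).add_mem hone (UU_RR hU2))))
      (-a) ?_
    rw [cay_sub]
    have : ((s - t' : ℝ) : ℂ) = -((2 : ℂ) ^ (d + 1) * a * ((t' - t : ℝ) : ℂ)) := by
      rw [hs]
      push_cast
      linear_combination (t' : ℂ) * habC
    rw [this]
    push_cast
    ring
  have q1 : 2 • τ (cay s) = 0 := by
    rw [map_sub, smul_sub, k, sub_zero] at r1
    exact r1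
  have q2 : 3 • τ (cay s) = 0 := by
    rw [map_sub, smul_sub, k', sub_zero] at r2
    exact r2
  have q3 : τ (cay s) = 0 := coe_zero_of (by norm_num) q1 q2
  have := h3 _ hU
  rw [q3, norm_zero] at this
  norm_num at this

end Pool.Agent.MP8b8716.MX
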