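import Pool.Agent.Lib.MP_8b8716_co.Defs

set_option autoImplicit false

/-!
# Real quadratic fields

For squarefree `N` the ring of integers of the field generated by the square root of `N`:
its homomorphisms to finite prime fields and the equation `a ^ 2 + 1 = 4 * b`.
-/

namespace Pool.Agent.MP8b8716.QD

open Complex

/-- The real quadratic field generated by the square root of `N`. -/
noncomputable def Fq (N : ℕ) : Subfield ℝ := Subfield.closure {Real.sqrt N}

theorem sqrt_mem (N : ℕ) : Real.sqrt N ∈ Fq N := Subfield.subset_closure (Set.mem_singleton _)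

theorem sqrt_sq' (N : ℕ) : Real.sqrt N * Real.sqrt N = N :=
  Real.mul_self_sqrt (Nat.cast_nonneg N)

theorem sqrt_isIntegral (N : ℕ) : IsIntegral ℤ (Real.sqrt N) := by
  refine IsIntegral.of_pow (n := 2) two_pos ?_
  rw [Real.sq_sqrt (Nat.cast_nonneg N)]
  exact isIntegral_natCast N

theorem Fq_alg (N : ℕ) (x : ℝ) (hx : x ∈ Fq N) : IsAlgebraic ℚ x := by
  have h : Fq N ≤ (algebraicClosure ℚ ℝ).toSubfield := by
    refine Subfield.closure_le.mpr ?_
    intro y hy
    rw [Set.mem_singleton_iff] at hy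
    rw [hy]
    exact mem_algebraicClosure_iff.mpr (sqrt_isIntegral N).tower_top.isAlgebraic
  exact mem_algebraicClosure_iff.mp (h hx)

/-- Elements of `Fq N`. -/
theorem mem_Fq {N : ℕ} {x : ℝ} (hx : x ∈ Fq N) : ∃ a b : ℚ, x = a + b * Real.sqrt N := by
  have hs := sqrt_sq' N
  refine Subfield.closure_induction (p := fun x _ => ∃ a b : ℚ, x = a + b * Real.sqrt N)
    ?_ ?_ ?_ ?_ ?_ ?_ hx
  · intro x hx
    rw [Set.mem_singleton_iff] at hx
    exact ⟨0, 1, by rw [hx]; push_cast; ring⟩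
  · exact ⟨1, 0, by push_cast; ring⟩
  · rintro x y _ _ ⟨a, b, rfl⟩ ⟨c, d, rfl⟩
    exact ⟨a + c, b + d, by push_cast; ring⟩
  · rintro x _ ⟨a, b, rfl⟩
    exact ⟨-a, -b, by push_cast; ring⟩
  · rintro x _ ⟨a, b, rfl⟩
    by_cases h1 : (a : ℝ) + b * Real.sqrt N = 0
    · exact ⟨0, 0, by rw [h1]; simp⟩
    by_cases h2 : (a : ℝ) - b * Real.sqrt N = 0
    · refine ⟨1 / (2 * a), 0, ?_⟩
      have h3 : (a : ℝ) + b * Real.sqrt N = 2 * a := by linarith
      rw [h3]
      push_cast
      ring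
    · refine ⟨a / (a ^ 2 - N * b ^ 2), -b / (a ^ 2 - N * b ^ 2), ?_⟩
      have h3 : ((a : ℝ) ^ 2 - N * b ^ 2) = (a + b * Real.sqrt N) * (a - b * Real.sqrt N) := by
        linear_combination (b : ℝ) ^ 2 * hs
      have h4 : ((a : ℝ) ^ 2 - N * b ^ 2) ≠ 0 := by
        rw [h3]
        exact mul_ne_zero h1 h2
      push_cast
      refine inv_eq_of_mul_eq_one_right ?_
      have h5 : (a : ℝ) / (a ^ 2 - N * b ^ 2) + -b / (a ^ 2 - N * b ^ 2) * Real.sqrt N =
          (a - b * Real.sqrt N) / (a ^ 2 - N * b ^ 2) := by ring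
      rw [h5, ← mul_div_assoc, ← h3, div_self h4]
  · rintro x y _ _ ⟨a, b, rfl⟩ ⟨c, d, rfl⟩
    refine ⟨a * c + N * (b * d), a * d + b * c, ?_⟩
    push_cast
    linear_combination (b : ℝ) * d * hs

/-- Coefficients of the minimal polynomial of a quadratic integer. -/
theorem coeffs {x : ℝ} (hi : IsIntegral ℤ x) (hx : x ∉ (algebraMap ℚ ℝ).range) {t n : ℚ}
    (h : x ^ 2 - t * x + n = 0) : (∃ T : ℤ, t = T) ∧ ∃ m : ℤ, n = m := by
  have hq : minpoly ℚ x = (minpoly ℤ x).map (algebraMap ℤ ℚ) :=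
    minpoly.isIntegrallyClosed_eq_field_fractions' ℚ hi
  have hiq : IsIntegral ℚ x := hi.tower_top
  obtain ⟨p, hp⟩ : ∃ p : Polynomial ℚ,
      p = Polynomial.X ^ 2 + (-Polynomial.C t * Polynomial.X + Polynomial.C n) := ⟨_, rfl⟩
  have hdeg : (-Polynomial.C t * Polynomial.X + Polynomial.C n : Polynomial ℚ).degree < 2 := by
    rw [← Polynomial.C_neg]
    exact lt_of_le_of_lt Polynomial.degree_linear_le (by norm_num)
  have hmon : p.Monic := by
    rw [hp]
    exact Polynomial.monic_X_pow_add (by exact_mod_cast hdeg)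
  have hnd : p.natDegree = 2 := by
    rw [hp]
    compute_degree!
  have hdvd : minpoly ℚ x ∣ p := by
    refine minpoly.dvd ℚ x ?_
    rw [hp]
    simp only [map_add, map_mul, map_neg, map_pow, Polynomial.aeval_X, Polynomial.aeval_C,
      eq_ratCast]
    linear_combination h
  have h2 : 2 ≤ (minpoly ℚ x).natDegree := (minpoly.two_le_natDegree_iff hiq).mpr hx
  have he : p = minpoly ℚ x :=
    Polynomial.eq_of_monic_of_dvd_of_natDegree_le (minpoly.monic hiq) hmon hdvd (by rw [hnd]; exact h2)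
  rw [hq] at he
  constructor
  · refine ⟨-(minpoly ℤ x).coeff 1, ?_⟩
    have h3 := congrArg (fun q => Polynomial.coeff q 1) he
    simp only [hp, Polynomial.coeff_map, Polynomial.coeff_add, Polynomial.coeff_X_pow,
      neg_mul, Polynomial.coeff_neg, Polynomial.coeff_C_mul, Polynomial.coeff_X_one,
      Polynomial.coeff_C] at h3
    norm_num at h3
    push_cast
    linarith
  · refine ⟨(minpoly ℤ x).coeff 0, ?_⟩
    have h3 := congrArg (fun q => Polynomial.coeff q 0) he
    simp only [hp, Polynomial.coeff_map, Polynomial.coeff_add, Polynomial.coeff_X_pow,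
      neg_mul, Polynomial.coeff_neg, Polynomial.coeff_C_mul, Polynomial.coeff_X_zero,
      Polynomial.coeff_C] at h3
    norm_num at h3
    exact h3

theorem rat_int {N : ℕ} (hN : Squarefree N) {q : ℚ} {k : ℤ} (h : (N : ℚ) * q ^ 2 = k) :
    ∃ m : ℤ, q = m := by
  have hd0 : (q.den : ℚ) ≠ 0 := Nat.cast_ne_zero.mpr q.den_nz
  have h1 : (N : ℚ) * ((q.num : ℚ) / q.den) ^ 2 = k := by rw [Rat.num_div_den]; exact h
  have h2 : (N : ℤ) * q.num ^ 2 = k * (q.den : ℤ) ^ 2 := by
    have h3 : (N : ℚ) * (q.num : ℚ) ^ 2 = k * (q.den : ℚ) ^ 2 := by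
      rw [← h1]
      field_simp
    exact_mod_cast h3
  have hc : IsCoprime ((q.den : ℤ) ^ 2) (q.num ^ 2) := by
    apply IsCoprime.pow
    rw [Int.isCoprime_iff_gcd_eq_one, Int.gcd_comm]
    exact q.reduced
  have h4 : ((q.den : ℤ) ^ 2) ∣ (N : ℤ) :=
    hc.dvd_of_dvd_mul_right ⟨k, by rw [h2]; ring⟩
  have h5 : q.den * q.den ∣ N := by
    rw [← pow_two]
    exact_mod_cast h4
  have h6 : q.den = 1 := Nat.isUnit_iff.mp (hN _ h5)
  exact ⟨q.num, by
    have := Rat.num_div_den q
    rw [h6] at this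
    rw [← this]
    simp⟩

theorem irr {N : ℕ} (hN : Squarefree N) (h1 : 1 < N) : Irrational (Real.sqrt N) := by
  rw [irrational_sqrt_natCast_iff]
  rintro ⟨d, hd⟩
  have h2 : d = 1 := Nat.isUnit_iff.mp (hN d ⟨1, by rw [hd]; ring⟩)
  rw [h2] at hd
  omega

/-- Elements of the ring of integers. -/
theorem struct {N : ℕ} (hN : Squarefree N) (h1 : 1 < N) {x : ℝ} (hx : x ∈ Fq N)
    (hi : IsIntegral ℤ x) :
    ∃ A B : ℤ, 2 * x = A + B * Real.sqrt N ∧ (4 : ℤ) ∣ A ^ 2 - N * B ^ 2 := by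
  have hs := sqrt_sq' N
  obtain ⟨a, b, rfl⟩ := mem_Fq hx
  by_cases hb : b = 0
  · rw [hb] at hi ⊢
    have h2 : IsIntegral ℤ a := by
      have h3 : IsIntegral ℤ ((algebraMap ℚ ℝ) a) := by
        simpa using hi
      exact (isIntegral_algebraMap_iff (algebraMap ℚ ℝ).injective).mp h3
    obtain ⟨m, hm⟩ := IsIntegrallyClosed.isIntegral_iff.mp h2
    refine ⟨2 * m, 0, ?_, ⟨m ^ 2, by ring⟩⟩
    rw [← hm]
    push_cast
    simp
  · have hnr : (a : ℝ) + b * Real.sqrt N ∉ (algebraMap ℚ ℝ).range := by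
      rintro ⟨q, hq⟩
      refine (irr hN h1) ⟨(q - a) / b, ?_⟩
      have hb' : (b : ℝ) ≠ 0 := by exact_mod_cast hb
      rw [eq_ratCast] at hq
      push_cast
      rw [hq]
      field_simp
      ring
    obtain ⟨⟨T, hT⟩, ⟨m, hm⟩⟩ := coeffs (t := 2 * a) (n := a ^ 2 - N * b ^ 2) hi hnr (by
      push_cast
      linear_combination (b : ℝ) ^ 2 * hs)
    obtain ⟨B, hB⟩ := rat_int hN (q := 2 * b) (k := T ^ 2 - 4 * m) (by
      push_cast
      rw [← hT, ← hm]
      ring)
    refine ⟨T, B, ?_, ⟨m, ?_⟩⟩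
    · have h3 : (T : ℝ) = 2 * a := by
        have := congrArg (fun q : ℚ => (q : ℝ)) hT
        push_cast at this
        exact this.symm
      have h4 : (B : ℝ) = 2 * b := by
        have := congrArg (fun q : ℚ => (q : ℝ)) hB
        push_cast at this
        exact this.symm
      rw [h3, h4]
      ring
    · have h3 : (T : ℚ) ^ 2 - N * (B : ℚ) ^ 2 = 4 * m := by
        rw [← hT, ← hB, ← hm]
        ring
      exact_mod_cast h3

/-- Uniqueness of the coordinates. -/
theorem uniq {N : ℕ} (hN : Squarefree N) (h1 : 1 < N) {A B C D : ℤ}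
    (h : (A : ℝ) + B * Real.sqrt N = C + D * Real.sqrt N) : A = C ∧ B = D := by
  have hB : B = D := by
    by_contra hne
    have h2 : (B : ℝ) - D ≠ 0 := by
      rw [sub_ne_zero]
      exact_mod_cast hne
    refine (irr hN h1) ⟨((C : ℚ) - A) / (B - D), ?_⟩
    push_cast
    rw [div_eq_iff h2]
    linear_combination -h
  refine ⟨?_, hB⟩
  rw [hB] at h
  have h3 : (A : ℝ) = C := by linarith
  exact_mod_cast h3

/-- The real number of an element of the ring of integers. -/
def re' {N : ℕ} (x : integralClosure ℤ (Fq N)) : ℝ := ((x : Fq N) : ℝ)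

theorem re'_add {N : ℕ} (x y : integralClosure ℤ (Fq N)) : re' (x + y) = re' x + re' y := rfl
theorem re'_mul {N : ℕ} (x y : integralClosure ℤ (Fq N)) : re' (x * y) = re' x * re' y := rfl
theorem re'_one {N : ℕ} : re' (1 : integralClosure ℤ (Fq N)) = 1 := rfl
theorem re'_zero {N : ℕ} : re' (0 : integralClosure ℤ (Fq N)) = 0 := rfl

theorem re'_inj {N : ℕ} {x y : integralClosure ℤ (Fq N)} (h : re' x = re' y) : x = y :=
  Subtype.ext (Subtype.ext h)

theorem re'_mem {N : ℕ} (x : integralClosure ℤ (Fq N)) : re' x ∈ Fq N := x.1.2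

theorem re'_int {N : ℕ} (x : integralClosure ℤ (Fq N)) : IsIntegral ℤ (re' x) :=
  IsIntegral.map (Fq N).subtype.toIntAlgHom x.2

/-- An integral element of the field as an element of the ring of integers. -/
theorem exists_re' {N : ℕ} {x : ℝ} (hx : x ∈ Fq N) (hi : IsIntegral ℤ x) :
    ∃ y : integralClosure ℤ (Fq N), re' y = x := by
  refine ⟨⟨⟨x, hx⟩, ?_⟩, rfl⟩
  exact (isIntegral_algHom_iff (Fq N).subtype.toIntAlgHom
    (Subtype.coe_injective)).mp hi

/-- Homomorphisms of the ring of integers. -/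
theorem mk_hom {N : ℕ} (hN : Squarefree N) (h1 : 1 < N) {c : ℤ}
    (h : ∀ x : integralClosure ℤ (Fq N), ∃ A B : ℤ, c * re' x = A + B * Real.sqrt N)
    {R : Type} [CommRing R] {ci r : R} (hci : (c : R) * ci = 1) (hr : r * r = N) :
    ∃ f : integralClosure ℤ (Fq N) →+* R, ∀ x (A B : ℤ), c * re' x = A + B * Real.sqrt N →
      f x = ci * (A + B * r) := by
  have hs := sqrt_sq' N
  choose A B hAB using h
  refine ⟨{ toFun := fun x => ci * (A x + B x * r)
            map_one' := ?_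
            map_mul' := ?_
            map_zero' := ?_
            map_add' := ?_ }, ?_⟩
  · have h2 := hAB 1
    rw [re'_one] at h2
    obtain ⟨h3, h4⟩ := uniq hN h1 (A := c) (B := 0) (C := A 1) (D := B 1) (by
      rw [← h2]; push_cast; ring)
    rw [← h3, ← h4, Int.cast_zero, zero_mul, add_zero, mul_comm, hci]
  · intro x y
    have h2 := hAB (x * y)
    rw [re'_mul] at h2
    have hx := hAB x
    have hy := hAB y
    obtain ⟨h3, h4⟩ := uniq hN h1 (A := c * A (x * y)) (B := c * B (x * y))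
      (C := A x * A y + N * (B x * B y)) (D := A x * B y + B x * A y) (by
        push_cast
        linear_combination (-(c : ℝ)) * h2 + (c : ℝ) * re' x * hy +
          (A y + B y * Real.sqrt N) * hx + (B x : ℝ) * B y * hs)
    have h5 : (c : R) * (A (x * y) : R) = A x * A y + N * (B x * B y) := by exact_mod_cast congrArg (fun z : ℤ => (z : R)) h3
    have h6 : (c : R) * (B (x * y) : R) = A x * B y + B x * A y := by exact_mod_cast congrArg (fun z : ℤ => (z : R)) h4
    show ci * ((A (x * y) : R) + B (x * y) * r) = ci * (A x + B x * r) * (ci * (A y + B y * r))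
    linear_combination (-(ci * ((A (x * y) : R) + B (x * y) * r))) * hci + ci ^ 2 * h5 +
      ci ^ 2 * r * h6 - ci ^ 2 * B x * B y * hr
  · have h2 := hAB 0
    rw [re'_zero, mul_zero] at h2
    obtain ⟨h3, h4⟩ := uniq hN h1 (A := 0) (B := 0) (C := A 0) (D := B 0) (by
      rw [← h2]; push_cast; ring)
    show ci * ((A 0 : R) + B 0 * r) = 0
    rw [← h3, ← h4, Int.cast_zero, zero_mul, add_zero, mul_zero]
  · intro x y
    have h2 := hAB (x + y)
    rw [re'_add] at h2
    obtain ⟨h3, h4⟩ := uniq hN h1 (A := A (x + y)) (B := B (x + y)) (C := A x + A y)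
      (D := B x + B y) (by
        push_cast
        linear_combination -h2 + hAB x + hAB y)
    show ci * ((A (x + y) : R) + B (x + y) * r) = ci * (A x + B x * r) + ci * (A y + B y * r)
    rw [h3, h4]
    push_cast
    ring
  · intro x A' B' hx
    obtain ⟨h3, h4⟩ := uniq hN h1 (A := A x) (B := B x) (C := A') (D := B') (by
      rw [← hx, hAB x])
    show ci * ((A x : R) + B x * r) = ci * (A' + B' * r)
    rw [h3, h4]

/-- The coordinates with denominator two. -/
theorem struct2 {N : ℕ} (hN : Squarefree N) (h1 : 1 < N) (x : integralClosure ℤ (Fq N)) :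
    ∃ A B : ℤ, ((2 : ℤ) : ℝ) * re' x = A + B * Real.sqrt N ∧ (4 : ℤ) ∣ A ^ 2 - N * B ^ 2 := by
  obtain ⟨A, B, h2, h3⟩ := struct hN h1 (re'_mem x) (re'_int x)
  exact ⟨A, B, by push_cast; exact h2, h3⟩

theorem odd_zmod : ∀ A B N : ZMod 4, A ^ 2 - N * B ^ 2 = 0 → (N = 2 ∨ N = 3) →
    (2 * A = 0 ∧ 2 * B = 0) := by decide

theorem even_of_two_mul_zmod {A : ℤ} (h : (2 : ZMod 4) * (A : ZMod 4) = 0) : ∃ k, A = 2 * k := by
  have h2 : ((2 * A : ℤ) : ZMod 4) = 0 := by push_cast; exact h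
  have h3 : (4 : ℤ) ∣ 2 * A := (ZMod.intCast_zmod_eq_zero_iff_dvd (2 * A) 4).mp h2
  obtain ⟨k, hk⟩ := h3
  exact ⟨k, by omega⟩

/-- The coordinates for `N` equal to `2` or `3` modulo `4`. -/
theorem struct1 {N : ℕ} (hN : Squarefree N) (h1 : 1 < N) (h4 : N % 4 = 2 ∨ N % 4 = 3)
    (x : integralClosure ℤ (Fq N)) :
    ∃ A B : ℤ, ((1 : ℤ) : ℝ) * re' x = A + B * Real.sqrt N := by
  obtain ⟨A, B, h2, h3⟩ := struct2 hN h1 x
  have h5 : ((A : ZMod 4)) ^ 2 - (N : ZMod 4) * (B : ZMod 4) ^ 2 = 0 := by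
    have := (ZMod.intCast_zmod_eq_zero_iff_dvd (A ^ 2 - N * B ^ 2) 4).mpr h3
    push_cast at this
    exact this
  have h6 : (N : ZMod 4) = 2 ∨ (N : ZMod 4) = 3 := by
    rcases h4 with h | h
    · left
      have : ((N : ℕ) : ZMod 4) = ((2 : ℕ) : ZMod 4) := (ZMod.natCast_eq_natCast_iff' N 2 4).mpr (by omega)
      exact_mod_cast this
    · right
      have : ((N : ℕ) : ZMod 4) = ((3 : ℕ) : ZMod 4) := (ZMod.natCast_eq_natCast_iff' N 3 4).mpr (by omega)
      exact_mod_cast this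
  obtain ⟨hA, hB⟩ := odd_zmod _ _ _ h5 h6
  obtain ⟨k, hk⟩ := even_of_two_mul_zmod hA
  obtain ⟨l, hl⟩ := even_of_two_mul_zmod hB
  refine ⟨k, l, ?_⟩
  rw [hk, hl] at h2
  push_cast at h2 ⊢
  linarith

/-- The square root in the ring of integers. -/
theorem exists_sqrt (N : ℕ) : ∃ s : integralClosure ℤ (Fq N), re' s = Real.sqrt N :=
  exists_re' (sqrt_mem N) (sqrt_isIntegral N)

theorem sqrt_mul_self {N : ℕ} {s : integralClosure ℤ (Fq N)} (hs : re' s = Real.sqrt N) :
    s * s = (N : integralClosure ℤ (Fq N)) := by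
  apply re'_inj
  rw [re'_mul, hs, sqrt_sq']
  rfl

theorem re'_natCast {N : ℕ} (n : ℕ) : re' (n : integralClosure ℤ (Fq N)) = n := rfl

theorem exists_sol {N : ℕ} (h : N % 4 = 3) {s : integralClosure ℤ (Fq N)}
    (hs : re' s = Real.sqrt N) :
    s ^ 2 + 1 = 4 * (((N + 1) / 4 : ℕ) : integralClosure ℤ (Fq N)) := by
  rw [pow_two, sqrt_mul_self hs]
  have h2 : N + 1 = 4 * ((N + 1) / 4) := by omega
  have h3 : ((N + 1 : ℕ) : integralClosure ℤ (Fq N)) =
      ((4 * ((N + 1) / 4) : ℕ) : integralClosure ℤ (Fq N)) := congrArg _ h2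
  push_cast at h3
  exact h3

theorem zmod_two : ∀ x y : ZMod 4, x ^ 2 + 2 * y ^ 2 + 1 = 0 → 2 * x * y = 0 → False := by decide

theorem zmod_one : ∀ x y : ZMod 4, x ^ 2 + y ^ 2 + 1 = 2 * (x * y) → False := by decide

theorem zmod_sq : ∀ x : ZMod 4, x ^ 2 + 1 = 0 → False := by decide

theorem exists_ab (N : ℕ) (hN : Squarefree N) :
    (∃ a b : integralClosure ℤ (Fq N), a ^ 2 + 1 = 4 * b) ↔ N % 4 = 3 := by
  constructor
  · rintro ⟨a, b, hab⟩
    have hab' : re' a ^ 2 + 1 = 4 * re' b := by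
      have := congrArg re' hab
      rw [pow_two] at this ⊢
      exact this
    have hs := sqrt_sq' N
    have hN0 : N ≠ 0 := hN.ne_zero
    have h40 : N % 4 ≠ 0 := by
      intro h0
      have : 2 * 2 ∣ N := Nat.dvd_of_mod_eq_zero h0
      have := Nat.isUnit_iff.mp (hN 2 this)
      omega
    have hcases : N = 1 ∨ 1 < N := by omega
    rcases hcases with h1 | h1
    · exfalso
      have hint : ∀ x : integralClosure ℤ (Fq N), ∃ m : ℤ, re' x = m := by
        intro x
        obtain ⟨p, q, hpq⟩ := mem_Fq (re'_mem x)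
        have hx : re' x = ((p + q : ℚ) : ℝ) := by
          rw [hpq, h1]
          push_cast
          simp
        have h2 : IsIntegral ℤ ((algebraMap ℚ ℝ) (p + q)) := by
          rw [eq_ratCast, ← hx]
          exact re'_int x
        obtain ⟨m, hm⟩ := IsIntegrallyClosed.isIntegral_iff.mp
          ((isIntegral_algebraMap_iff (algebraMap ℚ ℝ).injective).mp h2)
        refine ⟨m, ?_⟩
        rw [hx, ← hm]
        simp
      obtain ⟨m, hm⟩ := hint a
      obtain ⟨n, hn⟩ := hint b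
      rw [hm, hn] at hab'
      have h3 : m ^ 2 + 1 = 4 * n := by exact_mod_cast hab'
      have h4 := congrArg (fun z : ℤ => (z : ZMod 4)) h3
      push_cast at h4
      have h5 : (4 : ZMod 4) = 0 := by decide
      rw [h5, zero_mul] at h4
      exact zmod_sq _ h4
    · by_contra h3
      have hc : N % 4 = 1 ∨ N % 4 = 2 := by omega
      rcases hc with hc | hc
      · obtain ⟨A, B, hA, hA'⟩ := struct2 hN h1 a
        obtain ⟨C, D, hC, hC'⟩ := struct2 hN h1 b
        obtain ⟨e1, e2⟩ := uniq hN h1 (A := A ^ 2 + N * B ^ 2 + 4) (B := 2 * A * B) (C := 8 * C)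
          (D := 8 * D) (by
            push_cast at hA hC ⊢
            linear_combination (-(2 * re' a + (A + B * Real.sqrt N))) * hA + 8 * hC + 4 * hab' -
              (B : ℝ) ^ 2 * hs)
        have hN4 : (N : ZMod 4) = 1 := by
          have : ((N : ℕ) : ZMod 4) = ((1 : ℕ) : ZMod 4) :=
            (ZMod.natCast_eq_natCast_iff' N 1 4).mpr (by omega)
          exact_mod_cast this
        have par : ∀ A B : ℤ, (4 : ℤ) ∣ A ^ 2 - N * B ^ 2 → ∃ k, A = B + 2 * k := by
          intro A B h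
          have h5 := (ZMod.intCast_zmod_eq_zero_iff_dvd (A ^ 2 - N * B ^ 2) 4).mpr h
          push_cast at h5
          rw [hN4] at h5
          have h6 : ∀ A B : ZMod 4, A ^ 2 - 1 * B ^ 2 = 0 → 2 * (A - B) = 0 := by decide
          have h7 := h6 _ _ h5
          obtain ⟨k, hk⟩ := even_of_two_mul_zmod (A := A - B) (by push_cast; exact h7)
          exact ⟨k, by omega⟩
        obtain ⟨k, hk⟩ := par A B hA'
        obtain ⟨l, hl⟩ := par C D hC'
        have e3 : A * B = 4 * D := by linarith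
        have hB2 : Even B := by
          by_contra ho
          rw [Int.not_even_iff_odd] at ho
          have hoA : Odd A := by
            rw [hk]
            exact ho.add_even (even_two_mul k)
          have := hoA.mul ho
          rw [e3] at this
          have h8 : Even (4 * D) := ⟨2 * D, by ring⟩
          exact (Int.not_even_iff_odd.mpr this) h8
        obtain ⟨y, hy⟩ := hB2
        have hA2 : A = 2 * (y + k) := by rw [hk, hy]; ring
        have hB3 : B = 2 * y := by rw [hy]; ring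
        obtain ⟨x, hx⟩ : ∃ x, x = y + k := ⟨_, rfl⟩
        rw [← hx] at hA2
        have e4 : x * y = D := by
          rw [hA2, hB3] at e3
          linarith
        have e5 : x ^ 2 + N * y ^ 2 + 1 = 2 * (x * y) + 4 * l := by
          rw [hA2, hB3, hl, ← e4] at e1
          linarith
        have e6 := congrArg (fun z : ℤ => (z : ZMod 4)) e5
        push_cast at e6
        have h5 : (4 : ZMod 4) = 0 := by decide
        rw [hN4, h5, zero_mul, add_zero, one_mul] at e6
        exact zmod_one _ _ e6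
      · obtain ⟨A, B, hA⟩ := struct1 hN h1 (Or.inl hc) a
        obtain ⟨C, D, hC⟩ := struct1 hN h1 (Or.inl hc) b
        obtain ⟨e1, e2⟩ := uniq hN h1 (A := A ^ 2 + N * B ^ 2 + 1) (B := 2 * A * B) (C := 4 * C)
          (D := 4 * D) (by
            push_cast at hA hC ⊢
            linear_combination (-(re' a + (A + B * Real.sqrt N))) * hA + 4 * hC + hab' -
              (B : ℝ) ^ 2 * hs)
        have hN4 : (N : ZMod 4) = 2 := by
          have : ((N : ℕ) : ZMod 4) = ((2 : ℕ) : ZMod 4) :=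
            (ZMod.natCast_eq_natCast_iff' N 2 4).mpr (by omega)
          exact_mod_cast this
        have h5 : (4 : ZMod 4) = 0 := by decide
        have e3 := congrArg (fun z : ℤ => (z : ZMod 4)) e1
        have e4 := congrArg (fun z : ℤ => (z : ZMod 4)) e2
        push_cast at e3 e4
        rw [hN4, h5, zero_mul] at e3
        rw [h5, zero_mul] at e4
        exact zmod_two _ _ e3 e4
  · intro h
    obtain ⟨s, hs⟩ := exists_sqrt N
    exact ⟨s, _, exists_sol h hs⟩

theorem hom_iff (N : ℕ) (hN : Squarefree N) (hN1 : 1 < N) (p : ℕ) [Fact p.Prime] (hp : p ≠ 2) :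
    Nonempty (integralClosure ℤ (Fq N) →+* ZMod p) ↔ IsSquare (N : ZMod p) := by
  constructor
  · rintro ⟨f⟩
    obtain ⟨s, hs⟩ := exists_sqrt N
    refine ⟨f s, ?_⟩
    rw [← map_mul, sqrt_mul_self hs, map_natCast]
  · rintro ⟨r, hr⟩
    have h2 : ((2 : ℤ) : ZMod p) ≠ 0 := by
      intro h
      have h3 : (p : ℤ) ∣ 2 := (ZMod.intCast_zmod_eq_zero_iff_dvd 2 p).mp h
      have h4 : p ∣ 2 := by exact_mod_cast h3
      exact hp ((Nat.prime_dvd_prime_iff_eq (Fact.out : p.Prime) Nat.prime_two).mp h4)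
    obtain ⟨f, _⟩ := mk_hom hN hN1 (c := 2) (fun x => by
      obtain ⟨A, B, h, _⟩ := struct2 hN hN1 x
      exact ⟨A, B, h⟩) (R := ZMod p) (ci := ((2 : ℤ) : ZMod p)⁻¹) (r := r)
      (mul_inv_cancel₀ h2) hr.symm
    exact ⟨f⟩

theorem hom_two (N : ℕ) (hN : Squarefree N) (h : N % 8 = 3) :
    ∃ (ψ : integralClosure ℤ (Fq N) →+* ZMod 2) (a b : integralClosure ℤ (Fq N)),
      a ^ 2 + 1 = 4 * b ∧ ψ b = 1 := by
  have h1 : 1 < N := by omega
  obtain ⟨s, hs⟩ := exists_sqrt N
  have hN2 : (N : ZMod 2) = 1 := by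
    have : ((N : ℕ) : ZMod 2) = ((1 : ℕ) : ZMod 2) :=
      (ZMod.natCast_eq_natCast_iff' N 1 2).mpr (by omega)
    exact_mod_cast this
  obtain ⟨f, _⟩ := mk_hom hN h1 (c := 1) (fun x => struct1 hN h1 (Or.inr (by omega)) x)
    (R := ZMod 2) (ci := 1) (r := 1) (by simp) (by rw [hN2, one_mul])
  refine ⟨f, s, _, exists_sol (by omega) hs, ?_⟩
  rw [map_natCast]
  have : (((N + 1) / 4 : ℕ) : ZMod 2) = ((1 : ℕ) : ZMod 2) :=
    (ZMod.natCast_eq_natCast_iff' ((N + 1) / 4) 1 2).mpr (by omega)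
  exact_mod_cast this

end Pool.Agent.MP8b8716.QD
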