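import Mathlib
import Pool.Agent.Lib.MP_8b8716_co.Defs
import Pool.Agent.Lib.MP_8b8716_co.Denom

/-!
Module AP of MP_8b8716_co: from a character killed by three to functionals on `Pp F`.
-/

set_option autoImplicit false

open Complex

namespace Pool.Agent.MP8b8716.AP

private lemma tors3 (a : UnitAddCircle) (h : 3 • a = 0) : ∃ c : ZMod 3, ZMod.toAddCircle c = a := by
  induction a using QuotientAddGroup.induction_on with
  | H t =>
    have h1 : ((3 * t : ℝ) : UnitAddCircle) = 0 := by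
      rw [← h, ← AddCircle.coe_nsmul, nsmul_eq_mul]
      norm_num
    rw [AddCircle.coe_eq_zero_iff] at h1
    obtain ⟨n, hn⟩ := h1
    refine ⟨(n : ZMod 3), ?_⟩
    rw [ZMod.toAddCircle_intCast]
    have : (n : ℝ) / ((3 : ℕ) : ℝ) = t := by
      rw [zsmul_eq_mul, mul_one] at hn
      rw [hn]; push_cast; ring
    rw [this]

variable (F : Subfield ℝ) (τ : ℂ →+ UnitAddCircle)

/-- The class `c` modulo three belongs to `z`. -/
private def Q (z : ℂ) (c : ZMod 3) : Prop :=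
  ∃ k : ℕ, (4 : ℂ) ^ k * z ∈ RR F ∧ τ ((4 : ℂ) ^ k * z) = ZMod.toAddCircle c

variable {F τ}

private lemma three_kill (h3 : ∀ u ∈ UU F, 3 • τ u = 0) (x : ℂ) (hx : x ∈ RR F) :
    3 • τ x = 0 := by
  induction hx using AddSubgroup.closure_induction with
  | mem x hx => exact h3 x hx
  | zero => rw [map_zero, smul_zero]
  | add a b _ _ ha hb => rw [map_add, smul_add, ha, hb, add_zero]
  | neg a _ ha => rw [map_neg, smul_neg, ha, neg_zero]

private lemma four_step (h3 : ∀ u ∈ UU F, 3 • τ u = 0) (x : ℂ) (hx : x ∈ RR F) (j : ℕ) :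
    (4 : ℂ) ^ j * x ∈ RR F ∧ τ ((4 : ℂ) ^ j * x) = τ x := by
  induction j with
  | zero => rw [pow_zero, one_mul]; exact ⟨hx, rfl⟩
  | succ j ih =>
    obtain ⟨i1, i2⟩ := ih
    have e : (4 : ℂ) ^ (j + 1) * x = 4 • ((4 : ℂ) ^ j * x) := by
      rw [nsmul_eq_mul, pow_succ]; push_cast; ring
    rw [e]
    refine ⟨(RR F).nsmul_mem i1 4, ?_⟩
    rw [map_nsmul, i2]
    have := three_kill h3 x hx
    calc 4 • τ x = 3 • τ x + τ x := by rw [show (4 : ℕ) = 3 + 1 from rfl, add_smul, one_smul]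
      _ = τ x := by rw [this, zero_add]

private lemma Q_unique (h3 : ∀ u ∈ UU F, 3 • τ u = 0) {z : ℂ} {c c' : ZMod 3}
    (h : Q F τ z c) (h' : Q F τ z c') : c = c' := by
  obtain ⟨k, hk, e⟩ := h
  obtain ⟨l, hl, e'⟩ := h'
  have a1 := (four_step h3 _ hk l).2
  have a2 := (four_step h3 _ hl k).2
  have a3 : (4 : ℂ) ^ l * ((4 : ℂ) ^ k * z) = (4 : ℂ) ^ k * ((4 : ℂ) ^ l * z) := by ring
  rw [a3, a2, e, e'] at a1
  exact (ZMod.toAddCircle_injective 3 a1).symm

private lemma Q_exists (h3 : ∀ u ∈ UU F, 3 • τ u = 0) {z : ℂ} {k : ℕ}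
    (h : (4 : ℂ) ^ k * z ∈ RR F) : ∃ c, Q F τ z c := by
  obtain ⟨c, hc⟩ := tors3 _ (three_kill h3 _ h)
  exact ⟨c, k, h, hc.symm⟩

private lemma Q_add (h3 : ∀ u ∈ UU F, 3 • τ u = 0) {z z' : ℂ} {c c' : ZMod 3}
    (h : Q F τ z c) (h' : Q F τ z' c') : Q F τ (z + z') (c + c') := by
  obtain ⟨k, hk, e⟩ := h
  obtain ⟨l, hl, e'⟩ := h'
  obtain ⟨a1, a2⟩ := four_step h3 _ hk l
  obtain ⟨b1, b2⟩ := four_step h3 _ hl k
  have e3 : (4 : ℂ) ^ (k + l) * (z + z') =
      (4 : ℂ) ^ l * ((4 : ℂ) ^ k * z) + (4 : ℂ) ^ k * ((4 : ℂ) ^ l * z') := by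
    rw [pow_add]; ring
  refine ⟨k + l, ?_, ?_⟩
  · rw [e3]; exact (RR F).add_mem a1 b1
  · rw [e3, map_add, a2, b2, e, e', map_add]

private lemma poly3 (x : ℝ) (hx : IsAlgebraic ℚ x) :
    ∃ f : Polynomial ℤ, f.map (Int.castRingHom (ZMod 3)) ≠ 0 ∧
      Polynomial.eval₂ (Int.castRingHom ℝ) x f = 0 := by
  have hx' : IsAlgebraic ℤ x := (IsFractionRing.isAlgebraic_iff ℤ ℚ ℝ).2 hx
  obtain ⟨f, hf, hfx⟩ := hx'
  have h1 := Polynomial.aeval_primPart_eq_zero hf hfx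
  have h2 : f.primPart.IsPrimitive := f.isPrimitive_primPart
  refine ⟨f.primPart, ?_, ?_⟩
  · intro h0
    have h4 : Polynomial.C (3 : ℤ) ∣ f.primPart := by
      rw [Polynomial.C_dvd_iff_dvd_coeff]
      intro i
      have := congrArg (fun g => Polynomial.coeff g i) h0
      simp only [Polynomial.coeff_map, Polynomial.coeff_zero, eq_intCast] at this
      exact (ZMod.intCast_zmod_eq_zero_iff_dvd _ 3).1 this
    have h5 := h2 3 h4
    rw [Int.isUnit_iff] at h5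
    omega
  · rw [← h1, Polynomial.aeval_def]
    congr 1

theorem to_Pp (F : Subfield ℝ) (hF : ∀ x ∈ F, IsAlgebraic ℚ x) (τ : ℂ →+ UnitAddCircle)
    (h0 : ∀ u ∈ UU F, τ u ≠ 0) (h3 : ∀ u ∈ UU F, 3 • τ u = 0) :
    (∀ t : Pp F, IsUnit (1 + t ^ 2)) ∧
    (∀ t : Pp F, ∃ f : Polynomial ℤ, f.map (Int.castRingHom (ZMod 3)) ≠ 0 ∧
      Polynomial.aeval t f = 0) ∧
    ∃ l1 l2 : Pp F →+ ZMod 3, ∀ x y : Pp F, x ^ 2 + y ^ 2 = 1 → l1 x + l2 y ≠ 0 := by
  classical
  refine ⟨?_, ?_, ?_⟩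
  · intro t
    have h := (AL.inv_Pp F (t : F)).1
    refine IsUnit.of_mul_eq_one ⟨_, h⟩ ?_
    apply Subtype.ext
    have hne : (1 + (t : F) ^ 2) ≠ 0 := by
      intro h
      have h' := congrArg (Subtype.val) h
      push_cast at h'
      have : 0 ≤ (((t : F) : ℝ)) ^ 2 := sq_nonneg _
      linarith
    push_cast
    exact mul_inv_cancel₀ hne
  · intro t
    obtain ⟨f, hf, hft⟩ := poly3 (((t : F)) : ℝ) (hF _ (t : F).2)
    refine ⟨f, hf, ?_⟩
    set ι : Pp F →+* ℝ := F.subtype.comp (Pp F).subtype with hι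
    have hinj : Function.Injective ι := by
      intro a b hab
      exact Subtype.ext (Subtype.ext hab)
    apply hinj
    rw [map_zero, Polynomial.aeval_def, Polynomial.hom_eval₂, ← hft]
    congr 1
  · have ex1 : ∀ t : Pp F, ∃ c, Q F τ (((t : F) : ℝ) : ℂ) c := by
      intro t
      obtain ⟨k, hk⟩ := t.2
      exact Q_exists h3 hk
    have ex2 : ∀ t : Pp F, ∃ c, Q F τ ((((t : F) : ℝ) : ℂ) * I) c := by
      intro t
      obtain ⟨k, hk⟩ := t.2
      have := RR_mul hk (UU_RR (I_UU F))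
      rw [mul_assoc] at this
      exact Q_exists h3 this
    choose g1 hg1 using ex1
    choose g2 hg2 using ex2
    refine ⟨AddMonoidHom.mk' g1 (fun a b => ?_), AddMonoidHom.mk' g2 (fun a b => ?_), ?_⟩
    · refine Q_unique h3 (hg1 (a + b)) ?_
      have := Q_add h3 (hg1 a) (hg1 b)
      convert this using 1
      push_cast
      ring
    · refine Q_unique h3 (hg2 (a + b)) ?_
      have := Q_add h3 (hg2 a) (hg2 b)
      convert this using 1
      push_cast
      ring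
    · intro x y hxy
      have hQ := Q_add h3 (hg1 x) (hg2 y)
      have hxy' : (((x : F) : ℝ)) ^ 2 + (((y : F) : ℝ)) ^ 2 = 1 := by
        have := congrArg (fun t : Pp F => (((t : F)) : ℝ)) hxy
        push_cast at this
        exact this
      have hu : (((x : F) : ℝ) : ℂ) + (((y : F) : ℝ) : ℂ) * I ∈ UU F := by
        refine ⟨?_, ?_, ?_⟩
        · simp
        · simp
        · simpa using hxy'
      obtain ⟨c, hc⟩ := tors3 _ (h3 _ hu)
      have hQ' : Q F τ ((((x : F) : ℝ) : ℂ) + (((y : F) : ℝ) : ℂ) * I) c := by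
        refine ⟨0, ?_, ?_⟩
        · rw [pow_zero, one_mul]; exact UU_RR hu
        · rw [pow_zero, one_mul]; exact hc.symm
      have e := Q_unique h3 hQ hQ'
      change g1 x + g2 y ≠ 0
      rw [e]
      rintro rfl
      rw [map_zero] at hc
      exact h0 _ hu hc.symm

end Pool.Agent.MP8b8716.AP
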