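import Pool.Agent.Lib.MP_8b8716_co.Defs

set_option autoImplicit false

/-!
# Colouring from an inert unramified place above two (module U2)
-/

namespace Pool.Agent.MP8b8716.U2

/-- extension of `φ` by zero -/
private noncomputable def ext {F : Subfield ℝ} (V : ValuationSubring F) {K : Type} [Field K]
    (φ : V →+* K) (x : F) : K :=
  open Classical in if h : x ∈ V then φ ⟨x, h⟩ else 0

private theorem ext_of {F : Subfield ℝ} (V : ValuationSubring F) {K : Type} [Field K]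
    (φ : V →+* K) {x : F} (h : x ∈ V) : ext V φ x = φ ⟨x, h⟩ := by
  unfold ext
  rw [dif_pos h]

private theorem ext_add {F : Subfield ℝ} (V : ValuationSubring F) {K : Type} [Field K]
    (φ : V →+* K) {x y : F} (hx : x ∈ V) (hy : y ∈ V) :
    ext V φ (x + y) = ext V φ x + ext V φ y := by
  rw [ext_of V φ hx, ext_of V φ hy, ext_of V φ (V.add_mem _ _ hx hy), ← map_add]
  rfl

private theorem inv_nonunit {F : Subfield ℝ} (V : ValuationSubring F) {z : F} (hz : z ∉ V)
    (h : z⁻¹ ∈ V) : ¬ IsUnit (⟨z⁻¹, h⟩ : V) := by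
  intro hu
  obtain ⟨v, hv⟩ := hu.exists_right_inv
  have h1 : z⁻¹ * (v : F) = 1 := congrArg Subtype.val hv
  have hz0 : z ≠ 0 := fun h0 => hz (h0 ▸ V.zero_mem)
  have h2 : (v : F) = z := by
    field_simp at h1
    exact h1
  exact hz (h2 ▸ v.2)

private theorem caseA {F : Subfield ℝ} (V : ValuationSubring F) {K : Type} [Field K]
    (φ : V →+* K) (hφ : ∀ x : V, ¬ IsUnit x → φ x = 0) (a b : V) (ha : φ a = 1)
    (hirr : ∀ t : K, t ^ 2 + t + φ b ≠ 0) {w z : F}
    (h : w ^ 2 + (a : F) * w * z + (b : F) * z ^ 2 = 1) (hz : z ∉ V) (hwz : w / z ∈ V) :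
    False := by
  have hz0 : z ≠ 0 := fun h0 => hz (h0 ▸ V.zero_mem)
  have hzi : z⁻¹ ∈ V := (V.mem_or_inv_mem z).resolve_left hz
  have h1 : (⟨w / z, hwz⟩ : V) ^ 2 + a * ⟨w / z, hwz⟩ + b = (⟨z⁻¹, hzi⟩ : V) ^ 2 := by
    apply Subtype.ext
    change (w / z) ^ 2 + (a : F) * (w / z) + (b : F) = (z⁻¹) ^ 2
    field_simp
    linear_combination h
  have h2 := congrArg φ h1
  rw [map_add, map_add, map_pow, map_mul, map_pow, hφ _ (inv_nonunit V hz hzi), ha, one_mul] at h2
  apply hirr (φ ⟨w / z, hwz⟩)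
  rw [h2]
  norm_num

private theorem caseB {F : Subfield ℝ} (V : ValuationSubring F) {K : Type} [Field K]
    (φ : V →+* K) (hφ : ∀ x : V, ¬ IsUnit x → φ x = 0) (a b : V) (ha : φ a = 1)
    (hirr : ∀ t : K, t ^ 2 + t + φ b ≠ 0) {w z : F}
    (h : w ^ 2 + (a : F) * w * z + (b : F) * z ^ 2 = 1) (hw : w ∉ V) (hzw : z / w ∈ V) :
    False := by
  have hw0 : w ≠ 0 := fun h0 => hw (h0 ▸ V.zero_mem)
  have hwi : w⁻¹ ∈ V := (V.mem_or_inv_mem w).resolve_left hw
  have h1 : 1 + a * ⟨z / w, hzw⟩ + b * (⟨z / w, hzw⟩ : V) ^ 2 = (⟨w⁻¹, hwi⟩ : V) ^ 2 := by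
    apply Subtype.ext
    change 1 + (a : F) * (z / w) + (b : F) * (z / w) ^ 2 = (w⁻¹) ^ 2
    field_simp
    linear_combination h
  have h2 := congrArg φ h1
  rw [map_add, map_add, map_one, map_mul, map_mul, map_pow, map_pow,
    hφ _ (inv_nonunit V hw hwi), ha, one_mul] at h2
  obtain ⟨s, hs⟩ : ∃ s, s = φ ⟨z / w, hzw⟩ := ⟨_, rfl⟩
  rw [← hs] at h2
  have hs0 : s ≠ 0 := by
    intro h0
    rw [h0] at h2
    norm_num at h2
  apply hirr s⁻¹
  have h3 : s ^ 2 * ((s⁻¹) ^ 2 + s⁻¹ + φ b) = 0 := by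
    field_simp
    linear_combination h2
  rcases mul_eq_zero.mp h3 with h4 | h4
  · exact absurd (pow_eq_zero_iff (two_ne_zero)|>.mp h4) hs0
  · exact h4

private theorem both {F : Subfield ℝ} (V : ValuationSubring F) {K : Type} [Field K]
    (φ : V →+* K) (hφ : ∀ x : V, ¬ IsUnit x → φ x = 0) (a b : V) (ha : φ a = 1)
    (hirr : ∀ t : K, t ^ 2 + t + φ b ≠ 0) {w z : F}
    (h : w ^ 2 + (a : F) * w * z + (b : F) * z ^ 2 = 1) : w ∈ V ∧ z ∈ V := by
  by_contra hcon
  by_cases hz : z ∈ V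
  · have hw : w ∉ V := fun hw => hcon ⟨hw, hz⟩
    have hwi : w⁻¹ ∈ V := (V.mem_or_inv_mem w).resolve_left hw
    refine caseB V φ hφ a b ha hirr h hw ?_
    rw [div_eq_mul_inv]
    exact V.mul_mem _ _ hz hwi
  · by_cases hwz : w / z ∈ V
    · exact caseA V φ hφ a b ha hirr h hz hwz
    · have hzi : z⁻¹ ∈ V := (V.mem_or_inv_mem z).resolve_left hz
      have hw : w ∉ V := by
        intro hw
        apply hwz
        rw [div_eq_mul_inv]
        exact V.mul_mem _ _ hw hzi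
      refine caseB V φ hφ a b ha hirr h hw ?_
      have := (V.mem_or_inv_mem (w / z)).resolve_left hwz
      rwa [inv_div] at this

/-- the points with integral coordinates `x - a y`, `2 y` -/
private def HH {F : Subfield ℝ} (V : ValuationSubring F) (a : V) : AddSubgroup (F × F) where
  carrier := {p | p.1 - (a : F) * p.2 ∈ V ∧ 2 * p.2 ∈ V}
  add_mem' := by
    rintro p q ⟨h1, h2⟩ ⟨h3, h4⟩
    refine ⟨?_, ?_⟩
    · have := V.add_mem _ _ h1 h3
      have e : (p + q).1 - (a : F) * (p + q).2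
          = (p.1 - (a : F) * p.2) + (q.1 - (a : F) * q.2) := by
        rw [Prod.fst_add, Prod.snd_add]; ring
      rw [e]; exact this
    · have := V.add_mem _ _ h2 h4
      have e : 2 * (p + q).2 = 2 * p.2 + 2 * q.2 := by rw [Prod.snd_add]; ring
      rw [e]; exact this
  zero_mem' := by
    refine ⟨?_, ?_⟩
    · rw [Prod.fst_zero, Prod.snd_zero, mul_zero, sub_zero]; exact V.zero_mem
    · rw [Prod.snd_zero, mul_zero]; exact V.zero_mem
  neg_mem' := by
    rintro p ⟨h1, h2⟩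
    refine ⟨?_, ?_⟩
    · have := V.neg_mem _ h1
      have e : (-p).1 - (a : F) * (-p).2 = -(p.1 - (a : F) * p.2) := by
        rw [Prod.fst_neg, Prod.snd_neg]; ring
      rw [e]; exact this
    · have := V.neg_mem _ h2
      have e : 2 * (-p).2 = -(2 * p.2) := by rw [Prod.snd_neg]; ring
      rw [e]; exact this

/-- Colouring from a place above two at which `F(i)` is inert and unramified. -/
theorem col_of_place_two (F : Subfield ℝ) (V : ValuationSubring F) {K : Type} [Field K]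
    (h2 : (2 : K) = 0) (φ : V →+* K) (hφ : ∀ x : V, ¬ IsUnit x → φ x = 0) (a b : V)
    (hab : a ^ 2 + 1 = 4 * b) (hirr : ∀ t : K, t ^ 2 + t + φ b ≠ 0) (n : ℕ)
    (c : K → K → Fin n)
    (hc : ∀ w z w' z' : K, w' ^ 2 + w' * z' + φ b * z' ^ 2 = 1 → c (w + w') (z + z') ≠ c w z) :
    (unitDistanceGraph F).Colorable n := by
  classical
  have ha : φ a = 1 := by
    have h1 := congrArg φ hab
    rw [map_add, map_pow, map_one, map_mul, map_ofNat] at h1
    have h3 : (φ a - 1) ^ 2 = 0 := by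
      linear_combination h1 + (2 * φ b - φ a) * h2
    have h4 := pow_eq_zero_iff (two_ne_zero) |>.mp h3
    linear_combination h4
  have habF : (a : F) ^ 2 + 1 = 4 * (b : F) := congrArg Subtype.val hab
  -- unit vectors
  have hunit : ∀ x y : F, x ^ 2 + y ^ 2 = 1 →
      (x - (a : F) * y) ^ 2 + (a : F) * (x - (a : F) * y) * (2 * y)
        + (b : F) * (2 * y) ^ 2 = 1 := by
    intro x y hxy
    linear_combination hxy - y ^ 2 * habF
  have hH : ∀ x y : F, x ^ 2 + y ^ 2 = 1 → x - (a : F) * y ∈ V ∧ 2 * y ∈ V := fun x y hxy =>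
    both V φ hφ a b ha hirr (hunit x y hxy)
  have hval : ∀ x y : F, x ^ 2 + y ^ 2 = 1 →
      (ext V φ (x - (a : F) * y)) ^ 2 + ext V φ (x - (a : F) * y) * ext V φ (2 * y)
        + φ b * (ext V φ (2 * y)) ^ 2 = 1 := by
    intro x y hxy
    obtain ⟨h3, h4⟩ := hH x y hxy
    rw [ext_of V φ h3, ext_of V φ h4]
    have h5 : (⟨x - (a : F) * y, h3⟩ : V) ^ 2 + a * ⟨x - (a : F) * y, h3⟩ * ⟨2 * y, h4⟩
        + b * (⟨2 * y, h4⟩ : V) ^ 2 = 1 := Subtype.ext (hunit x y hxy)
    have h6 := congrArg φ h5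
    rw [map_add, map_add, map_pow, map_mul, map_mul, map_mul, map_pow, map_one, ha, one_mul] at h6
    exact h6
  -- representatives
  let r : F × F → F × F := fun p => Quotient.out (QuotientAddGroup.mk p : (F × F) ⧸ HH V a)
  have hr : ∀ p, p - r p ∈ HH V a := by
    intro p
    have h1 : (QuotientAddGroup.mk (r p) : (F × F) ⧸ HH V a) = QuotientAddGroup.mk p :=
      Quotient.out_eq _
    have h3 := QuotientAddGroup.eq.mp h1
    rwa [neg_add_eq_sub] at h3
  have hrr : ∀ p q, p - q ∈ HH V a → r p = r q := by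
    intro p q hpq
    have h1 : (QuotientAddGroup.mk p : (F × F) ⧸ HH V a) = QuotientAddGroup.mk q := by
      rw [QuotientAddGroup.eq, neg_add_eq_sub]
      have := (HH V a).neg_mem hpq
      rwa [neg_sub] at this
    simp only [r, h1]
  refine ⟨SimpleGraph.Coloring.mk (fun p => c (ext V φ ((p - r p).1 - (a : F) * (p - r p).2))
    (ext V φ (2 * (p - r p).2))) ?_⟩
  intro p q hpq heq
  have hu : (p.1 - q.1) ^ 2 + (p.2 - q.2) ^ 2 = 1 := hpq
  have hmem : p - q ∈ HH V a := hH _ _ hu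
  have h1 := hrr p q hmem
  obtain ⟨h5, h6⟩ := hr q
  obtain ⟨h7, h8⟩ := hH _ _ hu
  have e1 : (p - r p).1 - (a : F) * (p - r p).2
      = ((q - r q).1 - (a : F) * (q - r q).2) + ((p.1 - q.1) - (a : F) * (p.2 - q.2)) := by
    rw [h1, Prod.fst_sub, Prod.snd_sub, Prod.fst_sub, Prod.snd_sub]; ring
  have e2 : 2 * (p - r p).2 = 2 * (q - r q).2 + 2 * (p.2 - q.2) := by
    rw [h1, Prod.snd_sub, Prod.snd_sub]; ring
  apply hc (ext V φ ((q - r q).1 - (a : F) * (q - r q).2)) (ext V φ (2 * (q - r q).2)) _ _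
    (hval _ _ hu)
  rw [← ext_add V φ h5 h7, ← ext_add V φ h6 h8, ← e1, ← e2]
  exact heq

end Pool.Agent.MP8b8716.U2
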