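import Pool.Agent.Lib.MP_8b8716_co.Valuation
import Pool.Agent.Lib.MP_8b8716_co.UpperTwo

set_option autoImplicit false

/-!
# Colouring from places with residue field `ZMod p`
-/

namespace Pool.Agent.MP8b8716.UP

/-- extension of `φ` by zero -/
private noncomputable def ext {F : Subfield ℝ} (V : ValuationSubring F) {K : Type} [Field K]
    (φ : V →+* K) (x : F) : K :=
  open Classical in if h : x ∈ V then φ ⟨x, h⟩ else 0

private theorem ext_of {F : Subfield ℝ} (V : ValuationSubring F) {K : Type} [Field K]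
    (φ : V →+* K) {x : F} (h : x ∈ V) : ext V φ x = φ ⟨x, h⟩ := by
  unfold ext
  rw [dif_pos h]

private theorem ext_add {F : Subfield ℝ} (V : ValuationSubring F) {K : Type} [Field K]
    (φ : V →+* K) {x y : F} (hx : x ∈ V) (hy : y ∈ V) :
    ext V φ (x + y) = ext V φ x + ext V φ y := by
  rw [ext_of V φ hx, ext_of V φ hy, ext_of V φ (V.add_mem _ _ hx hy), ← map_add]
  rfl

private theorem inv_nonunit {F : Subfield ℝ} (V : ValuationSubring F) {z : F} (hz : z ∉ V)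
    (h : z⁻¹ ∈ V) : ¬ IsUnit (⟨z⁻¹, h⟩ : V) := by
  intro hu
  obtain ⟨v, hv⟩ := hu.exists_right_inv
  have h1 : z⁻¹ * (v : F) = 1 := congrArg Subtype.val hv
  have hz0 : z ≠ 0 := fun h0 => hz (h0 ▸ V.zero_mem)
  have h2 : (v : F) = z := by
    field_simp at h1
    exact h1
  exact hz (h2 ▸ v.2)

private theorem case1 {F : Subfield ℝ} (V : ValuationSubring F) (p : ℕ) [Fact p.Prime]
    (hp : p % 4 = 3) (φ : V →+* ZMod p) (hφ : ∀ x : V, ¬ IsUnit x → φ x = 0) {x y : F}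
    (h : x ^ 2 + y ^ 2 = 1) (hx : x ∉ V) (hyx : y / x ∈ V) : False := by
  have hx0 : x ≠ 0 := fun h0 => hx (h0 ▸ V.zero_mem)
  have hxi : x⁻¹ ∈ V := (V.mem_or_inv_mem x).resolve_left hx
  have h1 : (1 : V) + (⟨y / x, hyx⟩ : V) ^ 2 = (⟨x⁻¹, hxi⟩ : V) ^ 2 := by
    apply Subtype.ext
    change 1 + (y / x) ^ 2 = (x⁻¹) ^ 2
    field_simp
    linear_combination h
  have h2 := congrArg φ h1
  rw [map_add, map_one, map_pow, map_pow, hφ _ (inv_nonunit V hx hxi)] at h2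
  have h3 : (φ ⟨y / x, hyx⟩) ^ 2 = -1 := by linear_combination h2
  exact ZMod.mod_four_ne_three_of_sq_eq_neg_one h3 hp

private theorem both {F : Subfield ℝ} (V : ValuationSubring F) (p : ℕ) [Fact p.Prime]
    (hp : p % 4 = 3) (φ : V →+* ZMod p) (hφ : ∀ x : V, ¬ IsUnit x → φ x = 0) {x y : F}
    (h : x ^ 2 + y ^ 2 = 1) : x ∈ V ∧ y ∈ V := by
  have h' : y ^ 2 + x ^ 2 = 1 := by rw [add_comm]; exact h
  by_contra hcon
  by_cases hy : y ∈ V
  · have hx : x ∉ V := fun hx => hcon ⟨hx, hy⟩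
    have hxi : x⁻¹ ∈ V := (V.mem_or_inv_mem x).resolve_left hx
    refine case1 V p hp φ hφ h hx ?_
    rw [div_eq_mul_inv]
    exact V.mul_mem _ _ hy hxi
  · by_cases hxy : x / y ∈ V
    · exact case1 V p hp φ hφ h' hy hxy
    · have hyi : y⁻¹ ∈ V := (V.mem_or_inv_mem y).resolve_left hy
      have hx : x ∉ V := by
        intro hx
        apply hxy
        rw [div_eq_mul_inv]
        exact V.mul_mem _ _ hx hyi
      refine case1 V p hp φ hφ h hx ?_
      have := (V.mem_or_inv_mem (x / y)).resolve_left hxy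
      rwa [inv_div] at this

/-- the points with integral coordinates -/
private def HH {F : Subfield ℝ} (V : ValuationSubring F) : AddSubgroup (F × F) where
  carrier := {p | p.1 ∈ V ∧ p.2 ∈ V}
  add_mem' := by
    rintro p q ⟨h1, h2⟩ ⟨h3, h4⟩
    exact ⟨V.add_mem _ _ h1 h3, V.add_mem _ _ h2 h4⟩
  zero_mem' := ⟨V.zero_mem, V.zero_mem⟩
  neg_mem' := by
    rintro p ⟨h1, h2⟩
    exact ⟨V.neg_mem _ h1, V.neg_mem _ h2⟩

/-- Colouring from a place with residue field `ZMod p`, `p = 3` modulo `4`. -/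
theorem col_of_place (F : Subfield ℝ) (p : ℕ) [Fact p.Prime] (hp : p % 4 = 3)
    (V : ValuationSubring F) (φ : V →+* ZMod p) (hφ : ∀ x : V, ¬ IsUnit x → φ x = 0) (n : ℕ)
    (c : ZMod p → ZMod p → Fin n)
    (hc : ∀ x y a b : ZMod p, a ^ 2 + b ^ 2 = 1 → c (x + a) (y + b) ≠ c x y) :
    (unitDistanceGraph F).Colorable n := by
  classical
  have hval : ∀ x y : F, x ^ 2 + y ^ 2 = 1 → (ext V φ x) ^ 2 + (ext V φ y) ^ 2 = 1 := by
    intro x y hxy
    obtain ⟨h3, h4⟩ := both V p hp φ hφ hxy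
    rw [ext_of V φ h3, ext_of V φ h4, ← map_pow, ← map_pow, ← map_add, ← map_one φ]
    congr 1
    exact Subtype.ext hxy
  let r : F × F → F × F := fun p => Quotient.out (QuotientAddGroup.mk p : (F × F) ⧸ HH V)
  have hr : ∀ p, p - r p ∈ HH V := by
    intro p
    have h1 : (QuotientAddGroup.mk (r p) : (F × F) ⧸ HH V) = QuotientAddGroup.mk p :=
      Quotient.out_eq _
    have h3 := QuotientAddGroup.eq.mp h1
    rwa [neg_add_eq_sub] at h3
  have hrr : ∀ p q, p - q ∈ HH V → r p = r q := by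
    intro p q hpq
    have h1 : (QuotientAddGroup.mk p : (F × F) ⧸ HH V) = QuotientAddGroup.mk q := by
      rw [QuotientAddGroup.eq, neg_add_eq_sub]
      have := (HH V).neg_mem hpq
      rwa [neg_sub] at this
    simp only [r, h1]
  refine ⟨SimpleGraph.Coloring.mk (fun p => c (ext V φ (p - r p).1) (ext V φ (p - r p).2)) ?_⟩
  intro p' q hpq heq
  have hu : (p'.1 - q.1) ^ 2 + (p'.2 - q.2) ^ 2 = 1 := hpq
  obtain ⟨h7, h8⟩ := both V p hp φ hφ hu
  have hmem : p' - q ∈ HH V := ⟨h7, h8⟩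
  have h1 := hrr p' q hmem
  obtain ⟨h5, h6⟩ := hr q
  have e1 : (p' - r p').1 = (q - r q).1 + (p'.1 - q.1) := by
    rw [h1, Prod.fst_sub, Prod.fst_sub]; ring
  have e2 : (p' - r p').2 = (q - r q).2 + (p'.2 - q.2) := by
    rw [h1, Prod.snd_sub, Prod.snd_sub]; ring
  apply hc (ext V φ (q - r q).1) (ext V φ (q - r q).2) _ _ (hval _ _ hu)
  rw [← ext_add V φ h5 h7, ← ext_add V φ h6 h8, ← e1, ← e2]
  exact heq

private theorem key3 : ∀ x y a b : ZMod 3, a ^ 2 + b ^ 2 = 1 →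
    ((x + a) + (y + b) : ZMod 3) ≠ x + y := by decide

theorem three (F : Subfield ℝ) (hF : ∀ x ∈ F, IsAlgebraic ℚ x)
    (h : Nonempty (integralClosure ℤ F →+* ZMod 3)) : (unitDistanceGraph F).Colorable 3 := by
  obtain ⟨ψ⟩ := h
  obtain ⟨V, φ, hφ, -⟩ := VL.exists_valuation F hF 3 ψ
  exact col_of_place F 3 (by norm_num) V φ hφ 3 (fun x y => (x + y : ZMod 3)) key3

/-- the colours of the residues modulo seven -/
private def f7 (t : ZMod 7) : Fin 4 :=
  match t with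
  | 0 => 0 | 1 => 1 | 2 => 2 | 3 => 0 | 4 => 1 | 5 => 2 | 6 => 3

private theorem key7a : ∀ a b : ZMod 7, a ^ 2 + b ^ 2 = 1 →
    a + 2 * b = 1 ∨ a + 2 * b = 2 ∨ a + 2 * b = 5 ∨ a + 2 * b = 6 := by decide

private theorem key7b : ∀ t s : ZMod 7, (s = 1 ∨ s = 2 ∨ s = 5 ∨ s = 6) →
    f7 (t + s) ≠ f7 t := by decide

theorem seven (F : Subfield ℝ) (hF : ∀ x ∈ F, IsAlgebraic ℚ x)
    (h : Nonempty (integralClosure ℤ F →+* ZMod 7)) : (unitDistanceGraph F).Colorable 4 := by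
  obtain ⟨ψ⟩ := h
  have : Fact (Nat.Prime 7) := ⟨by norm_num⟩
  obtain ⟨V, φ, hφ, -⟩ := VL.exists_valuation F hF 7 ψ
  refine col_of_place F 7 (by norm_num) V φ hφ 4 (fun x y => f7 (x + 2 * y)) ?_
  intro x y a b hab
  have e : x + a + 2 * (y + b) = (x + 2 * y) + (a + 2 * b) := by ring
  show f7 (x + a + 2 * (y + b)) ≠ f7 (x + 2 * y)
  rw [e]
  exact key7b _ _ (key7a a b hab)

private def f2 (w z : ZMod 2) : Fin 4 :=
  match w, z with
  | 0, 0 => 0 | 0, 1 => 1 | 1, 0 => 2 | 1, 1 => 3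

private theorem key2 : ∀ w z w' z' : ZMod 2, w' ^ 2 + w' * z' + 1 * z' ^ 2 = 1 →
    f2 (w + w') (z + z') ≠ f2 w z := by decide

theorem two (F : Subfield ℝ) (hF : ∀ x ∈ F, IsAlgebraic ℚ x)
    (ψ : integralClosure ℤ F →+* ZMod 2) (a b : integralClosure ℤ F) (hab : a ^ 2 + 1 = 4 * b)
    (hb : ψ b = 1) : (unitDistanceGraph F).Colorable 4 := by
  obtain ⟨V, φ, hφ, h⟩ := VL.exists_valuation F hF 2 ψ
  obtain ⟨ha1, _⟩ := h a
  obtain ⟨hb1, hb2⟩ := h b
  have hab' : (⟨(a : F), ha1⟩ : V) ^ 2 + 1 = 4 * ⟨(b : F), hb1⟩ := by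
    apply Subtype.ext
    exact congrArg (fun t : integralClosure ℤ F => (t : F)) hab
  refine U2.col_of_place_two F V (K := ZMod 2) (by decide) φ hφ _ _ hab' ?_ 4 f2 ?_
  · rw [hb2, hb]
    decide
  · rw [hb2, hb]
    exact key2

end Pool.Agent.MP8b8716.UP
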