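import Mathlib

set_option autoImplicit false

/-!
# Linear colourings with four colours over the fields with 2, 4, 8, 16, 32 elements
-/

namespace Pool.Agent.MP8b8716.FQ

open Polynomial

/-! ### Bit vectors -/

/-- Multiplication of a bit vector by the generator. -/
private def sh (s P x : ℕ) : ℕ := if (2 * x).testBit s then (2 * x) ^^^ P else 2 * x

/-- Multiplication of bit vectors. -/
private def mulN (s P : ℕ) : ℕ → ℕ → ℕ → ℕ
  | 0, _, _ => 0
  | k + 1, m, n => (if m.testBit 0 then n else 0) ^^^ mulN s P k (m / 2) (sh s P n)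

/-- Multiplication of bit vectors of length `s`. -/
private def mm (s P m n : ℕ) : ℕ := mulN s P s m n

/-- The parity of the bits of `a` with indices in the list `l`. -/
private def par : List ℕ → ℕ → Bool
  | [], _ => false
  | i :: l, a => xor (a.testBit i) (par l a)

private theorem par_xor (l : List ℕ) (a b : ℕ) : par l (a ^^^ b) = xor (par l a) (par l b) := by
  induction l with
  | nil => rfl
  | cons i l ih =>
    simp only [par, Nat.testBit_xor, ih]
    cases a.testBit i <;> cases b.testBit i <;> cases par l a <;> cases par l b <;> rfl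

/-- The colour given by two bits. -/
private def enc : Bool → Bool → Fin 4
  | false, false => 0
  | false, true => 1
  | true, false => 2
  | true, true => 3

private theorem enc_inj {a b c d : Bool} (h : enc a b = enc c d) : a = c ∧ b = d := by
  revert h
  cases a <;> cases b <;> cases c <;> cases d <;> decide

section ev

variable {K : Type} [Field K]

/-- The element of the field given by a bit vector. -/
private def ev (g : K) (s n : ℕ) : K := ∑ i ∈ Finset.range s, if n.testBit i then g ^ i else 0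

private theorem ev_xor (h2 : (2 : K) = 0) (g : K) (s m n : ℕ) :
    ev g s (m ^^^ n) = ev g s m + ev g s n := by
  unfold ev
  rw [← Finset.sum_add_distrib]
  refine Finset.sum_congr rfl fun i _ => ?_
  rw [Nat.testBit_xor]
  cases m.testBit i <;> cases n.testBit i <;> simp
  linear_combination (-g ^ i) * h2

private theorem ev_zero (g : K) (s : ℕ) : ev g s 0 = 0 := by
  simp [ev]

private theorem ev_succ (g : K) (s n : ℕ) :
    ev g (s + 1) n = ev g s n + if n.testBit s then g ^ s else 0 := by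
  unfold ev
  rw [Finset.sum_range_succ]

private theorem ev_succ' (g : K) (s n : ℕ) :
    ev g (s + 1) n = (if n.testBit 0 then 1 else 0) + g * ev g s (n / 2) := by
  unfold ev
  rw [Finset.sum_range_succ', add_comm, pow_zero, Finset.mul_sum]
  congr 1
  refine Finset.sum_congr rfl fun i _ => ?_
  rw [Nat.testBit_succ]
  split_ifs
  · rw [pow_succ']
  · rw [mul_zero]

private theorem ev_two_mul (g : K) (s n : ℕ) : ev g (s + 1) (2 * n) = g * ev g s n := by
  rw [ev_succ', Nat.mul_div_cancel_left _ two_pos]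
  have h : (2 * n).testBit 0 = false := by
    rw [Nat.testBit_zero]; simp
  rw [h]
  simp

private theorem ev_sh (h2 : (2 : K) = 0) (g : K) (s P : ℕ) (hP : ev g (s + 1) P = 0)
    (hPs : P.testBit s = true) (n : ℕ) : ev g s (sh s P n) = g * ev g s n := by
  rw [← ev_two_mul g s n]
  unfold sh
  split_ifs with h
  · have h3 : ((2 * n) ^^^ P).testBit s = false := by
      rw [Nat.testBit_xor, h, hPs]; rfl
    have h4 := ev_succ g s ((2 * n) ^^^ P)
    rw [h3, ev_xor h2, hP] at h4
    simpa using h4.symm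
  · rw [Bool.not_eq_true] at h
    rw [ev_succ, h]
    simp

private theorem ev_mulN (h2 : (2 : K) = 0) (g : K) (s P : ℕ) (hP : ev g (s + 1) P = 0)
    (hPs : P.testBit s = true) : ∀ k m n : ℕ,
      ev g s (mulN s P k m n) = ev g k m * ev g s n
  | 0, m, n => by
    simp [mulN, ev]
  | k + 1, m, n => by
    rw [mulN, ev_xor h2, ev_mulN h2 g s P hP hPs k, ev_sh h2 g s P hP hPs, ev_succ' g k m]
    split_ifs
    · ring
    · rw [ev_zero]; ring

private theorem ev_mm (h2 : (2 : K) = 0) (g : K) (s P : ℕ) (hP : ev g (s + 1) P = 0)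
    (hPs : P.testBit s = true) (m n : ℕ) : ev g s (mm s P m n) = ev g s m * ev g s n :=
  ev_mulN h2 g s P hP hPs s m n

private theorem ev_one (g : K) (s : ℕ) (hs : 0 < s) : ev g s 1 = 1 := by
  obtain ⟨k, rfl⟩ := Nat.exists_eq_succ_of_ne_zero hs.ne'
  rw [Nat.succ_eq_add_one, ev_succ']
  simp [ev_zero]

end ev

/-- The general argument: a finite check implies the existence of the colouring. -/
private theorem core (K : Type) [Field K] [Fintype K] (h2 : (2 : K) = 0) (s P b₀ : ℕ) (g : K)
    (hs : 0 < s) (hcard : Fintype.card K = 2 ^ s) (hP : ev g (s + 1) P = 0)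
    (hPs : P.testBit s = true) (l₁ l₂ l₃ l₄ : List ℕ)
    (hinv : ∀ n < 2 ^ s, n ≠ 0 → ∃ m < 2 ^ s, mm s P n m = 1)
    (hb : ∀ b < 2 ^ s, (∃ t < 2 ^ s, mm s P t t ^^^ t ^^^ b = 0) ∨
      ∃ c < 2 ^ s, b = b₀ ^^^ mm s P c c ^^^ c)
    (hmain : ∀ m < 2 ^ s, ∀ n < 2 ^ s, xor (par l₁ m) (par l₂ n) = false →
      xor (par l₃ m) (par l₄ n) = false →
      mm s P m m ^^^ mm s P m n ^^^ mm s P b₀ (mm s P n n) ^^^ 1 ≠ 0 ∧
        mm s P m m ^^^ mm s P m n ^^^ mm s P b₀ (mm s P n n) ^^^ 1 < 2 ^ s)
    (b : K) (hirr : ∀ t : K, t ^ 2 + t + b ≠ 0) :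
    ∃ c : K → K → Fin 4, ∀ w z w' z' : K, w' ^ 2 + w' * z' + b * z' ^ 2 = 1 →
      c (w + w') (z + z') ≠ c w z := by
  have hne : ∀ n < 2 ^ s, n ≠ 0 → ev g s n ≠ 0 := by
    intro n hn hn0 h
    obtain ⟨m, _, hm⟩ := hinv n hn hn0
    have h3 := ev_mm h2 g s P hP hPs n m
    rw [hm, ev_one g s hs, h, zero_mul] at h3
    exact one_ne_zero h3
  have hinj : ∀ m < 2 ^ s, ∀ n < 2 ^ s, ev g s m = ev g s n → m = n := by
    intro m hm n hn h
    by_contra hmn
    refine hne (m ^^^ n) (Nat.xor_lt_two_pow hm hn) ?_ ?_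
    · rw [Ne, Nat.xor_eq_zero_iff]; exact hmn
    · rw [ev_xor h2, h]
      linear_combination (ev g s n) * h2
  have hbij : Function.Bijective (fun n : Fin (2 ^ s) => ev g s n) := by
    rw [Fintype.bijective_iff_injective_and_card]
    refine ⟨fun m n h => Fin.ext (hinj m m.2 n n.2 h), ?_⟩
    rw [Fintype.card_fin, hcard]
  have hsurj : ∀ x : K, ∃ n < 2 ^ s, ev g s n = x := by
    intro x
    obtain ⟨n, hn⟩ := hbij.2 x
    exact ⟨n, n.2, hn⟩
  choose idx hidx hidx2 using hsurj
  have hadd : ∀ x y : K, idx (x + y) = idx x ^^^ idx y := by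
    intro x y
    refine hinj _ (hidx _) _ (Nat.xor_lt_two_pow (hidx _) (hidx _)) ?_
    rw [ev_xor h2, hidx2, hidx2, hidx2]
  obtain ⟨c₀, hc₀⟩ : ∃ c₀ : K, b = ev g s b₀ + c₀ ^ 2 + c₀ := by
    rcases hb (idx b) (hidx b) with ⟨t, _, ht⟩ | ⟨c, _, hc⟩
    · exfalso
      have h3 := congrArg (ev g s) ht
      rw [ev_xor h2, ev_xor h2, ev_mm h2 g s P hP hPs, hidx2, ev_zero] at h3
      apply hirr (ev g s t)
      rw [← h3]
      ring
    · refine ⟨ev g s c, ?_⟩
      have h3 := congrArg (ev g s) hc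
      rw [ev_xor h2, ev_xor h2, ev_mm h2 g s P hP hPs, hidx2] at h3
      rw [h3]
      ring
  refine ⟨fun w z => enc (xor (par l₁ (idx (w + c₀ * z))) (par l₂ (idx z)))
    (xor (par l₃ (idx (w + c₀ * z))) (par l₄ (idx z))), ?_⟩
  intro w z w' z' h hcol
  obtain ⟨e1, e2⟩ := enc_inj hcol
  have hsplit : w + w' + c₀ * (z + z') = (w + c₀ * z) + (w' + c₀ * z') := by ring
  rw [hsplit, hadd (w + c₀ * z), hadd z, par_xor, par_xor] at e1 e2
  have f1 : xor (par l₁ (idx (w' + c₀ * z'))) (par l₂ (idx z')) = false := by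
    revert e1
    cases par l₁ (idx (w + c₀ * z)) <;> cases par l₁ (idx (w' + c₀ * z')) <;>
      cases par l₂ (idx z) <;> cases par l₂ (idx z') <;> decide
  have f2 : xor (par l₃ (idx (w' + c₀ * z'))) (par l₄ (idx z')) = false := by
    revert e2
    cases par l₃ (idx (w + c₀ * z)) <;> cases par l₃ (idx (w' + c₀ * z')) <;>
      cases par l₄ (idx z) <;> cases par l₄ (idx z') <;> decide
  obtain ⟨h3, h4⟩ := hmain _ (hidx _) _ (hidx _) f1 f2
  refine hne _ h4 h3 ?_
  rw [ev_xor h2, ev_xor h2, ev_xor h2, ev_mm h2 g s P hP hPs, ev_mm h2 g s P hP hPs,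
    ev_mm h2 g s P hP hPs, ev_mm h2 g s P hP hPs, hidx2, hidx2, ev_one g s hs]
  rw [hc₀] at h
  linear_combination h + (1 + c₀ * w' * z') * h2

/-! ### The generators -/

/-- A polynomial that divides `X ^ q - X` has a root. -/
private theorem exists_root (K : Type) [Field K] [Fintype K] (f : K[X]) (hf : f.degree ≠ 0)
    (hd : f ∣ X ^ Fintype.card K - X) : ∃ g : K, f.eval g = 0 := by
  have hcard : 1 < Fintype.card K := Fintype.one_lt_card
  have h : (X ^ Fintype.card K - X : K[X]).natDegree = Fintype.card K :=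
    FiniteField.X_pow_card_sub_X_natDegree_eq K hcard
  have hs : Splits (X ^ Fintype.card K - X : K[X]) := by
    rw [splits_iff_card_roots, h, FiniteField.roots_X_pow_card_sub_X K, ← Finset.card_def,
      Finset.card_univ]
  exact (hs.of_dvd (FiniteField.X_pow_card_sub_X_ne_zero K hcard) hd).exists_eval_eq_zero hf

/-- It is enough to check `x ^ q = x` modulo `f`. -/
private theorem exists_root' (K : Type) [Field K] [Fintype K] (h2 : (2 : K) = 0) (f : K[X])
    (hf : f.degree ≠ 0) (hd : ∀ (A : Type) [CommRing A] [Algebra K A] (x : A), (2 : A) = 0 →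
      aeval x f = 0 → x ^ Fintype.card K = x) : ∃ g : K, f.eval g = 0 := by
  apply exists_root K f hf
  have h3 := hd (AdjoinRoot f) (AdjoinRoot.root f) (by
    have := congrArg (algebraMap K (AdjoinRoot f)) h2
    rwa [map_ofNat, map_zero] at this) (by
    rw [AdjoinRoot.aeval_eq]; exact AdjoinRoot.mk_self)
  rw [← AdjoinRoot.mk_eq_zero, map_sub, map_pow, AdjoinRoot.mk_X, h3, sub_self]

private theorem root2 (K : Type) [Field K] [Fintype K] (h2 : (2 : K) = 0)
    (hK : Fintype.card K = 4) : ∃ g : K, g ^ 2 + g + 1 = 0 := by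
  obtain ⟨g, hg⟩ := exists_root' K h2 (X ^ 2 + X + 1) (by
      have : (X ^ 2 + X + 1 : K[X]).degree = 2 := by compute_degree!
      rw [this]; decide) (by
      intro A _ _ x hA hx
      have hx' : x ^ 2 + x + 1 = 0 := by simpa using hx
      rw [hK]
      linear_combination (x ^ 2 - x) * hx')
  exact ⟨g, by simpa using hg⟩

private theorem root3 (K : Type) [Field K] [Fintype K] (h2 : (2 : K) = 0)
    (hK : Fintype.card K = 8) : ∃ g : K, g ^ 3 + g + 1 = 0 := by
  obtain ⟨g, hg⟩ := exists_root' K h2 (X ^ 3 + X + 1) (by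
      have : (X ^ 3 + X + 1 : K[X]).degree = 3 := by compute_degree!
      rw [this]; decide) (by
      intro A _ _ x hA hx
      have hx' : x ^ 3 + x + 1 = 0 := by simpa using hx
      have h4 : x ^ 4 = x ^ 2 + x := by linear_combination x * hx' - (x ^ 2 + x) * hA
      have h8 : x ^ 8 = (x ^ 4) ^ 2 := by ring
      rw [hK, h8, h4]
      linear_combination h4 + x ^ 3 * hA + x ^ 2 * hA)
  exact ⟨g, by simpa using hg⟩

private theorem root4 (K : Type) [Field K] [Fintype K] (h2 : (2 : K) = 0)
    (hK : Fintype.card K = 16) : ∃ g : K, g ^ 4 + g + 1 = 0 := by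
  obtain ⟨g, hg⟩ := exists_root' K h2 (X ^ 4 + X + 1) (by
      have : (X ^ 4 + X + 1 : K[X]).degree = 4 := by compute_degree!
      rw [this]; decide) (by
      intro A _ _ x hA hx
      have hx' : x ^ 4 + x + 1 = 0 := by simpa using hx
      have h4 : x ^ 4 = x + 1 := by linear_combination hx' - (x + 1) * hA
      have h8 : x ^ 8 = x ^ 2 + 1 := by
        have : x ^ 8 = (x ^ 4) ^ 2 := by ring
        rw [this, h4]; linear_combination x * hA
      have h16 : x ^ 16 = (x ^ 8) ^ 2 := by ring
      rw [hK, h16, h8]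
      linear_combination h4 + x ^ 2 * hA + hA)
  exact ⟨g, by simpa using hg⟩

private theorem root5 (K : Type) [Field K] [Fintype K] (h2 : (2 : K) = 0)
    (hK : Fintype.card K = 32) : ∃ g : K, g ^ 5 + g ^ 2 + 1 = 0 := by
  obtain ⟨g, hg⟩ := exists_root' K h2 (X ^ 5 + X ^ 2 + 1) (by
      have : (X ^ 5 + X ^ 2 + 1 : K[X]).degree = 5 := by compute_degree!
      rw [this]; decide) (by
      intro A _ _ x hA hx
      have hx' : x ^ 5 + x ^ 2 + 1 = 0 := by simpa using hx
      have h5 : x ^ 5 = x ^ 2 + 1 := by linear_combination hx' - (x ^ 2 + 1) * hA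
      have h8 : x ^ 8 = x ^ 3 + x ^ 2 + 1 := by
        have : x ^ 8 = x ^ 3 * x ^ 5 := by ring
        rw [this, h5]; linear_combination h5
      have h16 : x ^ 16 = x ^ 4 + x ^ 3 + x + 1 := by
        have : x ^ 16 = (x ^ 8) ^ 2 := by ring
        rw [this, h8]
        linear_combination x * h5 + (x ^ 5 + x ^ 3 + x ^ 2) * hA
      have h32 : x ^ 32 = (x ^ 16) ^ 2 := by ring
      rw [hK, h32, h16]
      linear_combination h8 + x * h5 +
        (x ^ 7 + x ^ 5 + x ^ 4 + x ^ 4 + x ^ 3 + x ^ 2 + x ^ 3 + x + 1) * hA)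
  exact ⟨g, by simpa using hg⟩

/-- The norm one vectors over the fields with `2, 4, 8, 16, 32` elements can be avoided by a
linear colouring with four colours. -/
theorem exists_linear (K : Type) [Field K] [Fintype K] (h2 : (2 : K) = 0)
    (hK : Fintype.card K ≤ 32) (b : K) (hirr : ∀ t : K, t ^ 2 + t + b ≠ 0) :
    ∃ c : K → K → Fin 4, ∀ w z w' z' : K, w' ^ 2 + w' * z' + b * z' ^ 2 = 1 →
      c (w + w') (z + z') ≠ c w z := by
  have hchar : CharP K 2 := by
    have := CharP.charP_iff_prime_eq_zero (R := K) Nat.prime_two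
    exact this.2 (by exact_mod_cast h2)
  obtain ⟨⟨s, hs⟩, _, hcard⟩ := FiniteField.card K 2
  rw [PNat.mk_coe] at hcard
  have hs5 : s ≤ 5 := by
    by_contra h
    have : 2 ^ 6 ≤ 2 ^ s := Nat.pow_le_pow_right two_pos (by omega)
    omega
  have hs' : s = 1 ∨ s = 2 ∨ s = 3 ∨ s = 4 ∨ s = 5 := by omega
  rcases hs' with rfl | rfl | rfl | rfl | rfl
  · refine core K h2 1 3 1 1 one_pos hcard ?_ rfl [0] [] [] [0] (by decide +kernel)
      (by decide +kernel) (by decide +kernel) b hirr
    have h3 : Nat.testBit 3 0 = true := rfl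
    have h4 : Nat.testBit 3 1 = true := rfl
    rw [ev_succ, ev_succ, h3, h4]
    simp only [ev, Finset.range_zero, Finset.sum_empty, one_pow, if_true]
    linear_combination h2
  · obtain ⟨g, hg⟩ := root2 K h2 hcard
    refine core K h2 2 7 2 g two_pos hcard ?_ rfl [0] [] [] [1] (by decide +kernel)
      (by decide +kernel) (by decide +kernel) b hirr
    simp [ev, Finset.sum_range_succ, Nat.testBit]
    linear_combination hg
  · obtain ⟨g, hg⟩ := root3 K h2 hcard
    refine core K h2 3 11 1 g three_pos hcard ?_ rfl [0, 1] [] [2] [0] (by decide +kernel)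
      (by decide +kernel) (by decide +kernel) b hirr
    simp [ev, Finset.sum_range_succ, Nat.testBit]
    linear_combination hg
  · obtain ⟨g, hg⟩ := root4 K h2 hcard
    refine core K h2 4 19 8 g four_pos hcard ?_ rfl [2] [] [0] [1, 2] (by decide +kernel)
      (by decide +kernel) (by decide +kernel) b hirr
    simp [ev, Finset.sum_range_succ, Nat.testBit]
    linear_combination hg
  · obtain ⟨g, hg⟩ := root5 K h2 hcard
    refine core K h2 5 37 1 g (by norm_num) hcard ?_ rfl [0, 3] [] [] [0, 3] (by decide +kernel)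
      (by decide +kernel) (by decide +kernel) b hirr
    simp [ev, Finset.sum_range_succ, Nat.testBit]
    linear_combination hg

end Pool.Agent.MP8b8716.FQ
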