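import Pool.Agent.Lib.MP_8b8716_co.Defs

set_option autoImplicit false

/-!
# Module VG: valuation rings from homomorphisms of the ring of integers to a finite field
-/

open Complex

namespace Pool.Agent.MP8b8716.VG

open Polynomial in
/-- The key step: a zero of a polynomial some coefficient of which is not killed by `ψ`, or its
inverse, is a quotient whose denominator is not killed by `ψ`. -/
private theorem key {A K k : Type*} [CommRing A] [Field K] [Algebra A K] [CommRing k]
    (ψ : A →+* k) (hinj : Function.Injective (algebraMap A K))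
    (hint : ∀ y : K, IsIntegral A y → ∃ a, algebraMap A K a = y) (x : K) (n : ℕ) :
    ∀ g : A[X], g.natDegree ≤ n → aeval x g = 0 → (∃ j, ψ (g.coeff j) ≠ 0) →
      (∃ a b : A, ψ b ≠ 0 ∧ x * algebraMap A K b = algebraMap A K a) ∨
      (∃ a b : A, ψ b ≠ 0 ∧ x⁻¹ * algebraMap A K b = algebraMap A K a) := by
  have const : ∀ g : A[X], g.natDegree = 0 → aeval x g = 0 → ¬ ∃ j, ψ (g.coeff j) ≠ 0 := by
    intro g hg h0
    rw [eq_C_of_natDegree_eq_zero hg, aeval_C] at h0
    have h1 : g.coeff 0 = 0 := hinj (by rw [h0, map_zero])
    rw [eq_C_of_natDegree_eq_zero hg, h1]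
    rintro ⟨j, hj⟩
    simp at hj
  induction n with
  | zero =>
    intro g hg h0 hj
    exact absurd hj (const g (Nat.le_zero.mp hg) h0)
  | succ n ih =>
    intro g hg h0 hj
    obtain ⟨e, he⟩ := hint _ (isIntegral_leadingCoeff_smul g x h0)
    rw [Algebra.smul_def] at he
    by_cases hc : ψ g.leadingCoeff = 0
    · by_cases hψe : ψ e = 0
      · rcases Nat.eq_zero_or_pos g.natDegree with hm | hm
        · exact absurd hj (const g hm h0)
        · set m := g.natDegree with hmdef
          apply ih (g.eraseLead + C e * X ^ (m - 1))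
          · refine (natDegree_add_le _ _).trans (max_le ?_ ?_)
            · exact (eraseLead_natDegree_le g).trans (by omega)
            · exact (natDegree_C_mul_X_pow_le _ _).trans (by omega)
          · have h1 : aeval x g = aeval x g.eraseLead
                + algebraMap A K g.leadingCoeff * x ^ m := by
              conv_lhs => rw [← eraseLead_add_C_mul_X_pow g]
              rw [map_add, map_mul, aeval_C, map_pow, aeval_X, hmdef]
            have h2 : x ^ m = x * x ^ (m - 1) := by
              rw [← pow_succ']
              congr 1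
              omega
            rw [map_add, map_mul, aeval_C, map_pow, aeval_X, he]
            rw [h1, h2] at h0
            linear_combination h0
          · obtain ⟨j, hj⟩ := hj
            refine ⟨j, ?_⟩
            have hjm : j ≠ m := by
              rintro rfl
              exact hj hc
            rw [coeff_add, eraseLead_coeff_of_ne j hjm, coeff_C_mul, map_add, map_mul, hψe,
              zero_mul, add_zero]
            exact hj
      · right
        refine ⟨g.leadingCoeff, e, hψe, ?_⟩
        have hx : x ≠ 0 := by
          rintro rfl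
          rw [mul_zero] at he
          have : e = 0 := hinj (by rw [he, map_zero])
          rw [this, map_zero] at hψe
          exact hψe rfl
        rw [he]
        field_simp
    · left
      exact ⟨e, g.leadingCoeff, hc, by rw [he, mul_comm]⟩

/-- Valuation rings from homomorphisms of the ring of integers to a finite field. -/
theorem exists_valuation_gen (F : Subfield ℝ) (hF : ∀ x ∈ F, IsAlgebraic ℚ x) {K : Type}
    [Field K] [Finite K] (ψ : integralClosure ℤ F →+* K) :
    ∃ (V : ValuationSubring F) (π : V →+* K), (∀ x : V, ¬ IsUnit x → π x = 0) ∧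
      ∀ a : integralClosure ℤ F, ∃ h : (a : F) ∈ V, π ⟨a, h⟩ = ψ a := by
  classical
  obtain ⟨p, hcp⟩ := CharP.exists K
  have hp : p.Prime := (CharP.char_is_prime_or_zero K p).resolve_right (by
    rintro rfl
    exact (CharP.char_ne_zero_of_finite K 0) rfl)
  have hp1 : (1 : K) ≠ 0 := one_ne_zero
  have hinj : Function.Injective (algebraMap (integralClosure ℤ F) F) :=
    Subtype.val_injective
  -- the quotients
  let P : F → Prop := fun x => ∃ a b : integralClosure ℤ F, ψ b ≠ 0 ∧ x * (b : F) = (a : F)
  have hval : ∀ x : F, P x ∨ P x⁻¹ := by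
    intro x
    obtain ⟨f, hf0, hf⟩ : ∃ f : Polynomial ℤ, f ≠ 0 ∧ Polynomial.aeval x f = 0 := by
      obtain ⟨f, hf0, hf⟩ := (IsFractionRing.isAlgebraic_iff ℤ ℚ ℝ).mpr (hF x x.2)
      refine ⟨f, hf0, ?_⟩
      have h1 : ((Polynomial.aeval x f : F) : ℝ) = Polynomial.aeval (x : ℝ) f := by
        have := Polynomial.hom_eval₂ f (algebraMap ℤ F) F.subtype x
        rw [Polynomial.aeval_def, Polynomial.aeval_def]
        have e : F.subtype.comp (algebraMap ℤ F) = algebraMap ℤ ℝ := RingHom.ext_int _ _
        rw [e] at this
        exact this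
      rw [hf] at h1
      exact_mod_cast h1
    have hq : Polynomial.aeval x f.primPart = 0 := Polynomial.aeval_primPart_eq_zero hf0 hf
    have hprim : f.primPart.IsPrimitive := f.isPrimitive_primPart
    obtain ⟨j, hj⟩ : ∃ j, ¬ (p : ℤ) ∣ f.primPart.coeff j := by
      by_contra hcon
      push Not at hcon
      have h2 := hprim (p : ℤ) ((Polynomial.C_dvd_iff_dvd_coeff _ _).mpr hcon)
      rw [Int.isUnit_iff_natAbs_eq, Int.natAbs_natCast] at h2
      exact hp.one_lt.ne' h2
    have hk := key (K := F) ψ hinj ?_ x f.primPart.natDegree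
      (f.primPart.map (algebraMap ℤ (integralClosure ℤ F))) Polynomial.natDegree_map_le ?_ ?_
    · exact hk
    · intro y hy
      have hy' : IsIntegral ℤ y := isIntegral_trans y hy
      exact ⟨⟨y, hy'⟩, rfl⟩
    · rw [Polynomial.aeval_map_algebraMap]
      exact hq
    · refine ⟨j, ?_⟩
      rw [Polynomial.coeff_map]
      intro h0
      apply hj
      rw [← CharP.intCast_eq_zero_iff K p]
      rw [← h0]
      simp
  have hPmul : ∀ {x y : F}, P x → P y → P (x * y) := by
    rintro x y ⟨a, b, hb, h⟩ ⟨a', b', hb', h'⟩
    refine ⟨a * a', b * b', ?_, ?_⟩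
    · rw [map_mul]; exact mul_ne_zero hb hb'
    · push_cast
      linear_combination (y * (b' : F)) * h + (a : F) * h'
  have hPadd : ∀ {x y : F}, P x → P y → P (x + y) := by
    rintro x y ⟨a, b, hb, h⟩ ⟨a', b', hb', h'⟩
    refine ⟨a * b' + a' * b, b * b', ?_, ?_⟩
    · rw [map_mul]; exact mul_ne_zero hb hb'
    · push_cast
      linear_combination (b' : F) * h + (b : F) * h'
  let V : ValuationSubring F :=
    { carrier := {x | P x}
      mul_mem' := fun {x y} hx hy => hPmul hx hy
      one_mem' := ⟨1, 1, by rw [map_one]; exact hp1, by simp⟩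
      add_mem' := fun {x y} hx hy => hPadd hx hy
      zero_mem' := ⟨0, 1, by rw [map_one]; exact hp1, by simp⟩
      neg_mem' := by
        rintro x ⟨a, b, hb, h⟩
        exact ⟨-a, b, hb, by push_cast; linear_combination -h⟩
      mem_or_inv_mem' := hval }
  have hV : ∀ x : F, x ∈ V ↔ P x := fun x => Iff.rfl
  -- the residue map
  have hwd : ∀ (x : F) (a b a' b' : integralClosure ℤ F), ψ b ≠ 0 → ψ b' ≠ 0 →
      x * (b : F) = a → x * (b' : F) = a' → ψ a / ψ b = ψ a' / ψ b' := by
    intro x a b a' b' hb hb' h h'
    rw [div_eq_div_iff hb hb', ← map_mul, ← map_mul]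
    congr 1
    apply Subtype.val_injective
    push_cast
    linear_combination (-(b' : F)) * h + (b : F) * h'
  let r : V → K := fun x => ψ x.2.choose / ψ x.2.choose_spec.choose
  have hr : ∀ (x : V) (a b : integralClosure ℤ F), ψ b ≠ 0 → (x : F) * (b : F) = a →
      r x = ψ a / ψ b := by
    intro x a b hb h
    exact hwd x _ _ _ _ x.2.choose_spec.choose_spec.1 hb x.2.choose_spec.choose_spec.2 h
  have hex : ∀ x : V, ∃ a b : integralClosure ℤ F, ψ b ≠ 0 ∧ (x : F) * (b : F) = (a : F) :=
    fun x => x.2
  let π : V →+* K :=
    { toFun := r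
      map_one' := by
        rw [hr 1 1 1 (by rw [map_one]; exact hp1) (by simp), map_one, div_one]
      map_zero' := by
        rw [hr 0 0 1 (by rw [map_one]; exact hp1) (by simp), map_zero, zero_div]
      map_mul' := by
        intro x y
        obtain ⟨a, b, hb, h⟩ := hex x
        obtain ⟨a', b', hb', h'⟩ := hex y
        rw [hr x a b hb h, hr y a' b' hb' h',
          hr (x * y) (a * a') (b * b') (by rw [map_mul]; exact mul_ne_zero hb hb')
            (by push_cast; linear_combination ((y : F) * (b' : F)) * h + (a : F) * h'),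
          map_mul, map_mul]
        field_simp
      map_add' := by
        intro x y
        obtain ⟨a, b, hb, h⟩ := hex x
        obtain ⟨a', b', hb', h'⟩ := hex y
        rw [hr x a b hb h, hr y a' b' hb' h',
          hr (x + y) (a * b' + a' * b) (b * b') (by rw [map_mul]; exact mul_ne_zero hb hb')
            (by push_cast; linear_combination (b' : F) * h + (b : F) * h'),
          map_mul, map_add, map_mul, map_mul]
        field_simp }
  refine ⟨V, π, ?_, ?_⟩
  · intro x hx
    by_contra h0
    apply hx
    obtain ⟨a, b, hb, h⟩ := hex x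
    have hra : π x = ψ a / ψ b := hr x a b hb h
    have ha : ψ a ≠ 0 := by
      intro ha
      rw [hra, ha, zero_div] at h0
      exact h0 rfl
    have hx0 : (x : F) ≠ 0 := by
      intro hx0
      rw [hx0, zero_mul] at h
      have : a = 0 := Subtype.val_injective h.symm
      rw [this, map_zero] at ha
      exact ha rfl
    have hinv : (x : F)⁻¹ ∈ V := by
      refine ⟨b, a, ha, ?_⟩
      rw [← h]
      field_simp
    exact IsUnit.of_mul_eq_one (⟨(x : F)⁻¹, hinv⟩ : V)
      (Subtype.val_injective (by
        change (x : F) * (x : F)⁻¹ = 1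
        exact mul_inv_cancel₀ hx0))
  · intro a
    have h1 : (a : F) ∈ V := ⟨a, 1, by rw [map_one]; exact hp1, by simp⟩
    refine ⟨h1, ?_⟩
    have := hr ⟨a, h1⟩ a 1 (by rw [map_one]; exact hp1) (by simp)
    rw [map_one, div_one] at this
    exact this

end Pool.Agent.MP8b8716.VG
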