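import Pool.Agent.Lib.MP_8b8716_co.Upper
import Pool.Agent.Lib.MP_8b8716_co.ValuationGen
import Pool.Agent.Lib.MP_8b8716_co.SmallFields

set_option autoImplicit false

/-!
# Further upper bounds
-/

namespace Pool.Agent.MP8b8716.U5

/-- Places above two with at most `32` residue classes. -/
theorem pow2 (F : Subfield ℝ) (hF : ∀ x ∈ F, IsAlgebraic ℚ x) (K : Type) [Field K] [Fintype K]
    (h2 : (2 : K) = 0) (hK : Fintype.card K ≤ 32) (ψ : integralClosure ℤ F →+* K)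
    (a b : integralClosure ℤ F) (hab : a ^ 2 + 1 = 4 * b) (hirr : ∀ t : K, t ^ 2 + t + ψ b ≠ 0) :
    (unitDistanceGraph F).Colorable 4 := by
  obtain ⟨V, φ, hφ, h⟩ := VG.exists_valuation_gen F hF ψ
  obtain ⟨ha1, _⟩ := h a
  obtain ⟨hb1, hb2⟩ := h b
  have hab' : (⟨(a : F), ha1⟩ : V) ^ 2 + 1 = 4 * ⟨(b : F), hb1⟩ := by
    apply Subtype.ext
    exact congrArg (fun t : integralClosure ℤ F => (t : F)) hab
  rw [← hb2] at hirr
  obtain ⟨c, hc⟩ := FQ.exists_linear K h2 hK _ hirr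
  exact U2.col_of_place_two F V h2 φ hφ _ _ hab' hirr 4 c hc

/-- the colours of the pairs of residues modulo eleven -/
private def tab11 : List ℕ :=
  [0,2,1,2,4,3,2,0,2,4,3, 4,1,2,4,3,2,0,1,0,3,2, 1,4,0,3,2,4,3,0,3,2,4, 4,3,4,0,1,2,4,3,0,1,2,
   3,4,2,1,0,1,0,4,1,0,1, 0,2,1,4,3,0,3,2,4,1,3, 1,0,4,3,4,3,1,0,1,3,4, 2,1,0,2,3,4,0,1,0,2,3,
   1,4,1,0,2,1,4,0,3,1,2, 4,3,4,2,0,3,2,3,0,2,1, 2,4,2,4,1,0,3,2,4,1,0]

private def f11 (x y : ZMod 11) : ℕ := tab11.getD (11 * x.val + y.val) 0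

private def dif11 : List (ZMod 11 × ZMod 11) :=
  [(0,1),(0,10),(1,0),(10,0),(3,5),(3,6),(8,5),(8,6),(5,3),(5,8),(6,3),(6,8)]

private theorem key11a : ∀ a b : ZMod 11, a ^ 2 + b ^ 2 = 1 → (a, b) ∈ dif11 := by decide

private theorem key11b : ∀ x y : ZMod 11, ∀ d ∈ dif11, f11 (x + d.1) (y + d.2) ≠ f11 x y := by
  decide +kernel

private theorem key11c : ∀ x y : ZMod 11, f11 x y < 5 := by decide +kernel

theorem eleven (F : Subfield ℝ) (hF : ∀ x ∈ F, IsAlgebraic ℚ x)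
    (h : Nonempty (integralClosure ℤ F →+* ZMod 11)) : (unitDistanceGraph F).Colorable 5 := by
  obtain ⟨ψ⟩ := h
  have : Fact (Nat.Prime 11) := ⟨by norm_num⟩
  obtain ⟨V, φ, hφ, -⟩ := VL.exists_valuation F hF 11 ψ
  refine UP.col_of_place F 11 (by norm_num) V φ hφ 5 (fun x y => ⟨f11 x y, key11c x y⟩) ?_
  intro x y a b hab h0
  exact key11b x y (a, b) (key11a a b hab) (congrArg Fin.val h0)

/-- the colours of the residues modulo nineteen -/
private def tab19 : List ℕ := [0,1,2,0,1,2,3,4,0,1,4,0,1,2,3,4,2,3,4]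

private def f19 (t : ZMod 19) : ℕ := tab19.getD t.val 0

private def dif19 : List (ZMod 19) := [1,2,4,6,9,10,13,15,17,18]

private theorem key19a : ∀ a b : ZMod 19, a ^ 2 + b ^ 2 = 1 → a + b ∈ dif19 := by decide +kernel

private theorem key19b : ∀ t : ZMod 19, ∀ s ∈ dif19, f19 (t + s) ≠ f19 t := by decide +kernel

private theorem key19c : ∀ t : ZMod 19, f19 t < 5 := by decide +kernel

theorem nineteen (F : Subfield ℝ) (hF : ∀ x ∈ F, IsAlgebraic ℚ x)
    (h : Nonempty (integralClosure ℤ F →+* ZMod 19)) : (unitDistanceGraph F).Colorable 5 := by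
  obtain ⟨ψ⟩ := h
  have : Fact (Nat.Prime 19) := ⟨by norm_num⟩
  obtain ⟨V, φ, hφ, -⟩ := VL.exists_valuation F hF 19 ψ
  refine UP.col_of_place F 19 (by norm_num) V φ hφ 5 (fun x y => ⟨f19 (x + y), key19c _⟩) ?_
  intro x y a b hab h0
  have e : x + a + (y + b) = (x + y) + (a + b) := by ring
  have h1 := congrArg Fin.val h0
  simp only at h1
  rw [e] at h1
  exact key19b _ _ (key19a a b hab) h1

end Pool.Agent.MP8b8716.U5
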