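import Pool.Agent.Lib.MP_8b8716_co.TwoCol
import Pool.Agent.Lib.MP_8b8716_co.Lift
import Pool.Agent.Lib.MP_8b8716_co.Mixing
import Pool.Agent.Lib.MP_8b8716_co.Cosets
import Pool.Agent.Lib.MP_8b8716_co.ToPp
import Pool.Agent.Lib.MP_8b8716_co.Dominate
import Pool.Agent.Lib.MP_8b8716_co.Quadratic
import Pool.Agent.Lib.MP_8b8716_co.Global
import Pool.Agent.Lib.MP_8b8716_co.Local
import Pool.Agent.Lib.MP_8b8716_co.Upper
import Pool.Agent.Lib.MP_8b8716_co.UpperMore

set_option autoImplicit false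

/-!
# Assembly: the chromatic number of `F²`
-/

open Complex

namespace Pool.Agent.MP8b8716.FI

theorem three_iff (F : Subfield ℝ) (hF : ∀ x ∈ F, IsAlgebraic ℚ x) :
    (unitDistanceGraph F).Colorable 3 ↔
      ((unitDistanceGraph F).Colorable 2 ∨ Nonempty (integralClosure ℤ F →+* ZMod 3)) := by
  constructor
  · intro h
    obtain ⟨θ, hθ⟩ := LI.lift3 F h
    obtain ⟨τ, h6, h3⟩ := GL.global F θ hθ
    have hne : ∀ u ∈ UU F, τ u ≠ 0 := by
      intro u hu h0
      have := h3 u hu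
      rw [h0, norm_zero] at this
      norm_num at this
    rcases MX.mixing F hF τ h6 h3 with h2 | h2
    · exact Or.inl (C2.two_col F τ hne h2)
    · right
      obtain ⟨a2, a3, l1, l2, hl⟩ := AP.to_Pp F hF τ hne h2
      exact VD.hom_of_hom F (F3.local3 a2 a3 l1 l2 hl)
  · rintro (h | h)
    · exact h.mono (by norm_num)
    · exact UP.three F hF h

/-- The two ways to say that `-1` is not a square modulo four. -/
theorem ab_iff (F : Subfield ℝ) :
    (∃ a b : integralClosure ℤ F, a ^ 2 + 1 = 4 * b) ↔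
      ∃ a ∈ F, ∃ b ∈ F, IsIntegral ℤ a ∧ IsIntegral ℤ b ∧ a ^ 2 + 1 = 4 * b := by
  constructor
  · rintro ⟨⟨⟨a, haF⟩, ha⟩, ⟨⟨b, hbF⟩, hb⟩, h⟩
    refine ⟨a, haF, b, hbF, ?_, ?_, ?_⟩
    · exact (mem_integralClosure_iff ℤ F).1 ha |>.map (F.subtype.toIntAlgHom)
    · exact (mem_integralClosure_iff ℤ F).1 hb |>.map (F.subtype.toIntAlgHom)
    · have h1 := congrArg (fun x : integralClosure ℤ F => ((x : F) : ℝ)) h
      exact h1
  · rintro ⟨a, haF, b, hbF, ha, hb, h⟩
    have hinj : Function.Injective (F.subtype.toIntAlgHom) := Subtype.val_injective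
    have ha' : IsIntegral ℤ (⟨a, haF⟩ : F) := by
      rw [← isIntegral_algHom_iff (F.subtype.toIntAlgHom) hinj]
      exact ha
    have hb' : IsIntegral ℤ (⟨b, hbF⟩ : F) := by
      rw [← isIntegral_algHom_iff (F.subtype.toIntAlgHom) hinj]
      exact hb
    refine ⟨⟨⟨a, haF⟩, ha'⟩, ⟨⟨b, hbF⟩, hb'⟩, ?_⟩
    apply Subtype.ext
    apply Subtype.ext
    exact h

theorem two_iff (F : Subfield ℝ) (hF : ∀ x ∈ F, IsAlgebraic ℚ x) :
    (unitDistanceGraph F).Colorable 2 ↔ ¬ ∃ a b : integralClosure ℤ F, a ^ 2 + 1 = 4 * b := by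
  rw [ab_iff]
  constructor
  · intro h hab
    exact TC.not_colorable_two F hab h
  · exact TC.colorable_two F hF

theorem two_le (F : Subfield ℝ) : 2 ≤ (unitDistanceGraph F).chromaticNumber := by
  have hadj : (unitDistanceGraph F).Adj (0, 0) (1, 0) := by
    show ((0 : F) - 1) ^ 2 + ((0 : F) - 0) ^ 2 = 1
    ring
  exact SimpleGraph.two_le_chromaticNumber_of_adj hadj

theorem le_iff (F : Subfield ℝ) (n : ℕ) :
    (unitDistanceGraph F).chromaticNumber ≤ n ↔ (unitDistanceGraph F).Colorable n :=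
  SimpleGraph.chromaticNumber_le_iff_colorable

theorem lt_iff_le {x : ℕ∞} (n : ℕ) : ((n + 1 : ℕ) : ℕ∞) ≤ x ↔ ¬ x ≤ (n : ℕ∞) := by
  rw [not_le, Nat.cast_add, Nat.cast_one]
  exact ENat.add_one_le_iff (ENat.natCast_ne_top n)

theorem main (F : Subfield ℝ) (hF : ∀ x ∈ F, IsAlgebraic ℚ x) :
    ((unitDistanceGraph F).chromaticNumber = 2 ↔
      ¬ ∃ a b : integralClosure ℤ F, a ^ 2 + 1 = 4 * b) ∧
    ((unitDistanceGraph F).chromaticNumber = 3 ↔
      (∃ a b : integralClosure ℤ F, a ^ 2 + 1 = 4 * b) ∧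
        Nonempty (integralClosure ℤ F →+* ZMod 3)) ∧
    (4 ≤ (unitDistanceGraph F).chromaticNumber ↔
      (∃ a b : integralClosure ℤ F, a ^ 2 + 1 = 4 * b) ∧
        ¬ Nonempty (integralClosure ℤ F →+* ZMod 3)) := by
  have h2 := two_iff F hF
  have h3 := three_iff F hF
  have hle2 := le_iff F 2
  have hle3 := le_iff F 3
  have h20 := two_le F
  have h31 : (3 : ℕ∞) ≤ (unitDistanceGraph F).chromaticNumber ↔
      ¬ (unitDistanceGraph F).chromaticNumber ≤ 2 := lt_iff_le 2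
  have h41 : (4 : ℕ∞) ≤ (unitDistanceGraph F).chromaticNumber ↔
      ¬ (unitDistanceGraph F).chromaticNumber ≤ 3 := lt_iff_le 3
  refine ⟨?_, ?_, ?_⟩
  · rw [← h2, ← hle2]
    exact ⟨fun h => h.le, fun h => le_antisymm h h20⟩
  · constructor
    · intro h
      have h4 : (unitDistanceGraph F).Colorable 3 := hle3.1 h.le
      have h5 : ¬ (unitDistanceGraph F).Colorable 2 := by
        rw [← hle2]
        exact h31.1 h.ge
      refine ⟨?_, (h3.1 h4).resolve_left h5⟩
      by_contra hcon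
      exact h5 (h2.2 hcon)
    · rintro ⟨hab, hhom⟩
      refine le_antisymm (hle3.2 (h3.2 (Or.inr hhom))) ?_
      rw [h31]
      intro h
      exact h2.1 (hle2.1 h) hab
  · rw [h41]
    constructor
    · intro h
      constructor
      · by_contra hcon
        exact h (hle3.2 (h3.2 (Or.inl (h2.2 hcon))))
      · intro hhom
        exact h (hle3.2 (h3.2 (Or.inr hhom)))
    · rintro ⟨hab, hhom⟩ h
      rcases h3.1 (hle3.1 h) with h4 | h4
      · exact h2.1 h4 hab
      · exact hhom h4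

open QD in
/-- The real quadratic fields. -/
theorem quadratic (N : ℕ) (hN : Squarefree N) (h1 : 1 < N) :
    ((unitDistanceGraph (Fq N)).chromaticNumber = 2 ↔ N % 4 ≠ 3) ∧
    ((unitDistanceGraph (Fq N)).chromaticNumber = 3 ↔ N % 12 = 3 ∨ N % 12 = 7) ∧
    (4 ≤ (unitDistanceGraph (Fq N)).chromaticNumber ↔ N % 12 = 11) ∧
    (N % 24 = 11 → (unitDistanceGraph (Fq N)).chromaticNumber = 4) ∧
    (N % 12 = 11 → IsSquare (N : ZMod 7) → (unitDistanceGraph (Fq N)).chromaticNumber = 4) ∧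
    (N % 12 = 11 → IsSquare (N : ZMod 11) ∨ IsSquare (N : ZMod 19) →
      (unitDistanceGraph (Fq N)).chromaticNumber = 4 ∨
      (unitDistanceGraph (Fq N)).chromaticNumber = 5) := by
  have hF := Fq_alg N
  obtain ⟨m2, m3, m4⟩ := main (Fq N) hF
  have hab := exists_ab N hN
  have hsq3 : ∀ n : ZMod 3, IsSquare n ↔ n ≠ 2 := by decide
  have hhom : Nonempty (integralClosure ℤ (Fq N) →+* ZMod 3) ↔ N % 3 ≠ 2 := by
    rw [hom_iff N hN h1 3 (by norm_num), hsq3]
    have : (N : ZMod 3) = 2 ↔ N % 3 = 2 := by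
      have h2 := ZMod.natCast_eq_natCast_iff N 2 3
      rw [show ((2 : ℕ) : ZMod 3) = 2 from rfl] at h2
      rw [h2]
      unfold Nat.ModEq
      norm_num
    rw [Ne, this]
  have h4 : 4 ≤ (unitDistanceGraph (Fq N)).chromaticNumber ↔ N % 12 = 11 := by
    rw [m4, hab, hhom]
    omega
  refine ⟨?_, ?_, h4, ?_, ?_, ?_⟩
  · rw [m2, hab]
  · rw [m3, hab, hhom]
    omega
  · intro h
    obtain ⟨ψ, a, b, hab', hb⟩ := hom_two N hN (by omega)
    refine le_antisymm ?_ (h4.2 (by omega))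
    refine (le_iff (Fq N) 4).2 (U5.pow2 (Fq N) hF (ZMod 2) (by decide) (by simp) ψ a b hab' ?_)
    rw [hb]
    decide
  · intro h h7
    refine le_antisymm ?_ (h4.2 h)
    exact (le_iff (Fq N) 4).2 (UP.seven (Fq N) hF
      (by have : Fact (Nat.Prime 7) := ⟨by norm_num⟩; exact (hom_iff N hN h1 7 (by norm_num)).2 h7))
  · intro h h11
    have h5 : (unitDistanceGraph (Fq N)).chromaticNumber ≤ 5 := by
      rcases h11 with h11 | h11
      · exact (le_iff (Fq N) 5).2 (U5.eleven (Fq N) hF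
          (by have : Fact (Nat.Prime 11) := ⟨by norm_num⟩
              exact (hom_iff N hN h1 11 (by norm_num)).2 h11))
      · exact (le_iff (Fq N) 5).2 (U5.nineteen (Fq N) hF
          (by have : Fact (Nat.Prime 19) := ⟨by norm_num⟩
              exact (hom_iff N hN h1 19 (by norm_num)).2 h11))
    have h6 := h4.2 h
    rcases h6.eq_or_lt with h7 | h7
    · exact Or.inl h7.symm
    · right
      refine le_antisymm h5 ?_
      have h8 : (4 : ℕ∞) + 1 ≤ (unitDistanceGraph (Fq N)).chromaticNumber :=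
        (ENat.add_one_le_iff (by simp)).2 h7
      exact h8

end Pool.Agent.MP8b8716.FI
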