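import Pool.Agent.Lib.MP_8b8716_co.TwoPlace
import Pool.Agent.Lib.MP_8b8716_co.SmallFields
import Pool.Agent.Lib.MP_8b8716_co.UpperTwo

set_option autoImplicit false

/-!
# Four colours from a place above two at which `-1` is not a square
-/

namespace Pool.Agent.MP8b8716.UV

/-- Four colours from a place above two with at most `32` residue classes at which `-1` is not a
square in the completion. -/
theorem four_of_place (F : Subfield ℝ) (V : ValuationSubring F) (h2 : (2 : F) ∈ V.nonunits)
    [hfin : Finite (IsLocalRing.ResidueField V)]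
    (hK : Nat.card (IsLocalRing.ResidueField V) ≤ 32)
    (h : ∀ x : F, (x ^ 2 + 1) / 4 ∉ V.nonunits) : (unitDistanceGraph F).Colorable 4 := by
  by_cases hab : ∃ a : F, (a ^ 2 + 1) / 4 ∈ V
  swap
  · push Not at hab
    exact (two_of_place F V hab).mono (by norm_num)
  obtain ⟨a, ha⟩ := hab
  have h4 : (4 : F) ≠ 0 := by norm_num
  have h4V : (4 : F) ∈ V := by
    have : ((4 : V) : F) = 4 := rfl
    rw [← this]
    exact (4 : V).2
  have haV : a ∈ V := by
    have h3 : a ^ 2 ∈ V := by
      have : a ^ 2 = (a ^ 2 + 1) / 4 * 4 - 1 := by field_simp; ring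
      rw [this]
      exact sub_mem (mul_mem ha h4V) (one_mem V)
    rw [← V.valuation_le_one_iff] at h3 ⊢
    rw [map_pow] at h3
    exact (pow_le_one_iff two_ne_zero).1 h3
  have hfin' := Fintype.ofFinite (IsLocalRing.ResidueField V)
  let φ : V →+* IsLocalRing.ResidueField V := IsLocalRing.residue V
  have hφ : ∀ x : V, ¬ IsUnit x → φ x = 0 := fun x hx =>
    (IsLocalRing.residue_eq_zero_iff x).2 hx
  have h2K : (2 : IsLocalRing.ResidueField V) = 0 := by
    have : φ 2 = 0 := by
      apply hφ
      have h3 : ((2 : V) : F) ∈ V.nonunits := h2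
      rw [ValuationSubring.coe_mem_nonunits_iff] at h3
      exact h3
    rwa [map_ofNat] at this
  let a' : V := ⟨a, haV⟩
  let b' : V := ⟨(a ^ 2 + 1) / 4, ha⟩
  have hab' : a' ^ 2 + 1 = 4 * b' := by
    apply Subtype.ext
    show a ^ 2 + 1 = 4 * ((a ^ 2 + 1) / 4)
    field_simp
  have ha1 : φ a' = 1 := by
    have h5 := congrArg φ hab'
    rw [map_add, map_pow, map_one, map_mul, map_ofNat] at h5
    have h6 : (φ a' - 1) ^ 2 = 0 := by
      linear_combination h5 - (φ a' - 2 * φ b') * h2K
    exact sub_eq_zero.1 (pow_eq_zero_iff two_ne_zero |>.1 h6)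
  have hirr : ∀ t : IsLocalRing.ResidueField V, t ^ 2 + t + φ b' ≠ 0 := by
    intro t ht
    obtain ⟨s, rfl⟩ := IsLocalRing.residue_surjective t
    apply h (a + 2 * s)
    have h5 : φ (s ^ 2 + a' * s + b') = 0 := by
      rw [map_add, map_add, map_mul, map_pow, ha1, one_mul]
      exact ht
    have h6 : (s ^ 2 + a' * s + b' : V) ∈ IsLocalRing.maximalIdeal V :=
      (IsLocalRing.residue_eq_zero_iff _).1 h5
    rw [← ValuationSubring.coe_mem_nonunits_iff] at h6
    convert h6 using 1
    show ((a + 2 * s) ^ 2 + 1) / 4 = (s : F) ^ 2 + a * s + (a ^ 2 + 1) / 4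
    field_simp
    ring
  have hcard : Fintype.card (IsLocalRing.ResidueField V) ≤ 32 := by
    rwa [← Nat.card_eq_fintype_card]
  obtain ⟨c, hc⟩ := FQ.exists_linear (IsLocalRing.ResidueField V) h2K hcard (φ b') hirr
  exact U2.col_of_place_two F V h2K φ hφ a' b' hab' hirr 4 c hc

end Pool.Agent.MP8b8716.UV
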