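import Pool.Agent.Lib.MP_8b8716_co.Mean

/-!
# The height function of a 3-colouring (module HT)
-/

namespace Pool.Agent.MP8b8716.HT

variable {A : Type*} [AddCommGroup A]

/-- the lift of the colour difference along `u` -/
def dd (c : A → ZMod 3) (x u : A) : ℤ := if c (x + u) - c x = 1 then 1 else -1

/-- the height difference along a path -/
def DD (c : A → ZMod 3) : A → List A → ℤ
  | _, [] => 0
  | x, u :: l => dd c x u + DD c (x + u) l

theorem dd_cases (c : A → ZMod 3) (x u : A) : dd c x u = 1 ∨ dd c x u = -1 := by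
  unfold dd
  split_ifs
  · exact Or.inl rfl
  · exact Or.inr rfl

theorem zmod3 (a : ZMod 3) (h0 : a ≠ 0) (h1 : a ≠ 1) : a = -1 := by
  revert a
  decide

theorem dd_cast (c : A → ZMod 3) (x u : A) (h : c (x + u) ≠ c x) :
    ((dd c x u : ℤ) : ZMod 3) = c (x + u) - c x := by
  unfold dd
  split_ifs with h1
  · rw [h1]; rfl
  · rw [zmod3 _ (sub_ne_zero.2 h) h1]; rfl

theorem four (c : A → ZMod 3) (x u v : A) (h1 : c (x + u) ≠ c x)
    (h2 : c (x + u + v) ≠ c (x + u)) (h3 : c (x + v) ≠ c x) (h4 : c (x + v + u) ≠ c (x + v)) :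
    dd c x u + dd c (x + u) v = dd c x v + dd c (x + v) u := by
  have e1 := dd_cast c x u h1
  have e2 := dd_cast c (x + u) v h2
  have e3 := dd_cast c x v h3
  have e4 := dd_cast c (x + v) u h4
  have hxy : x + v + u = x + u + v := by abel
  rw [hxy] at e4
  have h5 : ((dd c x u + dd c (x + u) v - (dd c x v + dd c (x + v) u) : ℤ) : ZMod 3) = 0 := by
    push_cast
    rw [e1, e2, e3, e4]
    ring
  rw [ZMod.intCast_zmod_eq_zero_iff_dvd] at h5
  rcases dd_cases c x u with a1 | a1 <;> rcases dd_cases c (x + u) v with a2 | a2 <;>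
    rcases dd_cases c x v with a3 | a3 <;> rcases dd_cases c (x + v) u with a4 | a4 <;>
    rw [a1, a2, a3, a4] at h5 ⊢ <;> revert h5 <;> decide

theorem DD_shift (U : Set A) (c : A → ZMod 3) (hc : ∀ x, ∀ u ∈ U, c (x + u) ≠ c x) (v : A)
    (hv : v ∈ U) (l : List A) (hl : ∀ u ∈ l, u ∈ U) :
    ∀ x, DD c (x + v) l - DD c x l = dd c (x + l.sum) v - dd c x v := by
  induction l with
  | nil =>
    intro x
    simp [DD]
  | cons u l ih =>
    intro x
    have hu : u ∈ U := hl u (List.mem_cons_self ..)
    have h1 := ih (fun w hw => hl w (List.mem_cons_of_mem _ hw)) (x + u)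
    have h2 := four c x u v (hc x u hu) (hc (x + u) v hv) (hc x v hv) (hc (x + v) u hu)
    have h3 : x + v + u = x + u + v := by abel
    have h4 : x + (u :: l).sum = x + u + l.sum := by rw [List.sum_cons]; abel
    rw [h4]
    show dd c (x + v) u + DD c (x + v + u) l - (dd c x u + DD c (x + u) l) = _
    rw [h3]
    linarith

theorem DD_const (U : Set A) (hgen : AddSubgroup.closure U = ⊤) (c : A → ZMod 3)
    (hc : ∀ x, ∀ u ∈ U, c (x + u) ≠ c x) (l : List A) (hl : ∀ u ∈ l, u ∈ U)
    (hs : l.sum = 0) (x : A) : DD c x l = DD c 0 l := by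
  have h1 : ∀ y ∈ AddSubgroup.closure U, ∀ x, DD c (x + y) l = DD c x l := by
    intro y hy
    induction hy using AddSubgroup.closure_induction with
    | mem v hv =>
      intro x
      have h2 := DD_shift U c hc v hv l hl x
      rw [hs, add_zero, sub_self] at h2
      linarith
    | zero =>
      intro x
      rw [add_zero]
    | add y z _ _ hy hz =>
      intro x
      rw [← add_assoc, hz, hy]
    | neg y _ hy =>
      intro x
      have h2 := hy (x + -y)
      rw [neg_add_cancel_right] at h2
      exact h2.symm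
  have h2 := h1 x (by rw [hgen]; trivial) 0
  rwa [zero_add] at h2

theorem DD_cast (U : Set A) (c : A → ZMod 3) (hc : ∀ x, ∀ u ∈ U, c (x + u) ≠ c x)
    (l : List A) (hl : ∀ u ∈ l, u ∈ U) :
    ∀ x, ((DD c x l : ℤ) : ZMod 3) = c (x + l.sum) - c x := by
  induction l with
  | nil =>
    intro x
    simp [DD]
  | cons u l ih =>
    intro x
    have h1 := ih (fun w hw => hl w (List.mem_cons_of_mem _ hw)) (x + u)
    have h2 := dd_cast c x u (hc x u (hl u (List.mem_cons_self ..)))
    have h4 : x + (u :: l).sum = x + u + l.sum := by rw [List.sum_cons]; abel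
    rw [h4]
    show ((dd c x u + DD c (x + u) l : ℤ) : ZMod 3) = _
    push_cast
    rw [h1, h2]
    ring

theorem DD_parity (c : A → ZMod 3) (l : List A) :
    ∀ x, ∃ m : ℤ, DD c x l = l.length + 2 * m := by
  induction l with
  | nil =>
    intro x
    exact ⟨0, by simp [DD]⟩
  | cons u l ih =>
    intro x
    obtain ⟨m, hm⟩ := ih (x + u)
    rcases dd_cases c x u with h | h
    · refine ⟨m, ?_⟩
      show dd c x u + DD c (x + u) l = _
      rw [h, hm, List.length_cons]
      push_cast
      ring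
    · refine ⟨m - 1, ?_⟩
      show dd c x u + DD c (x + u) l = _
      rw [h, hm, List.length_cons]
      push_cast
      ring

theorem dd_bound (c : A → ZMod 3) (x u : A) : |((dd c x u : ℤ) : ℝ)| ≤ 1 := by
  rcases dd_cases c x u with h | h
  · rw [h]; simp
  · rw [h]; simp

theorem DD_bound (c : A → ZMod 3) (l : List A) : ∀ x, |((DD c x l : ℤ) : ℝ)| ≤ l.length := by
  induction l with
  | nil =>
    intro x
    simp [DD]
  | cons u l ih =>
    intro x
    have h1 := ih (x + u)
    have h2 := dd_bound c x u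
    have h3 := abs_add_le ((dd c x u : ℤ) : ℝ) ((DD c (x + u) l : ℤ) : ℝ)
    show |((dd c x u + DD c (x + u) l : ℤ) : ℝ)| ≤ _
    rw [List.length_cons]
    push_cast
    linarith

theorem height {A : Type*} [AddCommGroup A] (U : Set A) (hU : ∀ u ∈ U, -u ∈ U)
    (hgen : AddSubgroup.closure U = ⊤) (c : A → ZMod 3)
    (hc : ∀ x, ∀ u ∈ U, c (x + u) ≠ c x) :
    ∃ θ : A →+ UnitAddCircle, ∀ u ∈ U, 1 / 3 ≤ ‖θ u‖ := by
  obtain ⟨μ, hadd, hbd, hconst, hinv⟩ := ME.exists_mean A
  set w : A → ℝ := fun u => μ (fun x => ((dd c x u : ℤ) : ℝ)) with hw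
  have hw1 : ∀ u, |w u| ≤ 1 := fun u => hbd _ 1 (fun x => dd_bound c x u)
  -- the sum of `w` along a list
  have hsum : ∀ l : List A, (l.map w).sum = μ (fun x => ((DD c x l : ℤ) : ℝ)) := by
    intro l
    induction l with
    | nil =>
      have h1 : (fun x : A => ((DD c x [] : ℤ) : ℝ)) = fun _ => 0 := by
        funext x
        simp [DD]
      rw [h1, hconst]
      simp
    | cons u l ih =>
      rw [List.map_cons, List.sum_cons, ih]
      have h1 : (fun x : A => ((DD c x (u :: l) : ℤ) : ℝ))
          = fun x => ((dd c x u : ℤ) : ℝ) + ((DD c (x + u) l : ℤ) : ℝ) := by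
        funext x
        show ((dd c x u + DD c (x + u) l : ℤ) : ℝ) = _
        push_cast
        ring
      rw [h1, hadd _ _ ⟨1, fun x => dd_bound c x u⟩ ⟨l.length, fun x => DD_bound c l (x + u)⟩,
        hinv (fun x => ((DD c x l : ℤ) : ℝ)) u ⟨l.length, fun x => DD_bound c l x⟩]
  set θ₀ : A → UnitAddCircle := fun u => (((w u - 3) / 6 : ℝ) : UnitAddCircle) with hθ₀
  have hθsum : ∀ l : List A, (l.map θ₀).sum
      = ((((l.map w).sum - 3 * l.length) / 6 : ℝ) : UnitAddCircle) := by
    intro l
    induction l with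
    | nil => simp
    | cons u l ih =>
      rw [List.map_cons, List.sum_cons, ih, hθ₀]
      show (((w u - 3) / 6 : ℝ) : UnitAddCircle) + _ = _
      rw [← AddCircle.coe_add, List.map_cons, List.sum_cons, List.length_cons]
      congr 1
      push_cast
      ring
  have hzero : ∀ l : List A, (∀ u ∈ l, u ∈ U) → l.sum = 0 → (l.map θ₀).sum = 0 := by
    intro l hl hs
    have h1 : (l.map w).sum = ((DD c 0 l : ℤ) : ℝ) := by
      rw [hsum]
      have h2 : (fun x : A => ((DD c x l : ℤ) : ℝ)) = fun _ => ((DD c 0 l : ℤ) : ℝ) := by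
        funext x
        rw [DD_const U hgen c hc l hl hs x]
      rw [h2, hconst]
    have h3 := DD_cast U c hc l hl 0
    rw [hs, add_zero, sub_self, ZMod.intCast_zmod_eq_zero_iff_dvd] at h3
    obtain ⟨m, hm⟩ := DD_parity c l 0
    have h4 : ∃ k : ℤ, DD c 0 l - 3 * l.length = 6 * k := by
      obtain ⟨a, ha⟩ := h3
      have ha' : DD c 0 l = 3 * a := by exact_mod_cast ha
      have h5 : (2 : ℤ) ∣ a - l.length := by
        have h6 : 3 * (a - l.length) = 2 * (m - l.length) := by linarith
        have h7 : (2 : ℤ) ∣ 3 * (a - l.length) := ⟨_, h6⟩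
        exact (Int.isCoprime_iff_gcd_eq_one.2 (by norm_num)).dvd_of_dvd_mul_left h7
      obtain ⟨k, hk⟩ := h5
      exact ⟨k, by linarith⟩
    obtain ⟨k, hk⟩ := h4
    rw [hθsum, h1]
    have h5 : (((DD c 0 l : ℤ) : ℝ) - 3 * l.length) / 6 = (k : ℝ) := by
      have h6 : ((DD c 0 l - 3 * l.length : ℤ) : ℝ) = ((6 * k : ℤ) : ℝ) := by rw [hk]
      push_cast at h6
      rw [h6]
      ring
    rw [h5, AddCircle.coe_eq_zero_iff]
    exact ⟨k, by simp⟩
  have hneg : ∀ u ∈ U, θ₀ (-u) = -θ₀ u := by
    intro u hu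
    have h1 := hzero [u, -u] (by
      intro v hv
      simp only [List.mem_cons, List.not_mem_nil, or_false] at hv
      rcases hv with rfl | rfl
      · exact hu
      · exact hU _ hu) (by simp)
    simp only [List.map_cons, List.map_nil, List.sum_cons, List.sum_nil, add_zero] at h1
    exact (neg_eq_of_add_eq_zero_right h1).symm
  have hnegl : ∀ l : List A, (∀ u ∈ l, u ∈ U) →
      ((l.map fun u => -u).map θ₀).sum = -(l.map θ₀).sum := by
    intro l hl
    induction l with
    | nil => simp
    | cons u l ih =>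
      simp only [List.map_cons, List.sum_cons]
      have h1 := ih (fun w hw => hl w (List.mem_cons_of_mem _ hw))
      rw [hneg u (hl u (List.mem_cons_self ..)), h1, neg_add]
  have hnegs : ∀ l : List A, (l.map fun u => -u).sum = -l.sum := by
    intro l
    induction l with
    | nil => simp
    | cons u l ih => rw [List.map_cons, List.sum_cons, List.sum_cons, ih, neg_add]
  have hwell : ∀ l l' : List A, (∀ u ∈ l, u ∈ U) → (∀ u ∈ l', u ∈ U) → l.sum = l'.sum →
      (l.map θ₀).sum = (l'.map θ₀).sum := by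
    intro l l' hl hl' hs
    have h1 := hzero (l ++ l'.map fun u => -u) (by
      intro v hv
      rw [List.mem_append] at hv
      rcases hv with hv | hv
      · exact hl v hv
      · rw [List.mem_map] at hv
        obtain ⟨v', hv', rfl⟩ := hv
        exact hU _ (hl' v' hv')) (by rw [List.sum_append, hnegs, hs, add_neg_cancel])
    rw [List.map_append, List.sum_append, hnegl l' hl'] at h1
    exact add_neg_eq_zero.1 h1
  have hex : ∀ x : A, ∃ l : List A, (∀ u ∈ l, u ∈ U) ∧ l.sum = x := by
    intro x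
    have hx : x ∈ AddSubgroup.closure U := by rw [hgen]; trivial
    induction hx using AddSubgroup.closure_induction with
    | mem v hv => exact ⟨[v], by simpa using hv, by simp⟩
    | zero => exact ⟨[], by simp, by simp⟩
    | add y z _ _ hy hz =>
      obtain ⟨l, hl, hs⟩ := hy
      obtain ⟨l', hl', hs'⟩ := hz
      refine ⟨l ++ l', ?_, by rw [List.sum_append, hs, hs']⟩
      intro v hv
      rw [List.mem_append] at hv
      rcases hv with hv | hv
      · exact hl v hv
      · exact hl' v hv
    | neg y _ hy =>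
      obtain ⟨l, hl, hs⟩ := hy
      refine ⟨l.map fun u => -u, ?_, by rw [hnegs, hs]⟩
      intro v hv
      rw [List.mem_map] at hv
      obtain ⟨v', hv', rfl⟩ := hv
      exact hU _ (hl v' hv')
  choose Lf hL1 hL2 using hex
  refine ⟨AddMonoidHom.mk' (fun x => ((Lf x).map θ₀).sum) ?_, ?_⟩
  · intro x y
    have h1 := hwell (Lf (x + y)) (Lf x ++ Lf y) (hL1 _) (by
      intro v hv
      rw [List.mem_append] at hv
      rcases hv with hv | hv
      · exact hL1 _ v hv
      · exact hL1 _ v hv) (by rw [List.sum_append, hL2, hL2, hL2])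
    rw [h1, List.map_append, List.sum_append]
  · intro u hu
    have h1 : ((Lf u).map θ₀).sum = θ₀ u := by
      have h2 := hwell (Lf u) [u] (hL1 _) (by simpa using hu) (by rw [hL2]; simp)
      rw [h2]
      simp
    show 1 / 3 ≤ ‖((Lf u).map θ₀).sum‖
    rw [h1, hθ₀]
    show 1 / 3 ≤ ‖(((w u - 3) / 6 : ℝ) : UnitAddCircle)‖
    rw [UnitAddCircle.norm_eq]
    have h3 := abs_le.1 (hw1 u)
    set r : ℝ := (w u - 3) / 6 with hr
    have hr1 : -(2 / 3) ≤ r := by rw [hr]; linarith [h3.1]
    have hr2 : r ≤ -(1 / 3) := by rw [hr]; linarith [h3.2]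
    rcases le_or_gt 0 (round r) with h4 | h4
    · have h5 : (0 : ℝ) ≤ (round r : ℝ) := by exact_mod_cast h4
      rw [abs_of_nonpos (by linarith)]
      linarith
    · have h5 : (round r : ℝ) ≤ -1 := by
        have : round r ≤ -1 := by omega
        exact_mod_cast this
      rw [abs_of_nonneg (by linarith)]
      linarith

end Pool.Agent.MP8b8716.HT
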