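import Pool.Agent.Lib.MP_8b8716_co.Defs
import Pool.Agent.Lib.MP_8b8716_co.Arcs
import Pool.Agent.Lib.MP_8b8716_co.Gauss

set_option autoImplicit false

/-!
# The K-lemma: arithmetic progressions of unit vectors
-/

open Complex

namespace Pool.Agent.MP8b8716.KL

private lemma dvd_int {p : ℕ} (hp : p.Prime) {π : GaussianInt} (hπ : Zsqrtd.norm π = p) {n : ℤ}
    (h : π ∣ (n : GaussianInt)) : (p : ℤ) ∣ n := by
  have h1 : Zsqrtd.norm π ∣ Zsqrtd.norm (n : GaussianInt) := by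
    obtain ⟨c, hc⟩ := h
    rw [hc, Zsqrtd.norm_mul]
    exact dvd_mul_right _ _
  rw [hπ, Zsqrtd.norm_intCast] at h1
  rcases (Nat.prime_iff_prime_int.1 hp).dvd_or_dvd h1 with h2 | h2 <;> exact h2

private lemma dvd_p {p : ℕ} {π : GaussianInt} (hπ : Zsqrtd.norm π = p) :
    (p : GaussianInt) = π * star π := by
  have := Zsqrtd.norm_eq_mul_conj π
  rw [hπ] at this
  rw [← this]
  push_cast
  rfl

private lemma norm_re_im {p : ℕ} {π : GaussianInt} (hπ : Zsqrtd.norm π = p) :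
    π.re * π.re + π.im * π.im = p := by
  have := hπ
  rw [Zsqrtd.norm_def] at this
  linarith

private lemma not_dvd_im {p : ℕ} (hp : p.Prime) {π : GaussianInt} (hπ : Zsqrtd.norm π = p) :
    ¬ (p : ℤ) ∣ π.im := by
  have hn := norm_re_im hπ
  have hpi : Prime (p : ℤ) := Nat.prime_iff_prime_int.1 hp
  intro h
  have h2 : (p : ℤ) ∣ π.re := by
    have h3 : (p : ℤ) ∣ π.re * π.re := by
      have h4 : π.re * π.re = p - π.im * π.im := by linarith
      rw [h4]
      exact dvd_sub (dvd_refl _) (h.mul_right _)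
    rcases hpi.dvd_or_dvd h3 with h5 | h5 <;> exact h5
  obtain ⟨a, ha⟩ := h2
  obtain ⟨b, hb⟩ := h
  rw [ha, hb] at hn
  have h6 : (p : ℤ) * ((p : ℤ) * (a * a + b * b)) = p * 1 := by linarith
  have h7 : (p : ℤ) * (a * a + b * b) = 1 :=
    mul_left_cancel₀ (Int.natCast_ne_zero.2 hp.ne_zero) h6
  exact hpi.not_isUnit (IsUnit.of_mul_eq_one _ h7)

private lemma exists_int {p : ℕ} (hp : p.Prime) {π : GaussianInt} (hπ : Zsqrtd.norm π = p)
    (x : GaussianInt) : ∃ a : ℤ, π ∣ x - (a : GaussianInt) := by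
  have hn := norm_re_im hπ
  have hpi : Prime (p : ℤ) := Nat.prime_iff_prime_int.1 hp
  obtain ⟨k, v, hkv⟩ := (Prime.coprime_iff_not_dvd hpi).2 (not_dvd_im hp hπ)
  refine ⟨x.re - x.im * v * π.re, ⟨(x.im : GaussianInt) * (v + k * (⟨0, 1⟩ : GaussianInt) * star π),
    ?_⟩⟩
  ext
  · simp
    ring
  · simp
    linear_combination (-x.im) * hkv - (x.im * k) * hn

/-- Fermat -/
private lemma fermat {p : ℕ} (hp : p.Prime) {π : GaussianInt} (hπ : Zsqrtd.norm π = p)
    {x : GaussianInt} (hx : ¬ π ∣ x) : π ∣ x ^ (p - 1) - 1 := by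
  obtain ⟨a, ha⟩ := exists_int hp hπ x
  have hpi : Prime (p : ℤ) := Nat.prime_iff_prime_int.1 hp
  have hpp : π ∣ (p : GaussianInt) := by rw [dvd_p hπ]; exact dvd_mul_right _ _
  have h1 : ¬ (p : ℤ) ∣ a := by
    rintro ⟨b, hb⟩
    apply hx
    have h2 : π ∣ (a : GaussianInt) := by
      rw [hb]
      push_cast
      exact hpp.mul_right _
    have := dvd_add ha h2
    simpa using this
  have h2 : IsCoprime a (p : ℤ) := ((Prime.coprime_iff_not_dvd hpi).2 h1).symm
  have h3 := Int.ModEq.pow_card_sub_one_eq_one hp h2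
  have h4 : (p : ℤ) ∣ a ^ (p - 1) - 1 := (Int.modEq_iff_dvd.1 h3.symm)
  obtain ⟨c, hc⟩ := h4
  have h5 : π ∣ (a : GaussianInt) ^ (p - 1) - 1 := by
    have h6 : (a : GaussianInt) ^ (p - 1) - 1 = (p : GaussianInt) * c := by
      have := congrArg (fun t : ℤ => (t : GaussianInt)) hc
      push_cast at this
      exact this
    rw [h6]
    exact hpp.mul_right _
  have h7 : π ∣ x ^ (p - 1) - (a : GaussianInt) ^ (p - 1) := ha.trans (sub_dvd_pow_sub_pow _ _ _)
  have := dvd_add h7 h5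
  simpa using this

/-- solving linear congruences modulo `π` in rational integers -/
private lemma solve {p : ℕ} (hp : p.Prime) {π : GaussianInt} (hπ : Zsqrtd.norm π = p)
    {y : GaussianInt} (hy : ¬ π ∣ y) (x : GaussianInt) :
    ∃ (a : ℤ) (w : GaussianInt), x = a * y + π * w := by
  obtain ⟨b, hb⟩ := exists_int hp hπ y
  obtain ⟨d, hd⟩ := exists_int hp hπ x
  have hpi : Prime (p : ℤ) := Nat.prime_iff_prime_int.1 hp
  have hpp : π ∣ (p : GaussianInt) := by rw [dvd_p hπ]; exact dvd_mul_right _ _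
  have h1 : ¬ (p : ℤ) ∣ b := by
    rintro ⟨c, hc⟩
    apply hy
    have h2 : π ∣ (b : GaussianInt) := by
      rw [hc]
      push_cast
      exact hpp.mul_right _
    have := dvd_add hb h2
    simpa using this
  obtain ⟨k, v, hkv⟩ := (Prime.coprime_iff_not_dvd hpi).2 h1
  -- k * p + v * b = 1
  have h3 : π ∣ x - ((d * v : ℤ) : GaussianInt) * y := by
    have e : x - ((d * v : ℤ) : GaussianInt) * y =
        (x - d) + d * k * (p : GaussianInt) - (d * v) * (y - b) := by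
      have := congrArg (fun t : ℤ => (t : GaussianInt)) hkv
      push_cast at this ⊢
      linear_combination (-(d : GaussianInt)) * this
    rw [e]
    exact dvd_sub (dvd_add hd (hpp.mul_left _)) (hb.mul_left _)
  obtain ⟨w, hw⟩ := h3
  exact ⟨d * v, w, by rw [← hw]; ring⟩

private lemma prime_of_norm {p : ℕ} (hp : p.Prime) {π : GaussianInt} (hπ : Zsqrtd.norm π = p) :
    Prime π := by
  have hpi : Prime (p : ℤ) := Nat.prime_iff_prime_int.1 hp
  have hpp : π ∣ (p : GaussianInt) := by rw [dvd_p hπ]; exact dvd_mul_right _ _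
  refine ⟨?_, ?_, ?_⟩
  · rintro rfl
    rw [Zsqrtd.norm_zero] at hπ
    exact hp.ne_zero (by exact_mod_cast hπ.symm)
  · intro h
    have := Zsqrtd.norm_eq_one_iff.2 h
    rw [hπ] at this
    exact hp.one_lt.ne' (by simpa using this)
  · intro a b hab
    obtain ⟨a', ha⟩ := exists_int hp hπ a
    obtain ⟨b', hb⟩ := exists_int hp hπ b
    have h1 : π ∣ ((a' * b' : ℤ) : GaussianInt) := by
      have e : ((a' * b' : ℤ) : GaussianInt) = a * b - a * (b - b') - (a - a') * b' := by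
        push_cast
        ring
      rw [e]
      exact dvd_sub (dvd_sub hab (hb.mul_left _)) (ha.mul_right _)
    rcases hpi.dvd_or_dvd (dvd_int hp hπ h1) with ⟨c, hc⟩ | ⟨c, hc⟩
    · left
      have h2 : π ∣ (a' : GaussianInt) := by
        rw [hc]; push_cast; exact hpp.mul_right _
      have := dvd_add ha h2
      simpa using this
    · right
      have h2 : π ∣ (b' : GaussianInt) := by
        rw [hc]; push_cast; exact hpp.mul_right _
      have := dvd_add hb h2
      simpa using this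

private lemma not_dvd_star {p : ℕ} (hp : p.Prime) (hp2 : p ≠ 2) {π : GaussianInt}
    (hπ : Zsqrtd.norm π = p) : ¬ π ∣ star π := by
  intro h
  have h1 : π ∣ ((2 * π.im : ℤ) : GaussianInt) := by
    have h2 : π ∣ (π - star π) * (-(⟨0, 1⟩ : GaussianInt)) := (dvd_sub (dvd_refl _) h).mul_right _
    have e : (π - star π) * (-(⟨0, 1⟩ : GaussianInt)) = ((2 * π.im : ℤ) : GaussianInt) := by
      ext
      · simp
        ring
      · simp
    rwa [e] at h2
  have h3 := dvd_int hp hπ h1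
  have hpi : Prime (p : ℤ) := Nat.prime_iff_prime_int.1 hp
  rcases hpi.dvd_or_dvd h3 with h4 | h4
  · have h5 : p ∣ 2 := by exact_mod_cast h4
    exact hp2 ((Nat.prime_dvd_prime_iff_eq hp Nat.prime_two).1 h5)
  · exact not_dvd_im hp hπ h4

/-- the key identity -/
private lemma key {p q : ℕ} (hp : p.Prime) (hq : q.Prime) (hp4 : p % 4 = 1) (hpq : p ≠ q)
    {π ρ : GaussianInt} (hπ : Zsqrtd.norm π = p) (hρ : Zsqrtd.norm ρ = q) (hρp : Prime ρ)
    (hρc : IsCoprime ρ (star ρ)) :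
    ∃ (c : ℕ) (z : GaussianInt), 1 ≤ c ∧ ¬ π ∣ z ∧
      ρ ^ (2 * (p - 1)) = (q : GaussianInt) ^ (p - 1) + π ^ c * z := by
  have hπp := prime_of_norm hp hπ
  have hnq : ¬ π ∣ (q : GaussianInt) := by
    intro h
    have h1 : π ∣ ((q : ℤ) : GaussianInt) := by exact_mod_cast h
    have h2 := dvd_int hp hπ h1
    have h3 : p ∣ q := by exact_mod_cast h2
    exact hpq ((Nat.prime_dvd_prime_iff_eq hp hq).1 h3)
  have hqe : (q : GaussianInt) = ρ * star ρ := dvd_p hρ
  have hnρ : ¬ π ∣ ρ := by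
    intro h
    apply hnq
    rw [hqe]
    exact h.mul_right _
  set x := ρ ^ (2 * (p - 1)) - (q : GaussianInt) ^ (p - 1) with hx
  have hdvd : π ∣ x := by
    have h1 := fermat hp hπ (x := ρ ^ 2) (fun h => hnρ (hπp.dvd_of_dvd_pow h))
    have h2 := fermat hp hπ hnq
    have := dvd_sub h1 h2
    rw [← pow_mul] at this
    convert this using 1
    rw [hx]
    ring
  have hne : x ≠ 0 := by
    intro h
    have h1 : ρ ^ (p - 1) * ρ ^ (p - 1) = ρ ^ (p - 1) * (star ρ) ^ (p - 1) := by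
      have h2 := sub_eq_zero.1 h
      rw [hqe, mul_pow] at h2
      rw [← h2]
      ring
    have h3 : ρ ^ (p - 1) = (star ρ) ^ (p - 1) :=
      mul_left_cancel₀ (pow_ne_zero _ hρp.ne_zero) h1
    have hp1 : p - 1 ≠ 0 := by have := hp.two_le; omega
    have h4 : ρ ∣ (star ρ) ^ (p - 1) := by
      rw [← h3]
      exact dvd_pow_self _ hp1
    have h5 : ρ ∣ star ρ := hρp.dvd_of_dvd_pow h4
    exact hρp.not_isUnit (hρc.isUnit_of_dvd' (dvd_refl _) h5)
  have hfin : FiniteMultiplicity π x := FiniteMultiplicity.of_not_isUnit hπp.not_isUnit hne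
  obtain ⟨z, hz, hnz⟩ := hfin.exists_eq_pow_mul_and_not_dvd
  refine ⟨multiplicity π x, z, ?_, hnz, ?_⟩
  · by_contra hc
    have h0 : multiplicity π x = 0 := by omega
    rw [h0, pow_zero, one_mul] at hz
    exact hnz (hz ▸ hdvd)
  · rw [← hz, hx]
    ring

private lemma expand0 (s P Z K Q : ℂ) (hP : P ≠ 0) (m c : ℕ)
    (hK : K * (P ^ (c + 1) * Z) ^ 2 = 0) :
    (s / P) ^ (m + (c + 1) + 1) * ((Q ^ 0 + K * (P ^ (c + 1) * Z) ^ 2) / Q ^ 0) =
      (s / P) ^ (m + (c + 1) + 1) +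
        K * Z ^ 2 * s ^ (m + (c + 1) + 1) * P ^ c / (P ^ m * Q ^ 0) := by
  have h1 : K * Z ^ 2 = 0 := by
    rw [mul_pow, ← mul_assoc, mul_comm K, mul_assoc] at hK
    exact (mul_eq_zero.1 hK).resolve_left (pow_ne_zero _ (pow_ne_zero _ hP))
  rw [hK, h1]
  simp

private lemma expand1 (s P Z K Q T : ℂ) (hP : P ≠ 0) (hQ : Q ≠ 0) (m c l : ℕ) :
    (s / P) ^ (m + (c + 1) + 1) * ((Q ^ (l + 1) + T * Q ^ l * (P ^ (c + 1) * Z) +
      K * (P ^ (c + 1) * Z) ^ 2) / Q ^ (l + 1)) =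
      (s / P) ^ (m + (c + 1) + 1) + T * (s ^ (m + (c + 1) + 1) * Z / (P ^ (m + 1) * Q)) +
        K * Z ^ 2 * s ^ (m + (c + 1) + 1) * P ^ c / (P ^ m * Q ^ (l + 1)) := by
  have e1 : P ^ (m + (c + 1) + 1) = P ^ m * P ^ c * P * P := by ring
  have hPm : P ^ m ≠ 0 := pow_ne_zero _ hP
  have hPc : P ^ c ≠ 0 := pow_ne_zero _ hP
  have hQl : Q ^ l ≠ 0 := pow_ne_zero _ hQ
  rw [div_pow, e1, pow_succ P c, pow_succ P m, pow_succ Q l]
  generalize P ^ m = Pm at *
  generalize P ^ c = Pc at *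
  generalize Q ^ l = Ql at *
  generalize s ^ (m + (c + 1) + 1) = sN at *
  field_simp

theorem klemma (p q : ℕ) (hp : p.Prime) (hq : q.Prime) (hp4 : p % 4 = 1) (hq4 : q % 4 = 1)
    (hpq : p ≠ q) (x₀ : GaussianInt) (hx₀ : Zsqrtd.norm x₀ = p) (M : ℕ) (hM : (p - 1) ^ 2 ≤ M)
    (η : ℂ →+ UnitAddCircle) (h0 : ∀ x : GaussianInt, η ((x : ℂ) / (q : ℂ) ^ M) = 0)
    (hs : ∀ s ∈ U0, ‖η s‖ ≤ 11 / 30) (n : ℕ) (x : GaussianInt) :
    η ((x : ℂ) / (x₀ : ℂ) ^ n) = 0 := by
  obtain ⟨ρ, hρ, hρp, -, hρc⟩ := GI.exists_pi q hq hq4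
  obtain ⟨c, z, hc1, hnz, hkey⟩ := key hp hq hp4 hpq hx₀ hρ hρp hρc
  have hπp := prime_of_norm hp hx₀
  have hp2 : p ≠ 2 := by rintro rfl; omega
  have hq0 : (q : ℂ) ≠ 0 := Nat.cast_ne_zero.2 hq.ne_zero
  have hπ0 : (x₀ : ℂ) ≠ 0 := by
    rw [Ne, GaussianInt.toComplex_eq_zero]
    exact hπp.ne_zero
  have hns : ¬ x₀ ∣ star x₀ := not_dvd_star hp hp2 hx₀
  induction n generalizing x with
  | zero =>
    have := h0 ((q : GaussianInt) ^ M * x)
    have e : (((q : GaussianInt) ^ M * x : GaussianInt) : ℂ) / (q : ℂ) ^ M =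
        (x : ℂ) / (x₀ : ℂ) ^ 0 := by
      simp only [map_mul, map_pow, map_natCast]
      field_simp
    rw [e] at this
    exact this
  | succ m ih =>
    -- step (2)
    have hcop : IsCoprime (x₀ ^ m) ((q : GaussianInt) ^ M) := by
      apply IsCoprime.pow
      have h1 : IsCoprime (p : ℤ) (q : ℤ) := by
        exact_mod_cast (Nat.coprime_primes hp hq).2 hpq |>.isCoprime
      obtain ⟨u, w, huw⟩ := h1
      refine ⟨u * star x₀, w, ?_⟩
      have := congrArg (fun t : ℤ => (t : GaussianInt)) huw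
      push_cast at this
      rw [dvd_p hx₀] at this
      rw [← this]
      ring
    obtain ⟨A, B, hAB⟩ := hcop
    have h2 : ∀ y : GaussianInt, ∀ j ≤ M, η ((y : ℂ) / ((x₀ : ℂ) ^ m * (q : ℂ) ^ j)) = 0 := by
      intro y j hj
      have e : (y : ℂ) / ((x₀ : ℂ) ^ m * (q : ℂ) ^ j) =
          ((y * (q : GaussianInt) ^ (M - j) * A : GaussianInt) : ℂ) / (q : ℂ) ^ M +
          ((y * (q : GaussianInt) ^ (M - j) * B : GaussianInt) : ℂ) / (x₀ : ℂ) ^ m := by
        have h3 := congrArg (fun t : GaussianInt => (t : ℂ)) hAB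
        simp only [map_mul, map_pow, map_add, map_natCast, map_one] at h3 ⊢
        have h4 : (q : ℂ) ^ M = (q : ℂ) ^ (M - j) * (q : ℂ) ^ j := by
          rw [← pow_add, Nat.sub_add_cancel hj]
        field_simp
        rw [h4] at h3 ⊢
        linear_combination (-(y : ℂ) * (q : ℂ) ^ (M - j) * (q : ℂ) ^ j) * h3
      rw [e, map_add, h0, ih, add_zero]
    by_contra hne
    have hp5 : 5 ≤ p := by have := hp.two_le; omega
    set S : GaussianInt := star x₀ with hS
    have hS0 : (S : ℂ) ≠ 0 := by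
      rw [Ne, GaussianInt.toComplex_eq_zero]
      intro h
      apply hns
      rw [h]
      exact dvd_zero _
    have hρ0 : (ρ : ℂ) ≠ 0 := by
      rw [Ne, GaussianInt.toComplex_eq_zero]
      exact hρp.ne_zero
    have hqe : (q : ℂ) = (ρ : ℂ) * ((star ρ : GaussianInt) : ℂ) := by
      have := congrArg (fun t : GaussianInt => (t : ℂ)) (dvd_p hρ)
      simpa only [map_mul, map_natCast] using this
    have hpe : (p : ℂ) = (x₀ : ℂ) * (S : ℂ) := by
      have := congrArg (fun t : GaussianInt => (t : ℂ)) (dvd_p hx₀)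
      simpa only [map_mul, map_natCast] using this
    have hρs0 : ((star ρ : GaussianInt) : ℂ) ≠ 0 := by
      intro h
      rw [h, mul_zero] at hqe
      exact hq0 hqe
    -- the unit vectors
    have hv : (S : ℂ) / (x₀ : ℂ) ∈ U0 := by
      have := GI.quot_mem S (by
        rw [hS, Zsqrtd.norm_conj, hx₀]
        simpa using GI.N1_prime hp hp4)
      rwa [hS, star_star, ← hS] at this
    have hg : (ρ : ℂ) / ((star ρ : GaussianInt) : ℂ) ∈ U0 := by
      apply GI.quot_mem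
      rw [hρ]
      simpa using GI.N1_prime hq hq4
    set Q : ℂ := (q : ℂ) ^ (p - 1) with hQ
    have hQ0 : Q ≠ 0 := pow_ne_zero _ hq0
    have hgQ : ((ρ : ℂ) / ((star ρ : GaussianInt) : ℂ)) ^ (p - 1) =
        (Q + (x₀ : ℂ) ^ c * (z : ℂ)) / Q := by
      have h3 := congrArg (fun t : GaussianInt => (t : ℂ)) hkey
      simp only [map_mul, map_pow, map_add, map_natCast] at h3
      rw [← hQ] at h3
      rw [← h3, hQ, hqe, mul_pow, div_pow]
      field_simp
      ring
    set N := m + c + 1 with hN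
    set ω : UnitAddCircle := η ((S : ℂ) ^ N * (z : ℂ) / ((x₀ : ℂ) ^ (m + 1) * Q)) with hω
    have hM' : p - 1 ≤ M := by
      have : p - 1 ≤ (p - 1) ^ 2 := Nat.le_self_pow two_ne_zero _
      omega
    -- expansion
    have hexp : ∀ l < p, η (((S : ℂ) / (x₀ : ℂ)) ^ N *
        (((ρ : ℂ) / ((star ρ : GaussianInt) : ℂ)) ^ (p - 1)) ^ l) =
        η (((S : ℂ) / (x₀ : ℂ)) ^ N) + l • ω := by
      intro l hl
      obtain ⟨k, hk⟩ := Polynomial.powAddExpansion ((q : GaussianInt) ^ (p - 1)) (x₀ ^ c * z) l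
      have hk' := congrArg (fun t : GaussianInt => (t : ℂ)) hk
      simp only [map_mul, map_pow, map_add, map_natCast] at hk'
      rw [← hQ] at hk'
      have h3 : ((S : ℂ) / (x₀ : ℂ)) ^ N * (((ρ : ℂ) / ((star ρ : GaussianInt) : ℂ)) ^ (p - 1)) ^ l
          = ((S : ℂ) / (x₀ : ℂ)) ^ N +
            l • ((S : ℂ) ^ N * (z : ℂ) / ((x₀ : ℂ) ^ (m + 1) * Q)) +
            ((k * z ^ 2 * S ^ N * x₀ ^ (c - 1) : GaussianInt) : ℂ) /
              ((x₀ : ℂ) ^ m * (q : ℂ) ^ ((p - 1) * l)) := by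
        rw [hgQ, div_pow (Q + (x₀ : ℂ) ^ c * (z : ℂ)) Q l, hk', nsmul_eq_mul]
        simp only [map_mul, map_pow]
        have h4 : (q : ℂ) ^ ((p - 1) * l) = Q ^ l := by rw [hQ, pow_mul]
        rw [h4]
        obtain ⟨c', rfl⟩ : ∃ c', c = c' + 1 := ⟨c - 1, by omega⟩
        rw [Nat.add_sub_cancel, hN]
        rcases l with _ | l
        · have hK : (k : ℂ) * ((x₀ : ℂ) ^ (c' + 1) * (z : ℂ)) ^ 2 = 0 := by
            have := hk'
            simp at this
            rcases this with h6 | h6 | h6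
            · rw [h6]; simp
            · exact absurd h6 hπp.ne_zero
            · rw [h6]; simp
          have := expand0 (S : ℂ) (x₀ : ℂ) (z : ℂ) (k : ℂ) Q hπ0 m c' hK
          simpa using this
        · rw [Nat.add_sub_cancel]
          have := expand1 (S : ℂ) (x₀ : ℂ) (z : ℂ) (k : ℂ) Q ((l + 1 : ℕ) : ℂ) hπ0 hQ0 m c' l
          exact this
      rw [h3, map_add, map_add, map_nsmul, h2 _ _ (by
        have : (p - 1) * l ≤ (p - 1) ^ 2 := by
          rw [pow_two]
          exact Nat.mul_le_mul_left _ (by omega)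
        omega), add_zero]
    -- `p ω = 0`
    have hpω : p • ω = 0 := by
      rw [hω, ← map_nsmul, nsmul_eq_mul]
      have e : (p : ℂ) * ((S : ℂ) ^ N * (z : ℂ) / ((x₀ : ℂ) ^ (m + 1) * Q)) =
          ((S ^ (N + 1) * z : GaussianInt) : ℂ) / ((x₀ : ℂ) ^ m * (q : ℂ) ^ (p - 1)) := by
        rw [hpe]
        simp only [map_mul, map_pow]
        rw [← hQ]
        field_simp
        ring
      rw [e]
      exact h2 _ _ hM'
    -- `ω ≠ 0`
    have hω0 : ω ≠ 0 := by
      intro h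
      apply hne
      have hy : ¬ x₀ ∣ S ^ N * z := by
        intro h3
        rcases hπp.dvd_or_dvd h3 with h4 | h4
        · exact hns (hπp.dvd_of_dvd_pow h4)
        · exact hnz h4
      obtain ⟨a, w, haw⟩ := solve hp hx₀ hy (x * (q : GaussianInt) ^ (p - 1))
      have haw' := congrArg (fun t : GaussianInt => (t : ℂ)) haw
      simp only [map_mul, map_pow, map_add, map_natCast, map_intCast] at haw'
      rw [← hQ] at haw'
      have e : (x : ℂ) / (x₀ : ℂ) ^ (m + 1) =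
          a • ((S : ℂ) ^ N * (z : ℂ) / ((x₀ : ℂ) ^ (m + 1) * Q)) +
          (w : ℂ) / ((x₀ : ℂ) ^ m * (q : ℂ) ^ (p - 1)) := by
        rw [zsmul_eq_mul, ← hQ]
        field_simp
        linear_combination (x₀ : ℂ) ^ m * haw'
      rw [e, map_add, map_zsmul, h2 _ _ hM', add_zero, ← hω, h, smul_zero]
    obtain ⟨l, hl, hfar⟩ := AR.ap_far p hp ω (η (((S : ℂ) / (x₀ : ℂ)) ^ N)) hpω hω0
    have h5 := hs _ (GI.U0_mul (GI.U0_pow hv N) (GI.U0_pow (GI.U0_pow hg (p - 1)) l))
    rw [hexp l hl] at h5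
    have h6 : (1 : ℝ) / (2 * p) ≤ 1 / 10 := by
      apply one_div_le_one_div_of_le (by norm_num)
      have : (5 : ℝ) ≤ p := by exact_mod_cast hp5
      linarith
    linarith

end Pool.Agent.MP8b8716.KL
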