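import Pool.Agent.Lib.MP_8b8716_co.Defs
import Pool.Agent.Lib.MP_8b8716_co.Count

set_option autoImplicit false

open Complex

namespace Pool.Agent.MP8b8716.F3

/-- The unit vectors over a commutative ring generated by the rotation by a right angle and the
Cayley vectors. -/
inductive G1 {D : Type*} [CommRing D] : D → D → Prop
  | one : G1 1 0
  | rot (x y : D) : G1 x y → G1 (-y) x
  | cay (x y t c : D) : G1 x y → c * (1 + t ^ 2) = 1 →
      G1 (x * ((1 - t ^ 2) * c) - y * (2 * t * c)) (x * (2 * t * c) + y * ((1 - t ^ 2) * c))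

namespace LD

variable {D : Type*} [CommRing D]

theorem G1.congr {x y x' y' : D} (h : G1 x y) (hx : x = x') (hy : y = y') : G1 x' y' := by
  subst hx; subst hy; exact h

theorem G1.zero_one : G1 (0 : D) 1 :=
  G1.congr (G1.rot _ _ G1.one) neg_zero rfl

theorem G1.neg_one_zero : G1 (-1 : D) 0 :=
  G1.rot _ _ G1.zero_one

theorem G1.mul {x y z w : D} (h : G1 x y) (h' : G1 z w) : G1 (x * z - y * w) (x * w + y * z) := by
  induction h' with
  | one => exact G1.congr h (by ring) (by ring)
  | rot z w _ ih => exact G1.congr (G1.rot _ _ ih) (by ring) (by ring)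
  | cay z w t c _ hc ih => exact G1.congr (G1.cay _ _ t c ih hc) (by ring) (by ring)

/-- The pairs killed by all the pairs of additive maps which kill the unit vectors. -/
def EE (x y : D) : Prop :=
  ∀ m1 m2 : D →+ ZMod 3, (∀ a b : D, G1 a b → m1 a + m2 b = 0) → m1 x + m2 y = 0

theorem EE.congr {x y x' y' : D} (h : EE x y) (hx : x = x') (hy : y = y') : EE x' y' := by
  subst hx; subst hy; exact h

theorem EE.of {x y : D} (h : G1 x y) : EE x y := fun _ _ hm => hm _ _ h

theorem EE.add {x y z w : D} (h : EE x y) (h' : EE z w) : EE (x + z) (y + w) := by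
  intro m1 m2 hm
  have h1 := h m1 m2 hm
  have h2 := h' m1 m2 hm
  rw [map_add, map_add]
  linear_combination h1 + h2

theorem EE.neg {x y : D} (h : EE x y) : EE (-x) (-y) := by
  intro m1 m2 hm
  have h1 := h m1 m2 hm
  rw [map_neg, map_neg]
  linear_combination -h1

theorem EE.sub {x y z w : D} (h : EE x y) (h' : EE z w) : EE (x - z) (y - w) := by
  have := h.add h'.neg
  exact this.congr (by ring) (by ring)

/-- Composition with a multiplication. -/
theorem EE.mulG {x y z w : D} (h : EE x y) (h' : G1 z w) : EE (x * z - y * w) (x * w + y * z) := by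
  intro m1 m2 hm
  have h1 := h (m1.comp (AddMonoidHom.mulRight z) + m2.comp (AddMonoidHom.mulRight w))
    (m2.comp (AddMonoidHom.mulRight z) - m1.comp (AddMonoidHom.mulRight w)) ?_
  · simp only [AddMonoidHom.add_apply, AddMonoidHom.sub_apply, AddMonoidHom.comp_apply,
      AddMonoidHom.coe_mulRight] at h1
    rw [map_sub, map_add]
    linear_combination h1
  · intro a b hab
    have h2 := hm _ _ (G1.mul hab h')
    simp only [AddMonoidHom.add_apply, AddMonoidHom.sub_apply, AddMonoidHom.comp_apply,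
      AddMonoidHom.coe_mulRight]
    rw [map_sub, map_add] at h2
    linear_combination h2

theorem EE.mul {x y z w : D} (h : EE x y) (h' : EE z w) : EE (x * z - y * w) (x * w + y * z) := by
  intro m1 m2 hm
  have h1 := h (m1.comp (AddMonoidHom.mulRight z) + m2.comp (AddMonoidHom.mulRight w))
    (m2.comp (AddMonoidHom.mulRight z) - m1.comp (AddMonoidHom.mulRight w)) ?_
  · simp only [AddMonoidHom.add_apply, AddMonoidHom.sub_apply, AddMonoidHom.comp_apply,
      AddMonoidHom.coe_mulRight] at h1
    rw [map_sub, map_add]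
    linear_combination h1
  · intro a b hab
    have h3 := (h'.mulG hab).congr (x' := a * z - b * w) (y' := a * w + b * z)
      (by ring) (by ring)
    have h2 := h3 m1 m2 hm
    simp only [AddMonoidHom.add_apply, AddMonoidHom.sub_apply, AddMonoidHom.comp_apply,
      AddMonoidHom.coe_mulRight]
    rw [map_sub, map_add] at h2
    linear_combination h2

theorem EE.mul0 {x z : D} (h : EE x 0) (h' : EE z 0) : EE (x * z) 0 :=
  (h.mul h').congr (by ring) (by ring)

theorem EE.pow0 {x : D} (h : EE x 0) (n : ℕ) : EE (x ^ n) 0 := by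
  induction n with
  | zero => exact (EE.of G1.one).congr (by ring) rfl
  | succ n ih => exact (ih.mul0 h).congr (by ring) rfl

section

variable (h3 : (3 : D) = 0) (hu : ∀ t : D, IsUnit (1 + t ^ 2))
    (hper : ∀ t : D, ∃ a b : ℕ, a < b ∧ t ^ a = t ^ b)

include h3 hu hper

theorem span0 (t : D) : EE t 0 := by
  obtain ⟨c, hc⟩ := (hu t).exists_left_inv
  have e1 : EE ((1 - t ^ 2) * c) (2 * t * c) :=
    (EE.of (G1.cay 1 0 t c G1.one hc)).congr (by ring) (by ring)
  have hc' : c * (1 + (-t) ^ 2) = 1 := by rw [neg_sq]; exact hc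
  have e2 : EE ((1 - t ^ 2) * c) (-(2 * t * c)) :=
    (EE.of (G1.cay 1 0 (-t) c G1.one hc')).congr (by ring) (by ring)
  have e3 : EE c 0 := by
    have := (e1.add e2).sub (EE.of G1.one)
    refine this.congr ?_ (by ring)
    linear_combination (-2 : D) * hc + (c - 1) * h3
  have e4 : EE (t * c) 0 := by
    have e5 : EE (0 : D) (t * c) := by
      refine (e1.sub e2).congr (by ring) ?_
      linear_combination (t * c) * h3
    have := (e5.mul (EE.of G1.zero_one)).neg
    exact this.congr (by ring) (by ring)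
  obtain ⟨a, b, hab, hper⟩ := hper c
  have hcu : IsUnit c := IsUnit.of_mul_eq_one _ hc
  have e6 : c ^ (b - a) = 1 := by
    have h1 : c ^ a * c ^ (b - a) = c ^ a * 1 := by
      rw [← pow_add, mul_one, Nat.add_sub_cancel' hab.le, hper]
    exact (hcu.pow a).mul_left_cancel h1
  have e7 : 1 + t ^ 2 = c ^ (b - a - 1) := by
    have h2 : c * c ^ (b - a - 1) = 1 := by
      rw [← pow_succ', Nat.sub_add_cancel (by omega), e6]
    have h3' : c * (1 + t ^ 2) = c * c ^ (b - a - 1) := by rw [hc, h2]
    exact hcu.mul_left_cancel h3'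
  have e8 : EE (1 + t ^ 2) 0 := by
    rw [e7]
    exact e3.pow0 _
  refine (e4.mul0 e8).congr ?_ rfl
  linear_combination t * hc

theorem span1 (t : D) : EE 0 t :=
  ((span0 h3 hu hper t).mul (EE.of G1.zero_one)).congr (by ring) (by ring)

/-- A multiplier which kills all unit vectors is zero. -/
theorem mult_zero (l1 l2 : D →+ ZMod 3)
    (hf : ∀ t : D, (∀ s : D, l1 (t * s) = 0 ∧ l2 (t * s) = 0) → t = 0) (t : D)
    (ht : ∀ x y : D, G1 x y → l1 (t * x) + l2 (t * y) = 0) : t = 0 := by
  refine hf t fun s => ?_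
  have hm : ∀ a b : D, G1 a b → (l1.comp (AddMonoidHom.mulLeft t)) a +
      (l2.comp (AddMonoidHom.mulLeft t)) b = 0 := fun a b hab => ht a b hab
  have h1 := span0 h3 hu hper s _ _ hm
  have h2 := span1 h3 hu hper s _ _ hm
  rw [map_zero, add_zero] at h1
  rw [map_zero, zero_add] at h2
  exact ⟨h1, h2⟩

end

theorem z3a (a w : ZMod 3) : a ≠ 0 → a + w ≠ 0 → a - w ≠ 0 → w = 0 := by
  revert a w
  decide

theorem z3b (a b : ZMod 3) : a + b ≠ 0 → a - b ≠ 0 → (a = 0 ∧ b ≠ 0) ∨ (a ≠ 0 ∧ b = 0) := by
  revert a b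
  decide

section

variable (h3 : (3 : D) = 0) (hu : ∀ t : D, IsUnit (1 + t ^ 2))
    (hper : ∀ t : D, ∃ a b : ℕ, a < b ∧ t ^ a = t ^ b)
    (l1 l2 : D →+ ZMod 3) (hl : ∀ x y : D, G1 x y → l1 x + l2 y ≠ 0)
    (hf : ∀ t : D, (∀ s : D, l1 (t * s) = 0 ∧ l2 (t * s) = 0) → t = 0)

include h3 hu hper hl hf

theorem reduced (t : D) (ht : t ^ 2 = 0) : t = 0 := by
  refine mult_zero h3 hu hper l1 l2 hf t fun x y hxy => ?_
  have key : ∀ x y : D, G1 x y → l1 (t * y) - l2 (t * x) = 0 := by
    intro x y hxy
    have g1 : G1 (x + t * y) (y - t * x) := by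
      refine G1.congr (G1.cay x y t 1 hxy (by rw [ht]; ring)) ?_ ?_
      · linear_combination (-x) * ht + (-(t * y)) * h3
      · linear_combination (-y) * ht + (t * x) * h3
    have g2 : G1 (x - t * y) (y + t * x) := by
      refine G1.congr (G1.cay x y (-t) 1 hxy (by rw [neg_sq, ht]; ring)) ?_ ?_
      · linear_combination (-x) * ht + (t * y) * h3
      · linear_combination (-y) * ht + (-(t * x)) * h3
    have e0 := hl _ _ hxy
    have e1 := hl _ _ g1
    have e2 := hl _ _ g2
    rw [map_add, map_sub] at e1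
    rw [map_sub, map_add] at e2
    refine z3a (l1 x + l2 y) _ e0 ?_ ?_
    · intro h
      apply e1
      linear_combination h
    · intro h
      apply e2
      linear_combination h
  have h := key _ _ (G1.rot _ _ hxy)
  rw [mul_neg, map_neg] at h
  have h' := key _ _ hxy
  linear_combination h

omit hu hper hf in
/-- The dichotomy for an idempotent. -/
theorem dich (e : D) (he : e ^ 2 = e) {x y : D} (hxy : G1 x y) :
    (l1 ((1 - e) * x) + l2 ((1 - e) * y) = 0 ∧ l1 (e * x) + l2 (e * y) ≠ 0) ∨
    (l1 ((1 - e) * x) + l2 ((1 - e) * y) ≠ 0 ∧ l1 (e * x) + l2 (e * y) = 0) := by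
  have step : ∀ x y : D, G1 x y → G1 ((1 - e) * x - e * y) ((1 - e) * y + e * x) := by
    intro x y hxy
    refine G1.congr (G1.cay x y e (1 + e) hxy ?_) ?_ ?_
    · linear_combination (e + 2) * he + e * h3
    · linear_combination (-(x * (e + 2)) - 2 * y) * he - (e * y) * h3
    · linear_combination (2 * x - y * (e + 2)) * he + (e * x) * h3
  have s2 : G1 ((1 - e) * x - e * x) ((1 - e) * y - e * y) := by
    refine G1.congr (step _ _ (step _ _ hxy)) ?_ ?_
    · linear_combination (2 * y) * he
    · linear_combination (-(2 * x)) * he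
  have hx : x = (1 - e) * x + e * x := by ring
  have hy : y = (1 - e) * y + e * y := by ring
  have r0 := hl _ _ (G1.congr hxy hx hy)
  have r2 := hl _ _ s2
  rw [map_add, map_add] at r0
  rw [map_sub, map_sub] at r2
  exact z3b _ _ (fun h => r0 (by linear_combination h)) (fun h => r2 (by linear_combination h))

omit hu hper hl hf in
/-- The unit vector `e + (1 - e) w`. -/
theorem gl (e : D) (he : e ^ 2 = e) {x y : D} (hxy : G1 x y) :
    G1 (e + (1 - e) * x) ((1 - e) * y) := by
  induction hxy with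
  | one => exact G1.congr G1.one (by ring) (by ring)
  | rot x y _ ih =>
    refine G1.congr (G1.cay _ _ (1 - e) (2 - e) ih ?_) ?_ ?_
    · linear_combination (3 - e) * he + (1 - e) * h3
    · linear_combination (1 - x + (e + (1 - e) * x) * (e - 3) - y - 2 * ((1 - e) * y)) * he
        - ((1 - e) * ((1 - e) * y)) * h3
    · linear_combination (-1 + x + 2 * (e + (1 - e) * x) - y + ((1 - e) * y) * (e - 3)) * he
        + (1 - e) * (e + (1 - e) * x) * h3
  | cay x y t c _ hc ih =>
    refine G1.congr (G1.cay _ _ ((1 - e) * t) (e + (1 - e) * c) ih ?_) ?_ ?_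
    · linear_combination ((e - 1) * t ^ 2 + (2 - e) * c * t ^ 2) * he + (1 - e) * hc
    · linear_combination (1 - (1 - t ^ 2) * c - x + x * ((1 - t ^ 2) * c)
        + (e + (1 - e) * x) * ((1 - e) * t ^ 2 - (2 - e) * c * t ^ 2)
        - y * (2 * t * c) - ((1 - e) * y) * (2 * t * (c - 1))) * he
    · linear_combination (-(2 * t * c) + x * (2 * t * c)
        + (e + (1 - e) * x) * (2 * t * (c - 1)) - y + y * ((1 - t ^ 2) * c)
        + ((1 - e) * y) * ((1 - e) * t ^ 2 - (2 - e) * c * t ^ 2)) * he

/-- The idempotents are trivial. -/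
theorem idem_one (e : D) (he : e ^ 2 = e) (h1 : l1 (e * 1) + l2 (e * 0) ≠ 0) : e = 1 := by
  have : 1 - e = 0 := by
    refine mult_zero h3 hu hper l1 l2 hf (1 - e) fun x y hxy => ?_
    have g := gl h3 e he hxy
    have hd := dich h3 l1 l2 hl e he g
    have e1 : e * (e + (1 - e) * x) = e * 1 := by
      linear_combination (1 - x) * he
    have e2 : e * ((1 - e) * y) = e * 0 := by
      linear_combination (-y) * he
    have e3 : (1 - e) * (e + (1 - e) * x) = (1 - e) * x := by
      linear_combination (x - 1) * he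
    have e4 : (1 - e) * ((1 - e) * y) = (1 - e) * y := by
      linear_combination y * he
    rw [e1, e2, e3, e4] at hd
    rcases hd with hd | hd
    · exact hd.1
    · exact absurd hd.2 h1
  linear_combination -this

theorem idem (e : D) (he : e ^ 2 = e) : e = 0 ∨ e = 1 := by
  have he' : (1 - e) ^ 2 = 1 - e := by linear_combination he
  rcases dich h3 l1 l2 hl e he G1.one with hd | hd
  · exact Or.inr (idem_one h3 hu hper l1 l2 hl hf e he hd.2)
  · have := idem_one h3 hu hper l1 l2 hl hf (1 - e) he' hd.1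
    left
    linear_combination -this

theorem pow_red (t : D) (n : ℕ) (ht : t ^ n = 0) : t = 0 := by
  have : IsReduced D := (isReduced_iff_pow_one_lt 2 one_lt_two).mpr
    (fun x hx => reduced h3 hu hper l1 l2 hl hf x hx)
  exact IsNilpotent.eq_zero ⟨n, ht⟩

theorem isField [Nontrivial D] : IsField D := by
  refine ⟨exists_pair_ne D, mul_comm, fun {x} hx => ?_⟩
  obtain ⟨a, b, hab, h⟩ := hper x
  obtain ⟨d, rfl⟩ := Nat.exists_eq_add_of_lt hab
  have h1 : ∀ n, a ≤ n → x ^ (n + (d + 1)) = x ^ n := by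
    intro n hn
    obtain ⟨m, rfl⟩ := Nat.exists_eq_add_of_le hn
    have : a + m + (d + 1) = (a + d + 1) + m := by ring
    rw [this, pow_add, ← h, ← pow_add]
  have h2 : ∀ k n, a ≤ n → x ^ (n + k * (d + 1)) = x ^ n := by
    intro k
    induction k with
    | zero => intro n _; rw [zero_mul, add_zero]
    | succ k ih =>
      intro n hn
      rw [add_mul, one_mul, ← add_assoc, h1 _ (by omega), ih n hn]
  have h3' : (x ^ ((a + 1) * (d + 1))) ^ 2 = x ^ ((a + 1) * (d + 1)) := by
    rw [← pow_mul, mul_two]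
    exact h2 (a + 1) _ (by nlinarith)
  rcases idem h3 hu hper l1 l2 hl hf _ h3' with h4 | h4
  · exact absurd (pow_red h3 hu hper l1 l2 hl hf _ _ h4) hx
  · refine ⟨x ^ ((a + 1) * (d + 1) - 1), ?_⟩
    rw [← pow_succ', Nat.sub_add_cancel, h4]
    exact Nat.succ_le_of_lt (Nat.mul_pos (Nat.succ_pos _) (Nat.succ_pos _))

end

/-- In a field of characteristic three without square root of minus one all unit vectors are
generated by the Cayley vectors. -/
theorem all_G1 {D : Type*} [Field D] (h3 : (3 : D) = 0) (x y : D) (h : x ^ 2 + y ^ 2 = 1) :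
    G1 x y := by
  by_cases hx : 1 + x = 0
  · have h1 : x = -1 := by linear_combination hx
    subst h1
    have h2 : y = 0 := by
      have : y ^ 2 = 0 := by linear_combination h
      exact pow_eq_zero_iff two_ne_zero |>.mp this
    subst h2
    exact G1.neg_one_zero
  · obtain ⟨i, hi⟩ : ∃ i : D, i * (1 + x) = 1 := ⟨(1 + x)⁻¹, inv_mul_cancel₀ hx⟩
    have h2 : (2 : D) * (-1) = 1 := by linear_combination -h3
    refine G1.congr (G1.cay 1 0 (y * i) (-(1 + x)) G1.one ?_) ?_ ?_
    · have h4 : (1 + x) * (-(1 + x) * (1 + (y * i) ^ 2)) = (1 + x) * 1 := by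
        linear_combination (-(y ^ 2) * (i * (1 + x) + 1)) * hi - h - (1 + x) * h3
      exact mul_left_cancel₀ hx h4
    · have h4 : (1 + x) * (1 * ((1 - (y * i) ^ 2) * (-(1 + x))) - 0 * (2 * (y * i) * (-(1 + x)))) =
          (1 + x) * x := by
        linear_combination (y ^ 2 * (i * (1 + x) + 1)) * hi + h - (x + x ^ 2) * h3
      exact mul_left_cancel₀ hx h4
    · linear_combination (-(2 * y)) * hi - y * h3

theorem field_case {D : Type*} [Field D] (h3 : (3 : D) = 0) (hu : ∀ t : D, 1 + t ^ 2 ≠ 0)
    (hper : ∀ t : D, ∃ a b : ℕ, a < b ∧ t ^ a = t ^ b)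
    (l1 l2 : D →+ ZMod 3) (hl : ∀ x y : D, x ^ 2 + y ^ 2 = 1 → l1 x + l2 y ≠ 0) :
    Nonempty (D →+* ZMod 3) := by
  haveI : CharP D 3 := (CharP.charP_iff_prime_eq_zero Nat.prime_three).mpr (by exact_mod_cast h3)
  letI : Algebra (ZMod 3) D := ZMod.algebra D 3
  have hsurj : Function.Surjective (algebraMap (ZMod 3) D) := by
    intro d
    have hint : IsIntegral (ZMod 3) d := by
      obtain ⟨a, b, hab, h⟩ := hper d
      refine ⟨Polynomial.X ^ b - Polynomial.X ^ a, Polynomial.monic_X_pow_sub ?_, ?_⟩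
      · rw [Polynomial.degree_X_pow]
        exact_mod_cast hab
      · simp [h]
    haveI := IntermediateField.adjoin.finiteDimensional hint
    set k := IntermediateField.adjoin (ZMod 3) {d} with hk
    haveI : Finite k := Module.finite_of_finite (ZMod 3)
    letI := Fintype.ofFinite k
    haveI : CharP k 3 := (CharP.charP_iff_prime_eq_zero Nat.prime_three).mpr (by
      apply Subtype.ext
      push_cast
      exact h3)
    have hcard := N3.count3 (k := k) (fun t ht => hu t (by
        have := congrArg (fun z : k => (z : D)) ht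
        push_cast at this
        exact this))
      (l1.comp (algebraMap k D).toAddMonoidHom) (l2.comp (algebraMap k D).toAddMonoidHom)
      (fun x y hxy => hl x y (by
        have := congrArg (fun z : k => (z : D)) hxy
        push_cast at this
        exact this))
    have hbij : Function.Bijective (algebraMap (ZMod 3) k) :=
      (Fintype.bijective_iff_injective_and_card _).mpr
        ⟨(algebraMap (ZMod 3) k).injective, by rw [hcard, ZMod.card]⟩
    obtain ⟨z, hz⟩ := hbij.2 ⟨d, IntermediateField.mem_adjoin_simple_self _ d⟩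
    refine ⟨z, ?_⟩
    have := congrArg (fun z : k => (z : D)) hz
    exact this
  exact ⟨((RingEquiv.ofBijective (algebraMap (ZMod 3) D)
    ⟨(algebraMap (ZMod 3) D).injective, hsurj⟩).symm : D →+* ZMod 3)⟩

end LD

/-- The reduced situation. -/
theorem local3D {D : Type*} [CommRing D] [Nontrivial D] (h3 : (3 : D) = 0)
    (hu : ∀ t : D, IsUnit (1 + t ^ 2))
    (hper : ∀ t : D, ∃ a b : ℕ, a < b ∧ t ^ a = t ^ b)
    (l1 l2 : D →+ ZMod 3) (hl : ∀ x y : D, G1 x y → l1 x + l2 y ≠ 0)
    (hf : ∀ t : D, (∀ s : D, l1 (t * s) = 0 ∧ l2 (t * s) = 0) → t = 0) :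
    Nonempty (D →+* ZMod 3) := by
  let F : Field D := (LD.isField h3 hu hper l1 l2 hl hf).toField
  exact @LD.field_case D F h3 (fun t => (hu t).ne_zero) hper l1 l2
    (fun x y hxy => hl x y (@LD.all_G1 D F h3 x y hxy))

end Pool.Agent.MP8b8716.F3
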