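import Mathlib

/-!
# Invariant means on abelian groups (module ME)
-/

namespace Pool.Agent.MP8b8716.ME

open Filter Topology

variable {A : Type*} [AddCommGroup A]

/-- averaging over `n + 1` translations by multiples of `s` -/
noncomputable def av (n : ℕ) (s : A) (f : A → ℝ) : A → ℝ := fun x =>
  (1 / ((n : ℝ) + 1)) * ∑ j ∈ Finset.range (n + 1), f (x + j • s)

/-- iterated averages -/
noncomputable def avg (n : ℕ) : List A → (A → ℝ) → A → ℝ
  | [], f => f
  | s :: l, f => av n s (avg n l f)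

theorem av_add (n : ℕ) (s : A) (f g : A → ℝ) :
    av n s (fun x => f x + g x) = fun x => av n s f x + av n s g x := by
  funext x
  simp only [av, Finset.sum_add_distrib, mul_add]

theorem av_bound (n : ℕ) (s : A) (f : A → ℝ) (C : ℝ) (hf : ∀ x, |f x| ≤ C) (x : A) :
    |av n s f x| ≤ C := by
  unfold av
  have hn : (0 : ℝ) < (n : ℝ) + 1 := by positivity
  rw [abs_mul, abs_of_pos (by positivity)]
  have h1 : |∑ j ∈ Finset.range (n + 1), f (x + j • s)| ≤ ((n : ℝ) + 1) * C := by
    refine (Finset.abs_sum_le_sum_abs _ _).trans ?_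
    refine (Finset.sum_le_sum (g := fun _ => C) fun j _ => hf _).trans ?_
    rw [Finset.sum_const, Finset.card_range, nsmul_eq_mul]
    push_cast
    exact le_rfl
  calc 1 / ((n : ℝ) + 1) * |∑ j ∈ Finset.range (n + 1), f (x + j • s)|
      ≤ 1 / ((n : ℝ) + 1) * (((n : ℝ) + 1) * C) := mul_le_mul_of_nonneg_left h1 (by positivity)
    _ = C := by field_simp

theorem av_const (n : ℕ) (s : A) (c : ℝ) : av n s (fun _ => c) = fun _ => c := by
  funext x
  unfold av
  rw [Finset.sum_const, Finset.card_range, nsmul_eq_mul]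
  have hn : (n : ℝ) + 1 ≠ 0 := by positivity
  push_cast
  field_simp

theorem av_shift (n : ℕ) (s a : A) (f : A → ℝ) (x : A) :
    av n s (fun y => f (y + a)) x = av n s f (x + a) := by
  unfold av
  refine congrArg _ (Finset.sum_congr rfl fun j _ => congrArg f ?_)
  abel

theorem av_self (n : ℕ) (s : A) (f : A → ℝ) (C : ℝ) (hf : ∀ x, |f x| ≤ C) (x : A) :
    |av n s (fun y => f (y + s)) x - av n s f x| ≤ 2 * C / ((n : ℝ) + 1) := by
  unfold av
  have hn : (0 : ℝ) < (n : ℝ) + 1 := by positivity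
  rw [← mul_sub, ← Finset.sum_sub_distrib]
  have h1 : ∑ j ∈ Finset.range (n + 1), (f (x + j • s + s) - f (x + j • s))
      = f (x + (n + 1) • s) - f (x + 0 • s) := by
    rw [← Finset.sum_range_sub (fun j : ℕ => f (x + j • s))]
    refine Finset.sum_congr rfl fun j _ => ?_
    rw [add_assoc, ← succ_nsmul]
  rw [h1, abs_mul, abs_of_pos (by positivity)]
  have h2 : |f (x + (n + 1) • s) - f (x + 0 • s)| ≤ 2 * C := by
    have h3 := abs_sub (f (x + (n + 1) • s)) (f (x + 0 • s))
    have h4 := hf (x + (n + 1) • s)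
    have h5 := hf (x + 0 • s)
    linarith
  calc 1 / ((n : ℝ) + 1) * |f (x + (n + 1) • s) - f (x + 0 • s)|
      ≤ 1 / ((n : ℝ) + 1) * (2 * C) := mul_le_mul_of_nonneg_left h2 (by positivity)
    _ = 2 * C / ((n : ℝ) + 1) := by ring

theorem avg_add (n : ℕ) (l : List A) (f g : A → ℝ) :
    avg n l (fun x => f x + g x) = fun x => avg n l f x + avg n l g x := by
  induction l with
  | nil => rfl
  | cons s l ih =>
    show av n s (avg n l (fun x => f x + g x)) = _
    rw [ih, av_add]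
    rfl

theorem avg_bound (n : ℕ) (l : List A) (f : A → ℝ) (C : ℝ) (hf : ∀ x, |f x| ≤ C) :
    ∀ x : A, |avg n l f x| ≤ C := by
  induction l with
  | nil => exact hf
  | cons s l ih => exact av_bound n s _ C ih

theorem avg_const (n : ℕ) (l : List A) (c : ℝ) : avg n l (fun _ => c) = fun _ => c := by
  induction l with
  | nil => rfl
  | cons s l ih =>
    show av n s (avg n l (fun _ => c)) = _
    rw [ih, av_const]

theorem avg_shift (n : ℕ) (l : List A) (a : A) (f : A → ℝ) :
    avg n l (fun y => f (y + a)) = fun x => avg n l f (x + a) := by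
  induction l with
  | nil => rfl
  | cons s l ih =>
    show av n s (avg n l (fun y => f (y + a))) = _
    rw [ih]
    funext x
    exact av_shift n s a _ x

theorem avg_inv (n : ℕ) (l : List A) (a : A) (ha : a ∈ l) (f : A → ℝ) (C : ℝ)
    (hf : ∀ x, |f x| ≤ C) :
    ∀ x : A, |avg n l (fun y => f (y + a)) x - avg n l f x| ≤ 2 * C / ((n : ℝ) + 1) := by
  induction l with
  | nil => exact absurd ha List.not_mem_nil
  | cons s l ih =>
    intro x
    rw [List.mem_cons] at ha
    show |av n s (avg n l (fun y => f (y + a))) x - av n s (avg n l f) x| ≤ _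
    by_cases has : a = s
    · subst has
      rw [avg_shift]
      exact av_self n a _ C (avg_bound n l f C hf) x
    · have ha' : a ∈ l := by
        rcases ha with h | h
        · exact absurd h has
        · exact h
      have h1 : avg n l (fun y => f (y + a))
          = fun x => (avg n l (fun y => f (y + a)) x - avg n l f x) + avg n l f x := by
        funext y
        ring
      have h2 : av n s (avg n l (fun y => f (y + a)))
          = fun x => av n s (fun x => avg n l (fun y => f (y + a)) x - avg n l f x) x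
            + av n s (avg n l f) x := by
        conv_lhs => rw [h1]
        exact av_add n s _ _
      rw [h2]
      show |av n s (fun x => avg n l (fun y => f (y + a)) x - avg n l f x) x
            + av n s (avg n l f) x - av n s (avg n l f) x| ≤ _
      rw [add_sub_cancel_right]
      exact av_bound n s _ _ (ih ha') x

theorem exists_mean (A : Type*) [AddCommGroup A] : ∃ μ : (A → ℝ) → ℝ,
    (∀ φ ψ : A → ℝ, (∃ C : ℝ, ∀ x, |φ x| ≤ C) → (∃ C : ℝ, ∀ x, |ψ x| ≤ C) →
      μ (fun x => φ x + ψ x) = μ φ + μ ψ) ∧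
    (∀ (φ : A → ℝ) (C : ℝ), (∀ x, |φ x| ≤ C) → |μ φ| ≤ C) ∧
    (∀ c : ℝ, μ (fun _ => c) = c) ∧
    (∀ (φ : A → ℝ) (a : A), (∃ C : ℝ, ∀ x, |φ x| ≤ C) → μ (fun x => φ (x + a)) = μ φ) := by
  classical
  let 𝓤 : Ultrafilter (Finset A × ℕ) := Ultrafilter.of atTop
  let F : (A → ℝ) → Finset A × ℕ → ℝ := fun φ p => avg p.2 p.1.toList φ 0
  have hlim : ∀ φ : A → ℝ, (∃ C : ℝ, ∀ x, |φ x| ≤ C) → ∃ L : ℝ, Tendsto (F φ) 𝓤 (𝓝 L) := by
    rintro φ ⟨C, hC⟩
    have h1 : (↑(𝓤.map (F φ)) : Filter ℝ) ≤ 𝓟 (Set.Icc (-C) C) := by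
      rw [Filter.le_principal_iff]
      show ∀ᶠ p in (𝓤 : Filter (Finset A × ℕ)), F φ p ∈ Set.Icc (-C) C
      exact Filter.Eventually.of_forall fun p => abs_le.1 (avg_bound p.2 p.1.toList φ C hC 0)
    obtain ⟨L, _, hL⟩ := isCompact_Icc.ultrafilter_le_nhds (𝓤.map (F φ)) h1
    exact ⟨L, hL⟩
  let μ : (A → ℝ) → ℝ := fun φ => if h : ∃ L : ℝ, Tendsto (F φ) 𝓤 (𝓝 L) then h.choose else 0
  have hμ : ∀ (φ : A → ℝ) (L : ℝ), Tendsto (F φ) 𝓤 (𝓝 L) → μ φ = L := by
    intro φ L hL
    have h1 : ∃ L : ℝ, Tendsto (F φ) 𝓤 (𝓝 L) := ⟨L, hL⟩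
    have h2 : μ φ = h1.choose := dif_pos h1
    rw [h2]
    exact tendsto_nhds_unique h1.choose_spec hL
  have hμ' : ∀ φ : A → ℝ, (∃ C : ℝ, ∀ x, |φ x| ≤ C) → Tendsto (F φ) 𝓤 (𝓝 (μ φ)) := by
    intro φ hφ
    obtain ⟨L, hL⟩ := hlim φ hφ
    rw [hμ φ L hL]
    exact hL
  refine ⟨μ, ?_, ?_, ?_, ?_⟩
  · intro φ ψ hφ hψ
    apply hμ
    have h1 := (hμ' φ hφ).add (hμ' ψ hψ)
    refine h1.congr fun p => ?_
    show avg p.2 p.1.toList φ 0 + avg p.2 p.1.toList ψ 0
      = avg p.2 p.1.toList (fun x => φ x + ψ x) 0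
    rw [avg_add]
  · intro φ C hC
    have h1 := (hμ' φ ⟨C, hC⟩).abs
    exact le_of_tendsto h1 (Filter.Eventually.of_forall fun p =>
      avg_bound p.2 p.1.toList φ C hC 0)
  · intro c
    apply hμ
    refine tendsto_const_nhds.congr fun p => ?_
    show c = avg p.2 p.1.toList (fun _ => c) 0
    rw [avg_const]
  · rintro φ a ⟨C, hC⟩
    have h0 : Tendsto (fun p : Finset A × ℕ => 2 * C / ((p.2 : ℝ) + 1)) atTop (𝓝 0) := by
      have h1 : Tendsto (fun n : ℕ => 2 * C / ((n : ℝ) + 1)) atTop (𝓝 0) :=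
        tendsto_const_nhds.div_atTop
          (tendsto_atTop_add_const_right _ _ tendsto_natCast_atTop_atTop)
      have h2 : Tendsto (fun p : Finset A × ℕ => p.2) atTop atTop := by
        rw [← Filter.prod_atTop_atTop_eq]
        exact Filter.tendsto_snd
      exact h1.comp h2
    have h1 : Tendsto (fun p => F (fun x => φ (x + a)) p - F φ p) atTop (𝓝 0) := by
      refine squeeze_zero_norm' ?_ h0
      filter_upwards [Filter.eventually_ge_atTop (({a}, 0) : Finset A × ℕ)] with p hp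
      rw [Real.norm_eq_abs]
      refine avg_inv p.2 p.1.toList a ?_ φ C hC 0
      rw [Finset.mem_toList]
      exact hp.1 (Finset.mem_singleton_self a)
    have h2 : Tendsto (fun p => F (fun x => φ (x + a)) p - F φ p) 𝓤 (𝓝 0) :=
      h1.mono_left (Ultrafilter.of_le atTop)
    have h3 : Tendsto (F (fun x => φ (x + a))) 𝓤 (𝓝 (0 + μ φ)) := by
      refine (h2.add (hμ' φ ⟨C, hC⟩)).congr fun p => ?_
      ring
    rw [hμ _ _ h3, zero_add]

end Pool.Agent.MP8b8716.ME
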