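import Pool.Agent.Lib.MP_8b8716_co.Arcs
import Pool.Agent.Lib.MP_8b8716_co.Gauss
import Pool.Agent.Lib.MP_8b8716_co.KLemma

set_option autoImplicit false

/-!
# Characters of `R0` which are small on `U0` are real characters (module A1)
-/

open Complex

namespace Pool.Agent.MP8b8716.A1

open GI

private theorem ch_add (β x y : ℂ) : ch β (x + y) = ch β x + ch β y := by
  unfold ch
  rw [mul_add, Complex.add_re]
  rfl

private noncomputable def chHom (β : ℂ) : ℂ →+ UnitAddCircle :=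
  AddMonoidHom.mk' (ch β) (ch_add β)

private theorem chHom_apply (β x : ℂ) : chHom β x = ch β x := rfl

private theorem gauss_eq (x : GaussianInt) : (x : ℂ) = (x.re : ℂ) + (x.im : ℂ) * I :=
  GaussianInt.toComplex_def x

private theorem lin (η : ℂ →+ UnitAddCircle) (c : ℂ) (h1 : η (1 / c) = 0) (h2 : η (I / c) = 0)
    (x : GaussianInt) : η ((x : ℂ) / c) = 0 := by
  have h : (x : ℂ) / c = x.re • (1 / c) + x.im • (I / c) := by
    rw [gauss_eq, zsmul_eq_mul, zsmul_eq_mul]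
    ring
  rw [h, map_add, map_zsmul, map_zsmul, h1, h2, smul_zero, smul_zero, add_zero]

/-- partial fractions -/
private theorem partial_frac (η : ℂ →+ UnitAddCircle) (u v : GaussianInt) (hu : (u : ℂ) ≠ 0)
    (hv : (v : ℂ) ≠ 0) (huv : IsCoprime u v) (h1 : ∀ x : GaussianInt, η ((x : ℂ) / (u : ℂ)) = 0)
    (h2 : ∀ x : GaussianInt, η ((x : ℂ) / (v : ℂ)) = 0) (x : GaussianInt) :
    η ((x : ℂ) / ((u : ℂ) * (v : ℂ))) = 0 := by
  obtain ⟨a, b, hab⟩ := huv
  have hab' : (a : ℂ) * (u : ℂ) + (b : ℂ) * (v : ℂ) = 1 := by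
    rw [← GaussianInt.toComplex_mul, ← GaussianInt.toComplex_mul, ← GaussianInt.toComplex_add, hab,
      GaussianInt.toComplex_one]
  have h : (x : ℂ) / ((u : ℂ) * (v : ℂ)) =
      ((a * x : GaussianInt) : ℂ) / (v : ℂ) + ((b * x : GaussianInt) : ℂ) / (u : ℂ) := by
    rw [GaussianInt.toComplex_mul, GaussianInt.toComplex_mul]
    field_simp
    linear_combination (-(x : ℂ)) * hab'
  rw [h, map_add, h1, h2, add_zero]

private theorem pow_coe (x : GaussianInt) (n : ℕ) : ((x ^ n : GaussianInt) : ℂ) = (x : ℂ) ^ n :=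
  map_pow GaussianInt.toComplex x n

private theorem ne_of_norm (x : GaussianInt) (p : ℕ) (hp : p.Prime) (hx : Zsqrtd.norm x = p) :
    (x : ℂ) ≠ 0 := by
  intro h
  have h0 : x = 0 := by
    rw [← GaussianInt.toComplex_eq_zero]
    exact h
  rw [h0, Zsqrtd.norm_zero] at hx
  exact hp.ne_zero (by exact_mod_cast hx.symm)

private theorem prime_step (p q : ℕ) (hp : p.Prime) (hq : q.Prime) (hp4 : p % 4 = 1)
    (hq4 : q % 4 = 1) (hpq : p ≠ q) (M : ℕ) (hM : (p - 1) ^ 2 ≤ M)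
    (η : ℂ →+ UnitAddCircle) (h0 : ∀ x : GaussianInt, η ((x : ℂ) / (q : ℂ) ^ M) = 0)
    (hs : ∀ s ∈ U0, ‖η s‖ ≤ 11 / 30) (n : ℕ) (x : GaussianInt) :
    η ((x : ℂ) / (p : ℂ) ^ n) = 0 := by
  obtain ⟨x₀, hx₀, _, _, hc⟩ := exists_pi p hp hp4
  have hs₀ : Zsqrtd.norm (star x₀) = p := by rw [Zsqrtd.norm_conj, hx₀]
  have k1 := KL.klemma p q hp hq hp4 hq4 hpq x₀ hx₀ M hM η h0 hs n
  have k2 := KL.klemma p q hp hq hp4 hq4 hpq (star x₀) hs₀ M hM η h0 hs n
  have hne1 := ne_of_norm x₀ p hp hx₀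
  have hne2 := ne_of_norm (star x₀) p hp hs₀
  have hprod : (x₀ : ℂ) * ((star x₀ : GaussianInt) : ℂ) = (p : ℂ) := by
    rw [← GaussianInt.toComplex_mul, ← Zsqrtd.norm_eq_mul_conj, hx₀]
    simp
  have h := partial_frac η (x₀ ^ n) (star x₀ ^ n) (by rw [pow_coe]; exact pow_ne_zero n hne1)
    (by rw [pow_coe]; exact pow_ne_zero n hne2) (IsCoprime.pow hc)
    (by rw [pow_coe]; exact k1) (by rw [pow_coe]; exact k2) x
  rw [pow_coe, pow_coe, ← mul_pow, hprod] at h
  exact h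

private theorem all_N1 (η : ℂ →+ UnitAddCircle)
    (h : ∀ p : ℕ, p.Prime → p % 4 = 1 → ∀ (n : ℕ) (x : GaussianInt), η ((x : ℂ) / (p : ℂ) ^ n) = 0)
    (n : ℕ) : N1 n → ∀ x : GaussianInt, η ((x : ℂ) / (n : ℂ)) = 0 := by
  induction n using Nat.recOnPosPrimePosCoprime with
  | prime_pow p n hp hn =>
    intro hN x
    have := h p hp (hN.2 p hp (dvd_pow_self p (by omega))) n x
    push_cast
    exact this
  | zero => intro hN; exact absurd rfl hN.1
  | one =>
    intro _ x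
    have := h 5 (by norm_num) (by norm_num) 0 x
    simpa using this
  | coprime m n hm hn hmn ihm ihn =>
    intro hN x
    have hNm : N1 m := ⟨by omega, fun p hp hd => hN.2 p hp (hd.mul_right n)⟩
    have hNn : N1 n := ⟨by omega, fun p hp hd => hN.2 p hp (hd.mul_left m)⟩
    have hc : IsCoprime (m : GaussianInt) (n : GaussianInt) := by
      have h1 : IsCoprime (m : ℤ) (n : ℤ) := Nat.isCoprime_iff_coprime.2 hmn
      have h2 := h1.map (Int.castRingHom GaussianInt)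
      simpa using h2
    have hm0 : ((m : GaussianInt) : ℂ) = (m : ℂ) := by simp
    have hn0 : ((n : GaussianInt) : ℂ) = (n : ℂ) := by simp
    have := partial_frac η (m : GaussianInt) (n : GaussianInt)
      (by rw [hm0]; exact Nat.cast_ne_zero.2 hNm.1) (by rw [hn0]; exact Nat.cast_ne_zero.2 hNn.1)
      hc (by rw [hm0]; exact ihm hNm) (by rw [hn0]; exact ihn hNn) x
    rw [hm0, hn0] at this
    push_cast
    exact this

theorem small (η : ℂ →+ UnitAddCircle) (hs : ∀ s ∈ U0, ‖η s‖ ≤ 1 / 3)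
    (h1 : ‖η (1 / (13 : ℂ) ^ 16)‖ < 1 / (60 * (13 : ℝ) ^ 16))
    (h2 : ‖η (I / (13 : ℂ) ^ 16)‖ < 1 / (60 * (13 : ℝ) ^ 16)) :
    ∃ β : ℂ, ∀ y ∈ R0, η y = ch β y := by
  obtain ⟨a, ha, ha'⟩ := AR.exists_lift (η (1 / (13 : ℂ) ^ 16))
  obtain ⟨b, hb, hb'⟩ := AR.exists_lift (η (I / (13 : ℂ) ^ 16))
  rw [← ha'] at h1
  rw [← hb'] at h2
  set K : ℝ := (13 : ℝ) ^ 16 with hK
  have hKpos : 0 < K := by positivity
  have hKC : ((K : ℝ) : ℂ) = (13 : ℂ) ^ 16 := by rw [hK]; push_cast; rfl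
  have hK0 : (K : ℂ) ≠ 0 := by exact_mod_cast hKpos.ne'
  let β : ℂ := (K : ℂ) * ((a : ℂ) - (b : ℂ) * I)
  have hβ1 : (β * (1 / (13 : ℂ) ^ 16)).re = a := by
    rw [← hKC]
    have : β * (1 / (K : ℂ)) = (a : ℂ) - (b : ℂ) * I := by
      simp only [β]
      field_simp
    rw [this]
    simp
  have hβ2 : (β * (I / (13 : ℂ) ^ 16)).re = b := by
    rw [← hKC]
    have : β * (I / (K : ℂ)) = (a : ℂ) * I - (b : ℂ) * (I * I) := by
      simp only [β]
      field_simp
    rw [this, I_mul_I]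
    simp
  have hβn : ‖β‖ ≤ 1 / 30 := by
    have e1 : ‖β‖ ≤ K * (|a| + |b|) := by
      simp only [β]
      rw [norm_mul, Complex.norm_real, Real.norm_of_nonneg hKpos.le]
      refine mul_le_mul_of_nonneg_left ?_ hKpos.le
      refine (norm_sub_le _ _).trans ?_
      rw [norm_mul, Complex.norm_I, mul_one, Complex.norm_real, Complex.norm_real,
        Real.norm_eq_abs, Real.norm_eq_abs]
    have e2 : K * (|a| + |b|) ≤ K * (1 / (60 * K) + 1 / (60 * K)) :=
      mul_le_mul_of_nonneg_left (add_le_add h1.le h2.le) hKpos.le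
    have e3 : K * (1 / (60 * K) + 1 / (60 * K)) = 1 / 30 := by
      field_simp
      norm_num
    linarith
  refine ⟨β, ?_⟩
  let η' : ℂ →+ UnitAddCircle := η - chHom β
  have hη' : ∀ y, η' y = η y - ch β y := fun y => rfl
  have g1 : η' (1 / (13 : ℂ) ^ 16) = 0 := by
    rw [hη', ← ha]
    unfold ch
    rw [hβ1, sub_self]
  have g2 : η' (I / (13 : ℂ) ^ 16) = 0 := by
    rw [hη', ← hb]
    unfold ch
    rw [hβ2, sub_self]
  have hs' : ∀ s ∈ U0, ‖η' s‖ ≤ 11 / 30 := by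
    intro s hsU
    have e1 : ‖ch β s‖ ≤ 1 / 30 := by
      unfold ch
      refine (AR.norm_coe_le _).trans ((Complex.abs_re_le_norm _).trans ?_)
      rw [norm_mul, U0_norm hsU, mul_one]
      exact hβn
    have e2 := hs s hsU
    rw [hη']
    have e3 := norm_sub_le (η s) (ch β s)
    linarith
  have h13 : ∀ x : GaussianInt, η' ((x : ℂ) / ((13 : ℕ) : ℂ) ^ 16) = 0 := by
    intro x
    have := lin η' ((13 : ℂ) ^ 16) g1 g2 x
    simpa using this
  have h5 : ∀ (n : ℕ) (x : GaussianInt), η' ((x : ℂ) / ((5 : ℕ) : ℂ) ^ n) = 0 :=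
    prime_step 5 13 (by norm_num) (by norm_num) (by norm_num) (by norm_num) (by norm_num) 16
      (by norm_num) η' h13 hs'
  have hall : ∀ p : ℕ, p.Prime → p % 4 = 1 → ∀ (n : ℕ) (x : GaussianInt),
      η' ((x : ℂ) / (p : ℂ) ^ n) = 0 := by
    intro p hp hp4
    by_cases hp5 : p = 5
    · subst hp5
      exact h5
    · exact prime_step p 5 hp (by norm_num) hp4 (by norm_num) hp5 ((p - 1) ^ 2) le_rfl η'
        (h5 _) hs'
  rintro y ⟨x, n, hn, rfl⟩
  have := all_N1 η' hall n hn x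
  rw [hη', sub_eq_zero] at this
  exact this

end Pool.Agent.MP8b8716.A1
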