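import Pool.Agent.Lib.MP_8b8716_co.Defs
import Pool.Agent.Lib.MP_8b8716_co.Arcs
import Pool.Agent.Lib.MP_8b8716_co.Gauss
import Pool.Agent.Lib.MP_8b8716_co.SmallChar

set_option autoImplicit false

/-!
# Module A2: a character far from zero on the unit vectors is real up to torsion
-/

open Complex

namespace Pool.Agent.MP8b8716.A2

/-- the Gaussian integer `3 + 4 i` -/
def zg : GaussianInt := ⟨3, 4⟩

theorem zg_pow (k : ℕ) (hk : 1 ≤ k) : ∃ u : GaussianInt, zg ^ k = zg + 5 * u := by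
  induction k, hk using Nat.le_induction with
  | base => exact ⟨0, by simp⟩
  | succ k _ ih =>
    obtain ⟨u, hu⟩ := ih
    refine ⟨⟨-2, 4⟩ + u * zg, ?_⟩
    have h2 : zg * zg = zg + 5 * ⟨-2, 4⟩ := by
      apply Zsqrtd.ext <;> simp [zg, Zsqrtd.re_mul, Zsqrtd.im_mul]
    rw [pow_succ, hu, add_mul, h2]
    ring

theorem zg_pow_ne (k : ℕ) (hk : 1 ≤ k) : zg ^ k ≠ 5 ^ k := by
  intro h
  obtain ⟨u, hu⟩ := zg_pow k hk
  rw [h] at hu
  obtain ⟨j, rfl⟩ : ∃ j, k = j + 1 := ⟨k - 1, by omega⟩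
  have h1 : zg = 5 * (5 ^ j - u) := by
    rw [mul_sub, ← pow_succ', hu]; ring
  have h2 := congrArg Zsqrtd.im h1
  have h3 : (5 * (5 ^ j - u) : GaussianInt).im = 5 * (5 ^ j - u : GaussianInt).im := by
    rw [Zsqrtd.im_mul]
    simp
  rw [h3] at h2
  have h4 : zg.im = 4 := rfl
  rw [h4] at h2
  omega

/-- the unit vector `(3 + 4 i) / 5` -/
noncomputable def gg : ℂ := (zg : ℂ) / (5 : ℕ)

theorem gg_U0 : gg ∈ U0 := by
  refine ⟨⟨zg, 5, GI.N1_prime (by norm_num) (by norm_num), rfl⟩, ?_⟩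
  have h1 : gg = ⟨3 / 5, 4 / 5⟩ := by
    apply Complex.ext
    · simp [gg, zg]
    · simp [gg, zg]
  rw [h1]
  norm_num

theorem gg_pow_ne (k : ℕ) (hk : 1 ≤ k) : gg ^ k ≠ 1 := by
  intro h
  apply zg_pow_ne k hk
  have h5 : (((5 : ℕ) : ℂ)) ^ k ≠ 0 := pow_ne_zero k (by norm_num)
  rw [gg, div_pow, div_eq_one_iff_eq h5] at h
  have h2 : ((zg ^ k : GaussianInt) : ℂ) = ((5 ^ k : GaussianInt) : ℂ) := by
    rw [map_pow, map_pow, h, map_ofNat]
    norm_num
  exact GaussianInt.toComplex_inj.mp h2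

theorem rational (θ : ℂ →+ UnitAddCircle) (hs : ∀ s ∈ U0, 1 / 3 ≤ ‖θ s‖) :
    ∃ (β : ℂ) (m : ℕ), 0 < m ∧ ∀ y ∈ R0, m • (θ y - ch β y) = 0 := by
  -- pigeonhole
  obtain ⟨a, φ, hφ, hlim⟩ := CompactSpace.tendsto_subseq (fun k : ℕ =>
    ((θ (gg ^ k * (1 / (13 : ℂ) ^ 16)), θ (gg ^ k * (I / (13 : ℂ) ^ 16))) :
      UnitAddCircle × UnitAddCircle))
  have hc := hlim.cauchySeq
  obtain ⟨N, hN⟩ := Metric.cauchySeq_iff.mp hc (1 / (60 * (13 : ℝ) ^ 16)) (by positivity)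
  have h12 := hN N le_rfl (N + 1) (Nat.le_succ N)
  set k := φ N with hk
  set k' := φ (N + 1) with hk'
  have hkk : k < k' := hφ (Nat.lt_succ_self N)
  rw [Prod.dist_eq, max_lt_iff] at h12
  obtain ⟨d1, d2⟩ := h12
  simp only [Function.comp_apply, dist_eq_norm] at d1 d2
  set σ : ℂ := gg ^ k - gg ^ k' with hσ
  set η : ℂ →+ UnitAddCircle := θ.comp (AddMonoidHom.mulLeft σ) with hη
  have hηy : ∀ y, η y = θ (σ * y) := fun y => rfl
  have hηd : ∀ y, η y = θ (gg ^ k * y) - θ (gg ^ k' * y) := by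
    intro y
    rw [hηy, hσ, sub_mul, map_sub]
  obtain ⟨β', hβ'⟩ := A1.small η (fun s hsU => by
    rw [hηd]
    exact AR.norm_sub_le_third _ _ (hs _ (GI.U0_mul (GI.U0_pow gg_U0 k) hsU))
      (hs _ (GI.U0_mul (GI.U0_pow gg_U0 k') hsU))) (by rw [hηd]; exact d1)
    (by rw [hηd]; exact d2)
  -- the denominator
  set x : GaussianInt := zg ^ k * 5 ^ (k' - k) - zg ^ k' with hx
  have h5 : ((5 : ℂ)) ^ k' ≠ 0 := pow_ne_zero k' (by norm_num)
  have hσx : σ * 5 ^ k' = (x : ℂ) := by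
    rw [hσ, hx, gg]
    have e : ((5 : ℂ)) ^ k' = 5 ^ k * 5 ^ (k' - k) := by rw [← pow_add]; congr 1; omega
    have e0 : (((5 : ℕ) : ℂ)) = 5 := by norm_num
    have h5k : ((5 : ℂ)) ^ k ≠ 0 := pow_ne_zero k (by norm_num)
    simp only [map_sub, map_mul, map_pow, map_ofNat, e0]
    rw [div_pow, div_pow, sub_mul, div_mul_cancel₀ _ h5, e, ← mul_assoc, div_mul_cancel₀ _ h5k]
  have hg0 : gg ≠ 0 := by
    intro h0
    have := GI.U0_norm gg_U0
    rw [h0, norm_zero] at this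
    exact zero_ne_one this
  have hσ0 : σ ≠ 0 := by
    intro h0
    rw [hσ, sub_eq_zero] at h0
    have e : gg ^ k' = gg ^ k * gg ^ (k' - k) := by rw [← pow_add]; congr 1; omega
    rw [e] at h0
    have h6 : gg ^ (k' - k) = 1 := by
      have := pow_ne_zero k hg0
      exact (mul_right_eq_self₀.mp h0.symm).resolve_right this
    exact gg_pow_ne _ (by omega) h6
  have hx0 : x ≠ 0 := by
    intro h0
    rw [h0] at hσx
    have : σ * 5 ^ k' = 0 := by rw [hσx]; simp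
    exact (mul_ne_zero hσ0 h5) this
  have hnorm : 0 < Zsqrtd.norm x := GaussianInt.norm_pos.mpr hx0
  refine ⟨β' / σ, (Zsqrtd.norm x).natAbs, by omega, fun y hy => ?_⟩
  set m := (Zsqrtd.norm x).natAbs with hm
  have hmx : ((m : ℕ) : ℂ) = σ * (5 ^ k' * ((star x : GaussianInt) : ℂ)) := by
    rw [← mul_assoc, hσx]
    have e1 : ((m : ℕ) : ℂ) = ((Zsqrtd.norm x : ℤ) : ℂ) := by
      have : ((m : ℕ) : ℤ) = Zsqrtd.norm x := Int.natAbs_of_nonneg hnorm.le
      rw [← this]; simp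
    have e2 : ((Zsqrtd.norm x : ℤ) : GaussianInt) = x * star x := Zsqrtd.norm_eq_mul_conj x
    have e3 := congrArg GaussianInt.toComplex e2
    rw [map_mul, map_intCast] at e3
    rw [e1]
    exact e3
  set b : ℂ := 5 ^ k' * ((star x : GaussianInt) : ℂ) * y with hb
  have hbR : b ∈ R0 := by
    refine GI.R0_mul (GI.R0_mul ?_ (GI.R0_int _)) hy
    have := GI.R0_natCast (5 ^ k')
    push_cast at this
    exact this
  have hmy : ((m : ℕ) : ℂ) * y = σ * b := by rw [hmx, hb]; ring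
  have e1 : m • θ y = ch β' b := by
    rw [← map_nsmul, nsmul_eq_mul, hmy, ← hβ' b hbR]
    rfl
  have e2 : m • ch (β' / σ) y = ch β' b := by
    unfold ch
    rw [← AddCircle.coe_nsmul]
    congr 1
    have e3 : β' * b = ((m : ℕ) : ℂ) * (β' / σ * y) := by
      have : β' * b = β' / σ * (σ * b) := by field_simp
      rw [this, ← hmy]; ring
    rw [e3, nsmul_eq_mul]
    simp [Complex.mul_re]
  rw [smul_sub, e1, e2, sub_self]

end Pool.Agent.MP8b8716.A2
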