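import Pool.Agent.Lib.MP_8b8716_co.Defs

set_option autoImplicit false

/-!
# Two-colourable planes over real algebraic fields

For every real algebraic field `F`, the unit-distance graph of `F²` has chromatic number two if and
only if `-1` is not a square modulo `4` in the ring of algebraic integers of `F`.
-/

namespace Pool.Agent.MP8b8716.TC

open IsDedekindDomain Polynomial

/-! ## The valuation-theoretic part -/

section Local

variable {K : Type*} [Field K] {Γ : Type*} [LinearOrderedCommGroupWithZero Γ] (v : Valuation K Γ)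

theorem val_natCast_le (n : ℕ) : v (n : K) ≤ 1 := by
  induction n with
  | zero => simp
  | succ n ih =>
    push_cast
    exact (v.map_add _ _).trans (max_le ih (by simp))

theorem val_two_mul_sq_lt (h : ∀ a : K, v 4 < v (a ^ 2 + 1)) (x y : K) (hx : x ≠ 0) :
    v (2 * x) ^ 2 < v (x ^ 2 + y ^ 2) := by
  have h1 : x ^ 2 + y ^ 2 = x ^ 2 * ((y / x) ^ 2 + 1) := by
    field_simp
    ring
  have h2 : v (2 * x) ^ 2 = v (x ^ 2) * v 4 := by
    rw [← map_pow, ← map_mul]
    congr 1
    ring
  rw [h1, h2, map_mul]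
  have hx2 : 0 < v (x ^ 2) := by
    rw [zero_lt_iff, ne_eq, map_eq_zero]
    exact pow_ne_zero 2 hx
  exact (mul_lt_mul_iff_right₀ hx2).2 (h _)

/-- One step: adding a unit vector changes the norm by one, modulo the maximal ideal. -/
theorem val_step (h : ∀ a : K, v 4 < v (a ^ 2 + 1)) (x y x' y' : K) (n : ℕ)
    (hn : v (x ^ 2 + y ^ 2 - n) < 1) (hu : x' ^ 2 + y' ^ 2 = 1) :
    v ((x' + x) ^ 2 + (y' + y) ^ 2 - (n + 1 : ℕ)) < 1 := by
  have h1 : v (n : K) ≤ 1 := val_natCast_le v n
  have h2 : v (x ^ 2 + y ^ 2) ≤ 1 := by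
    have : x ^ 2 + y ^ 2 = (x ^ 2 + y ^ 2 - n) + n := by ring
    rw [this]
    exact (v.map_add _ _).trans (max_le hn.le h1)
  have h3 : v (2 * (x * x' + y * y')) < 1 := by
    by_cases h0 : x * x' + y * y' = 0
    · rw [h0, mul_zero, map_zero]
      exact zero_lt_one
    · have h4 := val_two_mul_sq_lt v h (x * x' + y * y') (x * y' - x' * y) h0
      have h5 : (x * x' + y * y') ^ 2 + (x * y' - x' * y) ^ 2 = x ^ 2 + y ^ 2 := by
        linear_combination (x ^ 2 + y ^ 2) * hu
      rw [h5] at h4
      have h6 : v (2 * (x * x' + y * y')) ^ 2 < 1 := h4.trans_le h2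
      exact lt_of_pow_lt_pow_left₀ 2 zero_le_one (by rwa [one_pow])
  have h7 : (x' + x) ^ 2 + (y' + y) ^ 2 - (n + 1 : ℕ) =
      (x ^ 2 + y ^ 2 - n) + 2 * (x * x' + y * y') := by
    push_cast
    linear_combination hu
  rw [h7]
  exact (v.map_add _ _).trans_lt (max_lt hn h3)

theorem val_even (h : ∀ a : K, v 4 < v (a ^ 2 + 1)) (n : ℕ) (hn : v (n : K) < 1) : Even n := by
  by_contra hodd
  rw [Nat.not_even_iff_odd] at hodd
  obtain ⟨m, rfl⟩ := hodd
  have h4 : v (4 : K) < 1 := by
    have := h 0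
    rwa [zero_pow two_ne_zero, zero_add, map_one] at this
  have h2 : v (2 : K) < 1 := by
    have h42 : v (4 : K) = v 2 ^ 2 := by
      rw [← map_pow]
      congr 1
      norm_num
    rw [h42] at h4
    exact lt_of_pow_lt_pow_left₀ 2 zero_le_one (by rwa [one_pow])
  have h1 : (1 : K) = ((2 * m + 1 : ℕ) : K) - 2 * m := by
    push_cast
    ring
  have h3 : v (1 : K) < 1 := by
    rw [h1]
    refine (v.map_sub _ _).trans_lt (max_lt hn ?_)
    rw [map_mul]
    exact mul_lt_one_of_lt_of_le h2 (val_natCast_le v m)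
  rw [map_one] at h3
  exact lt_irrefl _ h3

end Local

/-! ## The arithmetic part: a good prime above two -/

section Global

variable {K : Type*} [Field K] [NumberField K]

omit [NumberField K] in
/-- Closeness: if `a² + 1` is divisible by `4` at `v`, so is `b² + 1` for every `b` close to `a`. -/
theorem val_close {Γ : Type*} [LinearOrderedCommGroupWithZero Γ] (v : Valuation K Γ)
    (a b : K) (ha : v a ≤ 1) (hb : v b ≤ 1) (h : v (a ^ 2 + 1) ≤ v 4) (hab : v (b - a) ≤ v 4) :
    v (b ^ 2 + 1) ≤ v 4 := by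
  have h1 : b ^ 2 + 1 = (a ^ 2 + 1) + (b - a) * (b + a) := by ring
  rw [h1]
  refine (v.map_add _ _).trans (max_le h ?_)
  rw [map_mul]
  exact (mul_le_of_le_one_right' ((v.map_add _ _).trans (max_le hb ha))).trans hab

theorem exists_good_prime
    (h : ¬ ∃ a b : NumberField.RingOfIntegers K, a ^ 2 + 1 = 4 * b) :
    ∃ v : HeightOneSpectrum (NumberField.RingOfIntegers K),
      ∀ a : K, v.valuation K 4 < v.valuation K (a ^ 2 + 1) := by
  by_contra hcon
  push Not at hcon
  apply h
  have hfour : (4 : NumberField.RingOfIntegers K) ≠ 0 := by norm_num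
  have hfourK : (4 : K) ≠ 0 := by norm_num
  -- local integral approximations
  have key : ∀ v : HeightOneSpectrum (NumberField.RingOfIntegers K),
      ∃ a : NumberField.RingOfIntegers K,
        v.valuation K ((algebraMap _ K a) ^ 2 + 1) ≤ v.valuation K 4 := by
    intro v
    obtain ⟨a, ha⟩ := hcon v
    have hv4 : v.valuation K 4 ≤ 1 := by
      have := val_natCast_le (v.valuation K) 4
      exact_mod_cast this
    have ha1 : v.valuation K a ≤ 1 := by
      by_contra hlt
      rw [not_le] at hlt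
      have h2 : 1 < v.valuation K (a ^ 2) := by
        rw [map_pow]
        exact one_lt_pow₀ hlt two_ne_zero
      have h3 : v.valuation K (a ^ 2 + 1) = v.valuation K (a ^ 2) := by
        apply Valuation.map_add_eq_of_lt_left
        rwa [map_one]
      rw [h3] at ha
      exact absurd (ha.trans hv4) (not_le.2 h2)
    have hv40 : v.valuation K 4 ≠ 0 := by
      rw [ne_eq, map_eq_zero]
      exact hfourK
    obtain ⟨b, hb⟩ := v.exists_valuation_sub_lt_of_integer ha1 (Units.mk0 _ hv40)
    refine ⟨b, val_close _ a _ ha1 ?_ ha hb.le⟩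
    exact v.valuation_le_one b
  choose x hx using key
  -- the primes above two
  have hfin := Ideal.finite_factors
    (I := Ideal.span {(4 : NumberField.RingOfIntegers K)}) (by simp)
  obtain ⟨y, hy⟩ := IsDedekindDomain.exists_forall_sub_mem_ideal (s := hfin.toFinset)
    (fun v : HeightOneSpectrum (NumberField.RingOfIntegers K) => v.asIdeal)
    (fun v => multiplicity v.asIdeal (Ideal.span {(4 : NumberField.RingOfIntegers K)}))
    (fun v _ => v.prime) (fun v _ w _ hvw hvw' => hvw (HeightOneSpectrum.ext hvw'))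
    (fun v => x v)
  have hall : ∀ v : HeightOneSpectrum (NumberField.RingOfIntegers K),
      v.valuation K ((algebraMap _ K y) ^ 2 + 1) ≤ v.valuation K 4 := by
    intro v
    have h44 : v.valuation K 4 = v.intValuation 4 := by
      have h45 : (4 : K) = algebraMap (NumberField.RingOfIntegers K) K 4 :=
        (map_ofNat (algebraMap (NumberField.RingOfIntegers K) K) 4).symm
      rw [h45]
      exact v.valuation_of_algebraMap 4
    by_cases hv : v ∈ hfin.toFinset
    · have h1 := hy v hv
      refine val_close _ (algebraMap _ K (x v)) _ (v.valuation_le_one _) (v.valuation_le_one _)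
        (hx v) ?_
      rw [← map_sub, v.valuation_of_algebraMap, h44,
        v.intValuation_eq_exp_neg_multiplicity hfour, v.intValuation_le_pow_iff_mem]
      exact h1
    · have h1 : v.intValuation 4 = 1 := by
        have h2 : ¬ v.asIdeal ∣ Ideal.span {(4 : NumberField.RingOfIntegers K)} := by
          simpa using hv
        rw [← v.intValuation_lt_one_iff_dvd] at h2
        exact le_antisymm (v.intValuation_le_one 4) (not_lt.1 h2)
      rw [h44, h1]
      have h3 : (algebraMap _ K y) ^ 2 + 1 =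
          algebraMap (NumberField.RingOfIntegers K) K (y ^ 2 + 1) := by simp
      rw [h3]
      exact v.valuation_le_one _
  obtain ⟨b, hb⟩ := HeightOneSpectrum.mem_integers_of_valuation_le_one (R := NumberField.RingOfIntegers K) K
    (((algebraMap _ K y) ^ 2 + 1) / 4) (fun v => by
      rw [map_div₀]
      exact div_le_one_of_le₀ (hall v) zero_le)
  refine ⟨y, b, ?_⟩
  apply FaithfulSMul.algebraMap_injective (NumberField.RingOfIntegers K) K
  rw [eq_div_iff hfourK] at hb
  rw [map_mul, map_add, map_pow, map_one, map_ofNat, ← hb]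
  ring

end Global

/-! ## Closed walks -/

/-- The steps of a walk in the unit-distance graph. -/
theorem exists_steps (F : Subfield ℝ) {p q : F × F} (w : (unitDistanceGraph F).Walk p q) :
    ∃ l : List (ℝ × ℝ), l.length = w.length ∧
      (∀ u ∈ l, u.1 ∈ F ∧ u.2 ∈ F ∧ u.1 ^ 2 + u.2 ^ 2 = 1) ∧
      l.sum = ((p.1 : ℝ) - q.1, (p.2 : ℝ) - q.2) := by
  induction w with
  | nil => exact ⟨[], rfl, by simp, by simp [Prod.zero_eq_mk]⟩
  | @cons p r q h w ih =>
    obtain ⟨l, hl1, hl2, hl3⟩ := ih
    have h' : ((p.1 : ℝ) - r.1) ^ 2 + ((p.2 : ℝ) - r.2) ^ 2 = 1 := by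
      have : (p.1 - r.1) ^ 2 + (p.2 - r.2) ^ 2 = 1 := h
      exact_mod_cast this
    refine ⟨((p.1 : ℝ) - r.1, (p.2 : ℝ) - r.2) :: l, ?_, ?_, ?_⟩
    · rw [List.length_cons, hl1, SimpleGraph.Walk.length_cons]
    · intro u hu
      rcases List.mem_cons.1 hu with rfl | hu
      · exact ⟨F.sub_mem p.1.2 r.1.2, F.sub_mem p.2.2 r.2.2, h'⟩
      · exact hl2 u hu
    · rw [List.sum_cons, hl3]
      ext
      · simp
      · simp

/-- A vanishing sum of unit vectors over a real algebraic field without a square root of `-1`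
modulo `4` has an even number of terms. -/
theorem even_of_sum_eq_zero (F : Subfield ℝ) (hF : ∀ x ∈ F, IsAlgebraic ℚ x)
    (h : ¬ ∃ a ∈ F, ∃ b ∈ F, IsIntegral ℤ a ∧ IsIntegral ℤ b ∧ a ^ 2 + 1 = 4 * b)
    (l : List (ℝ × ℝ)) (hl : ∀ u ∈ l, u.1 ∈ F ∧ u.2 ∈ F ∧ u.1 ^ 2 + u.2 ^ 2 = 1)
    (hsum : l.sum = 0) : Even l.length := by
  classical
  -- the number field generated by the coordinates
  let S : Set ℝ := {x | ∃ u ∈ l, x = u.1 ∨ x = u.2}
  have hSfin : S.Finite := by
    have : S ⊆ ((l.map Prod.fst ++ l.map Prod.snd).toFinset : Set ℝ) := by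
      rintro x ⟨u, hu, rfl | rfl⟩
      · simp only [List.coe_toFinset, List.mem_append, List.mem_map, Set.mem_ofPred_eq]
        exact Or.inl ⟨u, hu, rfl⟩
      · simp only [List.coe_toFinset, List.mem_append, List.mem_map, Set.mem_ofPred_eq]
        exact Or.inr ⟨u, hu, rfl⟩
    exact (Finset.finite_toSet _).subset this
  have hSF : S ⊆ F := by
    rintro x ⟨u, hu, rfl | rfl⟩
    · exact (hl u hu).1
    · exact (hl u hu).2.1
  let K : IntermediateField ℚ ℝ := IntermediateField.adjoin ℚ S
  have hKF : ∀ x ∈ K, x ∈ F := by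
    intro x hx
    have : K ≤ Subfield.toIntermediateField F (fun q => by
        rw [eq_ratCast]
        exact SubfieldClass.ratCast_mem F q) := IntermediateField.adjoin_le_iff.2 hSF
    exact this hx
  have : Finite S := hSfin
  have : FiniteDimensional ℚ K :=
    IntermediateField.finiteDimensional_adjoin fun x hx => (hF x (hSF hx)).isIntegral
  have : NumberField K := { }
  obtain ⟨v, hv⟩ := exists_good_prime (K := K) (by
    rintro ⟨a, b, hab⟩
    apply h
    refine ⟨((a : K) : ℝ), hKF _ (a : K).2, ((b : K) : ℝ), hKF _ (b : K).2, ?_, ?_, ?_⟩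
    · exact (NumberField.RingOfIntegers.isIntegral_coe a).map
        ((algebraMap K ℝ).toIntAlgHom)
    · exact (NumberField.RingOfIntegers.isIntegral_coe b).map
        ((algebraMap K ℝ).toIntAlgHom)
    · have := congrArg (fun t : NumberField.RingOfIntegers K => ((t : K) : ℝ)) hab
      push_cast at this
      exact this)
  have key : ∀ m : List (ℝ × ℝ), (∀ u ∈ m, u ∈ l) → ∃ s t : K, m.sum = ((s : ℝ), (t : ℝ)) ∧
      v.valuation K (s ^ 2 + t ^ 2 - (m.length : ℕ)) < 1 := by
    intro m
    induction m with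
    | nil => exact fun _ => ⟨0, 0, by simp; rfl, by simp⟩
    | cons u m ih =>
      intro hm
      obtain ⟨s, t, h1, h2⟩ := ih fun u' hu' => hm u' (List.mem_cons_of_mem _ hu')
      have hu := hm u List.mem_cons_self
      have hu1 : u.1 ∈ K := IntermediateField.subset_adjoin ℚ S ⟨u, hu, Or.inl rfl⟩
      have hu2 : u.2 ∈ K := IntermediateField.subset_adjoin ℚ S ⟨u, hu, Or.inr rfl⟩
      refine ⟨⟨u.1, hu1⟩ + s, ⟨u.2, hu2⟩ + t, ?_, ?_⟩
      · rw [List.sum_cons, h1]
        ext
        · simp
        · simp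
      · refine val_step (v.valuation K) hv s t ⟨u.1, hu1⟩ ⟨u.2, hu2⟩ m.length h2 ?_
        apply Subtype.ext
        push_cast
        exact (hl u hu).2.2
  obtain ⟨s, t, h1, h2⟩ := key l fun u hu => hu
  rw [hsum] at h1
  have hs : s = 0 := by
    apply Subtype.ext
    exact (congrArg Prod.fst h1).symm
  have ht : t = 0 := by
    apply Subtype.ext
    exact (congrArg Prod.snd h1).symm
  rw [hs, ht] at h2
  refine val_even (v.valuation K) hv l.length ?_
  rw [← Valuation.map_neg]
  convert h2 using 2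
  ring

/-- The easy half of the colouring criterion. -/
theorem colorable_two (F : Subfield ℝ) (hF : ∀ x ∈ F, IsAlgebraic ℚ x)
    (h : ¬ ∃ a ∈ F, ∃ b ∈ F, IsIntegral ℤ a ∧ IsIntegral ℤ b ∧ a ^ 2 + 1 = 4 * b) :
    (unitDistanceGraph F).Colorable 2 := by
  rw [SimpleGraph.two_colorable_iff_forall_loop_even]
  intro p w
  obtain ⟨l, h1, h2, h3⟩ := exists_steps F w
  rw [← h1]
  apply even_of_sum_eq_zero F hF h l h2
  rw [h3]
  ext
  · simp
  · simp

/-! ## Odd closed walks -/

/-- The subring of complex numbers with coordinates in `F`. -/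
def planeRing (F : Subfield ℝ) : Subring ℂ where
  carrier := {z | z.re ∈ F ∧ z.im ∈ F}
  mul_mem' {z w} hz hw := by
    simp only [Set.mem_ofPred_eq, Complex.mul_re, Complex.mul_im] at *
    exact ⟨F.sub_mem (F.mul_mem hz.1 hw.1) (F.mul_mem hz.2 hw.2),
      F.add_mem (F.mul_mem hz.1 hw.2) (F.mul_mem hz.2 hw.1)⟩
  one_mem' := by simp [F.one_mem, F.zero_mem]
  add_mem' {z w} hz hw := by
    simp only [Set.mem_ofPred_eq, Complex.add_re, Complex.add_im] at *
    exact ⟨F.add_mem hz.1 hw.1, F.add_mem hz.2 hw.2⟩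
  zero_mem' := by simp [F.zero_mem]
  neg_mem' {z} hz := by
    simp only [Set.mem_ofPred_eq, Complex.neg_re, Complex.neg_im] at *
    exact ⟨F.neg_mem hz.1, F.neg_mem hz.2⟩

theorem not_colorable_two (F : Subfield ℝ)
    (h : ∃ a ∈ F, ∃ b ∈ F, IsIntegral ℤ a ∧ IsIntegral ℤ b ∧ a ^ 2 + 1 = 4 * b) :
    ¬ (unitDistanceGraph F).Colorable 2 := by
  classical
  rintro ⟨c⟩
  obtain ⟨a, haF, b, hbF, ha, hb, hab⟩ := h
  -- the colouring as a function on the plane ring, with values in `ZMod 2`
  let col : planeRing F → ZMod 2 := fun z => c (⟨z.1.re, z.2.1⟩, ⟨z.1.im, z.2.2⟩)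
  have hstep : ∀ z e : planeRing F, Complex.normSq e = 1 → col (z + e) = col z + 1 := by
    intro z e he
    have h1 : col (z + e) ≠ col z := by
      apply c.valid
      show ((⟨(z + e : planeRing F).1.re, _⟩ : F) - ⟨z.1.re, _⟩) ^ 2 +
        ((⟨(z + e : planeRing F).1.im, _⟩ : F) - ⟨z.1.im, _⟩) ^ 2 = 1
      apply Subtype.ext
      push_cast
      rw [Complex.normSq_apply] at he
      simp only [Complex.add_re, Complex.add_im]
      linear_combination he
    revert h1
    generalize col (z + e) = s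
    generalize col z = t
    revert s t
    decide
  have hzstep : ∀ (d : ℤ) (z e : planeRing F), Complex.normSq e = 1 →
      col (z + d • e) = col z + d := by
    intro d z e he
    induction d using Int.induction_on with
    | zero => simp
    | succ n ih =>
      rw [add_smul, one_smul, ← add_assoc, hstep _ _ he, ih]
      push_cast
      ring
    | pred n ih =>
      have h1 := hstep (z + (-(n : ℤ) - 1) • e) e he
      have h2 : z + (-(n : ℤ) - 1) • e + e = z + (-(n : ℤ)) • e := by
        rw [sub_smul, one_smul]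
        abel
      rw [h2, ih] at h1
      rw [eq_sub_of_add_eq h1.symm]
      push_cast
      ring
  have hpoly : ∀ (d : ℕ → ℤ) (u : planeRing F), Complex.normSq u = 1 → ∀ n : ℕ,
      col (∑ j ∈ Finset.range n, d j • u ^ j) =
        col 0 + ((∑ j ∈ Finset.range n, d j : ℤ) : ZMod 2) := by
    intro d u hu n
    induction n with
    | zero => simp
    | succ n ih =>
      rw [Finset.sum_range_succ, hzstep, ih, Finset.sum_range_succ]
      · push_cast
        ring
      · rw [SubmonoidClass.coe_pow, map_pow, hu, one_pow]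
  -- the integral element
  let θ : ℂ := -(1 + a * Complex.I) / 2
  have hθ : θ ^ 2 + θ + b = 0 := by
    have hab' : (a : ℂ) ^ 2 + 1 = 4 * b := by exact_mod_cast hab
    simp only [θ]
    linear_combination (1 / 4 : ℂ) * (a : ℂ) ^ 2 * Complex.I_sq - (1 / 4 : ℂ) * hab'
  have hθ0 : θ ≠ 0 := by
    intro h0
    have := congrArg Complex.re h0
    simp [θ] at this
  have hθint : IsIntegral ℤ θ := by
    have hbC : IsIntegral ℤ (b : ℂ) := hb.map (Complex.ofRealHom.toIntAlgHom)
    apply isIntegral_trans (A := integralClosure ℤ ℂ)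
    refine ⟨X ^ 2 + (X + C ⟨(b : ℂ), hbC⟩), ?_, ?_⟩
    · monicity!
    · simp only [eval₂_add, eval₂_pow, eval₂_X, eval₂_C]
      rw [← add_assoc]
      exact hθ
  obtain ⟨P, hP1, hP2⟩ := hθint
  let u : ℂ := 1 + θ⁻¹
  have hu1 : Complex.normSq u = 1 := by
    have h1 : u = (1 + θ) / θ := by
      simp only [u]
      field_simp
      ring
    have h2 : (starRingEnd ℂ) θ = -(1 + θ) := by
      simp only [θ, map_div₀, map_neg, map_add, map_one, map_mul, Complex.conj_ofReal,
        Complex.conj_I, map_ofNat]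
      ring
    have h3 : Complex.normSq (1 + θ) = Complex.normSq θ := by
      rw [← Complex.normSq_conj θ, h2, Complex.normSq_neg]
    rw [h1, map_div₀, h3, div_self]
    rwa [ne_eq, Complex.normSq_eq_zero]
  have hθinv : θ⁻¹ = (-(1 - a * Complex.I) / 2) / b := by
    have hb0 : (b : ℂ) ≠ 0 := by
      intro h0
      have h1 : (b : ℝ) = 0 := by exact_mod_cast h0
      rw [h1] at hab
      nlinarith [sq_nonneg a]
    rw [eq_div_iff hb0, inv_mul_eq_iff_eq_mul₀ hθ0]
    have hab' : (a : ℂ) ^ 2 + 1 = 4 * b := by exact_mod_cast hab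
    simp only [θ]
    linear_combination (1 / 4 : ℂ) * (a : ℂ) ^ 2 * Complex.I_sq - (1 / 4 : ℂ) * hab'
  have huF : u ∈ planeRing F := by
    have h1 : u = ((1 - (1 / 2) / b : ℝ) : ℂ) + ((a / 2 / b : ℝ) : ℂ) * Complex.I := by
      simp only [u]
      rw [hθinv]
      push_cast
      ring
    have h2 : (2 : ℝ) ∈ F := by
      rw [← one_add_one_eq_two]
      exact F.add_mem F.one_mem F.one_mem
    rw [h1]
    have hre : ∀ r s : ℝ, ((r : ℂ) + (s : ℂ) * Complex.I).re = r := fun r s => by simp
    have him : ∀ r s : ℝ, ((r : ℂ) + (s : ℂ) * Complex.I).im = s := fun r s => by simp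
    refine ⟨?_, ?_⟩
    · rw [hre]
      exact F.sub_mem F.one_mem (F.div_mem (F.div_mem F.one_mem h2) hbF)
    · rw [him]
      exact F.div_mem (F.div_mem haF h2) hbF
  let Q : ℤ[X] := P.reverse.comp (X - 1)
  have hQ1 : Q.eval 1 = 1 := by
    simp only [Q, eval_comp, eval_sub, eval_X, eval_one, sub_self]
    rw [← coeff_zero_eq_eval_zero, coeff_zero_reverse, hP1]
  have hQu : eval₂ (algebraMap ℤ (planeRing F)) ⟨u, huF⟩ Q = 0 := by
    apply Subtype.ext
    have h1 := Polynomial.hom_eval₂ Q (algebraMap ℤ (planeRing F)) (planeRing F).subtype ⟨u, huF⟩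
    have h2 : (planeRing F).subtype.comp (algebraMap ℤ (planeRing F)) = algebraMap ℤ ℂ :=
      RingHom.ext_int _ _
    rw [h2] at h1
    refine h1.trans ?_
    show eval₂ (algebraMap ℤ ℂ) u (P.reverse.comp (X - 1)) = 0
    rw [eval₂_comp, eval₂_sub, eval₂_X, eval₂_one]
    let _ := invertibleOfNonzero hθ0
    have h3 : u - 1 = ⅟θ := by
      rw [invOf_eq_inv]
      simp [u]
    rw [h3, eval₂_reverse_eq_zero_iff]
    exact hP2
  have h1 := hpoly Q.coeff ⟨u, huF⟩ hu1 (Q.natDegree + 1)
  have h2 : ∑ j ∈ Finset.range (Q.natDegree + 1), Q.coeff j • (⟨u, huF⟩ : planeRing F) ^ j = 0 := by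
    rw [← hQu, eval₂_eq_sum_range]
    simp
  have h3 : ∑ j ∈ Finset.range (Q.natDegree + 1), Q.coeff j = 1 := by
    rw [← hQ1, eval_eq_sum_range]
    simp
  rw [h2, h3] at h1
  have h4 : (0 : ZMod 2) = 1 := by
    have := add_left_cancel (a := col 0) (b := 0) (c := ((1 : ℤ) : ZMod 2)) (by rw [add_zero]; exact h1)
    rw [this, Int.cast_one]
  exact absurd h4 (by decide)

end Pool.Agent.MP8b8716.TC
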