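import Pool.Agent.Lib.MP_8b8716_co.TwoCol

set_option autoImplicit false

/-!
# Two colours from a place at which `-1` is not a square modulo four
-/

namespace Pool.Agent.MP8b8716.UV

/-- The norm of a sum of unit vectors modulo the maximal ideal. -/
theorem walk_val (F : Subfield ℝ) (V : ValuationSubring F)
    (h : ∀ a : F, V.valuation 4 < V.valuation (a ^ 2 + 1)) {p q : F × F}
    (w : (unitDistanceGraph F).Walk p q) :
    V.valuation ((p.1 - q.1) ^ 2 + (p.2 - q.2) ^ 2 - (w.length : ℕ)) < 1 := by
  induction w with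
  | nil => simp
  | @cons p r q hpr w ih =>
    have h1 := TC.val_step V.valuation h (r.1 - q.1) (r.2 - q.2) (p.1 - r.1) (p.2 - r.2)
      w.length ih hpr
    rw [SimpleGraph.Walk.length_cons]
    rwa [sub_add_sub_cancel, sub_add_sub_cancel] at h1

theorem two_of_place (F : Subfield ℝ) (V : ValuationSubring F)
    (h : ∀ x : F, (x ^ 2 + 1) / 4 ∉ V) : (unitDistanceGraph F).Colorable 2 := by
  have h4 : (4 : F) ≠ 0 := by norm_num
  have h4v : 0 < V.valuation 4 := by
    rw [zero_lt_iff, ne_eq, map_eq_zero]
    exact h4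
  have hv : ∀ a : F, V.valuation 4 < V.valuation (a ^ 2 + 1) := by
    intro a
    have h1 := h a
    rw [← V.valuation_le_one_iff, not_le, map_div₀, one_lt_div₀ h4v] at h1
    exact h1
  rw [SimpleGraph.two_colorable_iff_forall_loop_even]
  intro p w
  have h1 := walk_val F V hv w
  refine TC.val_even V.valuation hv w.length ?_
  rw [← Valuation.map_neg]
  convert h1 using 2
  ring

end Pool.Agent.MP8b8716.UV
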